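import Pool.Agent.Q260.AL.Fld

/-!
# Finite adeles of `k(t)`: strong approximation and `GL₂(A_f) = GL₂(K) GL₂(Ô)`
-/

set_option autoImplicit false
set_option linter.unusedSectionVars false
set_option linter.style.haveILetI false

namespace Pool.Agent.Q260.AL

open IsDedekindDomain Polynomial WithZero
open Matrix (GeneralLinearGroup)
open Matrix.GeneralLinearGroup (map)
open scoped WithZero MatrixGroups

noncomputable section

variable {k : Type} [Field k]

/-- evaluation at a finite place -/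
def ev (v : HeightOneSpectrum k[X]) : Afin k →+* Kfin k v where
  toFun x := x v
  map_one' := rfl
  map_mul' _ _ := rfl
  map_zero' := rfl
  map_add' _ _ := rfl

theorem ev_apply (v : HeightOneSpectrum k[X]) (x : Afin k) : ev v x = x v := rfl

theorem ev_ext {x y : Afin k} (h : ∀ v, ev v x = ev v y) : x = y :=
  FiniteAdeleRing.ext (RatFunc k) h

theorem ev_algebraMap (v : HeightOneSpectrum k[X]) (x : RatFunc k) :
    ev v (algebraMap (RatFunc k) (Afin k) x) = algebraMap (RatFunc k) (Kfin k v) x := rfl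

/-- adele with integral components -/
def mkInt (f : ∀ v : HeightOneSpectrum k[X], Kfin k v) (hf : ∀ v, Valued.v (f v) ≤ 1) : Afin k :=
  ⟨f, Filter.Eventually.of_forall fun v => (HeightOneSpectrum.mem_adicCompletionIntegers ..).2 (hf v)⟩

theorem ev_mkInt (f : ∀ v : HeightOneSpectrum k[X], Kfin k v) (hf : ∀ v, Valued.v (f v) ≤ 1)
    (v : HeightOneSpectrum k[X]) : ev v (mkInt f hf) = f v := rfl

theorem finite_nonint (x : Afin k) : {v | ¬ Valued.v (ev v x) ≤ 1}.Finite := by
  have h := x.2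
  rw [Filter.eventually_cofinite] at h
  refine h.subset fun v hv hv' => hv ?_
  exact (HeightOneSpectrum.mem_adicCompletionIntegers ..).1 hv'

/-- a generator of the maximal ideal -/
theorem exists_gen (v : HeightOneSpectrum k[X]) : ∃ p : k[X], p ≠ 0 ∧
    v.valuation (RatFunc k) (algebraMap k[X] (RatFunc k) p) = exp (-1 : ℤ) ∧
    ∀ w ≠ v, w.valuation (RatFunc k) (algebraMap k[X] (RatFunc k) p) = 1 := by
  obtain ⟨p, hp⟩ := (IsPrincipalIdealRing.principal v.asIdeal)
  rw [Ideal.submodule_span_eq] at hp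
  have hp0 : p ≠ 0 := by
    rintro rfl
    apply v.ne_bot
    rw [hp]
    simp
  refine ⟨p, hp0, ?_, fun w hw => ?_⟩
  · rw [HeightOneSpectrum.valuation_of_algebraMap]
    exact HeightOneSpectrum.intValuation_singleton _ hp0 hp
  · rw [HeightOneSpectrum.valuation_eq_one_iff_notMem]
    intro hmem
    apply hw
    have h1 : v.asIdeal ≤ w.asIdeal := by
      rw [hp, Ideal.span_singleton_le_iff_mem]
      exact hmem
    have h2 := v.isMaximal.eq_of_le w.isPrime.ne_top h1
    exact (HeightOneSpectrum.ext h2).symm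

theorem sa_local (v : HeightOneSpectrum k[X]) (x : Kfin k v) : ∃ y : RatFunc k,
    Valued.v (x - algebraMap _ _ y) ≤ 1 ∧ ∀ w ≠ v, w.valuation (RatFunc k) y ≤ 1 := by
  obtain ⟨p, hp0, hpv, hpw⟩ := exists_gen v
  set P := algebraMap k[X] (RatFunc k) p with hP
  have hP0 : P ≠ 0 := by
    rw [hP]
    simpa using hp0
  obtain ⟨n, hn⟩ : ∃ n : ℕ, Valued.v x ≤ exp (n : ℤ) := by
    rcases eq_or_ne (Valued.v x) 0 with h | h
    · exact ⟨0, by rw [h]; exact zero_le⟩
    · refine ⟨(log (Valued.v x)).toNat, ?_⟩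
      conv_lhs => rw [← exp_log h]
      rw [exp_le_exp]
      exact Int.self_le_toNat _
  have hPv : Valued.v (algebraMap (RatFunc k) (Kfin k v) (P ^ n)) = exp (-(n : ℤ)) := by
    rw [vfin, map_pow, hpv, ← WithZero.exp_nsmul]
    simp
  have hz : Valued.v (x * algebraMap (RatFunc k) (Kfin k v) (P ^ n)) ≤ 1 := by
    rw [map_mul, hPv]
    calc Valued.v x * exp (-(n : ℤ)) ≤ exp (n : ℤ) * exp (-(n : ℤ)) := by gcongr
      _ = 1 := by rw [← exp_add]; simp
  obtain ⟨q, hq⟩ := exists_poly_fin v _ hz (γ := exp (-(n : ℤ))) (by simp)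
  refine ⟨algebraMap k[X] (RatFunc k) q / P ^ n, ?_, fun w hw => ?_⟩
  · have hne : algebraMap (RatFunc k) (Kfin k v) (P ^ n) ≠ 0 := by
      rw [_root_.map_ne_zero]
      exact pow_ne_zero _ hP0
    have e : x - algebraMap (RatFunc k) (Kfin k v) (algebraMap k[X] (RatFunc k) q / P ^ n) =
        (x * algebraMap (RatFunc k) (Kfin k v) (P ^ n) -
          algebraMap (RatFunc k) (Kfin k v) (algebraMap k[X] (RatFunc k) q)) /
          algebraMap (RatFunc k) (Kfin k v) (P ^ n) := by
      rw [map_div₀]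
      field_simp
    rw [e, map_div₀, hPv]
    exact div_le_one_of_le₀ hq.le zero_le
  · rw [map_div₀, map_pow, hpw w hw, one_pow, div_one]
    exact w.valuation_le_one q

/-- **Strong approximation**: `A_f = K + Ô`. -/
theorem sa (x : Afin k) : ∃ y : RatFunc k, ∀ v,
    Valued.v (ev v x - algebraMap _ (Kfin k v) y) ≤ 1 := by
  classical
  choose f hf hf' using fun v : HeightOneSpectrum k[X] => sa_local v (ev v x)
  set S := (finite_nonint x).toFinset with hS
  have hmem : ∀ v, v ∈ S ↔ ¬ Valued.v (ev v x) ≤ 1 := by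
    intro v
    rw [hS, Set.Finite.mem_toFinset]
    rfl
  refine ⟨∑ v ∈ S, f v, fun v => ?_⟩
  have hother : ∀ T : Finset (HeightOneSpectrum k[X]), v ∉ T →
      Valued.v (algebraMap (RatFunc k) (Kfin k v) (∑ w ∈ T, f w)) ≤ 1 := by
    intro T hT
    rw [map_sum]
    refine Valuation.map_sum_le _ fun w hw => ?_
    rw [vfin]
    refine hf' w v ?_
    rintro rfl
    exact hT hw
  by_cases hv : v ∈ S
  · rw [← Finset.add_sum_erase _ _ hv, map_add, ← sub_sub]
    exact (Valuation.map_sub _ _ _).trans (max_le (hf v) (hother _ (Finset.notMem_erase v S)))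
  · refine (Valuation.map_sub _ _ _).trans (max_le ?_ (hother _ hv))
    rw [hmem, not_not] at hv
    exact hv

/-- ideles: `A_f^× = K^× Ô^×` -/
theorem idele (x : Afin k) (hx : IsUnit x) : ∃ y : (RatFunc k)ˣ, ∀ v,
    Valued.v (ev v x) = v.valuation (RatFunc k) y := by
  classical
  obtain ⟨h1, h2⟩ := FiniteAdeleRing.isUnit_iff.1 hx
  rw [Filter.eventually_cofinite] at h2
  choose p hp0 hpv hpw using fun v : HeightOneSpectrum k[X] => exists_gen v
  have hP0 : ∀ v, algebraMap k[X] (RatFunc k) (p v) ≠ 0 := fun v => by simpa using hp0 v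
  let P : HeightOneSpectrum k[X] → (RatFunc k)ˣ := fun v => Units.mk0 _ (hP0 v)
  set S := h2.toFinset with hS
  have hmem : ∀ v, v ∈ S ↔ ¬ Valued.v (ev v x) = 1 := by
    intro v
    rw [hS, Set.Finite.mem_toFinset]
    rfl
  refine ⟨∏ v ∈ S, P v ^ (-log (Valued.v (ev v x))), fun v => ?_⟩
  have hother : ∀ T : Finset (HeightOneSpectrum k[X]), v ∉ T →
      v.valuation (RatFunc k) ((∏ w ∈ T, P w ^ (-log (Valued.v (ev w x))) : (RatFunc k)ˣ) : RatFunc k)
        = 1 := by
    intro T hT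
    rw [Units.coe_prod, map_prod]
    refine Finset.prod_eq_one fun w hw => ?_
    rw [Units.val_zpow_eq_zpow_val, map_zpow₀, Units.val_mk0, hpw w v, one_zpow]
    rintro rfl
    exact hT hw
  by_cases hv : v ∈ S
  · rw [← Finset.mul_prod_erase _ _ hv, Units.val_mul, map_mul, hother _ (Finset.notMem_erase v S),
      mul_one, Units.val_zpow_eq_zpow_val, map_zpow₀, Units.val_mk0, hpv, ← WithZero.exp_zsmul]
    have hne : Valued.v (ev v x) ≠ 0 := (Valuation.ne_zero_iff _).2 (h1 v)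
    conv_lhs => rw [← exp_log hne]
    simp
  · rw [hother _ hv]
    rw [hmem, not_not] at hv
    exact hv

/-- an element of `K` which is integral at all finite places is a polynomial -/
theorem poly_of_int (x : RatFunc k) (h : ∀ v : HeightOneSpectrum k[X],
    v.valuation (RatFunc k) x ≤ 1) : ∃ p : k[X], algebraMap k[X] (RatFunc k) p = x :=
  HeightOneSpectrum.mem_integers_of_valuation_le_one (RatFunc k) x h

/-! ### `GL₂` -/

/-- the component at `v` -/
abbrev lv (v : HeightOneSpectrum k[X]) : GL (Fin 2) (Afin k) →* GL (Fin 2) (Kfin k v) := map (ev v)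

theorem lv_val (v : HeightOneSpectrum k[X]) (g : GL (Fin 2) (Afin k)) (i j : Fin 2) :
    (lv v g).1 i j = ev v (g.1 i j) := rfl

theorem gl_ext' {R : Type*} [CommRing R] {g h : GL (Fin 2) R} (H : ∀ i j, g.1 i j = h.1 i j) :
    g = h := gl_ext (H _ _) (H _ _) (H _ _) (H _ _)

theorem lv_ext {g h : GL (Fin 2) (Afin k)} (H : ∀ v, lv v g = lv v h) : g = h := by
  refine gl_ext' fun i j => ev_ext fun v => ?_
  rw [← lv_val, H, lv_val]

/-- `GL₂(Ô)` -/
def Kf (k : Type) [Field k] : Subgroup (GL (Fin 2) (Afin k)) where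
  carrier := {g | ∀ v : HeightOneSpectrum k[X], map (ev v) g ∈ Kc (Valued.v : Valuation (Kfin k v) ℤᵐ⁰)}
  mul_mem' {g h} hg hh v := by
    rw [map_mul]
    exact mul_mem (hg v) (hh v)
  one_mem' v := by
    rw [map_one]
    exact one_mem _
  inv_mem' {g} hg v := by
    rw [map_inv]
    exact inv_mem (hg v)

theorem mem_Kf {g : GL (Fin 2) (Afin k)} : g ∈ Kf k ↔
    ∀ v : HeightOneSpectrum k[X], lv v g ∈ Kc (Valued.v : Valuation (Kfin k v) ℤᵐ⁰) := Iff.rfl

theorem mkK (f : ∀ v : HeightOneSpectrum k[X], GL (Fin 2) (Kfin k v))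
    (hf : ∀ v, f v ∈ Kc (Valued.v : Valuation (Kfin k v) ℤᵐ⁰)) :
    ∃ κ ∈ Kf k, ∀ v, lv v κ = f v := by
  let M : Matrix (Fin 2) (Fin 2) (Afin k) := fun i j =>
    mkInt (fun v => (f v).1 i j) (fun v => (hf v i j).1)
  let N : Matrix (Fin 2) (Fin 2) (Afin k) := fun i j =>
    mkInt (fun v => (f v)⁻¹.1 i j) (fun v => (hf v i j).2)
  have h1 : M * N = 1 := by
    refine Matrix.ext fun i j => ev_ext fun v => ?_
    have h0 : (f v * (f v)⁻¹).1 i j = (1 : Matrix (Fin 2) (Fin 2) (Kfin k v)) i j := by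
      rw [mul_inv_cancel]; rfl
    rw [mul_val] at h0
    rw [Matrix.mul_apply, Fin.sum_univ_two, map_add, map_mul, map_mul]
    simp only [M, N, ev_mkInt]
    rw [h0]
    fin_cases i <;> fin_cases j <;> simp
  have h2 : N * M = 1 := by
    refine Matrix.ext fun i j => ev_ext fun v => ?_
    have h0 : ((f v)⁻¹ * f v).1 i j = (1 : Matrix (Fin 2) (Fin 2) (Kfin k v)) i j := by
      rw [inv_mul_cancel]; rfl
    rw [mul_val] at h0
    rw [Matrix.mul_apply, Fin.sum_univ_two, map_add, map_mul, map_mul]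
    simp only [M, N, ev_mkInt]
    rw [h0]
    fin_cases i <;> fin_cases j <;> simp
  have h3 : ∀ v, lv v (⟨M, N, h1, h2⟩ : GL (Fin 2) (Afin k)) = f v :=
    fun v => gl_ext' fun i j => rfl
  exact ⟨⟨M, N, h1, h2⟩, fun v => by rw [h3 v]; exact hf v, h3⟩

/-- the global matrices in `GL₂(A_f)` -/
abbrev glf : GL (Fin 2) (RatFunc k) →* GL (Fin 2) (Afin k) := map (algebraMap (RatFunc k) (Afin k))

theorem lv_glf (v : HeightOneSpectrum k[X]) (g : GL (Fin 2) (RatFunc k)) :
    lv v (glf g) = map (algebraMap (RatFunc k) (Kfin k v)) g := gl_ext' fun _ _ => rfl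

/-- `GL₂(A_f) = GL₂(K) GL₂(Ô)` -/
theorem strong (g : GL (Fin 2) (Afin k)) : ∃ γ : GL (Fin 2) (RatFunc k), ∃ κ ∈ Kf k,
    g = glf γ * κ := by
  classical
  -- make the lower left entry zero
  have key : ∀ v, ∃ h ∈ Kc (Valued.v : Valuation (Kfin k v) ℤᵐ⁰), (lv v g * h).1 1 0 = 0 := by
    intro v
    set c := (lv v g).1 1 0 with hc
    set d := (lv v g).1 1 1 with hd
    have hdt := dt_ne_zero (lv v g)
    unfold dt at hdt
    rcases le_or_gt (Valued.v c) (Valued.v d) with h | h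
    · have hd0 : d ≠ 0 := by
        intro h0
        rw [h0, map_zero] at h
        have hc0 : c = 0 := by simpa using h
        rw [← hc, ← hd, hc0, h0] at hdt
        simp at hdt
      refine ⟨nL (-(c / d)), nL_mem_Kc ?_, ?_⟩
      · rw [Valuation.map_neg, map_div₀]
        exact div_le_one_of_le₀ h zero_le
      · rw [mul_val, ← hc, ← hd, nL_val]
        simp
        field_simp
        ring
    · have hc0 : c ≠ 0 := by
        intro h0
        rw [h0] at h
        simp at h
      refine ⟨nU (-(d / c)) * ws _, mul_mem (Iw_le _ (nU_mem_Iw ?_)) ws_mem_Kc, ?_⟩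
      · rw [Valuation.map_neg, map_div₀]
        exact div_le_one_of_le₀ h.le zero_le
      · rw [mul_val, ← hc, ← hd, mul_val, mul_val, nU_val, ws_val]
        simp
        field_simp
        ring
  choose f hf hf0 using key
  obtain ⟨κ₁, hκ₁, hκf⟩ := mkK f hf
  set b := g * κ₁ with hb
  have hb10 : b.1 1 0 = 0 := by
    refine ev_ext fun v => ?_
    rw [← lv_val, hb, map_mul, hκf, hf0, map_zero]
  have hbb : (b * b⁻¹).1 1 1 = 1 := by rw [mul_inv_cancel]; rfl
  have hbb' : (b⁻¹ * b).1 0 0 = 1 := by rw [inv_mul_cancel]; rfl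
  rw [mul_val, hb10, zero_mul, zero_add] at hbb
  rw [mul_val, hb10, mul_zero, add_zero] at hbb'
  have hu11 : IsUnit (b.1 1 1) := IsUnit.of_mul_eq_one _ hbb
  have hu00 : IsUnit (b.1 0 0) := IsUnit.of_mul_eq_one _ (by rw [mul_comm]; exact hbb')
  obtain ⟨x, hx⟩ := idele _ hu00
  obtain ⟨y, hy⟩ := idele _ hu11
  set b' := glf (dg x⁻¹ y⁻¹) * b with hb'
  have e00 : b'.1 0 0 = algebraMap (RatFunc k) (Afin k) ((x⁻¹ : (RatFunc k)ˣ) : RatFunc k) * b.1 0 0 := by
    rw [hb', mul_val]
    simp [dg_val]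
  have e01 : b'.1 0 1 = algebraMap (RatFunc k) (Afin k) ((x⁻¹ : (RatFunc k)ˣ) : RatFunc k) * b.1 0 1 := by
    rw [hb', mul_val]
    simp [dg_val]
  have e10 : b'.1 1 0 = 0 := by
    rw [hb', mul_val, hb10]
    simp [dg_val]
  have e11 : b'.1 1 1 = algebraMap (RatFunc k) (Afin k) ((y⁻¹ : (RatFunc k)ˣ) : RatFunc k) * b.1 1 1 := by
    rw [hb', mul_val]
    simp [dg_val]
  have v00 : ∀ v, Valued.v (ev v (b'.1 0 0)) = 1 := by
    intro v
    rw [e00, map_mul, map_mul, hx v, ev_algebraMap, vfin, ← map_mul, ← Units.val_mul,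
      inv_mul_cancel, Units.val_one, map_one]
  have v11 : ∀ v, Valued.v (ev v (b'.1 1 1)) = 1 := by
    intro v
    rw [e11, map_mul, map_mul, hy v, ev_algebraMap, vfin, ← map_mul, ← Units.val_mul,
      inv_mul_cancel, Units.val_one, map_one]
  obtain ⟨u, hu⟩ : IsUnit (b'.1 1 1) := by
    rw [e11]
    refine IsUnit.mul ?_ hu11
    exact (y⁻¹).isUnit.map (algebraMap (RatFunc k) (Afin k))
  obtain ⟨r, hr⟩ := sa (b'.1 0 1 * ((u⁻¹ : (Afin k)ˣ) : Afin k))
  set b'' := glf (nU (-r)) * b' with hb''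
  have f00 : b''.1 0 0 = b'.1 0 0 := by
    rw [hb'', mul_val, e10]
    simp [nU_val]
  have f01 : b''.1 0 1 = (b'.1 0 1 * ((u⁻¹ : (Afin k)ˣ) : Afin k) -
      algebraMap (RatFunc k) (Afin k) r) * b'.1 1 1 := by
    rw [hb'', mul_val, ← hu]
    simp [nU_val, sub_mul, mul_assoc]
    ring
  have f10 : b''.1 1 0 = 0 := by
    rw [hb'', mul_val, e10]
    simp [nU_val]
  have f11 : b''.1 1 1 = b'.1 1 1 := by
    rw [hb'', mul_val]
    simp [nU_val]
  have hb''K : b'' ∈ Kf k := by
    intro v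
    refine mem_Kc ?_ ?_
    · intro i j
      fin_cases i <;> fin_cases j
      · change Valued.v (ev v (b''.1 0 0)) ≤ 1
        rw [f00, v00]
      · change Valued.v (ev v (b''.1 0 1)) ≤ 1
        rw [f01, map_mul, map_mul, v11, mul_one, map_sub]
        exact hr v
      · change Valued.v (ev v (b''.1 1 0)) ≤ 1
        rw [f10]
        simp
      · change Valued.v (ev v (b''.1 1 1)) ≤ 1
        rw [f11, v11]
    · change Valued.v (ev v (b''.1 0 0) * ev v (b''.1 1 1) - ev v (b''.1 0 1) * ev v (b''.1 1 0)) = 1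
      rw [f10, map_zero, mul_zero, sub_zero, f00, f11, map_mul, v00, v11, one_mul]
  refine ⟨dg x y * nU r, b'' * κ₁⁻¹, mul_mem hb''K (inv_mem hκ₁), ?_⟩
  have h1 : glf (dg x y * nU r) * b'' = b := by
    rw [hb'', hb', map_mul, ← mul_assoc, ← mul_assoc, mul_assoc (glf (dg x y)), ← map_mul glf (nU r),
      nU_mul, add_neg_cancel, nU_zero, map_one, mul_one, ← map_mul, dg_mul, mul_inv_cancel,
      mul_inv_cancel, dg_one, map_one, one_mul]
  rw [← mul_assoc, h1, hb]
  group

end

end Pool.Agent.Q260.AL
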