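import Pool.Agent.Q260.AL.Defs

/-!
# Translates of Steinberg vectors are automorphic forms
-/

set_option autoImplicit false
set_option linter.unusedSectionVars false

namespace Pool.Agent.Q260.AL

open IsDedekindDomain Polynomial WithZero
open Matrix (GeneralLinearGroup)
open scoped WithZero MatrixGroups

noncomputable section

section abs

variable {G V : Type*} [Group G] [AddCommGroup V] [Module ℂ V] (ρ : Representation ℂ G V)

theorem fd_fixed {U : Subgroup G} (hU : FO ρ U) {S W : Submodule ℂ V} [FiniteDimensional ℂ S]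
    (h : W ≤ S ⊔ aug ρ U) : FiniteDimensional ℂ ↥(W ⊓ fixed ρ U) := by
  let q := (aug ρ U).mkQ
  have hmem : ∀ x : ↥(W ⊓ fixed ρ U), q x ∈ S.map q := by
    rintro ⟨x, hx, hx'⟩
    obtain ⟨s, hs, a, ha, e⟩ := Submodule.mem_sup.1 (h hx)
    refine ⟨s, hs, ?_⟩
    change q s = q x
    rw [← e]
    simp only [q]
    rw [map_add]
    have : (aug ρ U).mkQ a = 0 := by
      rw [Submodule.mkQ_apply, Submodule.Quotient.mk_eq_zero]
      exact ha
    rw [this, add_zero]
  let T : ↥(W ⊓ fixed ρ U) →ₗ[ℂ] S.map q :=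
    (q.comp (W ⊓ fixed ρ U).subtype).codRestrict _ hmem
  have hT : Function.Injective T := by
    rw [← LinearMap.ker_eq_bot, LinearMap.ker_eq_bot']
    rintro ⟨x, hx, hx'⟩ h0
    have h1 : q x = 0 := congrArg Subtype.val h0
    have h2 : x ∈ aug ρ U := by
      simp only [q] at h1
      rwa [Submodule.mkQ_apply, Submodule.Quotient.mk_eq_zero] at h1
    have h3 := eq_zero_of_mem_aug' ρ hU hx' h2
    exact Subtype.ext h3
  exact FiniteDimensional.of_injective T hT

end abs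

variable {k : Type} [Field k] [Fintype k]

section st

variable {V : Type*} [AddCommGroup V] [Module ℂ V] {ρ : Representation ℂ (GA k) V} {v c0 : V}

theorem rF_aug {U : Subgroup (GL (Fin 2) (Kinf k))} (y : GL (Fin 2) (Afin k)) {u : V}
    (hu : u ∈ aug (rI ρ) U) : rF ρ y u ∈ aug (rI ρ) U :=
  map_aug (ρ := rI ρ) (ρ' := rI ρ) (rF ρ y) (fun g x => (rIF ρ g y x).symm) hu

theorem rI_augF {U : Subgroup (GL (Fin 2) (Afin k))} (y : GL (Fin 2) (Kinf k)) {u : V}
    (hu : u ∈ aug (rF ρ) U) : rI ρ y u ∈ aug (rF ρ) U :=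
  map_aug (ρ := rF ρ) (ρ' := rF ρ) (rI ρ y) (fun g x => rIF ρ y g x) hu

theorem st_adm (h : StVec Linf (rI ρ) v c0) (m : ℕ) {w : V} (hw : w ∈ cyc ρ v) :
    ∃ S : Submodule ℂ V, FiniteDimensional ℂ S ∧
      cyc (rI ρ) w ≤ S ⊔ aug (rI ρ) (Um (vI k) m) := by
  unfold cyc at hw
  induction hw using Submodule.span_induction with
  | mem x hx =>
    obtain ⟨g, rfl⟩ := hx
    obtain ⟨S, hS, hS'⟩ := h.finite m
    refine ⟨S.map (rF ρ g.2), inferInstance, ?_⟩
    unfold cyc
    rw [Submodule.span_le]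
    rintro x ⟨y, rfl⟩
    simp only
    rw [rIF', rIF, ← rmul']
    obtain ⟨s, hs, a, ha, e⟩ := Submodule.mem_sup.1 (hS' (y * g.1))
    rw [← e, map_add]
    refine Submodule.add_mem _ (Submodule.mem_sup_left ⟨s, hs, rfl⟩) (Submodule.mem_sup_right ?_)
    exact rF_aug _ ha
  | zero =>
    refine ⟨⊥, inferInstance, ?_⟩
    unfold cyc
    rw [Submodule.span_le]
    rintro x ⟨y, rfl⟩
    simp
  | add x y _ _ hx hy =>
    obtain ⟨S, hS, hS'⟩ := hx
    obtain ⟨S₂, hS₂, hS₂'⟩ := hy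
    refine ⟨S ⊔ S₂, inferInstance, ?_⟩
    have h1 : cyc (rI ρ) (x + y) ≤ cyc (rI ρ) x ⊔ cyc (rI ρ) y := by
      unfold cyc
      rw [Submodule.span_le]
      rintro z ⟨g, rfl⟩
      simp only [map_add]
      exact Submodule.add_mem _ (Submodule.mem_sup_left (mem_cyc _ _ _))
        (Submodule.mem_sup_right (mem_cyc _ _ _))
    refine h1.trans (sup_le (hS'.trans ?_) (hS₂'.trans ?_))
    · exact sup_le_sup_right le_sup_left _
    · exact sup_le_sup_right le_sup_right _
  | smul a x _ hx =>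
    obtain ⟨S, hS, hS'⟩ := hx
    refine ⟨S, hS, le_trans ?_ hS'⟩
    unfold cyc
    rw [Submodule.span_le]
    rintro z ⟨g, rfl⟩
    simp only [map_smul]
    exact Submodule.smul_mem _ _ (mem_cyc _ _ _)

theorem st_fd (hsm : ∀ w, SmV ρ w) (h : StVec Linf (rI ρ) v c0) (m : ℕ) {w : V}
    (hw : w ∈ cyc ρ v) :
    FiniteDimensional ℂ ↥(cyc (rI ρ) w ⊓ fixed (rI ρ) (Um (vI k) m)) := by
  obtain ⟨S, hS, hS'⟩ := st_adm h m hw
  exact fd_fixed (rI ρ) ((FO_I hsm).mono _ (Um_le _ _)) hS'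

end st

/-- the span of the translates of a smooth vector is smooth -/
theorem sm_sub {V : Type*} [AddCommGroup V] [Module ℂ V] {ρ : Representation ℂ (GA k) V} {v : V}
    (hv : SmV ρ v) (w : cyc ρ v) : SmV (subR ρ (cyc ρ v) (cyc_st ρ v)) w := by
  obtain ⟨n, r, hr, h⟩ := hv.span w.2
  exact ⟨n, r, hr, fun u hu => Subtype.ext (h u hu)⟩

theorem sm_quo {V : Type*} [AddCommGroup V] [Module ℂ V] {ρ : Representation ℂ (GA k) V}
    (hv : ∀ w, SmV ρ w) (N : Submodule ℂ V) (hN : St' ρ N) (w : V ⧸ N) : SmV (quoR ρ N hN) w := by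
  obtain ⟨w, rfl⟩ := N.mkQ_surjective w
  obtain ⟨n, r, hr, h⟩ := hv w
  exact ⟨n, r, hr, fun u hu => by rw [quoR_apply, h u hu]⟩

/-- Steinberg vectors in subrepresentations -/
theorem st_sub {V : Type*} [AddCommGroup V] [Module ℂ V] {ρ : Representation ℂ (GA k) V}
    {v c0 : V} (h : StVec Linf (rI ρ) v c0) (hc : c0 ∈ cyc ρ v) :
    StVec Linf (rI (subR ρ (cyc ρ v) (cyc_st ρ v))) ⟨v, self_mem_cyc ρ v⟩ ⟨c0, hc⟩ where
  iw g hg := Subtype.ext (h.iw g hg)
  om := Subtype.ext h.om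
  sum := by
    refine Subtype.ext ?_
    rw [Submodule.coe_add, Submodule.coe_sum]
    exact h.sum
  const g := Subtype.ext (h.const g)

theorem st_mem {V : Type*} [AddCommGroup V] [Module ℂ V] {ρ : Representation ℂ (GA k) V}
    {v c0 : V} (h : StVec Linf (rI ρ) v c0) : c0 ∈ cyc ρ v := by
  rw [← h.sum]
  refine Submodule.add_mem _ (self_mem_cyc ρ v) (Submodule.sum_mem _ fun x _ => ?_)
  exact cyc_st ρ v _ _ (cyc_st ρ v _ _ (self_mem_cyc ρ v))

/-- Steinberg vectors in quotients -/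
theorem st_quo {V : Type*} [AddCommGroup V] [Module ℂ V] {ρ : Representation ℂ (GA k) V}
    {v c0 : V} (h : StVec Linf (rI ρ) v c0) (N : Submodule ℂ V) (hN : St' ρ N) (hc : c0 ∈ N) :
    StVec Linf (rI (quoR ρ N hN)) (N.mkQ v) 0 where
  iw g hg := by
    have := h.iw g hg
    rw [rI_apply] at this ⊢
    rw [quoR_apply, this]
  om := by
    have := h.om
    rw [rI_apply] at this ⊢
    rw [quoR_apply, this, map_neg]
  sum := by
    have h1 := congrArg N.mkQ h.sum
    rw [map_add, map_sum] at h1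
    have h2 : N.mkQ c0 = 0 := by
      rw [Submodule.mkQ_apply, Submodule.Quotient.mk_eq_zero]
      exact hc
    rw [h2] at h1
    exact h1
  const g := map_zero _

/-- **Translates of Steinberg vectors are automorphic forms.** -/
theorem aut_of_st {F c0 : GA k → ℂ} (hl : ∀ (γ : GL (Fin 2) (RatFunc k)) (g : GA k),
    F (dgl γ * g) = F g) (hs : SmV (RT k) F) (h : StVec Linf (rI (RT k)) F c0) :
    ∀ w ∈ cyc (RT k) F, IsAutForm w := by
  intro w hw
  refine ⟨?_, hs.span hw, fun m => ?_⟩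
  · unfold cyc at hw
    induction hw using Submodule.span_induction with
    | mem x hx =>
      obtain ⟨g, rfl⟩ := hx
      intro γ g'
      change F (dgl γ * g' * g) = F (g' * g)
      rw [mul_assoc, hl]
    | zero => intro γ g; rfl
    | add x y _ _ hx hy =>
      intro γ g
      rw [Pi.add_apply, Pi.add_apply, hx, hy]
    | smul a x _ hx =>
      intro γ g
      rw [Pi.smul_apply, Pi.smul_apply, hx]
  · have h1 := st_fd (sm_sub hs) (st_sub h (st_mem h)) m
      (w := ⟨w, hw⟩) (by rw [cyc_sub]; trivial)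
    set ρ' := subR (RT k) (cyc (RT k) F) (cyc_st (RT k) F) with hρ'
    have h2 : (cyc (rI (RT k)) w ⊓ fixed (rI (RT k)) (Um (vI k) m)) ≤
        (cyc (rI ρ') ⟨w, hw⟩ ⊓ fixed (rI ρ') (Um (vI k) m)).map (cyc (RT k) F).subtype := by
      rintro x ⟨hx, hx'⟩
      have h3 : cyc (rI (RT k)) w ≤ (cyc (rI ρ') ⟨w, hw⟩).map (cyc (RT k) F).subtype := by
        unfold cyc
        rw [Submodule.span_le]
        rintro z ⟨g, rfl⟩
        exact ⟨rI ρ' g ⟨w, hw⟩, Submodule.subset_span ⟨g, rfl⟩, rfl⟩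
      obtain ⟨y, hy, rfl⟩ := h3 hx
      exact ⟨y, ⟨hy, fun g hg => Subtype.ext (hx' g hg)⟩, rfl⟩
    exact Submodule.finiteDimensional_of_le h2

end

end Pool.Agent.Q260.AL
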