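import Pool.Agent.Q260.AL.As

/-!
# The cusp form
-/

set_option autoImplicit false
set_option linter.unusedSectionVars false

namespace Pool.Agent.Q260.AL

open IsDedekindDomain Polynomial WithZero
open Matrix (GeneralLinearGroup)
open scoped WithZero MatrixGroups

noncomputable section

variable {k : Type} [Field k]

/-- the sign character of `GL₂(K_∞)` -/
def sgn (x : GL (Fin 2) (Kinf k)) : ℂ := (-1 : ℂ) ^ log (vI k (dt x))

theorem sgn_mul (x y : GL (Fin 2) (Kinf k)) : sgn (x * y) = sgn x * sgn y := by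
  unfold sgn
  have hx : vI k (dt x) ≠ 0 := (Valuation.ne_zero_iff _).2 (dt_ne_zero x)
  have hy : vI k (dt y) ≠ 0 := (Valuation.ne_zero_iff _).2 (dt_ne_zero y)
  rw [dt_mul, map_mul, log_mul hx hy, zpow_add₀ (by norm_num)]

theorem sgn_K {x : GL (Fin 2) (Kinf k)} (h : x ∈ Kc (vI k)) : sgn x = 1 := by
  unfold sgn
  rw [dt_K h]
  simp

theorem sgn_z (n : ℤ) : sgn (dg (Linf.π ^ n) (Linf.π ^ n) : GL (Fin 2) (Kinf k)) = 1 := by
  unfold sgn
  rw [dt_dg, map_mul, vI_π_zpow, ← exp_add, log_exp, ← two_mul, zpow_mul]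
  rw [show ((-1 : ℂ) ^ (2 : ℤ)) = 1 by norm_num, one_zpow]

theorem sgn_om : sgn (Linf.om : GL (Fin 2) (Kinf k)) = -1 := by
  unfold sgn
  have h1 : vI k ((Linf.π : (Kinf k)ˣ) : Kinf k) = exp (-1 : ℤ) := Linf.hπ
  rw [LD.om, dt_mul, dt_ws, dt_dg, Units.val_one, mul_one, neg_one_mul, Valuation.map_neg, h1,
    log_exp]
  norm_num

/-- the group `S` -/
def Sg (k : Type) [Field k] : Subgroup (GA k) where
  carrier := {g | g.1 ∈ (Linf (k := k)).OI ∧ g.2 ∈ Kf k ∧ lv v0 g.2 ∈ Jg (L0 (k := k)).v}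
  mul_mem' {g h} hg hh := ⟨mul_mem hg.1 hh.1, mul_mem hg.2.1 hh.2.1, by
    rw [Prod.snd_mul, map_mul]; exact mul_mem hg.2.2 hh.2.2⟩
  one_mem' := ⟨one_mem _, one_mem _, by rw [Prod.snd_one, map_one]; exact one_mem _⟩
  inv_mem' {g} hg := ⟨inv_mem hg.1, inv_mem hg.2.1, by
    rw [Prod.snd_inv, map_inv]; exact inv_mem hg.2.2⟩

/-- the character of `S` -/
def Psi (ψ : AddChar k ℂ) (g : GA k) : ℂ := sgn g.1 * ψ ((L0 (k := k)).kap (lv v0 g.2))

theorem Psi_mul (ψ : AddChar k ℂ) {g h : GA k} (hg : g ∈ Sg k) (hh : h ∈ Sg k) :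
    Psi ψ (g * h) = Psi ψ g * Psi ψ h := by
  unfold Psi
  rw [Prod.fst_mul, Prod.snd_mul, map_mul (lv v0), sgn_mul, (L0 (k := k)).kap_mul hg.2.2 hh.2.2,
    AddChar.map_add_eq_mul]
  ring

theorem poly_const {p : k[X]} (h : vI k (algebraMap (RatFunc k) (Kinf k) (algebraMap k[X] (RatFunc k) p)) ≤ 1) :
    p = Polynomial.C (p.coeff 0) := by
  rcases eq_or_ne p 0 with rfl | h0
  · simp
  · rw [show vI k (algebraMap (RatFunc k) (Kinf k) (algebraMap k[X] (RatFunc k) p)) =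
      exp (p.natDegree : ℤ) from vinf_poly h0, ← exp_zero, exp_le_exp] at h
    exact Polynomial.eq_C_of_natDegree_le_zero (by omega)

theorem const_zero {p : k[X]}
    (h : vI k (algebraMap (RatFunc k) (Kinf k) (algebraMap k[X] (RatFunc k) p)) ≤ 1)
    (h0 : Valued.v (algebraMap (RatFunc k) (Kfin k v0) (algebraMap k[X] (RatFunc k) p)) < 1) :
    p = 0 := by
  have hp := poly_const h
  by_contra hne
  have hc : p.coeff 0 ≠ 0 := by
    intro h1
    rw [h1, map_zero] at hp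
    exact hne hp
  have h1 := (L0 (k := k)).vC hc
  rw [L0_C, ← RatFunc.algebraMap_C, ← hp] at h1
  rw [show Valued.v (algebraMap (RatFunc k) (Kfin k v0) (algebraMap k[X] (RatFunc k) p)) = 1 from h1] at h0
  exact lt_irrefl _ h0

theorem Sg_K {γ : GL (Fin 2) (RatFunc k)} (h : dgl γ ∈ Sg k) : γ = 1 := by
  obtain ⟨h1, h2, h3⟩ := h
  rw [dgl_snd] at h2 h3
  rw [dgl_fst] at h1
  have hd : vI k (dt (gli γ)) = 1 := le_antisymm (dt_le h2) (dt_ge h2)
  have hIw : gli γ ∈ Iw (vI k) := by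
    obtain ⟨n, i, hi, hx | hx⟩ := h1
    · rw [hx] at hd
      have hi' : vI k (dt i) = 1 := dt_K hi.1
      rw [dt_mul, dt_dg, map_mul, map_mul, vI_π_zpow, hi', mul_one, ← exp_add, ← exp_zero,
        exp_inj] at hd
      have hn : n = 0 := by omega
      rw [hx, hn, zpow_zero, dg_one, one_mul]
      exact hi
    · exfalso
      rw [hx] at hd
      have hi' : vI k (dt i) = 1 := dt_K hi.1
      have h1 : vI k ((Linf.π : (Kinf k)ˣ) : Kinf k) = exp (-1 : ℤ) := Linf.hπ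
      rw [dt_mul, dt_dg, dt_mul, LD.om, dt_mul, dt_ws, dt_dg, Units.val_one, mul_one, neg_one_mul,
        neg_mul, map_mul, map_mul, vI_π_zpow, Valuation.map_neg, map_mul, hi', mul_one, h1, ← exp_add,
        ← exp_add, ← exp_zero, exp_inj] at hd
      omega
  have hK : ∀ i j, vI k ((gli γ).1 i j) ≤ 1 := fun i j => (hIw.1 i j).1
  obtain ⟨p00, h00⟩ := poly_entries h2 0 0
  obtain ⟨p01, h01⟩ := poly_entries h2 0 1
  obtain ⟨p11, h11⟩ := poly_entries h2 1 1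
  have e10 : γ.1 1 0 = 0 := by
    by_contra hne
    have h4 := one_le_of_ne h2 1 0 hne
    exact absurd hIw.2.1 (not_lt.2 h4)
  have e01 : p01 = 0 := by
    apply const_zero
    · rw [h01]
      exact hK 0 1
    · rw [h01]
      exact h3.2.2.2
  have e00 : p00 - 1 = 0 := by
    apply const_zero
    · rw [map_sub, map_sub, h00, map_one, map_one]
      exact (Valuation.map_sub _ _ _).trans (max_le (hK 0 0) (by simp))
    · rw [map_sub, map_sub, h00, map_one, map_one]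
      exact h3.2.1
  have e11 : p11 - 1 = 0 := by
    apply const_zero
    · rw [map_sub, map_sub, h11, map_one, map_one]
      exact (Valuation.map_sub _ _ _).trans (max_le (hK 1 1) (by simp))
    · rw [map_sub, map_sub, h11, map_one, map_one]
      exact h3.2.2.1
  apply gl_ext
  · rw [← h00, sub_eq_zero.1 e00]; simp
  · rw [← h01, e01]; simp
  · rw [e10]; simp
  · rw [← h11, sub_eq_zero.1 e11]; simp

open Classical in
/-- **The cusp form.** -/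
def fA (ψ : AddChar k ℂ) (g : GA k) : ℂ :=
  if h : ∃ γ, (dgl γ)⁻¹ * g ∈ Sg k then Psi ψ ((dgl h.choose)⁻¹ * g) else 0

variable (ψ : AddChar k ℂ)

theorem fA_eq {g : GA k} {γ : GL (Fin 2) (RatFunc k)} (h : (dgl γ)⁻¹ * g ∈ Sg k) :
    fA ψ g = Psi ψ ((dgl γ)⁻¹ * g) := by
  have h' : ∃ γ, (dgl γ)⁻¹ * g ∈ Sg k := ⟨γ, h⟩
  unfold fA
  rw [dif_pos h']
  have h1 := h'.choose_spec
  have h2 : γ⁻¹ * h'.choose = 1 := by
    apply Sg_K
    have h3 := mul_mem h (inv_mem h1)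
    rw [map_mul, map_inv]
    have e : (dgl γ)⁻¹ * g * ((dgl h'.choose)⁻¹ * g)⁻¹ = (dgl γ)⁻¹ * dgl h'.choose := by group
    rwa [e] at h3
  rw [← inv_mul_eq_one.1 h2]

theorem fA_ne {g : GA k} (h : fA ψ g ≠ 0) : ∃ γ, (dgl γ)⁻¹ * g ∈ Sg k := by
  by_contra h'
  apply h
  unfold fA
  rw [dif_neg h']

theorem fA_left (γ : GL (Fin 2) (RatFunc k)) (g : GA k) : fA ψ (dgl γ * g) = fA ψ g := by
  by_cases h : ∃ γ', (dgl γ')⁻¹ * g ∈ Sg k
  · obtain ⟨γ', h⟩ := h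
    have e : (dgl (γ * γ'))⁻¹ * (dgl γ * g) = (dgl γ')⁻¹ * g := by
      rw [map_mul]; group
    rw [fA_eq ψ (γ := γ * γ') (by rw [e]; exact h), e, fA_eq ψ h]
  · have h1 : fA ψ g = 0 := by unfold fA; rw [dif_neg h]
    rw [h1]
    by_contra h2
    obtain ⟨γ', h'⟩ := fA_ne ψ h2
    apply h
    refine ⟨γ⁻¹ * γ', ?_⟩
    have e : (dgl (γ⁻¹ * γ'))⁻¹ * g = (dgl γ')⁻¹ * (dgl γ * g) := by
      rw [map_mul, map_inv]; group
    rw [e]
    exact h'

theorem fA_right (g : GA k) {s : GA k} (hs : s ∈ Sg k) : fA ψ (g * s) = Psi ψ s * fA ψ g := by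
  by_cases h : ∃ γ', (dgl γ')⁻¹ * g ∈ Sg k
  · obtain ⟨γ', h⟩ := h
    have e : (dgl γ')⁻¹ * (g * s) = (dgl γ')⁻¹ * g * s := by rw [mul_assoc]
    rw [fA_eq ψ (γ := γ') (by rw [e]; exact mul_mem h hs), e, Psi_mul ψ h hs, fA_eq ψ h, mul_comm]
  · have h1 : fA ψ g = 0 := by unfold fA; rw [dif_neg h]
    rw [h1, mul_zero]
    by_contra h2
    obtain ⟨γ', h'⟩ := fA_ne ψ h2
    apply h
    refine ⟨γ', ?_⟩
    have e : (dgl γ')⁻¹ * g = (dgl γ')⁻¹ * (g * s) * s⁻¹ := by group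
    rw [e]
    exact mul_mem h' (inv_mem hs)

theorem Psi_one : Psi ψ 1 = 1 := by
  unfold Psi
  rw [Prod.fst_one, Prod.snd_one, map_one, LD.kap_one, AddChar.map_zero_eq_one, mul_one]
  exact sgn_K (one_mem _)

theorem fA_one : fA ψ 1 = 1 := by
  rw [fA_eq ψ (γ := 1) (by rw [map_one, inv_one, one_mul]; exact one_mem _), map_one, inv_one,
    one_mul, Psi_one]

theorem Psi_I (x : GL (Fin 2) (Kinf k)) : Psi ψ (x, 1) = sgn x := by
  unfold Psi
  simp only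
  rw [map_one, LD.kap_one, AddChar.map_zero_eq_one, mul_one]

theorem Psi_F (y : GL (Fin 2) (Afin k)) : Psi ψ (1, y) = ψ ((L0 (k := k)).kap (lv v0 y)) := by
  unfold Psi
  simp only
  rw [sgn_K (one_mem _), one_mul]

theorem mem_Sg_I {x : GL (Fin 2) (Kinf k)} (hx : x ∈ (Linf (k := k)).OI) : ((x, 1) : GA k) ∈ Sg k :=
  ⟨hx, one_mem _, by simp only; rw [map_one]; exact one_mem _⟩

theorem mem_Sg_F {y : GL (Fin 2) (Afin k)} (hy : y ∈ Kf k) (hy' : lv v0 y ∈ Jg (L0 (k := k)).v) :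
    ((1, y) : GA k) ∈ Sg k := ⟨one_mem _, hy, hy'⟩

theorem Iw_OI {i : GL (Fin 2) (Kinf k)} (hi : i ∈ Iw (Linf (k := k)).v) : i ∈ (Linf (k := k)).OI :=
  ⟨0, i, hi, Or.inl (by rw [zpow_zero, dg_one, one_mul])⟩

theorem z_OI (n : ℤ) : dg (Linf.π ^ n) (Linf.π ^ n) ∈ (Linf (k := k)).OI :=
  ⟨n, 1, one_mem _, Or.inl (by rw [mul_one])⟩

theorem om_OI : Linf.om ∈ (Linf (k := k)).OI :=
  ⟨0, 1, one_mem _, Or.inr (by rw [zpow_zero, dg_one, one_mul, mul_one])⟩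

variable [Fintype k]

/-- the sum over `GL₂(O_∞) / Iw` -/
def hA (g : GA k) : ℂ := ∑ o : Option k, fA ψ (g * (Linf.rep o, 1))

theorem hA_K (g : GA k) {κ : GL (Fin 2) (Kinf k)} (hκ : κ ∈ Kc (Linf (k := k)).v) :
    hA ψ (g * (κ, 1)) = hA ψ g := by
  have h1 := (Linf (k := k)).sum_inv (fun x => fA ψ (g * (x, 1))) (fun x i hi => by
    rw [← pmI, ← mul_assoc, fA_right ψ _ (mem_Sg_I (Iw_OI hi)), Psi_I]
    have hi' : i ∈ Kc (vI k) := hi.1
    rw [sgn_K hi', one_mul]) hκ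
  unfold hA
  rw [← h1]
  refine Finset.sum_congr rfl fun o _ => ?_
  rw [mul_assoc, pmI]

theorem hA_F (g : GA k) {y : GL (Fin 2) (Afin k)} (hy : y ∈ Kf k)
    (hy' : lv v0 y ∈ Jg (L0 (k := k)).v) : hA ψ (g * (1, y)) = Psi ψ (1, y) * hA ψ g := by
  unfold hA
  rw [Finset.mul_sum]
  refine Finset.sum_congr rfl fun o _ => ?_
  rw [← fA_right ψ _ (mem_Sg_F hy hy'), mul_assoc, mul_assoc, pmFI, pmIF]

theorem hA_z (g : GA k) (n : ℤ) : hA ψ (g * (dg (Linf.π ^ n) (Linf.π ^ n), 1)) = hA ψ g := by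
  unfold hA
  refine Finset.sum_congr rfl fun o _ => ?_
  rw [mul_assoc, pmI, dg_central, ← pmI, ← mul_assoc, fA_right ψ _ (mem_Sg_I (z_OI n)), Psi_I,
    sgn_z, one_mul]

theorem hA_left (γ : GL (Fin 2) (RatFunc k)) (g : GA k) : hA ψ (dgl γ * g) = hA ψ g := by
  unfold hA
  refine Finset.sum_congr rfl fun o _ => ?_
  rw [mul_assoc, fA_left]

theorem nL_glf_mem (p : k[X]) : glf (nL (algebraMap k[X] (RatFunc k) p)) ∈ Kf k := by
  intro v
  rw [show GeneralLinearGroup.map (ev v) (glf (nL (algebraMap k[X] (RatFunc k) p))) =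
    GeneralLinearGroup.map (algebraMap (RatFunc k) (Kfin k v)) _ from lv_glf v _, map_nL]
  exact nL_mem_Kc (vfin_poly_le v p)

theorem nL_J {x : Kfin k v0} (hx : (L0 (k := k)).v x ≤ 1) : nL x ∈ Jg (L0 (k := k)).v :=
  ⟨nL_mem_Kc hx, by simp [nL_val], by simp [nL_val], by simp [nL_val]⟩

theorem nU_J {x : Kfin k v0} (hx : (L0 (k := k)).v x < 1) : nU x ∈ Jg (L0 (k := k)).v :=
  ⟨Iw_le _ (nU_mem_Iw hx.le), by simp [nU_val], by simp [nU_val], by simpa [nU_val] using hx⟩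

theorem kap_nL (x : Kfin k v0) : (L0 (k := k)).kap (nL x) = (L0 (k := k)).rd x := by
  unfold LD.kap
  rw [nL_val]
  simp [LD.rd_lt]

theorem kap_nU (x : Kfin k v0) : (L0 (k := k)).kap (nU x) =
    (L0 (k := k)).rd ((((L0 (k := k)).π⁻¹ : (Kfin k v0)ˣ) : Kfin k v0) * x) := by
  unfold LD.kap
  rw [nU_val]
  simp [LD.rd_lt]

theorem hA_one (hψ : ψ 1 ≠ 1) : hA ψ 1 = 0 := by
  have h1 := hA_left ψ (nL (algebraMap k[X] (RatFunc k) 1)) 1
  have e1 : dgl (nL (algebraMap k[X] (RatFunc k) 1)) * 1 =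
      (1 * (nL 1, 1)) * (1, glf (nL (algebraMap k[X] (RatFunc k) 1))) := by
    rw [mul_one, one_mul, pmIF]
    refine Prod.ext ?_ rfl
    rw [dgl_fst, map_nL, map_one, map_one]
  have e2 : lv v0 (glf (nL (algebraMap k[X] (RatFunc k) 1))) = nL 1 := by
    rw [lv_glf, map_nL, map_one, map_one]
  rw [e1, hA_F ψ _ (nL_glf_mem 1) (by rw [e2]; exact nL_J (by simp)), Psi_F, e2, kap_nL] at h1
  have h2 : (nL 1 : GL (Fin 2) (Kinf k)) ∈ Kc (Linf (k := k)).v := nL_mem_Kc (by simp)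
  rw [hA_K ψ 1 h2] at h1
  have h3 : (L0 (k := k)).rd 1 = 1 := by
    have := (L0 (k := k)).rd_C 1
    rwa [map_one] at this
  rw [h3] at h1
  have h4 : (ψ 1 - 1) * hA ψ 1 = 0 := by linear_combination h1
  rcases mul_eq_zero.1 h4 with h | h
  · exact absurd (sub_eq_zero.1 h) hψ
  · exact h

theorem nU_om (z : Kinf k) : nU z * (Linf (k := k)).om =
    (Linf (k := k)).om * nL (z * ((Linf (k := k)).π : Kinf k)) := by
  rw [LD.om]
  apply gl_ext <;> simp [mul_val, nU_val, nL_val, ws_val, dg_val]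

theorem hA_om (hψ : ψ 1 ≠ 1) : hA ψ (Linf.om, 1) = 0 := by
  have h1 := hA_left ψ (nU (algebraMap k[X] (RatFunc k) X)) (Linf.om, 1)
  have hX : (RatFunc.X : RatFunc k) ≠ 0 := RatFunc.X_ne_zero
  have e1 : dgl (nU (algebraMap k[X] (RatFunc k) X)) * (Linf.om, 1) =
      ((Linf.om, 1) * (nL 1, 1)) * (1, glf (nU (algebraMap k[X] (RatFunc k) X))) := by
    refine Prod.ext ?_ ?_
    · change gli (nU (algebraMap k[X] (RatFunc k) X)) * Linf.om = Linf.om * nL 1 * 1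
      rw [map_nU, nU_om, mul_one]
      congr 2
      rw [Linf_π, ← map_mul, RatFunc.algebraMap_X, mul_inv_cancel₀ hX, map_one]
    · change glf (nU (algebraMap k[X] (RatFunc k) X)) * 1 = 1 * 1 * glf (nU (algebraMap k[X] (RatFunc k) X))
      group
  have e2 : lv v0 (glf (nU (algebraMap k[X] (RatFunc k) X))) = nU ((L0 (k := k)).π : Kfin k v0) := by
    rw [lv_glf, map_nU, L0_π, RatFunc.algebraMap_X]
  have hπ : (L0 (k := k)).v ((L0 (k := k)).π : Kfin k v0) < 1 := by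
    rw [(L0 (k := k)).hπ, ← exp_zero, exp_lt_exp]
    norm_num
  rw [e1, hA_F ψ _ (nU_mem_Kf X) (by rw [e2]; exact nU_J hπ), Psi_F, e2, kap_nU] at h1
  have h2 : (nL 1 : GL (Fin 2) (Kinf k)) ∈ Kc (Linf (k := k)).v := nL_mem_Kc (by simp)
  rw [hA_K ψ _ h2] at h1
  have h3 : (L0 (k := k)).rd ((((L0 (k := k)).π⁻¹ : (Kfin k v0)ˣ) : Kfin k v0) *
      ((L0 (k := k)).π : Kfin k v0)) = 1 := by
    rw [← Units.val_mul, inv_mul_cancel, Units.val_one]
    have := (L0 (k := k)).rd_C 1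
    rwa [map_one] at this
  rw [h3] at h1
  have h4 : (ψ 1 - 1) * hA ψ (Linf.om, 1) = 0 := by linear_combination h1
  rcases mul_eq_zero.1 h4 with h | h
  · exact absurd (sub_eq_zero.1 h) hψ
  · exact h

theorem hA_zero (hψ : ψ 1 ≠ 1) (g : GA k) : hA ψ g = 0 := by
  by_contra h
  obtain ⟨o, -, ho⟩ := Finset.exists_ne_zero_of_sum_ne_zero h
  obtain ⟨γ, hγ⟩ := fA_ne ψ ho
  set s := (dgl γ)⁻¹ * (g * (Linf.rep o, 1)) with hs
  have hg : g = dgl γ * (s * ((Linf.rep o)⁻¹, 1)) := by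
    have e : ((Linf.rep o, 1) : GA k) * ((Linf.rep o)⁻¹, 1) = 1 := by
      rw [pmI, mul_inv_cancel]; rfl
    rw [hs, mul_assoc, mul_assoc, e, mul_one, mul_inv_cancel_left]
  have hrep : (Linf.rep o)⁻¹ ∈ Kc (Linf (k := k)).v := inv_mem (LD.rep_mem Linf o)
  apply h
  rw [hg, hA_left, hA_K ψ _ hrep]
  obtain ⟨h1, h2, h3⟩ := hγ
  have e : s = (s.1, 1) * (1, s.2) := by rw [pmIF]
  rw [e, hA_F ψ _ h2 h3]
  obtain ⟨n, i, hi, hx | hx⟩ := h1
  · rw [hx, ← pmI, hA_K ψ _ (Iw_le _ hi)]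
    have e2 := hA_z ψ 1 n
    rw [one_mul] at e2
    rw [e2, hA_one ψ hψ, mul_zero]
  · rw [hx, ← mul_assoc, ← pmI, hA_K ψ _ (Iw_le _ hi), dg_central, ← pmI, hA_z, hA_om ψ hψ, mul_zero]

theorem fA_st (hψ : ψ 1 ≠ 1) : StVec Linf (rI (RT k)) (fA ψ) 0 where
  iw i hi := by
    funext g
    change fA ψ (g * (i, 1)) = fA ψ g
    have hi' : i ∈ Kc (vI k) := hi.1
    rw [fA_right ψ _ (mem_Sg_I (Iw_OI hi)), Psi_I, sgn_K hi', one_mul]
  om := by
    funext g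
    change fA ψ (g * (Linf.om, 1)) = - fA ψ g
    rw [fA_right ψ _ (mem_Sg_I om_OI), Psi_I, sgn_om, neg_one_mul]
  sum := by
    funext g
    have h2 := hA_zero ψ hψ g
    unfold hA at h2
    rw [Fintype.sum_option] at h2
    have e3 : ((Linf.rep none, 1) : GA k) = 1 := rfl
    rw [e3, mul_one] at h2
    rw [Pi.add_apply, Finset.sum_apply]
    rw [Pi.zero_apply, ← h2]
    congr 1
    refine Finset.sum_congr rfl fun x _ => ?_
    change fA ψ (g * (nU (Linf.C x), 1) * (ws _, 1)) = _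
    rw [mul_assoc g, pmI]
    rfl
  const g := map_zero _

theorem fA_sm : SmV (RT k) (fA ψ) := by
  refine ⟨1, X ^ 2, pow_ne_zero _ X_ne_zero, fun u hu => ?_⟩
  funext g
  rw [RT_apply]
  obtain ⟨h1, h2⟩ := mem_cong.1 hu
  have hIw : u.1 ∈ Iw (Linf (k := k)).v := by
    have h3 : u.1 ∈ Kc (Linf (k := k)).v := h1.1
    refine mem_Iw h3 ?_
    have h4 := h1.2 1 0
    have e : (1 : Matrix (Fin 2) (Fin 2) (Kinf k)) 1 0 = 0 := by simp
    rw [e, sub_zero] at h4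
    have h5 : vI k (u.1.1 1 0) < 1 := lt_one_iff_exp.2 (by simpa using h4)
    exact h5
  have hv0 : vp v0 (X ^ 2 : k[X]) = exp (-2 : ℤ) := by
    rw [vp, map_pow, map_pow, RatFunc.algebraMap_X, v0_X, ← WithZero.exp_nsmul]
    norm_num
  have hu0 := h2 v0
  have hlt : exp (-2 : ℤ) < (1 : ℤᵐ⁰) := by
    rw [← exp_zero, exp_lt_exp]; norm_num
  have hent : ∀ i j, (L0 (k := k)).v ((lv v0 u.2).1 i j - (1 : Matrix (Fin 2) (Fin 2) (Kfin k v0)) i j)
      ≤ exp (-2 : ℤ) := by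
    intro i j
    rw [← hv0]
    exact hu0.2 i j
  have hJ : lv v0 u.2 ∈ Jg (L0 (k := k)).v := by
    refine ⟨hu0.1, ?_, ?_, ?_⟩
    · simpa using (hent 0 0).trans_lt hlt
    · simpa using (hent 1 1).trans_lt hlt
    · simpa using (hent 0 1).trans_lt hlt
  have hk : (L0 (k := k)).kap (lv v0 u.2) = 0 := by
    unfold LD.kap
    have h01 : (L0 (k := k)).v ((lv v0 u.2).1 0 1) ≤ exp (-2 : ℤ) := by simpa using hent 0 1
    have h10 : (L0 (k := k)).v ((lv v0 u.2).1 1 0) ≤ exp (-2 : ℤ) := by simpa using hent 1 0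
    rw [LD.rd_lt, LD.rd_lt, add_zero]
    · exact h10.trans_lt hlt
    · rw [map_mul, Units.val_inv_eq_inv_val, map_inv₀, (L0 (k := k)).hπ]
      calc (exp (-1 : ℤ))⁻¹ * (L0 (k := k)).v ((lv v0 u.2).1 0 1)
          ≤ (exp (-1 : ℤ))⁻¹ * exp (-2 : ℤ) := by gcongr
        _ = exp (-1 : ℤ) := by rw [← WithZero.exp_neg, ← exp_add]; norm_num
        _ < 1 := by rw [← exp_zero, exp_lt_exp]; norm_num
  have hS : u ∈ Sg k := ⟨Iw_OI hIw, Uf_le _ h2, hJ⟩
  rw [fA_right ψ _ hS]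
  unfold Psi
  have hI' : u.1 ∈ Kc (vI k) := h1.1
  rw [hk, sgn_K hI', AddChar.map_zero_eq_one, one_mul, one_mul]

end

end Pool.Agent.Q260.AL
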