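import Pool.Agent.Q260.AL.Adm

/-!
# A cusp form with Steinberg component at infinity: the function
-/

set_option autoImplicit false
set_option linter.unusedSectionVars false

namespace Pool.Agent.Q260.AL

open IsDedekindDomain Polynomial WithZero
open Matrix (GeneralLinearGroup)
open scoped WithZero MatrixGroups

noncomputable section

section local_

variable {k F : Type*} [Field k] [Field F] (L : LD k F)

open Classical in
/-- reduction modulo the maximal ideal -/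
def LD.rd (x : F) : k := if h : L.v x ≤ 1 then (L.hC x h).choose else 0

theorem LD.rd_spec {x : F} (h : L.v x ≤ 1) : L.v (x - L.C (L.rd x)) < 1 := by
  unfold LD.rd
  rw [dif_pos h]
  exact (L.hC x h).choose_spec

theorem LD.C_inj {a b : k} (h : L.v (L.C a - L.C b) < 1) : a = b := by
  by_contra hab
  have h1 := L.vC (sub_ne_zero.2 hab)
  rw [map_sub] at h1
  rw [h1] at h
  exact lt_irrefl _ h

theorem LD.rd_eq {x : F} {a : k} (h : L.v x ≤ 1) (ha : L.v (x - L.C a) < 1) : L.rd x = a := by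
  apply L.C_inj
  have e : L.C (L.rd x) - L.C a = -(x - L.C (L.rd x)) + (x - L.C a) := by ring
  rw [e]
  refine Valuation.map_add_lt _ ?_ ha
  rw [Valuation.map_neg]
  exact L.rd_spec h

theorem LD.rd_congr {x y : F} (hy : L.v y ≤ 1) (h : L.v (x - y) < 1) : L.rd x = L.rd y := by
  have hx : L.v x ≤ 1 := by
    have e : x = (x - y) + y := by ring
    rw [e]
    exact Valuation.map_add_le _ h.le hy
  apply L.rd_eq hx
  have e : x - L.C (L.rd y) = (x - y) + (y - L.C (L.rd y)) := by ring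
  rw [e]
  exact Valuation.map_add_lt _ h (L.rd_spec hy)

theorem LD.rd_C (a : k) : L.rd (L.C a) = a := L.rd_eq (L.hC1 a) (by simp)

theorem LD.rd_lt {x : F} (h : L.v x < 1) : L.rd x = 0 := L.rd_eq h.le (by simpa using h)

theorem LD.rd_add {x y : F} (hx : L.v x ≤ 1) (hy : L.v y ≤ 1) : L.rd (x + y) = L.rd x + L.rd y := by
  apply L.rd_eq (Valuation.map_add_le _ hx hy)
  have e : x + y - L.C (L.rd x + L.rd y) = (x - L.C (L.rd x)) + (y - L.C (L.rd y)) := by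
    rw [map_add]; ring
  rw [e]
  exact Valuation.map_add_lt _ (L.rd_spec hx) (L.rd_spec hy)

/-- the subgroup of the matrices which are lower unipotent modulo the maximal ideal -/
def Jg (v : Valuation F ℤᵐ⁰) : Subgroup (GL (Fin 2) F) where
  carrier := {g | g ∈ Kc v ∧ v (g.1 0 0 - 1) < 1 ∧ v (g.1 1 1 - 1) < 1 ∧ v (g.1 0 1) < 1}
  mul_mem' {g h} hg hh := by
    refine ⟨mul_mem hg.1 hh.1, ?_, ?_, ?_⟩
    · have e : (g * h).1 0 0 - 1 = (g.1 0 0 - 1) * h.1 0 0 + (h.1 0 0 - 1) + g.1 0 1 * h.1 1 0 := by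
        rw [mul_val]; ring
      rw [e]
      exact v.map_add_lt (v.map_add_lt (vmul_lt1 hg.2.1 (hh.1 _ _).1) hh.2.1)
        (vmul_lt1 hg.2.2.2 (hh.1 _ _).1)
    · have e : (g * h).1 1 1 - 1 = g.1 1 0 * h.1 0 1 + (g.1 1 1 - 1) * h.1 1 1 + (h.1 1 1 - 1) := by
        rw [mul_val]; ring
      rw [e]
      exact v.map_add_lt (v.map_add_lt (vmul_lt1' (hg.1 _ _).1 hh.2.2.2)
        (vmul_lt1 hg.2.2.1 (hh.1 _ _).1)) hh.2.2.1
    · rw [mul_val]
      exact v.map_add_lt (vmul_lt1' (hg.1 _ _).1 hh.2.2.2) (vmul_lt1 hg.2.2.2 (hh.1 _ _).1)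
  one_mem' := ⟨one_mem _, by simp, by simp, by simp⟩
  inv_mem' {g} hg := by
    have hi := inv_mem hg.1
    have h : g⁻¹ * g = 1 := inv_mul_cancel g
    have e : ∀ i j, (g⁻¹ * g).1 i j = (1 : Matrix (Fin 2) (Fin 2) F) i j := by
      intro i j
      rw [h]
      rfl
    have e00 := e 0 0
    have e01 := e 0 1
    have e11 := e 1 1
    rw [mul_val] at e00 e01 e11
    simp only [Matrix.one_apply_eq, ne_eq, Fin.isValue, zero_ne_one, not_false_eq_true,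
      Matrix.one_apply_ne] at e00 e01 e11
    refine ⟨hi, ?_, ?_, ?_⟩
    · have e : g⁻¹.1 0 0 - 1 = -(g⁻¹.1 0 0 * (g.1 0 0 - 1) + g⁻¹.1 0 1 * g.1 1 0) := by
        linear_combination e00
      have h01 : v (g⁻¹.1 0 1) < 1 := by
        have e : g⁻¹.1 0 1 = -(g⁻¹.1 0 0 * g.1 0 1 + g⁻¹.1 0 1 * (g.1 1 1 - 1)) := by
          linear_combination e01
        rw [e, Valuation.map_neg]
        exact v.map_add_lt (vmul_lt1' (hg.1 _ _).2 hg.2.2.2) (vmul_lt1' (hg.1 _ _).2 hg.2.2.1)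
      rw [e, Valuation.map_neg]
      exact v.map_add_lt (vmul_lt1' (hg.1 _ _).2 hg.2.1) (vmul_lt1 h01 (hg.1 _ _).1)
    · have e : g⁻¹.1 1 1 - 1 = -(g⁻¹.1 1 0 * g.1 0 1 + g⁻¹.1 1 1 * (g.1 1 1 - 1)) := by
        linear_combination e11
      rw [e, Valuation.map_neg]
      exact v.map_add_lt (vmul_lt1' (hg.1 _ _).2 hg.2.2.2) (vmul_lt1' (hg.1 _ _).2 hg.2.2.1)
    · have e : g⁻¹.1 0 1 = -(g⁻¹.1 0 0 * g.1 0 1 + g⁻¹.1 0 1 * (g.1 1 1 - 1)) := by
        linear_combination e01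
      rw [e, Valuation.map_neg]
      exact v.map_add_lt (vmul_lt1' (hg.1 _ _).2 hg.2.2.2) (vmul_lt1' (hg.1 _ _).2 hg.2.2.1)

/-- the affine generic functional -/
def LD.kap (g : GL (Fin 2) F) : k := L.rd (((L.π⁻¹ : Fˣ) : F) * g.1 0 1) + L.rd (g.1 1 0)

theorem LD.v_piinv {x : F} (h : L.v x < 1) : L.v (((L.π⁻¹ : Fˣ) : F) * x) ≤ 1 := by
  rw [map_mul, Units.val_inv_eq_inv_val, map_inv₀, L.hπ]
  have h1 := lt_one_iff_exp.1 h
  calc (exp (-1 : ℤ))⁻¹ * L.v x ≤ (exp (-1 : ℤ))⁻¹ * exp (-1 : ℤ) := by gcongr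
    _ = 1 := inv_mul_cancel₀ (by simp)

theorem LD.kap_mul {g h : GL (Fin 2) F} (hg : g ∈ Jg L.v) (hh : h ∈ Jg L.v) :
    L.kap (g * h) = L.kap g + L.kap h := by
  unfold LD.kap
  have a1 := L.v_piinv hg.2.2.2
  have a2 := L.v_piinv hh.2.2.2
  have e1 : L.rd (((L.π⁻¹ : Fˣ) : F) * (g * h).1 0 1) =
      L.rd (((L.π⁻¹ : Fˣ) : F) * g.1 0 1) + L.rd (((L.π⁻¹ : Fˣ) : F) * h.1 0 1) := by
    rw [← L.rd_add a1 a2]
    refine L.rd_congr (Valuation.map_add_le _ a1 a2) ?_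
    have e : ((L.π⁻¹ : Fˣ) : F) * (g * h).1 0 1 -
        (((L.π⁻¹ : Fˣ) : F) * g.1 0 1 + ((L.π⁻¹ : Fˣ) : F) * h.1 0 1) =
        (g.1 0 0 - 1) * (((L.π⁻¹ : Fˣ) : F) * h.1 0 1) +
        (((L.π⁻¹ : Fˣ) : F) * g.1 0 1) * (h.1 1 1 - 1) := by
      rw [mul_val]; ring
    rw [e]
    exact Valuation.map_add_lt _ (vmul_lt1 hg.2.1 a2) (vmul_lt1' a1 hh.2.2.1)
  have e2 : L.rd ((g * h).1 1 0) = L.rd (g.1 1 0) + L.rd (h.1 1 0) := by
    rw [← L.rd_add (hg.1 _ _).1 (hh.1 _ _).1]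
    refine L.rd_congr (Valuation.map_add_le _ (hg.1 _ _).1 (hh.1 _ _).1) ?_
    have e : (g * h).1 1 0 - (g.1 1 0 + h.1 1 0) =
        g.1 1 0 * (h.1 0 0 - 1) + (g.1 1 1 - 1) * h.1 1 0 := by
      rw [mul_val]; ring
    rw [e]
    exact Valuation.map_add_lt _ (vmul_lt1' (hg.1 _ _).1 hh.2.1) (vmul_lt1 hg.2.2.1 (hh.1 _ _).1)
  rw [e1, e2]
  abel

theorem LD.kap_one : L.kap (1 : GL (Fin 2) F) = 0 := by
  unfold LD.kap
  have e1 : (1 : GL (Fin 2) F).1 0 1 = 0 := by simp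
  have e2 : (1 : GL (Fin 2) F).1 1 0 = 0 := by simp
  rw [e1, e2, mul_zero, L.rd_lt (by simp), add_zero]

/-- the normaliser of the Iwahori subgroup -/
def LD.OI : Subgroup (GL (Fin 2) F) where
  carrier := {x | ∃ n : ℤ, ∃ i ∈ Iw L.v, x = dg (L.π ^ n) (L.π ^ n) * i ∨
    x = dg (L.π ^ n) (L.π ^ n) * (L.om * i)}
  mul_mem' {x y} := by
    rintro ⟨n, i, hi, hx⟩ ⟨m, j, hj, hy⟩
    have hz : ∀ n m : ℤ, (dg (L.π ^ n) (L.π ^ n) * dg (L.π ^ m) (L.π ^ m) : GL (Fin 2) F) =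
        dg (L.π ^ (n + m)) (L.π ^ (n + m)) := by
      intro n m
      rw [dg_mul, _root_.zpow_add]
    have hzc : ∀ (n : ℤ) (g : GL (Fin 2) F), g * dg (L.π ^ n) (L.π ^ n) = dg (L.π ^ n) (L.π ^ n) * g :=
      fun n g => (dg_central _ _).symm
    rcases hx with hx | hx <;> rcases hy with hy | hy
    · refine ⟨n + m, i * j, mul_mem hi hj, Or.inl ?_⟩
      rw [hx, hy, ← hz, mul_assoc, ← mul_assoc i, hzc]
      simp only [mul_assoc]
    · refine ⟨n + m, (L.om⁻¹ * i * L.om) * j, mul_mem (L.om_conj hi) hj, Or.inr ?_⟩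
      rw [hx, hy, ← hz, mul_assoc, ← mul_assoc i, hzc]
      simp only [mul_assoc, mul_inv_cancel_left]
    · refine ⟨n + m, i * j, mul_mem hi hj, Or.inr ?_⟩
      rw [hx, hy, ← hz, mul_assoc, ← mul_assoc (L.om * i), hzc]
      simp only [mul_assoc]
    · refine ⟨n + m + 1, (L.om⁻¹ * i * L.om) * j, mul_mem (L.om_conj hi) hj, Or.inl ?_⟩
      have h1 : dg (L.π ^ (n + m + 1)) (L.π ^ (n + m + 1)) =
          dg (L.π ^ n) (L.π ^ n) * (dg (L.π ^ m) (L.π ^ m) * (L.om * L.om)) := by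
        rw [L.om_mul_om, dg_mul, dg_mul, _root_.zpow_add_one, _root_.zpow_add, mul_assoc]
      rw [hx, hy, h1, mul_assoc, ← mul_assoc (L.om * i), hzc]
      simp only [mul_assoc, mul_inv_cancel_left]
  one_mem' := ⟨0, 1, one_mem _, Or.inl (by simp [dg_one])⟩
  inv_mem' {x} := by
    rintro ⟨n, i, hi, hx⟩
    rcases hx with hx | hx
    · refine ⟨-n, i⁻¹, inv_mem hi, Or.inl ?_⟩
      rw [hx, _root_.mul_inv_rev, dg_inv, ← zpow_neg, dg_central]
    · refine ⟨-n - 1, L.om⁻¹ * i⁻¹ * L.om, L.om_conj (inv_mem hi), Or.inr ?_⟩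
      have h1 : L.om * (L.om⁻¹ * i⁻¹ * L.om) = i⁻¹ * L.om := by group
      have h2 : (L.om * i) * dg (L.π ^ (-n - 1)) (L.π ^ (-n - 1)) =
          dg (L.π ^ (-n - 1)) (L.π ^ (-n - 1)) * (L.om * i) := (dg_central _ _).symm
      have h3 : L.om * i * (i⁻¹ * L.om) = dg L.π L.π := by
        rw [← L.om_mul_om]
        group
      rw [hx, h1, inv_eq_iff_mul_eq_one, mul_assoc, ← mul_assoc (L.om * i), h2, mul_assoc, h3,
        dg_mul, dg_mul, _root_.zpow_sub_one, zpow_neg]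
      have h4 : L.π ^ n * ((L.π ^ n)⁻¹ * L.π⁻¹ * L.π) = 1 := by group
      rw [h4, dg_one]

end local_

end

end Pool.Agent.Q260.AL
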