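import Pool.Agent.Q260.AL.Top

/-!
# From the congruence subgroups to the topological definitions
-/

set_option autoImplicit false
set_option linter.unusedSectionVars false

namespace Pool.Agent.Q260.AL

open IsDedekindDomain Polynomial WithZero Topology
open Matrix (GeneralLinearGroup)
open scoped WithZero MatrixGroups

noncomputable section

variable {k : Type} [Field k]

theorem embG_eq (γ : GL (Fin 2) (RatFunc k)) : embG γ = dgl γ := rfl

theorem nn_eq (x : Ad k) : nn x = nA x :=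
  Prod.ext (Units.ext rfl) (Units.ext rfl)

theorem aut_bridge {F : GA k → ℂ} (h : IsAutForm F) : AutForm F := by
  refine ⟨h.left, ?_, fun U hU => ?_⟩
  · obtain ⟨n, r, hr, hn⟩ := h.smooth
    exact ⟨cong n r, isOpen_cong n hr, hn⟩
  · obtain ⟨m, hm⟩ := nhds_gl (hU.mem_nhds (one_mem U))
    refine ⟨cyc (rI (RT k)) F ⊓ fixed (rI (RT k)) (Um (vI k) m), h.adm m, fun H hH hH' => ⟨?_, ?_⟩⟩
    · refine Submodule.span_mono ?_ hH
      rintro x ⟨g, rfl⟩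
      exact ⟨g, rfl⟩
    · exact fun u hu => hH' u (hm u hu)

theorem range_eq : (embA (k := k)).toAddMonoidHom.range = PK k := rfl

theorem cusp_bridge {F : GA k → ℂ} (h : IsCuspForm F) : CuspForm F := by
  refine ⟨aut_bridge h.1, fun g => ?_⟩
  obtain ⟨n, r, hr, h1, h2, h3⟩ := h.2 g
  refine ⟨WA n r, isOpen_WA n hr, fun x w hw => ?_, h2, ?_⟩
  · rw [nn_eq, nn_eq]
    exact h1 x w hw
  · simp only [nn_eq]
    exact h3

/-- the topological version of a representation -/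
def toG (P : GRep k) : IrrSm (GA k) where
  V := P.V
  ρ := P.ρ
  ne := P.ne
  irr := P.irr
  sm w := by
    obtain ⟨n, r, hr, hn⟩ := P.sm w
    exact ⟨cong n r, isOpen_cong n hr, hn⟩

/-- the topological version of a representation -/
def toL (P : LRep (Kinf k) (vI k)) : IrrSm (GL (Fin 2) (Kinf k)) where
  V := P.V
  ρ := P.ρ
  ne := P.ne
  irr := P.irr
  sm w := by
    obtain ⟨n, hn⟩ := P.sm w
    exact ⟨Um (vI k) n, isOpen_UmI n, hn⟩

theorem sub_bridge {C C' : (GA k → ℂ) → Prop} (hC : ∀ F, C F → C' F) {P : GRep k}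
    (h : SubQuo C P) : Subquotient C' (toG P) := by
  obtain ⟨W, hW, h1, T, hT, hT'⟩ := h
  refine ⟨W, fun F hF => ⟨hC F (h1 F hF), fun g => hW g F hF⟩, T, hT, fun g F H hH => ?_⟩
  have e : H = subR (RT k) W hW g F := Subtype.ext hH
  rw [e]
  exact hT' g F

theorem comp_bridge {σ : LRep (Kinf k) (vI k)} {P : GRep k} (h : CompI σ P) :
    CompInf (toL σ) (toG P) := h

/-- the trivial representation of a topological group -/
def TrivT (G : Type) [Group G] [TopologicalSpace G] : IrrSm G where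
  V := ℂ
  ρ := 1
  ne := ⟨1, one_ne_zero⟩
  irr W _ := eq_bot_or_eq_top W
  sm _ := ⟨⊤, isOpen_univ, fun _ _ => rfl⟩

theorem TrivT_compInf : CompInf (k := k) (TrivT _) (TrivT _) :=
  ⟨(LinearMap.id : ℂ →ₗ[ℂ] ℂ), id_ne, fun _ _ => rfl⟩

theorem TrivT_compFin (v : HeightOneSpectrum k[X]) : CompFin v (TrivT _) (TrivT _) :=
  ⟨(LinearMap.id : ℂ →ₗ[ℂ] ℂ), id_ne, fun _ _ _ _ _ => rfl⟩

theorem TrivT_unr (F : Type) [Field F] [Valued F ℤᵐ⁰] : Unramified (F := F) (TrivT _) :=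
  ⟨show ℂ from 1, one_ne_zero (α := ℂ), fun _ _ => rfl⟩

theorem compFin_of_triv (v : HeightOneSpectrum k[X]) (P : IrrSm (GA k))
    (h : ∀ y w, P.ρ (1, y) w = w) : CompFin v (TrivT _) P := by
  obtain ⟨w, hw⟩ := P.ne
  refine ⟨LinearMap.toSpanSingleton ℂ P.V w, fun h0 => hw ?_, fun _ y _ _ c => ?_⟩
  · have h1 : LinearMap.toSpanSingleton ℂ P.V w 1 = (0 : ℂ →ₗ[ℂ] P.V) 1 :=
      congrArg (fun T : ℂ →ₗ[ℂ] P.V => T 1) h0
    rwa [LinearMap.toSpanSingleton_apply, one_smul, LinearMap.zero_apply] at h1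
  · rw [h]
    rfl

theorem unramified_of_triv {σ : IrrSm (GL (Fin 2) (Kinf k))} (h : CompInf σ (TrivT (GA k))) :
    Unramified σ := by
  obtain ⟨T, hT, hT'⟩ := h
  have hinj : Function.Injective T := irr_inj (ρ := σ.ρ)
    (ρ' := (1 : Representation ℂ (GL (Fin 2) (Kinf k)) ℂ)) σ.irr T hT' hT
  obtain ⟨w, hw⟩ := σ.ne
  exact ⟨w, hw, fun g _ => hinj (hT' g w)⟩

theorem compFin_triv {P : IrrSm (GA k)} (h : ∀ y w, P.ρ (1, y) w = w) (v : HeightOneSpectrum k[X])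
    {σ : IrrSm (GL (Fin 2) (Kfin k v))} (hσ : CompFin v σ P) : CompFin v σ (TrivT (GA k)) := by
  obtain ⟨T, hT, hT'⟩ := hσ
  have h1 : ∀ x w, T (σ.ρ x w) = T w := by
    intro x w
    obtain ⟨y, hy, hy'⟩ := exists_lift v x
    have := hT' x y (fun i j => by rw [← hy]; rfl) (fun u hu i j => by
      have h2 := hy' u hu
      have h3 : (lv u y).1 i j = (1 : Matrix (Fin 2) (Fin 2) (Kfin k u)) i j := by rw [h2]; rfl
      exact h3) w
    rw [h] at this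
    exact this
  have hinj : Function.Injective T := irr_inj (ρ := σ.ρ)
    (ρ' := (1 : Representation ℂ (GL (Fin 2) (Kfin k v)) P.V)) σ.irr T h1 hT
  have h2 : ∀ x w, σ.ρ x w = w := fun x w => hinj (h1 x w)
  obtain ⟨w, hw⟩ := σ.ne
  obtain ⟨f, hf⟩ : ∃ f : σ.V →ₗ[ℂ] ℂ, f w ≠ 0 := by
    by_contra hcon
    push Not at hcon
    exact hw ((Module.forall_dual_apply_eq_zero_iff ℂ w).1 hcon)
  refine ⟨f, fun h0 => hf ?_, fun x _ _ _ w => ?_⟩
  · have := congrArg (fun T : σ.V →ₗ[ℂ] ℂ => T w) h0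
    exact this
  · rw [h2]
    rfl

variable [Fintype k]

theorem not_unramified {P : GRep k} {v : P.V} (hv : v ≠ 0) (h : StVec Linf (rI P.ρ) v 0)
    {σ : IrrSm (GL (Fin 2) (Kinf k))} (hσ : Unramified σ) : ¬ CompInf σ (toG P) := by
  rintro ⟨T, hT, hT'⟩
  obtain ⟨w, hw, hw'⟩ := hσ
  have hT'' : ∀ g x, T (σ.ρ g x) = rI P.ρ g (T x) := hT'
  have hinj : Function.Injective T := irr_inj (ρ := σ.ρ) (ρ' := rI P.ρ) σ.irr T hT'' hT
  apply hw
  apply hinj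
  rw [map_zero]
  refine no_fixed P.sm P.irr hv h fun κ hκ => ?_
  have h1 := hT'' κ w
  rw [hw' κ hκ] at h1
  exact h1.symm

/-! ### Hecke characters -/

theorem isOpen_ker : IsOpen {x : Id k | ((Valued.v (x.1 : Kinf k) ≤ (1 : ℤᵐ⁰)) ∧
    (Valued.v ((x.1⁻¹ : (Kinf k)ˣ) : Kinf k) ≤ (1 : ℤᵐ⁰))) ∧
    ((∀ v, Valued.v (ev v (x.2 : Afin k)) ≤ (1 : ℤᵐ⁰)) ∧
    (∀ v, Valued.v (ev v ((x.2⁻¹ : (Afin k)ˣ) : Afin k)) ≤ (1 : ℤᵐ⁰)))} := by
  have h1 : Continuous fun x : Id k => (x.1 : Kinf k) := Units.continuous_val.comp continuous_fst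
  have h2 : Continuous fun x : Id k => ((x.1⁻¹ : (Kinf k)ˣ) : Kinf k) :=
    Units.continuous_coe_inv.comp continuous_fst
  have h3 : Continuous fun x : Id k => (x.2 : Afin k) := Units.continuous_val.comp continuous_snd
  have h4 : Continuous fun x : Id k => ((x.2⁻¹ : (Afin k)ˣ) : Afin k) :=
    Units.continuous_coe_inv.comp continuous_snd
  exact ((isOpen_one_F.preimage h1).inter (isOpen_one_F.preimage h2)).inter
    ((isOpen_Oh_one.preimage h3).inter (isOpen_Oh_one.preimage h4))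

theorem v_unit {F : Type*} [Field F] {v : Valuation F ℤᵐ⁰} {x : Fˣ} (h1 : v (x : F) ≤ 1)
    (h2 : v ((x⁻¹ : Fˣ) : F) ≤ 1) : v (x : F) = 1 := by
  refine le_antisymm h1 ?_
  have h3 : v (x : F) * v ((x⁻¹ : Fˣ) : F) = 1 := by
    rw [← map_mul, ← Units.val_mul, mul_inv_cancel, Units.val_one, map_one]
  calc (1 : ℤᵐ⁰) = v (x : F) * v ((x⁻¹ : Fˣ) : F) := h3.symm
    _ ≤ v (x : F) * 1 := by gcongr
    _ = v (x : F) := mul_one _

theorem idn_ker {x : Id k} (hx : x ∈ {x : Id k | ((Valued.v (x.1 : Kinf k) ≤ (1 : ℤᵐ⁰)) ∧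
    (Valued.v ((x.1⁻¹ : (Kinf k)ˣ) : Kinf k) ≤ (1 : ℤᵐ⁰))) ∧
    ((∀ v, Valued.v (ev v (x.2 : Afin k)) ≤ (1 : ℤᵐ⁰)) ∧
    (∀ v, Valued.v (ev v ((x.2⁻¹ : (Afin k)ˣ) : Afin k)) ≤ (1 : ℤᵐ⁰)))}) : idn x = 1 := by
  obtain ⟨⟨h1, h2⟩, h3, h4⟩ := hx
  have e1 : vI k (x.1 : Kinf k) = 1 := v_unit h1 h2
  have e2 : ∀ v, Valued.v (ev v (x.2 : Afin k)) = 1 := by
    intro v
    have := v_unit (v := Valued.v) (x := Units.map (ev v).toMonoidHom x.2) (h3 v) (h4 v)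
    exact this
  unfold idn
  rw [e1, log_one, zpow_zero, one_mul]
  refine finprod_eq_one_of_forall_eq_one fun v => ?_
  rw [e2 v, log_one, zpow_zero]

theorem chi_continuous : Continuous (chi k) := by
  refine continuous_of_continuousAt_one (chi k) ?_
  refine ContinuousAt.congr (f := fun _ => (1 : ℂˣ)) continuousAt_const ?_
  filter_upwards [isOpen_ker.mem_nhds (x := (1 : Id k)) (by simp)] with x hx
  refine Units.ext ?_
  rw [chi_val, idn_ker hx]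
  simp

theorem chi_Hecke : Hecke (chi k) := ⟨chi_continuous, chi_hecke.1⟩

theorem chi_inv_Hecke : Hecke (chi k)⁻¹ :=
  ⟨continuous_inv.comp chi_continuous, chi_inv_hecke.1⟩

theorem chi_id (a d : Id k) : (((chi k)⁻¹ a : ℂˣ) : ℂ) * ((chi k d : ℂˣ) : ℂ) *
    ((Real.sqrt (idn (a / d)) : ℝ) : ℂ) = 1 := by
  rw [MonoidHom.inv_apply, Units.val_inv_eq_inv_val, chi_val, chi_val, idn_div,
    Real.sqrt_div (idn_pos a).le]
  have ha : ((Real.sqrt (idn a) : ℝ) : ℂ) ≠ 0 := by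
    exact_mod_cast (Real.sqrt_pos.2 (idn_pos a)).ne'
  have hd : ((Real.sqrt (idn d) : ℝ) : ℂ) ≠ 0 := by
    exact_mod_cast (Real.sqrt_pos.2 (idn_pos d)).ne'
  push_cast
  field_simp

theorem TrivT_sum : IsobaricSum (chi k) (chi k)⁻¹ (TrivT (GA k)) := by
  refine ⟨(Triv_sum (k := k)).1, constF k, ?_, fun g w => rfl, fun w a d b g _ _ _ _ _ _ => ?_⟩
  · intro h0
    have := congrFun (congrArg (fun T : ℂ →ₗ[ℂ] (GA k → ℂ) => T 1) h0) 1
    exact one_ne_zero this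
  · have h1 : (((chi k)⁻¹ a : ℂˣ) : ℂ) * ((chi k d : ℂˣ) : ℂ) *
      ((Real.sqrt (idnorm (a / d)) : ℝ) : ℂ) = 1 := chi_id a d
    rw [h1, one_mul]
    rfl

theorem TrivT_isobaric : Isobaric (TrivT (GA k)) :=
  ⟨sub_bridge (fun _ => aut_bridge) Triv_aut,
    Or.inr ⟨chi k, (chi k)⁻¹, chi_Hecke, chi_inv_Hecke, TrivT_sum⟩⟩

/-- **Main theorem, topological version.** -/
theorem mainT (k : Type) [Field k] [Fintype k] :
    ∃ (π₁ π₂ : IrrSm (GA k)) (τ : IrrSm (GL (Fin 2) (Kinf k))),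
      Subquotient AutForm π₁ ∧ (∀ y w, π₁.ρ (1, y) w = w) ∧ Subquotient CuspForm π₂ ∧
      Subquotient AutForm π₂ ∧
      GlobalLift π₁ (TrivT (GA k)) ∧ GlobalLift π₂ π₂ ∧ CompInf τ π₁ ∧ CompInf τ π₂ ∧
      ∀ σ, CompInf σ (TrivT (GA k)) → ¬ CompInf σ π₂ := by
  obtain ⟨P₁, v₁, a1, b1, c1, d1⟩ := exists_B k
  obtain ⟨P₂, v₂, a2, b2, c2⟩ := exists_A k
  have h2 : Subquotient AutForm (toG P₂) := sub_bridge (fun _ => aut_bridge) a2.aut
  have h3 : Subquotient CuspForm (toG P₂) := sub_bridge (fun _ => cusp_bridge) a2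
  refine ⟨toG P₁, toG P₂, toL (compM P₂ b2 c2), sub_bridge (fun _ => aut_bridge) a1, d1, h3, h2,
    ⟨TrivT_isobaric, fun _ hσ hc => absurd hc (not_unramified b1 c1 hσ),
      fun v _ _ hc => compFin_triv (P := toG P₁) d1 v hc⟩,
    ⟨⟨h2, Or.inl h3⟩, fun _ _ h => h, fun _ _ _ h => h⟩,
    compM_comp' P₂ P₁ b2 c2 b1 c1, compM_comp P₂ b2 c2,
    fun σ hσ => not_unramified b2 c2 (unramified_of_triv hσ)⟩

end

end Pool.Agent.Q260.AL
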