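import Mathlib

/-!
# Automorphic representations of `GL₂` and global liftings: the definitions

`K` is a global function field, `R ⊆ K` the ring of the elements which are integral at all places
except for one place `∞`, and `F` is the completion of `K` at `∞`. So the finite places are the
elements of `HeightOneSpectrum R`, the adele ring of `K` is `F × FiniteAdeleRing R K`, and
`GL₂(A) = GL₂(F) × GL₂(FiniteAdeleRing R K)`.
-/

set_option autoImplicit false

namespace Pool.Agent.Q260.Gen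

open IsDedekindDomain WithZero
open scoped WithZero MatrixGroups

noncomputable section

section group

variable {G H A I : Type} [Group G] [TopologicalSpace G] [Group H] [TopologicalSpace H]
  [AddCommGroup A] [TopologicalSpace A] [CommGroup I] [TopologicalSpace I]

/-- irreducible smooth complex representations of a topological group -/
def IrrSm (P : Rep.{0} ℂ G) : Prop :=
  P.ρ.IsIrreducible ∧ ∀ w, ∃ U : Subgroup G, IsOpen (U : Set G) ∧ ∀ u ∈ U, P.ρ u w = w

/-- automorphic forms on `G`; `Γ` is the set of the rational points and `ι : H → G` is the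
embedding of the group of the points over one of the completions: `f` is left invariant under `Γ`,
right invariant under an open subgroup, and the space spanned by the translates
`g ↦ f (g * ι y)` is an admissible representation of `H` (for every open subgroup `U` the
`U`-invariant elements of this space are contained in the span of finitely many functions `b j`) -/
structure AutForm (Γ : Set G) (ι : H → G) (f : G → ℂ) : Prop where
  left : ∀ γ ∈ Γ, ∀ g, f (γ * g) = f g
  smooth : ∃ U : Subgroup G, IsOpen (U : Set G) ∧ ∀ u ∈ U, ∀ g, f (g * u) = f g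
  adm : ∀ U : Subgroup H, IsOpen (U : Set H) → ∃ (m : ℕ) (b : Fin m → G → ℂ),
    ∀ (n : ℕ) (y : Fin n → H) (c : Fin n → ℂ),
      (∀ u ∈ U, ∀ g, ∑ i, c i * f (g * ι u * ι (y i)) = ∑ i, c i * f (g * ι (y i))) →
      ∃ a : Fin m → ℂ, ∀ g, ∑ i, c i * f (g * ι (y i)) = ∑ j, a j * b j g

/-- `∫ f(n(x) g) dx = 0` for all `g`, the integral being over `A/Q`; it is a sum over the finite
group `A/(Q + W)`, `W` an open subgroup under which `x ↦ f(n(x) g)` is invariant -/
def ConstTermZero (n : A → G) (Q : AddSubgroup A) (f : G → ℂ) : Prop :=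
  ∀ g, ∃ W : AddSubgroup A, IsOpen (W : Set A) ∧
    (∀ x, ∀ w ∈ W, f (n (x + w) * g) = f (n x * g)) ∧ Finite (A ⧸ (Q ⊔ W)) ∧
    ∑ᶠ c : A ⧸ (Q ⊔ W), f (n (Quotient.out c) * g) = 0

/-- `P` is an irreducible smooth quotient of the representation generated by the right translates
of a function `f` with the property `C`: the map `∑ cᵢ f(· gᵢ) ↦ ∑ cᵢ P(gᵢ) w` is well defined -/
def Subquotient (C : (G → ℂ) → Prop) (P : Rep.{0} ℂ G) : Prop := IrrSm P ∧
  ∃ (f : G → ℂ) (w : P.V), C f ∧ w ≠ 0 ∧ ∀ (n : ℕ) (g : Fin n → G) (c : Fin n → ℂ),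
    (∀ x, ∑ i, c i * f (x * g i) = 0) → ∑ i, c i • P.ρ (g i) w = 0

/-- `σ` is irreducible and smooth, and there is a nonzero map `σ → P` which is equivariant with
respect to the embedding `H → G` whose graph is `r` -/
def Comp (r : H → G → Prop) (σ : Rep.{0} ℂ H) (P : Rep.{0} ℂ G) : Prop := IrrSm σ ∧
  ∃ T : σ.V →ₗ[ℂ] P.V, T ≠ 0 ∧ ∀ x g, r x g → ∀ w, T (σ.ρ x w) = P.ρ g (T w)

/-- there is a nonzero vector fixed by `K₀` -/
def HasFixed (K₀ : Set H) (σ : Rep.{0} ℂ H) : Prop := ∃ w : σ.V, w ≠ 0 ∧ ∀ g ∈ K₀, σ.ρ g w = w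

/-- Hecke characters: `I` is the group of ideles and `Q` the set of the principal ideles -/
def Hecke (Q : Set I) (χ : I →* ℂˣ) : Prop := Continuous χ ∧ ∀ x ∈ Q, χ x = 1

/-- `P` is the isobaric sum of `χ₁` and `χ₂`: the exponent of `χ₁` is at least the exponent of `χ₂`
and `P` is a subrepresentation of the normalised induced representation of `(χ₂, χ₁)` (Frobenius
reciprocity). Here `N` is the idele norm and `B a d` is the set of the upper triangular matrices with
diagonal `(a, d)`. -/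
def IsobaricSum (N : I → ℝ) (B : I → I → Set G) (χ₁ χ₂ : I →* ℂˣ) (P : Rep.{0} ℂ G) : Prop :=
  (∀ x, 1 ≤ N x → ‖(χ₂ x : ℂ)‖ ≤ ‖(χ₁ x : ℂ)‖) ∧
  ∃ l : P.V →ₗ[ℂ] ℂ, l ≠ 0 ∧ ∀ a d, ∀ b ∈ B a d, ∀ w,
    l (P.ρ b w) = (χ₂ a : ℂ) * (χ₁ d : ℂ) * (Real.sqrt (N (a / d)) : ℝ) * l w

end group

/-- `GL₂(O)` -/
def GL2O {F : Type} [Field F] (v : Valuation F ℤᵐ⁰) : Set (GL (Fin 2) F) :=
  {g | ∀ i j, v (g.1 i j) ≤ 1 ∧ v (g⁻¹.1 i j) ≤ 1}

section adele

variable (R K F : Type) [CommRing R] [IsDedekindDomain R] [Field K] [Algebra R K]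
  [IsFractionRing R K] [Field F] [TopologicalSpace F] [Algebra K F]

/-- the principal adeles -/
def principal : AddSubgroup (F × FiniteAdeleRing R K) :=
  ((algebraMap K F).prod (algebraMap K (FiniteAdeleRing R K))).range.toAddSubgroup

/-- the principal ideles -/
def principalI : Set (Fˣ × (FiniteAdeleRing R K)ˣ) :=
  {x | ∃ y : K, (x.1 : F) = algebraMap K F y ∧
    (x.2 : FiniteAdeleRing R K) = algebraMap K (FiniteAdeleRing R K) y}

/-- `GL₂(K)` in `GL₂(A)` -/
def rational : Set (GL (Fin 2) F × GL (Fin 2) (FiniteAdeleRing R K)) :=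
  {g | ∃ γ : GL (Fin 2) K, ∀ i j, g.1.1 i j = algebraMap K F (γ.1 i j) ∧
    g.2.1 i j = algebraMap K (FiniteAdeleRing R K) (γ.1 i j)}

/-- the unipotent element `(1, x; 0, 1)` of `GL₂(A)` -/
def unip (x : F × FiniteAdeleRing R K) : GL (Fin 2) F × GL (Fin 2) (FiniteAdeleRing R K) :=
  (Matrix.GeneralLinearGroup.upperRightHom x.1, Matrix.GeneralLinearGroup.upperRightHom x.2)

/-- the upper triangular matrices with diagonal `(a, d)` -/
def borel (a d : Fˣ × (FiniteAdeleRing R K)ˣ) :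
    Set (GL (Fin 2) F × GL (Fin 2) (FiniteAdeleRing R K)) :=
  {b | (b.1.1 0 0 = a.1 ∧ b.1.1 1 1 = d.1 ∧ b.1.1 1 0 = 0) ∧
    b.2.1 0 0 = a.2 ∧ b.2.1 1 1 = d.2 ∧ b.2.1 1 0 = 0}

/-- automorphic forms on `GL₂(A)` -/
def Form (f : GL (Fin 2) F × GL (Fin 2) (FiniteAdeleRing R K) → ℂ) : Prop :=
  AutForm (rational R K F) (fun x : GL (Fin 2) F => (x, 1)) f

/-- cusp forms on `GL₂(A)` -/
def Cusp (f : GL (Fin 2) F × GL (Fin 2) (FiniteAdeleRing R K) → ℂ) : Prop :=
  Form R K F f ∧ ConstTermZero (unip R K F) (principal R K F) f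

/-- the graph of `GL₂(K_∞) → GL₂(A)` -/
def atInf (x : GL (Fin 2) F) (g : GL (Fin 2) F × GL (Fin 2) (FiniteAdeleRing R K)) : Prop :=
  g.1 = x ∧ g.2 = 1

/-- the graph of `GL₂(K_v) → GL₂(A)` -/
def atFin (v : HeightOneSpectrum R) (x : GL (Fin 2) (v.adicCompletion K))
    (g : GL (Fin 2) F × GL (Fin 2) (FiniteAdeleRing R K)) : Prop :=
  g.1 = 1 ∧ (∀ i j, (g.2.1 i j) v = x.1 i j) ∧
    ∀ u ≠ v, ∀ i j, (g.2.1 i j) u = (1 : Matrix (Fin 2) (Fin 2) (u.adicCompletion K)) i j

/-- the idele norm; `v` is the valuation of `F` and `q` the cardinality of its residue field -/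
def idnorm (v : Valuation F ℤᵐ⁰) (q : ℝ) (x : Fˣ × (FiniteAdeleRing R K)ˣ) : ℝ :=
  q ^ log (v (x.1 : F)) * ∏ᶠ u : HeightOneSpectrum R,
    (Nat.card (R ⧸ u.asIdeal) : ℝ) ^ log (Valued.v ((x.2 : FiniteAdeleRing R K) u))

/-- automorphic representations: irreducible subquotients of the space of automorphic forms -/
def Automorphic (P : Rep.{0} ℂ (GL (Fin 2) F × GL (Fin 2) (FiniteAdeleRing R K))) : Prop :=
  Subquotient (Form R K F) P

/-- cuspidal automorphic representations -/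
def Cuspidal (P : Rep.{0} ℂ (GL (Fin 2) F × GL (Fin 2) (FiniteAdeleRing R K))) : Prop :=
  Subquotient (Cusp R K F) P

/-- isobaric automorphic representations -/
def Isobaric (v : Valuation F ℤᵐ⁰) (q : ℝ)
    (P : Rep.{0} ℂ (GL (Fin 2) F × GL (Fin 2) (FiniteAdeleRing R K))) : Prop :=
  Automorphic R K F P ∧ (Cuspidal R K F P ∨ ∃ χ₁ χ₂, Hecke (principalI R K F) χ₁ ∧
    Hecke (principalI R K F) χ₂ ∧ IsobaricSum (idnorm R K F v q) (borel R K F) χ₁ χ₂ P)

/-- `P` is the global lifting of `π`: it is isobaric and all unramified components of `π` are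
components of `P` -/
def GlobalLift (v : Valuation F ℤᵐ⁰) (q : ℝ)
    (π P : Rep.{0} ℂ (GL (Fin 2) F × GL (Fin 2) (FiniteAdeleRing R K))) : Prop :=
  Isobaric R K F v q P ∧
  (∀ σ : Rep.{0} ℂ (GL (Fin 2) F), HasFixed (GL2O v) σ →
    Comp (atInf R K F) σ π → Comp (atInf R K F) σ P) ∧
  ∀ u, ∀ σ : Rep.{0} ℂ (GL (Fin 2) (u.adicCompletion K)), HasFixed (GL2O Valued.v) σ →
    Comp (atFin R K F u) σ π → Comp (atFin R K F u) σ P

end adele

end

end Pool.Agent.Q260.Gen
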