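import Pool.Agent.Q260.AL.Bridge
import Pool.Agent.Q260.AL.Gen

/-!
# From the definitions of `Spec` to the ones of `Gen`
-/

set_option autoImplicit false
set_option linter.unusedSectionVars false

namespace Pool.Agent.Q260.AL

open IsDedekindDomain Polynomial WithZero Topology
open Matrix (GeneralLinearGroup)
open scoped WithZero MatrixGroups

noncomputable section

/-! ### Representations -/

section rep

variable {G : Type} [Group G] [TopologicalSpace G]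

/-- the object of Mathlib's category of representations -/
def toRep (P : IrrSm G) : Rep.{0} ℂ G := Rep.of P.ρ

theorem irr_of {V : Type} [AddCommGroup V] [Module ℂ V] (ρ : Representation ℂ G V)
    (ne : ∃ w : V, w ≠ 0)
    (irr : ∀ W : Submodule ℂ V, (∀ g, ∀ x ∈ W, ρ g x ∈ W) → W = ⊥ ∨ W = ⊤) :
    ρ.IsIrreducible := by
  have hbt : (⊥ : Subrepresentation ρ) ≠ ⊤ := by
    intro h
    obtain ⟨w, hw⟩ := ne
    apply hw
    have h1 : w ∈ (⊤ : Subrepresentation ρ).toSubmodule := Submodule.mem_top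
    rw [← h] at h1
    exact (Submodule.mem_bot ℂ).1 h1
  refine { exists_pair_ne := ⟨⊥, ⊤, hbt⟩, eq_bot_or_eq_top := fun W => ?_ }
  rcases irr W.toSubmodule (fun g x hx => W.apply_mem_toSubmodule g hx) with h | h
  · exact Or.inl (Subrepresentation.toSubmodule_injective h)
  · exact Or.inr (Subrepresentation.toSubmodule_injective h)

theorem of_irr {V : Type} [AddCommGroup V] [Module ℂ V] {ρ : Representation ℂ G V}
    (h : ρ.IsIrreducible) : (∃ w : V, w ≠ 0) ∧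
    ∀ W : Submodule ℂ V, (∀ g, ∀ x ∈ W, ρ g x ∈ W) → W = ⊥ ∨ W = ⊤ := by
  constructor
  · by_contra hcon
    push Not at hcon
    have hbt : (⊥ : Subrepresentation ρ) ≠ ⊤ := h.toNontrivial.exists_pair_ne.elim
      fun a ha hb => by
        obtain ⟨b, hab⟩ := ha
        apply hab
        rcases h.eq_bot_or_eq_top a with h1 | h1 <;> rcases h.eq_bot_or_eq_top b with h2 | h2
        · rw [h1, h2]
        · rw [h1, h2, hb]
        · rw [h1, h2, hb]
        · rw [h1, h2]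
    apply hbt
    apply Subrepresentation.toSubmodule_injective
    refine le_antisymm bot_le fun x _ => ?_
    rw [hcon x]
    exact zero_mem _
  · intro W hW
    rcases h.eq_bot_or_eq_top ⟨W, fun g x hx => hW g x hx⟩ with h1 | h1
    · exact Or.inl (congrArg Subrepresentation.toSubmodule h1)
    · exact Or.inr (congrArg Subrepresentation.toSubmodule h1)

theorem toRep_irrSm (P : IrrSm G) : Gen.IrrSm (toRep P) :=
  ⟨irr_of P.ρ P.ne P.irr, P.sm⟩

/-- back to the structure -/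
def ofRep (P : Rep.{0} ℂ G) (h : Gen.IrrSm P) : IrrSm G where
  V := P.V
  ρ := P.ρ
  ne := (of_irr h.1).1
  irr := (of_irr h.1).2
  sm := h.2

end rep

variable {k : Type} [Field k]

/-! ### Automorphic forms -/

theorem gen_form {F : GA k → ℂ} (h : AutForm F) : Gen.Form k[X] (RatFunc k) (Kinf k) F := by
  refine ⟨?_, ?_, fun U hU => ?_⟩
  · rintro γ ⟨γ₀, hγ⟩ g
    have e : γ = embG γ₀ := Prod.ext (gl_ext' fun i j => (hγ i j).1) (gl_ext' fun i j => (hγ i j).2)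
    rw [e]
    exact h.left γ₀ g
  · obtain ⟨U, hU, hU'⟩ := h.smooth
    exact ⟨U, hU, fun u hu g => congrFun (hU' u hu) g⟩
  · obtain ⟨S, hS, hS'⟩ := h.adm U hU
    refine ⟨Module.finrank ℂ S, fun i => (Module.finBasis ℂ S i : GA k → ℂ), fun n y c hc => ?_⟩
    have hmem : (∑ i, c i • rt ((y i, 1) : GA k) F) ∈ S := by
      refine hS' _ (Submodule.sum_mem _ fun i _ => Submodule.smul_mem _ _
        (Submodule.subset_span ⟨y i, rfl⟩)) fun u hu => funext fun g => ?_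
      have := hc u hu g
      simp only [rt, Finset.sum_apply, Pi.smul_apply, smul_eq_mul]
      exact this
    refine ⟨fun j => (Module.finBasis ℂ S).repr ⟨_, hmem⟩ j, fun g => ?_⟩
    have h1 := (Module.finBasis ℂ S).sum_repr ⟨_, hmem⟩
    have h2 := congrFun (congrArg (Subtype.val : S → GA k → ℂ) h1) g
    rw [Submodule.coe_sum, Finset.sum_apply] at h2
    simp only [Submodule.coe_smul, Pi.smul_apply, smul_eq_mul, Finset.sum_apply, rt] at h2
    exact h2.symm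

theorem unip_eq (x : Ad k) : Gen.unip k[X] (RatFunc k) (Kinf k) x = nn x := rfl

theorem principal_eq : Gen.principal k[X] (RatFunc k) (Kinf k) =
    (embA (k := k)).toAddMonoidHom.range := by
  ext x
  rfl

theorem gen_cusp {F : GA k → ℂ} (h : CuspForm F) : Gen.Cusp k[X] (RatFunc k) (Kinf k) F := by
  refine ⟨gen_form h.1, fun g => ?_⟩
  rw [principal_eq]
  exact h.2 g

theorem gen_sub {C C' : (GA k → ℂ) → Prop} (hC : ∀ F, C F → C' F) {P : IrrSm (GA k)}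
    (h : Subquotient C P) : Gen.Subquotient C' (toRep P) := by
  refine ⟨toRep_irrSm P, ?_⟩
  obtain ⟨W, hW, T, hT, hT'⟩ := h
  obtain ⟨w, hw⟩ := P.ne
  obtain ⟨F, hF⟩ := hT w
  refine ⟨F, w, hC _ (hW F F.2).1, hw, fun n g c hc => ?_⟩
  have h1 : ∀ i, ∃ H : W, (H : GA k → ℂ) = rt (g i) F := fun i => ⟨⟨_, (hW F F.2).2 (g i)⟩, rfl⟩
  choose H hH using h1
  have h2 : ∑ i, c i • H i = 0 := by
    apply Subtype.ext
    funext x
    rw [Submodule.coe_sum, Finset.sum_apply]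
    simp only [Submodule.coe_smul, Pi.smul_apply, smul_eq_mul, hH, rt]
    exact hc x
  have h3 := congrArg T h2
  rw [map_sum, map_zero] at h3
  have h4 : ∀ i, T (c i • H i) = c i • P.ρ (g i) w := fun i => by
    rw [map_smul, hT' (g i) F (H i) (hH i), hF]
  have h5 : ∑ i, c i • P.ρ (g i) w = 0 := by
    rw [← h3]
    exact Finset.sum_congr rfl fun i _ => (h4 i).symm
  exact h5

/-! ### Components -/

theorem comp_inf {σ : IrrSm (GL (Fin 2) (Kinf k))} {P : IrrSm (GA k)} (h : CompInf σ P) :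
    Gen.Comp (Gen.atInf k[X] (RatFunc k) (Kinf k)) (toRep σ) (toRep P) := by
  refine ⟨toRep_irrSm σ, ?_⟩
  obtain ⟨T, hT, hT'⟩ := h
  refine ⟨T, hT, ?_⟩
  rintro x ⟨g, g'⟩ ⟨h1, h2⟩ w
  change g = x at h1
  change g' = 1 at h2
  subst h1 h2
  exact hT' g w

theorem comp_inf' {σ : Rep.{0} ℂ (GL (Fin 2) (Kinf k))} {P : IrrSm (GA k)}
    (h : Gen.Comp (Gen.atInf k[X] (RatFunc k) (Kinf k)) σ (toRep P)) :
    CompInf (ofRep σ h.1) P := by
  obtain ⟨T, hT, hT'⟩ := h.2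
  exact ⟨T, hT, fun x w => hT' x (x, 1) ⟨rfl, rfl⟩ w⟩

theorem comp_fin {v : HeightOneSpectrum k[X]} {σ : IrrSm (GL (Fin 2) (Kfin k v))}
    {P : IrrSm (GA k)} (h : CompFin v σ P) :
    Gen.Comp (Gen.atFin k[X] (RatFunc k) (Kinf k) v) (toRep σ) (toRep P) := by
  refine ⟨toRep_irrSm σ, ?_⟩
  obtain ⟨T, hT, hT'⟩ := h
  refine ⟨T, hT, ?_⟩
  rintro x ⟨g, g'⟩ ⟨h1, h2, h3⟩ w
  change g = 1 at h1
  subst h1
  exact hT' x g' h2 h3 w

theorem comp_fin' {v : HeightOneSpectrum k[X]} {σ : Rep.{0} ℂ (GL (Fin 2) (Kfin k v))}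
    {P : IrrSm (GA k)}
    (h : Gen.Comp (Gen.atFin k[X] (RatFunc k) (Kinf k) v) σ (toRep P)) :
    CompFin v (ofRep σ h.1) P := by
  obtain ⟨T, hT, hT'⟩ := h.2
  exact ⟨T, hT, fun x y h1 h2 w => hT' x (1, y) ⟨rfl, h1, h2⟩ w⟩

theorem unr_of {F : Type} [Field F] [Valued F ℤᵐ⁰] {σ : Rep.{0} ℂ (GL (Fin 2) F)}
    (hi : Gen.IrrSm σ) (h : Gen.HasFixed (Gen.GL2O Valued.v) σ) : Unramified (ofRep σ hi) := by
  obtain ⟨w, hw, hw'⟩ := h
  exact ⟨w, hw, fun g hg => hw' g hg⟩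

/-! ### Hecke characters -/

variable [Fintype k]

theorem idnorm_eq (x : Id k) :
    Gen.idnorm k[X] (RatFunc k) (Kinf k) Valued.v (Nat.card k) x = idn x := rfl

theorem gen_hecke {χ : Id k →* ℂˣ} (h : Hecke χ) :
    Gen.Hecke (Gen.principalI k[X] (RatFunc k) (Kinf k)) χ := by
  refine ⟨h.1, ?_⟩
  rintro ⟨x, x'⟩ ⟨y, hy, hy'⟩
  change (x : Kinf k) = _ at hy
  change (x' : Afin k) = _ at hy'
  have hy0 : y ≠ 0 := by
    rintro rfl
    rw [map_zero] at hy
    exact x.ne_zero hy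
  have e : ((x, x') : Id k) = embI (Units.mk0 y hy0) :=
    Prod.ext (Units.ext hy) (Units.ext hy')
  rw [e]
  exact h.2 _

theorem gen_sum : Gen.IsobaricSum (Gen.idnorm k[X] (RatFunc k) (Kinf k) Valued.v (Nat.card k))
    (Gen.borel k[X] (RatFunc k) (Kinf k)) (chi k) (chi k)⁻¹ (toRep (TrivT (GA k))) := by
  refine ⟨(TrivT_sum (k := k)).1, (LinearMap.id : ℂ →ₗ[ℂ] ℂ), id_ne, fun a d b _ w => ?_⟩
  have h2 : ∀ w : ℂ, w = (((chi k)⁻¹ a : ℂˣ) : ℂ) * ((chi k d : ℂˣ) : ℂ) *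
      ((Real.sqrt (idn (a / d)) : ℝ) : ℂ) * w := fun w => by rw [chi_id a d, one_mul]
  exact h2 w

theorem gen_isobaric : Gen.Isobaric k[X] (RatFunc k) (Kinf k) Valued.v (Nat.card k)
    (toRep (TrivT (GA k))) :=
  ⟨gen_sub (fun _ => gen_form) TrivT_isobaric.1, Or.inr ⟨chi k, (chi k)⁻¹, gen_hecke chi_Hecke,
    gen_hecke chi_inv_Hecke, gen_sum⟩⟩

/-- **Main theorem** for the definitions of `Gen`. -/
theorem mainG (k : Type) [Field k] [Fintype k] :
    ∃ (π₁ π₂ : IrrSm (GA k)) (τ : IrrSm (GL (Fin 2) (Kinf k))),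
      Gen.Automorphic k[X] (RatFunc k) (Kinf k) (toRep π₁) ∧ (∀ y w, π₁.ρ (1, y) w = w) ∧
      Gen.Cuspidal k[X] (RatFunc k) (Kinf k) (toRep π₂) ∧
      Gen.Automorphic k[X] (RatFunc k) (Kinf k) (toRep π₂) ∧
      Gen.GlobalLift k[X] (RatFunc k) (Kinf k) Valued.v (Nat.card k) (toRep π₁)
        (toRep (TrivT (GA k))) ∧
      Gen.GlobalLift k[X] (RatFunc k) (Kinf k) Valued.v (Nat.card k) (toRep π₂) (toRep π₂) ∧
      Gen.Comp (Gen.atInf k[X] (RatFunc k) (Kinf k)) (toRep τ) (toRep π₁) ∧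
      Gen.Comp (Gen.atInf k[X] (RatFunc k) (Kinf k)) (toRep τ) (toRep π₂) ∧
      ∀ σ, Gen.Comp (Gen.atInf k[X] (RatFunc k) (Kinf k)) σ (toRep (TrivT (GA k))) →
        ¬ Gen.Comp (Gen.atInf k[X] (RatFunc k) (Kinf k)) σ (toRep π₂) := by
  obtain ⟨P₁, v₁, a1, b1, c1, d1⟩ := exists_B k
  obtain ⟨P₂, v₂, a2, b2, c2⟩ := exists_A k
  have h2 : Gen.Automorphic k[X] (RatFunc k) (Kinf k) (toRep (toG P₂)) :=
    gen_sub (fun _ => gen_form) (sub_bridge (fun _ => aut_bridge) a2.aut)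
  have h3 : Gen.Cuspidal k[X] (RatFunc k) (Kinf k) (toRep (toG P₂)) :=
    gen_sub (fun _ => gen_cusp) (sub_bridge (fun _ => cusp_bridge) a2)
  refine ⟨toG P₁, toG P₂, toL (compM P₂ b2 c2),
    gen_sub (fun _ => gen_form) (sub_bridge (fun _ => aut_bridge) a1), d1, h3, h2,
    ⟨gen_isobaric, fun σ hσ hc => absurd (comp_inf' hc) (not_unramified b1 c1 (unr_of hc.1 hσ)),
      fun v σ _ hc => ?_⟩,
    ⟨⟨h2, Or.inl h3⟩, fun _ _ h => h, fun _ _ _ h => h⟩,
    comp_inf (compM_comp' P₂ P₁ b2 c2 b1 c1), comp_inf (compM_comp P₂ b2 c2),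
    fun σ hσ hσ' => not_unramified b2 c2 (unramified_of_triv (comp_inf' hσ)) (comp_inf' hσ')⟩
  exact comp_fin (compFin_triv (P := toG P₁) d1 v (comp_fin' hc))

end

end Pool.Agent.Q260.AL
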