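import Pool.Agent.Q260.AL.Adm

/-!
# An automorphic representation with Steinberg component at infinity and trivial components
at the finite places
-/

set_option autoImplicit false
set_option linter.unusedSectionVars false

namespace Pool.Agent.Q260.AL

open IsDedekindDomain Polynomial WithZero
open Matrix (GeneralLinearGroup)
open scoped WithZero MatrixGroups

noncomputable section

section avg

variable {G V : Type*} [Group G] [AddCommGroup V] [Module ℂ V] (ρ : Representation ℂ G V)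

/-- averages -/
theorem exists_avg {H : Subgroup G} (hfin : FO ρ H) (w : V) : ∃ (n : ℕ) (f : Fin n → G), n ≠ 0 ∧
    (∀ j, f j ∈ H) ∧ ∀ h ∈ H, ρ h (∑ j, ρ (f j) w) = ∑ j, ρ (f j) w := by
  classical
  have hf := hfin w
  set N := (stab (res ρ H) w).normalCore with hN
  have hNf : N.FiniteIndex := inferInstance
  let _ := Fintype.ofFinite (H ⧸ N)
  let e := (Fintype.equivFin (H ⧸ N))
  have hN' : N ≤ stab (res ρ H) w := Subgroup.normalCore_le _
  have hsum : ∑ j, ρ ((Quotient.out (e.symm j) : H) : G) w = ∑ c : H ⧸ N, ρ ((Quotient.out c : H) : G) w :=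
    Fintype.sum_equiv e.symm _ _ fun c => rfl
  refine ⟨Fintype.card (H ⧸ N), fun j => (Quotient.out (e.symm j) : H), Fintype.card_ne_zero,
    fun j => (Quotient.out (e.symm j) : H).2, fun h hh => ?_⟩
  simp only
  rw [hsum, map_sum]
  refine Fintype.sum_equiv (Equiv.mulLeft ((⟨h, hh⟩ : H) : H ⧸ N)) _ _ fun c => ?_
  have e1 : (((⟨h, hh⟩ : H) * Quotient.out c : H) : H ⧸ N) =
      ((Quotient.out ((Equiv.mulLeft ((⟨h, hh⟩ : H) : H ⧸ N)) c) : H) : H ⧸ N) := by
    simp
  rw [QuotientGroup.eq] at e1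
  have h1 := hN' e1
  rw [mem_stab] at h1
  have h2 : res ρ H ((⟨h, hh⟩ : H) * Quotient.out c) w =
      res ρ H (Quotient.out ((Equiv.mulLeft ((⟨h, hh⟩ : H) : H ⧸ N)) c)) w := by
    conv_lhs => rw [← h1]
    rw [← Module.End.mul_apply, ← map_mul]
    congr 2
    group
  have h3 : ρ h (ρ ((Quotient.out c : H) : G) w) = res ρ H ((⟨h, hh⟩ : H) * Quotient.out c) w := by
    rw [← Module.End.mul_apply, ← map_mul]
    rfl
  rw [h3, h2]
  rfl

end avg

variable {k : Type} [Field k] [Fintype k]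

/-- the Steinberg vector -/
def vB (k : Type) [Field k] [Fintype k] : GA k → ℂ := fun g => phi (g * (Linf.om, 1)) - phi g

theorem phi_om_iw (g : GA k) {i : GL (Fin 2) (Kinf k)} (hi : i ∈ Iw (Linf (k := k)).v) :
    phi (g * (i, 1) * (Linf.om, 1)) = phi (g * (Linf.om, 1)) := by
  have h1 := phi_sph.inv_iw g 1 i hi
  rw [mul_assoc, pmI]
  simpa using h1

theorem vB_st : StVec Linf (rI (RT k)) (vB k) (fun _ => 1) where
  iw i hi := by
    funext g
    change vB k (g * (i, 1)) = vB k g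
    have hi' : i ∈ Kc (vI k) := hi.1
    unfold vB
    rw [phi_om_iw g hi, phi_sph.rightI g hi']
  om := by
    funext g
    change vB k (g * (Linf.om, 1)) = - vB k g
    unfold vB
    rw [mul_assoc g, pmI, LD.om_mul_om, phi_sph.cen]
    ring
  sum := by
    funext g
    have h1 := phi_TT g
    unfold TT at h1
    have h2 : ∑ o : Option k, vB k (g * (Linf.rep o, 1)) = 1 := by
      unfold vB
      rw [Finset.sum_sub_distrib]
      have e1 : ∀ o : Option k, phi (g * (Linf.rep o, 1) * (Linf.om, 1)) =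
          phi (g * (Linf.rep o * Linf.om, 1)) := by
        intro o
        rw [mul_assoc g, pmI]
      have e2 : ∀ o : Option k, phi (g * (Linf.rep o, 1)) = phi g := by
        intro o
        have hi' : (Linf (k := k)).rep o ∈ Kc (vI k) := LD.rep_mem Linf o
        exact phi_sph.rightI g hi'
      simp only [e1, e2]
      rw [h1, Finset.sum_const, Finset.card_univ, Fintype.card_option, nsmul_eq_mul]
      push_cast
      ring
    rw [Fintype.sum_option] at h2
    have e3 : ((Linf.rep none, 1) : GA k) = 1 := rfl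
    rw [e3, mul_one] at h2
    rw [Pi.add_apply, Finset.sum_apply]
    rw [← h2]
    congr 1
    refine Finset.sum_congr rfl fun x _ => ?_
    change vB k (g * (nU (Linf.C x), 1) * (ws _, 1)) = _
    rw [mul_assoc g, pmI]
    rfl
  const g := rfl

theorem phi_sm : SmV (RT k) phi := by
  refine ⟨0, 1, one_ne_zero, fun u hu => ?_⟩
  funext g
  rw [RT_apply]
  obtain ⟨h1, h2⟩ := mem_cong.1 hu
  exact phi_sph.right g u.1 (Um_le _ _ h1) u.2 (Uf_le _ h2)

theorem vB_eq : vB k = rI (RT k) Linf.om phi - phi := rfl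

theorem vB_sm : SmV (RT k) (vB k) := by
  rw [vB_eq, sub_eq_add_neg, ← neg_one_smul ℂ phi]
  exact (phi_sm.apply (Linf.om, 1)).add (phi_sm.smul _)

theorem vB_left (γ : GL (Fin 2) (RatFunc k)) (g : GA k) : vB k (dgl γ * g) = vB k g := by
  unfold vB
  rw [mul_assoc, phi_sph.left, phi_sph.left]

theorem vB_aut : ∀ w ∈ cyc (RT k) (vB k), IsAutForm w := aut_of_st vB_left vB_sm vB_st

theorem one_mem_cyc : (fun _ => 1 : GA k → ℂ) ∈ cyc (RT k) (vB k) := st_mem vB_st

/-- the space of smooth functions -/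
def Esm (k : Type) [Field k] : Submodule ℂ (GA k → ℂ) where
  carrier := {F | SmV (RT k) F}
  add_mem' ha hb := ha.add hb
  zero_mem' := SmV.zero _
  smul_mem' c _ hx := hx.smul c

omit [Fintype k] in
theorem Esm_st : St' (RT k) (Esm k) := fun g _ hx => SmV.apply hx g

/-- the representation on smooth functions -/
abbrev RE (k : Type) [Field k] : Representation ℂ (GA k) (Esm k) := subR (RT k) (Esm k) Esm_st

omit [Fintype k] in
theorem RE_sm (w : Esm k) : SmV (RE k) w := by
  obtain ⟨n, r, hr, h⟩ := w.2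
  exact ⟨n, r, hr, fun u hu => Subtype.ext (h u hu)⟩

theorem FO_E : FO (rF (RE k)) (Kf k) := FO_F RE_sm

/-- the constants -/
def oneE (k : Type) [Field k] : Esm k := ⟨fun _ => 1, 0, 1, one_ne_zero, fun _ _ => rfl⟩

/-- the function `phi` -/
def phiE (k : Type) [Field k] [Fintype k] : Esm k := ⟨phi, phi_sm⟩

theorem RE_oneE (g : GA k) : RE k g (oneE k) = oneE k := rfl

theorem pmFF (a b : GL (Fin 2) (Afin k)) : ((1, a) : GA k) * (1, b) = (1, a * b) :=
  Prod.ext (one_mul 1) rfl

theorem eqD (g : GA k) (a : GL (Fin 2) (Kinf k)) (y : GL (Fin 2) (Afin k)) :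
    (g * (a, 1) * (1, y) : GA k) = g * (1, y) * (a, 1) := by
  rw [mul_assoc, mul_assoc, pmIF, pmFI]

/-- sums of translates of `phi` under `GL₂(A_f)` -/
theorem avg_phi {n : ℕ} (f : Fin n → GL (Fin 2) (Afin k))
    (hf : ∀ h ∈ Kf k, ∀ g, ∑ j, phi (g * (1, h) * (1, f j)) = ∑ j, phi (g * (1, f j))) :
    ∃ c : ℂ, ∀ g, (∑ j, phi (g * (1, f j))) = n * phi g + c := by
  set ψ : GA k → ℂ := fun g => (∑ j, phi (g * (1, f j))) - n * phi g with hψ
  have hs : Sph ψ := by
    refine ⟨fun γ g => ?_, fun g κ hκ κf hκf => ?_, fun g y => ?_⟩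
    · simp only [hψ]
      rw [phi_sph.left]
      congr 1
      refine Finset.sum_congr rfl fun j _ => ?_
      rw [mul_assoc, phi_sph.left]
    · simp only [hψ]
      rw [phi_sph.right g κ hκ κf hκf]
      congr 1
      rw [← hf κf hκf g]
      refine Finset.sum_congr rfl fun j _ => ?_
      have e : (g * (κ, κf) * (1, f j) : GA k) = g * (1, κf) * (1, f j) * (κ, 1) := by
        rw [← eqD, ← pmFI κ κf, ← mul_assoc]
      rw [e, phi_sph.rightI _ hκ]
    · simp only [hψ]
      rw [phi_sph.cen]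
      congr 1
      refine Finset.sum_congr rfl fun j _ => ?_
      rw [eqD, phi_sph.cen]
  have hT : ∀ g, TT ψ g = ((Fintype.card k : ℂ) + 1) * ψ g := by
    intro g
    have h1 : TT ψ g = (∑ j, TT phi (g * (1, f j))) - n * TT phi g := by
      have e1 : ∀ o : Option k, ψ (g * (Linf.rep o * Linf.om, 1)) =
          (∑ j, phi (g * (1, f j) * (Linf.rep o * Linf.om, 1))) -
            n * phi (g * (Linf.rep o * Linf.om, 1)) := by
        intro o
        simp only [hψ]
        congr 1
        exact Finset.sum_congr rfl fun j _ => by rw [eqD]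
      have e2 : TT ψ g = ∑ o : Option k, ((∑ j, phi (g * (1, f j) * (Linf.rep o * Linf.om, 1))) -
            n * phi (g * (Linf.rep o * Linf.om, 1))) := Finset.sum_congr rfl fun o _ => e1 o
      rw [e2, Finset.sum_sub_distrib, ← Finset.mul_sum, Finset.sum_comm]
      rfl
    rw [h1]
    simp only [phi_TT]
    rw [Finset.sum_add_distrib, ← Finset.mul_sum, Finset.sum_const, Finset.card_univ,
      Fintype.card_fin, nsmul_eq_mul]
    simp only [hψ]
    ring
  refine ⟨ψ 1, fun g => ?_⟩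
  rw [← hs.const hT g]
  simp only [hψ]
  ring

theorem phi_coinv (y : GL (Fin 2) (Afin k)) :
    rF (RE k) y (phiE k) - phiE k ∈ aug (rF (RE k)) (Kf k) ⊔ Submodule.span ℂ {oneE k} := by
  obtain ⟨n, f, hn, hf, hinv⟩ := exists_avg (rF (RE k)) FO_E (rF (RE k) y (phiE k))
  have hval : ∀ g : GA k, ((∑ j, rF (RE k) (f j) (rF (RE k) y (phiE k)) : Esm k) : GA k → ℂ) g =
      ∑ j, phi (g * (1, f j * y)) := by
    intro g
    rw [Submodule.coe_sum, Finset.sum_apply]
    refine Finset.sum_congr rfl fun j _ => ?_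
    change phi (g * (1, f j) * (1, y)) = _
    rw [mul_assoc, pmFF]
  obtain ⟨c, hc⟩ := avg_phi (fun j => f j * y) (fun h hh g => by
    have h1 := hinv h hh
    have h2 : ((∑ j, rF (RE k) (f j) (rF (RE k) y (phiE k)) : Esm k) : GA k → ℂ) (g * (1, h)) =
        ((∑ j, rF (RE k) (f j) (rF (RE k) y (phiE k)) : Esm k) : GA k → ℂ) g :=
      congrFun (congrArg Subtype.val h1) g
    rw [hval, hval] at h2
    exact h2)
  have hn' : (n : ℂ) ≠ 0 := by exact_mod_cast hn
  have h3 : (∑ j, rF (RE k) (f j) (rF (RE k) y (phiE k)) : Esm k) = (n : ℂ) • phiE k + c • oneE k := by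
    refine Subtype.ext ?_
    funext g
    rw [hval, hc]
    change _ = (n : ℂ) • phi g + c • (1 : ℂ)
    simp
  have h4 : (n : ℂ) • (rF (RE k) y (phiE k) - phiE k) =
      -(∑ j, (rF (RE k) (f j) (rF (RE k) y (phiE k)) - rF (RE k) y (phiE k))) + c • oneE k := by
    rw [Finset.sum_sub_distrib, h3, Finset.sum_const, Finset.card_univ, Fintype.card_fin,
      smul_sub, ← Nat.cast_smul_eq_nsmul ℂ]
    abel
  have h5 : rF (RE k) y (phiE k) - phiE k = (n : ℂ)⁻¹ •
      (-(∑ j, (rF (RE k) (f j) (rF (RE k) y (phiE k)) - rF (RE k) y (phiE k))) + c • oneE k) := by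
    rw [← h4, smul_smul, inv_mul_cancel₀ hn', one_smul]
  rw [h5]
  refine Submodule.smul_mem _ _ (Submodule.add_mem _ (Submodule.mem_sup_left ?_)
    (Submodule.mem_sup_right (Submodule.smul_mem _ _ (Submodule.mem_span_singleton_self _))))
  exact Submodule.neg_mem _ (Submodule.sum_mem _ fun j _ => mem_aug _ (hf j) _)

/-- the operator `x (om - 1)` -/
def Dop (x : GL (Fin 2) (Kinf k)) : Esm k →ₗ[ℂ] Esm k :=
  rI (RE k) (x * Linf.om) - rI (RE k) x

theorem Dop_mem (x : GL (Fin 2) (Kinf k)) {u : Esm k}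
    (hu : u ∈ aug (rF (RE k)) (Kf k) ⊔ Submodule.span ℂ {oneE k}) :
    Dop x u ∈ aug (rF (RE k)) (Kf k) := by
  obtain ⟨a, ha, b, hb, rfl⟩ := Submodule.mem_sup.1 hu
  obtain ⟨c, rfl⟩ := Submodule.mem_span_singleton.1 hb
  have h1 : Dop x (c • oneE k) = 0 := by
    rw [Dop, map_smul, LinearMap.sub_apply]
    have : rI (RE k) (x * Linf.om) (oneE k) - rI (RE k) x (oneE k) = 0 := by
      rw [rI_apply, rI_apply, RE_oneE, RE_oneE, sub_self]
    rw [this, smul_zero]
  rw [map_add, h1, add_zero, Dop, LinearMap.sub_apply]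
  exact Submodule.sub_mem _ (rI_augF _ ha) (rI_augF _ ha)

theorem Dop_rF (x : GL (Fin 2) (Kinf k)) (y : GL (Fin 2) (Afin k)) (u : Esm k) :
    Dop x (rF (RE k) y u) = rF (RE k) y (Dop x u) := by
  rw [Dop, LinearMap.sub_apply, LinearMap.sub_apply, rIF, rIF, map_sub]

/-- translates of `vB` are invariant under `GL₂(A_f)` in the coinvariants of `GL₂(Ô)` -/
theorem coinv_vB (y : GL (Fin 2) (Afin k)) {w : GA k → ℂ} (hw : w ∈ cyc (RT k) (vB k)) :
    ∀ W : Esm k, (W : GA k → ℂ) = w → rF (RE k) y W - W ∈ aug (rF (RE k)) (Kf k) := by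
  unfold cyc at hw
  induction hw using Submodule.span_induction with
  | mem x hx =>
    obtain ⟨g, rfl⟩ := hx
    intro W hW
    have e : W = Dop g.1 (rF (RE k) g.2 (phiE k)) := by
      rw [Dop_rF, Dop, LinearMap.sub_apply]
      refine Subtype.ext ?_
      rw [hW]
      funext z
      change phi (z * g * (Linf.om, 1)) - phi (z * g) =
        phi (z * (1, g.2) * (g.1 * Linf.om, 1)) - phi (z * (1, g.2) * (g.1, 1))
      rw [← pmI g.1, mul_assoc z g, mul_assoc z (1, g.2), mul_assoc z (1, g.2), ← mul_assoc (1, g.2),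
        pmFI]
    rw [e, ← Dop_rF, ← rmul', ← map_sub]
    refine Dop_mem _ ?_
    have h1 := phi_coinv (k := k) (y * g.2)
    have h2 := phi_coinv (k := k) g.2
    have h3 := Submodule.sub_mem _ h1 h2
    convert h3 using 1
    abel
  | zero =>
    intro W hW
    have : W = 0 := Subtype.ext hW
    rw [this, map_zero, sub_zero]
    exact Submodule.zero_mem _
  | add a b ha' hb' ha hb =>
    intro W hW
    obtain ⟨A, hA⟩ : ∃ A : Esm k, (A : GA k → ℂ) = a := ⟨⟨a, vB_sm.span ha'⟩, rfl⟩
    obtain ⟨B, hB⟩ : ∃ B : Esm k, (B : GA k → ℂ) = b := ⟨⟨b, vB_sm.span hb'⟩, rfl⟩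
    have h1 := Submodule.add_mem _ (ha A hA) (hb B hB)
    have e : W = A + B := Subtype.ext (by rw [hW, Submodule.coe_add, hA, hB])
    rw [e, map_add]
    convert h1 using 1
    abel
  | smul c a ha' ha =>
    intro W hW
    obtain ⟨A, hA⟩ : ∃ A : Esm k, (A : GA k → ℂ) = a := ⟨⟨a, vB_sm.span ha'⟩, rfl⟩
    have h1 := Submodule.smul_mem _ c (ha A hA)
    have e : W = c • A := Subtype.ext (by rw [hW, Submodule.coe_smul, hA])
    have h2 := smul_sub c (rF (RE k) y A) A
    rw [h2] at h1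
    rw [e, map_smul]
    exact h1

/-- the representation generated by `vB` -/
abbrev RB (k : Type) [Field k] [Fintype k] : Representation ℂ (GA k) (cyc (RT k) (vB k)) :=
  subR (RT k) (cyc (RT k) (vB k)) (cyc_st (RT k) (vB k))

/-- the relations -/
def NB (k : Type) [Field k] [Fintype k] : Submodule ℂ (cyc (RT k) (vB k)) :=
  Submodule.span ℂ ({x | ∃ y w, x = rF (RB k) y w - w} ∪ {⟨fun _ => 1, one_mem_cyc⟩})

theorem NB_st : St' (RB k) (NB k) := by
  intro g x hx
  unfold NB at hx
  induction hx using Submodule.span_induction with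
  | mem x hx =>
    rcases hx with ⟨y, w, rfl⟩ | hx
    · refine Submodule.subset_span (Or.inl ⟨g.2 * y * g.2⁻¹, RB k g w, ?_⟩)
      rw [map_sub, rF_apply, rF_apply, ← rmul', ← rmul']
      congr 3
      refine Prod.ext ?_ ?_
      · change g.1 * 1 = 1 * g.1
        rw [mul_one, one_mul]
      · change g.2 * y = g.2 * y * g.2⁻¹ * g.2
        group
    · rw [Set.mem_singleton_iff.1 hx]
      exact Submodule.subset_span (Or.inr rfl)
  | zero => rw [map_zero]; exact Submodule.zero_mem _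
  | add x y _ _ hx hy => rw [map_add]; exact Submodule.add_mem _ hx hy
  | smul a x _ hx => rw [map_smul]; exact Submodule.smul_mem _ _ hx

theorem cyc_le_E : cyc (RT k) (vB k) ≤ Esm k := fun _ hw => vB_sm.span hw

theorem NB_le {x : cyc (RT k) (vB k)} (hx : x ∈ NB k) :
    (Submodule.inclusion cyc_le_E x : Esm k) ∈ aug (rF (RE k)) (Kf k) ⊔ Submodule.span ℂ {oneE k} := by
  unfold NB at hx
  induction hx using Submodule.span_induction with
  | mem x hx =>
    rcases hx with ⟨y, w, rfl⟩ | hx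
    · exact Submodule.mem_sup_left (coinv_vB y w.2 (Submodule.inclusion cyc_le_E w) rfl)
    · rw [Set.mem_singleton_iff.1 hx]
      exact Submodule.mem_sup_right (Submodule.mem_span_singleton_self _)
  | zero => rw [map_zero]; exact Submodule.zero_mem _
  | add x y _ _ hx hy => rw [map_add]; exact Submodule.add_mem _ hx hy
  | smul a x _ hx => rw [map_smul]; exact Submodule.smul_mem _ _ hx

theorem vB_an (n : ℕ) : vB k (an n) = Dq (Fintype.card k : ℂ) n := by
  have h1 := phi_sph.nb_none (k := k) n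
  have e : (Linf (k := k)).rep none * Linf.om = Linf.om := one_mul _
  rw [e] at h1
  unfold vB
  rw [h1, phi_an, phi_an, Φq]
  ring

theorem vB_notMem : (⟨vB k, self_mem_cyc _ _⟩ : cyc (RT k) (vB k)) ∉ NB k := by
  intro hmem
  obtain ⟨a, ha, b, hb, e⟩ := Submodule.mem_sup.1 (NB_le hmem)
  obtain ⟨c, rfl⟩ := Submodule.mem_span_singleton.1 hb
  have hval : ∀ g : GA k, (a : GA k → ℂ) g = vB k g - c := by
    intro g
    have h1 := congrArg (fun F : Esm k => (F : GA k → ℂ) g) e
    have h2 : (a : GA k → ℂ) g + c • (1 : ℂ) = vB k g := h1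
    rw [← h2]
    simp
  have hfix : ∀ i ∈ Kf k, rF (RE k) i a = a := by
    intro i hi
    refine Subtype.ext ?_
    funext g
    change (a : GA k → ℂ) (g * (1, i)) = _
    rw [hval, hval]
    unfold vB
    rw [← eqD, phi_sph.rightF _ hi, phi_sph.rightF _ hi]
  have h0 := eq_zero_of_mem_aug' (rF (RE k)) FO_E hfix ha
  have h1 : ∀ g, vB k g = c := by
    intro g
    have := hval g
    rw [h0] at this
    have h2 : (0 : ℂ) = vB k g - c := this
    linear_combination -h2
  have h2 := vB_an (k := k) 0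
  have h3 := vB_an (k := k) 1
  rw [h1] at h2 h3
  rw [h2] at h3
  simp only [Dq] at h3
  have hq : (Fintype.card k : ℂ) + 1 ≠ 0 := by
    exact_mod_cast Nat.succ_ne_zero (Fintype.card k)
  field_simp at h3
  have h4 : (2 : ℂ) * Fintype.card k = 0 := by linear_combination -h3
  rcases mul_eq_zero.1 h4 with h5 | h5
  · norm_num at h5
  · exact card_ne h5

theorem mkQ_ne {V : Type*} [AddCommGroup V] [Module ℂ V] {M : Submodule ℂ V} {x : V}
    (h : x ∉ M) : M.mkQ x ≠ 0 := by
  intro h0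
  rw [Submodule.mkQ_apply, Submodule.Quotient.mk_eq_zero] at h0
  exact h h0

theorem quoR_fix {G V : Type*} [Group G] [AddCommGroup V] [Module ℂ V] {ρ : Representation ℂ G V}
    {M : Submodule ℂ V} (hM : St' ρ M) {g : G} {w : V} (h : ρ g w - w ∈ M) :
    quoR ρ M hM g (M.mkQ w) = M.mkQ w := by
  rw [quoR_apply, ← sub_eq_zero, ← map_sub, Submodule.mkQ_apply, Submodule.Quotient.mk_eq_zero]
  exact h

/-- **The automorphic representation with Steinberg component at infinity on which `GL₂(A_f)`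
acts trivially.** -/
theorem exists_B (k : Type) [Field k] [Fintype k] : ∃ (P : GRep k) (v : P.V), IsAutomorphic P ∧
    v ≠ 0 ∧ StVec Linf (rI P.ρ) v 0 ∧ ∀ y w, P.ρ (1, y) w = w := by
  obtain ⟨M, hNM, hv, hM, hirr⟩ := exists_max (RB k) (cyc_sub (RT k) (vB k)) NB_st vB_notMem
  refine ⟨⟨_, quoR (RB k) M hM, ⟨M.mkQ ⟨vB k, self_mem_cyc _ _⟩, mkQ_ne hv⟩, hirr,
    sm_quo (sm_sub vB_sm) M hM⟩, M.mkQ ⟨vB k, self_mem_cyc _ _⟩, ?_, mkQ_ne hv, ?_, ?_⟩
  · exact ⟨cyc (RT k) (vB k), cyc_st _ _, vB_aut, M.mkQ, M.mkQ_surjective, fun g F => rfl⟩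
  · refine st_quo (st_sub vB_st one_mem_cyc) M hM (hNM ?_)
    exact Submodule.subset_span (Or.inr rfl)
  · intro y w
    obtain ⟨w, rfl⟩ := M.mkQ_surjective w
    exact quoR_fix hM (hNM (Submodule.subset_span (Or.inl ⟨y, w, rfl⟩)))

end

end Pool.Agent.Q260.AL
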