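import Pool.Agent.Q260.AL.Af
import Pool.Agent.Q260.AL.Bs

/-!
# Cuspidality
-/

set_option autoImplicit false
set_option linter.unusedSectionVars false

namespace Pool.Agent.Q260.AL

open IsDedekindDomain Polynomial WithZero
open Matrix (GeneralLinearGroup)
open scoped WithZero MatrixGroups

noncomputable section

variable {k : Type} [Field k]

open Classical in
/-- the finite adele with component `y` at `v` and `0` elsewhere -/
def mkOne (v : HeightOneSpectrum k[X]) (y : Kfin k v) : Afin k :=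
  ⟨Pi.single v y, Filter.eventually_cofinite.2 ((Set.finite_singleton v).subset fun w hw => by
    by_contra hne
    apply hw
    rw [Pi.single_eq_of_ne hne]
    exact zero_mem _)⟩

theorem ev_mkOne (v : HeightOneSpectrum k[X]) (y : Kfin k v) : ev v (mkOne v y) = y := by
  classical
  exact Pi.single_eq_same v y

theorem ev_mkOne_ne {v w : HeightOneSpectrum k[X]} (h : w ≠ v) (y : Kfin k v) :
    ev w (mkOne v y) = 0 := by
  classical
  exact Pi.single_eq_of_ne h y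

section loc

variable {F : Type*} [Field F]

theorem conj_nU (g : GL (Fin 2) F) (y : F) :
    (g⁻¹ * nU (y * dt g) * g).1 0 0 = 1 + y * (g.1 1 0 * g.1 1 1) ∧
    (g⁻¹ * nU (y * dt g) * g).1 0 1 = y * (g.1 1 1 * g.1 1 1) ∧
    (g⁻¹ * nU (y * dt g) * g).1 1 0 = -(y * (g.1 1 0 * g.1 1 0)) ∧
    (g⁻¹ * nU (y * dt g) * g).1 1 1 = 1 - y * (g.1 1 0 * g.1 1 1) := by
  have hd := dt_ne_zero g
  have hdt : dt g = g.1 0 0 * g.1 1 1 - g.1 0 1 * g.1 1 0 := rfl
  refine ⟨?_, ?_, ?_, ?_⟩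
  · rw [mul_val, mul_val, mul_val, inv00, inv01, nU_val]
    simp
    field_simp
    rw [hdt]
    ring
  · rw [mul_val, mul_val, mul_val, inv00, inv01, nU_val]
    simp
    field_simp
    ring
  · rw [mul_val, mul_val, mul_val, inv10, inv11, nU_val]
    simp
    field_simp
    ring
  · rw [mul_val, mul_val, mul_val, inv10, inv11, nU_val]
    simp
    field_simp
    rw [hdt]
    ring

/-- local translations -/
theorem exists_u {k : Type*} [Field k] (L : LD k F) (g : GL (Fin 2) F) : ∃ y : F,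
    g⁻¹ * nU y * g ∈ Jg L.v ∧ (L.kap (g⁻¹ * nU y * g) = 1 ∨ L.kap (g⁻¹ * nU y * g) = -1) := by
  set c := g.1 1 0 with hc
  set d := g.1 1 1 with hd
  have hdt := dt_ne_zero g
  have hdet1 : ∀ y : F, L.v (dt (g⁻¹ * nU y * g)) = 1 := by
    intro y
    rw [dt_conj, dt_nU, map_one]
  have hπ : L.v (L.π : F) < 1 := by
    rw [L.hπ, ← exp_zero, exp_lt_exp]; norm_num
  have h1 : L.rd 1 = 1 := by
    have := L.rd_C 1
    rwa [map_one] at this
  rcases lt_or_ge (L.v d) (L.v c) with hlt | hge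
  · have hc0 : c ≠ 0 := by
      intro h0
      rw [h0] at hlt
      simp at hlt
    have hq : L.v (d / c) < 1 := by
      rw [map_div₀]
      exact (div_lt_one₀ (zero_lt_iff.2 ((Valuation.ne_zero_iff _).2 hc0))).2 hlt
    obtain ⟨e00, e01, e10, e11⟩ := conj_nU g (c⁻¹ * c⁻¹)
    simp only [← hc, ← hd] at e00 e01 e10 e11
    have f00 : 1 + c⁻¹ * c⁻¹ * (c * d) = 1 + d / c := by field_simp
    have f01 : c⁻¹ * c⁻¹ * (d * d) = d / c * (d / c) := by field_simp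
    have f10 : -(c⁻¹ * c⁻¹ * (c * c)) = -1 := by field_simp
    have f11 : 1 - c⁻¹ * c⁻¹ * (c * d) = 1 - d / c := by field_simp
    rw [f00] at e00
    rw [f01] at e01
    rw [f10] at e10
    rw [f11] at e11
    refine ⟨c⁻¹ * c⁻¹ * dt g, ⟨mem_Kc ?_ (hdet1 _), ?_, ?_, ?_⟩, Or.inr ?_⟩
    · intro i j
      fin_cases i <;> fin_cases j
      · change L.v ((g⁻¹ * nU (c⁻¹ * c⁻¹ * dt g) * g).1 0 0) ≤ 1
        rw [e00]
        exact Valuation.map_add_le _ (by simp) hq.le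
      · change L.v ((g⁻¹ * nU (c⁻¹ * c⁻¹ * dt g) * g).1 0 1) ≤ 1
        rw [e01]
        exact vmul_le1 hq.le hq.le
      · change L.v ((g⁻¹ * nU (c⁻¹ * c⁻¹ * dt g) * g).1 1 0) ≤ 1
        rw [e10]
        simp
      · change L.v ((g⁻¹ * nU (c⁻¹ * c⁻¹ * dt g) * g).1 1 1) ≤ 1
        rw [e11]
        exact (Valuation.map_sub _ _ _).trans (max_le (by simp) hq.le)
    · rw [e00, add_sub_cancel_left]
      exact hq
    · rw [e11, sub_sub_cancel_left, Valuation.map_neg]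
      exact hq
    · rw [e01]
      exact vmul_lt1 hq hq.le
    · unfold LD.kap
      rw [e01, e10, L.rd_lt, zero_add]
      · have h2 : (-1 : F) = L.C (-1) := by rw [map_neg, map_one]
        rw [h2, L.rd_C]
      · rw [map_mul, map_mul, Units.val_inv_eq_inv_val, map_inv₀, L.hπ]
        have h2 := lt_one_iff_exp.1 hq
        calc (exp (-1 : ℤ))⁻¹ * (L.v (d / c) * L.v (d / c)) ≤
            (exp (-1 : ℤ))⁻¹ * (exp (-1 : ℤ) * exp (-1 : ℤ)) := by gcongr
          _ = exp (-1 : ℤ) := by rw [← mul_assoc, inv_mul_cancel₀ (by simp), one_mul]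
          _ < 1 := by rw [← exp_zero, exp_lt_exp]; norm_num
  · have hd0 : d ≠ 0 := by
      intro h0
      rw [h0, map_zero] at hge
      have hc0 : c = 0 := by simpa using hge
      apply hdt
      unfold dt
      rw [← hc, ← hd, h0, hc0]
      ring
    have hq : L.v (c / d) ≤ 1 := by
      rw [map_div₀]
      exact div_le_one_of_le₀ hge zero_le
    obtain ⟨e00, e01, e10, e11⟩ := conj_nU g ((L.π : F) * (d⁻¹ * d⁻¹))
    simp only [← hc, ← hd] at e00 e01 e10 e11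
    have f00 : 1 + (L.π : F) * (d⁻¹ * d⁻¹) * (c * d) = 1 + (L.π : F) * (c / d) := by field_simp
    have f01 : (L.π : F) * (d⁻¹ * d⁻¹) * (d * d) = (L.π : F) := by field_simp
    have f10 : -((L.π : F) * (d⁻¹ * d⁻¹) * (c * c)) = -((L.π : F) * (c / d * (c / d))) := by
      field_simp
    have f11 : 1 - (L.π : F) * (d⁻¹ * d⁻¹) * (c * d) = 1 - (L.π : F) * (c / d) := by field_simp
    rw [f00] at e00
    rw [f01] at e01
    rw [f10] at e10
    rw [f11] at e11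
    refine ⟨(L.π : F) * (d⁻¹ * d⁻¹) * dt g, ⟨mem_Kc ?_ (hdet1 _), ?_, ?_, ?_⟩, Or.inl ?_⟩
    · intro i j
      fin_cases i <;> fin_cases j
      · change L.v ((g⁻¹ * nU ((L.π : F) * (d⁻¹ * d⁻¹) * dt g) * g).1 0 0) ≤ 1
        rw [e00]
        exact Valuation.map_add_le _ (by simp) (vmul_le1 hπ.le hq)
      · change L.v ((g⁻¹ * nU ((L.π : F) * (d⁻¹ * d⁻¹) * dt g) * g).1 0 1) ≤ 1
        rw [e01]
        exact hπ.le
      · change L.v ((g⁻¹ * nU ((L.π : F) * (d⁻¹ * d⁻¹) * dt g) * g).1 1 0) ≤ 1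
        rw [e10, Valuation.map_neg]
        exact vmul_le1 hπ.le (vmul_le1 hq hq)
      · change L.v ((g⁻¹ * nU ((L.π : F) * (d⁻¹ * d⁻¹) * dt g) * g).1 1 1) ≤ 1
        rw [e11]
        exact (Valuation.map_sub _ _ _).trans (max_le (by simp) (vmul_le1 hπ.le hq))
    · rw [e00, add_sub_cancel_left]
      exact vmul_lt1 hπ hq
    · rw [e11, sub_sub_cancel_left, Valuation.map_neg]
      exact vmul_lt1 hπ hq
    · rw [e01]
      exact hπ
    · unfold LD.kap
      rw [e01, e10, ← Units.val_mul, inv_mul_cancel, Units.val_one, h1, L.rd_lt, add_zero]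
      rw [Valuation.map_neg]
      exact vmul_lt1 hπ (vmul_le1 hq hq)

end loc

/-- global translations -/
theorem exists_uA (g : GA k) : ∃ u : Ad k, g⁻¹ * nA u * g ∈ Sg k ∧
    ∀ ψ : AddChar k ℂ, ψ 1 ≠ 1 → Psi ψ (g⁻¹ * nA u * g) ≠ 1 := by
  obtain ⟨y, hy, hk⟩ := exists_u (L0 (k := k)) (lv v0 g.2)
  set s : GL (Fin 2) (Afin k) := g.2⁻¹ * nU (mkOne v0 y) * g.2 with hs
  have e : g⁻¹ * nA (0, mkOne v0 y) * g = (1, s) := by
    refine Prod.ext ?_ rfl
    change g.1⁻¹ * nU 0 * g.1 = 1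
    rw [nU_zero]
    group
  have e0 : lv v0 s = (lv v0 g.2)⁻¹ * nU y * lv v0 g.2 := by
    rw [hs, map_mul, map_mul, map_inv, map_nU, ev_mkOne]
  have e1 : ∀ w ≠ v0, lv w s = 1 := by
    intro w hw
    rw [hs, map_mul, map_mul, map_inv, map_nU, ev_mkOne_ne hw, nU_zero, mul_one, inv_mul_cancel]
  have hK : s ∈ Kf k := by
    intro w
    by_cases hw : w = v0
    · subst hw
      change lv v0 s ∈ _
      rw [e0]
      exact hy.1
    · change lv w s ∈ _
      rw [e1 w hw]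
      exact one_mem _
  refine ⟨(0, mkOne v0 y), ?_, fun ψ hψ => ?_⟩
  · rw [e]
    exact mem_Sg_F hK (by rw [e0]; exact hy)
  · rw [e, Psi_F, e0]
    rcases hk with hk | hk
    · rw [hk]; exact hψ
    · rw [hk]
      intro h1
      apply hψ
      have h2 : ψ (-1) * ψ 1 = 1 := by
        rw [← AddChar.map_add_eq_mul, neg_add_cancel, AddChar.map_zero_eq_one]
      rw [h1, one_mul] at h2
      exact h2

theorem nA_add (x y : Ad k) : nA (x + y) = nA x * nA y :=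
  Prod.ext (nU_mul _ _).symm (nU_mul _ _).symm

theorem fA_trans (ψ : AddChar k ℂ) (hψ : ψ 1 ≠ 1) (g : GA k) : ∃ (u : Ad k) (c : ℂ), c ≠ 1 ∧
    ∀ x, fA ψ (nA (x + u) * g) = c * fA ψ (nA x * g) := by
  obtain ⟨u, hu, hc⟩ := exists_uA g
  refine ⟨u, Psi ψ (g⁻¹ * nA u * g), hc ψ hψ, fun x => ?_⟩
  have e : nA (x + u) * g = nA x * g * (g⁻¹ * nA u * g) := by
    rw [nA_add]
    group
  rw [e, fA_right ψ _ hu]

/-! ### Finiteness of `A / (K + W)` -/

theorem mem_PK (y : RatFunc k) : ((algebraMap (RatFunc k) (Kinf k) y,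
    algebraMap (RatFunc k) (Afin k) y) : Ad k) ∈ PK k := ⟨y, rfl⟩

theorem Ad_dec (x : Ad k) : ∃ κ ∈ PK k, ∃ z : Ad k, vI k z.1 ≤ 1 ∧ (∀ v, Valued.v (ev v z.2) ≤ 1) ∧
    x = κ + z := by
  obtain ⟨y, hy⟩ := sa x.2
  obtain ⟨p, hp⟩ := exists_poly_inf (x.1 - algebraMap _ _ y)
  refine ⟨_, mem_PK (y + algebraMap k[X] (RatFunc k) p), (x.1 - algebraMap (RatFunc k) (Kinf k)
    (y + algebraMap k[X] (RatFunc k) p), x.2 - algebraMap (RatFunc k) (Afin k)
    (y + algebraMap k[X] (RatFunc k) p)), ?_, fun v => ?_, ?_⟩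
  · rw [map_add, ← sub_sub]
    exact hp.le
  · simp only
    rw [map_sub, ev_algebraMap, map_add, ← sub_sub]
    exact (Valuation.map_sub _ _ _).trans (max_le (hy v) (vfin_poly_le v p))
  · refine Prod.ext ?_ ?_
    · change x.1 = algebraMap (RatFunc k) (Kinf k) _ + (x.1 - algebraMap (RatFunc k) (Kinf k) _)
      ring
    · change x.2 = algebraMap (RatFunc k) (Afin k) _ + (x.2 - algebraMap (RatFunc k) (Afin k) _)
      ring

theorem finite_Ad [Fintype k] (n : ℕ) {r : k[X]} (hr : r ≠ 0) :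
    Finite (Ad k ⧸ (PK k ⊔ WA n r)) := by
  obtain ⟨D, hD⟩ := exists_digits (Linf (k := k)) n
  obtain ⟨D', hD'⟩ := exists_digits_fin hr
  choose κ hκ z hz1 hz2 hx using fun x : Ad k => Ad_dec x
  let f : (Ad k ⧸ (PK k ⊔ WA n r)) → (Fin n → k) × (Fin r.natDegree → k) :=
    fun c => (D (z (Quotient.out c)).1, D' (z (Quotient.out c)).2)
  refine Finite.of_injective f fun c c' hcc => ?_
  have h1 : D (z (Quotient.out c)).1 = D (z (Quotient.out c')).1 := congrArg Prod.fst hcc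
  have h2 : D' (z (Quotient.out c)).2 = D' (z (Quotient.out c')).2 := congrArg Prod.snd hcc
  have h3 := hD _ _ (hz1 _) (hz1 _) h1.symm
  have h4 := hD' _ _ (hz2 _) (hz2 _) h2.symm
  have h5 : -Quotient.out c + Quotient.out c' ∈ PK k ⊔ WA n r := by
    have e : -Quotient.out c + Quotient.out c' =
        (-κ (Quotient.out c) + κ (Quotient.out c')) + (z (Quotient.out c') - z (Quotient.out c)) := by
      conv_lhs => rw [hx (Quotient.out c), hx (Quotient.out c')]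
      abel
    rw [e]
    refine AddSubgroup.add_mem_sup (add_mem (neg_mem (hκ _)) (hκ _)) ⟨h3, fun v => ?_⟩
    rw [Prod.snd_sub, map_sub]
    exact h4 v
  rw [← QuotientAddGroup.eq] at h5
  simpa using h5

/-! ### Vanishing of the constant term -/

/-- a variant of `ConstTermZero` which is stable under sums -/
def CTZ (F : GA k → ℂ) (g : GA k) : Prop := ∃ (n₀ : ℕ) (r₀ : k[X]), r₀ ≠ 0 ∧
  ∀ n r, n₀ ≤ n → r ≠ 0 → r₀ ∣ r → (∀ x, ∀ w ∈ WA n r, F (nA (x + w) * g) = F (nA x * g)) ∧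
  ∑ᶠ c : Ad k ⧸ (PK k ⊔ WA n r), F (nA (Quotient.out c) * g) = 0

theorem CTZ.const [Fintype k] {F : GA k → ℂ} (h : ∀ g, CTZ F g) : ConstTermZero F := by
  intro g
  obtain ⟨n, r, hr, h1⟩ := h g
  obtain ⟨h2, h3⟩ := h1 n r le_rfl hr dvd_rfl
  exact ⟨n, r, hr, h2, finite_Ad n hr, h3⟩

theorem CTZ.add [Fintype k] {F F' : GA k → ℂ} {g : GA k} (h : CTZ F g) (h' : CTZ F' g) :
    CTZ (F + F') g := by
  obtain ⟨n, r, hr, h1⟩ := h
  obtain ⟨n', r', hr', h1'⟩ := h'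
  refine ⟨max n n', r * r', mul_ne_zero hr hr', fun m s hm hs hrs => ?_⟩
  obtain ⟨a1, a2⟩ := h1 m s ((le_max_left _ _).trans hm) hs ((dvd_mul_right _ _).trans hrs)
  obtain ⟨b1, b2⟩ := h1' m s ((le_max_right _ _).trans hm) hs ((dvd_mul_left _ _).trans hrs)
  have hf := finite_Ad m hs
  refine ⟨fun x w hw => ?_, ?_⟩
  · rw [Pi.add_apply, Pi.add_apply, a1 x w hw, b1 x w hw]
  · simp only [Pi.add_apply]
    rw [finsum_add_distrib (Set.toFinite _) (Set.toFinite _), a2, b2, add_zero]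

theorem CTZ.smul {F : GA k → ℂ} {g : GA k} (h : CTZ F g) (c : ℂ) : CTZ (c • F) g := by
  obtain ⟨n, r, hr, h1⟩ := h
  refine ⟨n, r, hr, fun m s hm hs hrs => ?_⟩
  obtain ⟨a1, a2⟩ := h1 m s hm hs hrs
  refine ⟨fun x w hw => ?_, ?_⟩
  · rw [Pi.smul_apply, Pi.smul_apply, a1 x w hw]
  · simp only [Pi.smul_apply]
    rw [← smul_finsum, a2, smul_zero]

theorem CTZ.zero (g : GA k) : CTZ (0 : GA k → ℂ) g :=
  ⟨0, 1, one_ne_zero, fun _ _ _ _ _ => ⟨fun _ _ _ => rfl, by simp⟩⟩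

theorem CTZ.trans {F : GA k → ℂ} {g : GA k} (h : GA k) (H : CTZ F (g * h)) : CTZ (RT k h F) g := by
  obtain ⟨n, r, hr, h1⟩ := H
  refine ⟨n, r, hr, fun m s hm hs hrs => ?_⟩
  obtain ⟨a1, a2⟩ := h1 m s hm hs hrs
  refine ⟨fun x w hw => ?_, ?_⟩
  · rw [RT_apply, RT_apply, mul_assoc, mul_assoc]
    exact a1 x w hw
  · simp only [RT_apply, mul_assoc]
    exact a2

theorem WA_mono {n m : ℕ} (h : n ≤ m) {r s : k[X]} (h' : r ∣ s) : WA m s ≤ WA n r := by
  intro x hx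
  refine ⟨hx.1.trans ?_, fun v => (hx.2 v).trans (vp_dvd v h')⟩
  rw [exp_le_exp]
  omega

theorem nA_mem_cong {n : ℕ} {r : k[X]} {w : Ad k} (hw : w ∈ WA n r) : nA w ∈ cong n r := by
  refine mem_cong.2 ⟨nU_mem_Um hw.1, fun v => ?_⟩
  change lv v (nU w.2) ∈ _
  rw [map_nU]
  refine ⟨Iw_le _ (nU_mem_Iw ((hw.2 v).trans (vp_le v r))), fun i j => ?_⟩
  fin_cases i <;> fin_cases j <;> simp [nU_val] <;> simpa using hw.2 v

theorem sum_trans {Q : Type*} [AddCommGroup Q] [Finite Q] (Φ : Q → ℂ) (u : Q) (c : ℂ) (hc : c ≠ 1)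
    (h : ∀ q, Φ (q + u) = c * Φ q) : ∑ᶠ q, Φ q = 0 := by
  have _ := Fintype.ofFinite Q
  rw [finsum_eq_sum_of_fintype]
  have h1 : ∑ q, Φ q = c * ∑ q, Φ q := by
    rw [Finset.mul_sum]
    have e := Fintype.sum_equiv (Equiv.addRight u) (fun q => Φ (q + u)) Φ (fun q => rfl)
    rw [← e]
    exact Finset.sum_congr rfl fun q _ => h q
  have h2 : (1 - c) * ∑ q, Φ q = 0 := by linear_combination h1
  rcases mul_eq_zero.1 h2 with h | h
  · exact absurd (sub_eq_zero.1 h).symm hc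
  · exact h

theorem fA_CTZ [Fintype k] (ψ : AddChar k ℂ) (hψ : ψ 1 ≠ 1) (g : GA k) : CTZ (fA ψ) g := by
  obtain ⟨n, r, hr, hn⟩ := fA_sm ψ
  obtain ⟨m, s, hs, hm⟩ := conj_cong g n hr
  refine ⟨m, s, hs, fun m' s' hm' hs' hss' => ?_⟩
  have hinv : ∀ x, ∀ w ∈ WA m' s', fA ψ (nA (x + w) * g) = fA ψ (nA x * g) := by
    intro x w hw
    have h1 := hm _ (nA_mem_cong (WA_mono hm' hss' hw))
    have h2 := congrFun (hn _ h1) (nA x * g)
    rw [RT_apply] at h2
    rw [← h2]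
    congr 1
    rw [nA_add]
    group
  refine ⟨hinv, ?_⟩
  obtain ⟨u, c, hc, hu⟩ := fA_trans ψ hψ g
  have hf := finite_Ad m' hs'
  have hinv' : ∀ x, ∀ w ∈ PK k ⊔ WA m' s', fA ψ (nA (x + w) * g) = fA ψ (nA x * g) := by
    intro x w hw
    obtain ⟨κ, ⟨y, hy⟩, w', hw', rfl⟩ := AddSubgroup.mem_sup.1 hw
    have e : nA (x + (κ + w')) * g = dgl (nU y) * (nA (x + w') * g) := by
      have h1 : nA κ = dgl (nU y) := by
        rw [← hy]
        exact Prod.ext (map_nU _ _).symm (map_nU _ _).symm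
      have h2 : x + (κ + w') = κ + (x + w') := by abel
      rw [h2, nA_add κ, h1, mul_assoc]
    rw [e, fA_left, hinv x w' hw']
  refine sum_trans (fun q : Ad k ⧸ (PK k ⊔ WA m' s') => fA ψ (nA (Quotient.out q) * g))
    (QuotientAddGroup.mk u) c hc fun q => ?_
  rw [← hu]
  have h1 : -(Quotient.out q + u) + Quotient.out (q + (QuotientAddGroup.mk u :
      Ad k ⧸ (PK k ⊔ WA m' s'))) ∈ PK k ⊔ WA m' s' := by
    rw [← QuotientAddGroup.eq]
    simp
  rw [← hinv' (Quotient.out q + u) _ h1]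
  congr 2
  abel_nf

theorem cyc_cusp [Fintype k] (ψ : AddChar k ℂ) (hψ : ψ 1 ≠ 1) :
    ∀ w ∈ cyc (RT k) (fA ψ), IsCuspForm w := by
  intro w hw
  refine ⟨aut_of_st (fA_left ψ) (fA_sm ψ) (fA_st ψ hψ) w hw, CTZ.const ?_⟩
  unfold cyc at hw
  induction hw using Submodule.span_induction with
  | mem x hx =>
    obtain ⟨g, rfl⟩ := hx
    exact fun g' => (fA_CTZ ψ hψ _).trans g
  | zero => exact CTZ.zero
  | add x y _ _ hx hy => exact fun g => (hx g).add (hy g)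
  | smul a x _ hx => exact fun g => (hx g).smul a

theorem exists_psi (k : Type) [Field k] [Fintype k] : ∃ ψ : AddChar k ℂ, ψ 1 ≠ 1 :=
  AddChar.exists_apply_ne_zero.2 one_ne_zero

/-- **The cuspidal automorphic representation.** -/
theorem exists_A (k : Type) [Field k] [Fintype k] : ∃ (P : GRep k) (v : P.V), IsCuspidal P ∧
    v ≠ 0 ∧ StVec Linf (rI P.ρ) v 0 := by
  obtain ⟨ψ, hψ⟩ := exists_psi k
  have hne : (⟨fA ψ, self_mem_cyc _ _⟩ : cyc (RT k) (fA ψ)) ∉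
      (⊥ : Submodule ℂ (cyc (RT k) (fA ψ))) := by
    intro h
    have h1 : fA ψ = 0 := congrArg Subtype.val ((Submodule.mem_bot ℂ).1 h)
    have h2 := fA_one ψ
    rw [h1] at h2
    exact zero_ne_one h2
  obtain ⟨M, -, hv, hM, hirr⟩ := exists_max (subR (RT k) _ (cyc_st (RT k) (fA ψ)))
    (cyc_sub (RT k) (fA ψ)) (N := ⊥) (fun g x hx => by
      rw [(Submodule.mem_bot ℂ).1 hx, map_zero]
      exact Submodule.zero_mem _) hne
  refine ⟨⟨_, quoR _ M hM, ⟨M.mkQ ⟨fA ψ, self_mem_cyc _ _⟩, mkQ_ne hv⟩, hirr,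
    sm_quo (sm_sub (fA_sm ψ)) M hM⟩, M.mkQ ⟨fA ψ, self_mem_cyc _ _⟩, ?_, mkQ_ne hv, ?_⟩
  · exact ⟨cyc (RT k) (fA ψ), cyc_st _ _, cyc_cusp ψ hψ, M.mkQ, M.mkQ_surjective, fun g F => rfl⟩
  · exact st_quo (st_sub (fA_st ψ hψ) (Submodule.zero_mem _)) M hM (Submodule.zero_mem _)

end

end Pool.Agent.Q260.AL
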