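import Pool.Agent.Q260.AL.Quo

/-!
# Automorphic forms and automorphic representations of `GL₂` over `K = k(t)`

* `GA k = GL₂(K_∞) × GL₂(A_f) = GL₂(A)`, `dgl : GL₂(K) → GL₂(A)` the diagonal embedding;
* `cong n r` (`n ≥ 0`, `0 ≠ r ∈ k[t]`) the principal congruence subgroups of `GL₂(A)`, a basis of
  the neighbourhoods of `1`; smooth vectors are the vectors fixed by one of them;
* `RT k`: right translation.
-/

set_option autoImplicit false
set_option linter.unusedSectionVars false

namespace Pool.Agent.Q260.AL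

open IsDedekindDomain Polynomial WithZero
open Matrix (GeneralLinearGroup)
open scoped WithZero MatrixGroups

noncomputable section

/-- right translation on functions on `GL₂(A)` -/
def RT (k : Type) [Field k] : Representation ℂ (GA k) (GA k → ℂ) where
  toFun g :=
    { toFun := fun F x => F (x * g)
      map_add' := fun _ _ => rfl
      map_smul' := fun _ _ => rfl }
  map_one' := by
    ext F x
    simp
  map_mul' g h := by
    ext F x
    simp [mul_assoc]

variable {k : Type} [Field k]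

theorem RT_apply (g : GA k) (F : GA k → ℂ) (x : GA k) : RT k g F x = F (x * g) := rfl

/-- the subspace of the vectors which are fixed by `H` -/
def fixed {G V : Type*} [Group G] [AddCommGroup V] [Module ℂ V] (ρ : Representation ℂ G V)
    (H : Subgroup G) : Submodule ℂ V where
  carrier := {w | ∀ h ∈ H, ρ h w = w}
  add_mem' {a b} ha hb h hh := by rw [map_add, ha h hh, hb h hh]
  zero_mem' h _ := map_zero _
  smul_mem' c x hx h hh := by rw [map_smul, hx h hh]

/-- **Automorphic forms** (Borel-Jacquet): left invariant under `GL₂(K)`, right invariant under a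
congruence subgroup, and the translates under `GL₂(K_∞)` span an admissible representation of
`GL₂(K_∞)` -/
structure IsAutForm (F : GA k → ℂ) : Prop where
  left : ∀ (γ : GL (Fin 2) (RatFunc k)) (g : GA k), F (dgl γ * g) = F g
  smooth : SmV (RT k) F
  adm : ∀ m : ℕ, FiniteDimensional ℂ
    ↥(cyc (rI (RT k)) F ⊓ fixed (rI (RT k)) (Um (vI k) m))

/-- the principal adeles -/
def PK (k : Type) [Field k] : AddSubgroup (Ad k) :=
  (((algebraMap (RatFunc k) (Kinf k)).prod (algebraMap (RatFunc k) (Afin k))).toAddMonoidHom).range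

/-- the open subgroups `π^n O_∞ × r Ô` of `A` -/
def WA (n : ℕ) (r : k[X]) : AddSubgroup (Ad k) where
  carrier := {x | vI k x.1 ≤ exp (-(n : ℤ)) ∧ ∀ v, Valued.v (ev v x.2) ≤ vp v r}
  add_mem' {a b} ha hb := ⟨Valuation.map_add_le _ ha.1 hb.1, fun v => by
    change Valued.v (ev v (a.2 + b.2)) ≤ _
    rw [map_add]
    exact Valuation.map_add_le _ (ha.2 v) (hb.2 v)⟩
  zero_mem' := ⟨by simp, fun v => by simp⟩
  neg_mem' {a} ha := ⟨by rw [Prod.fst_neg, Valuation.map_neg]; exact ha.1, fun v => by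
    rw [Prod.snd_neg, map_neg, Valuation.map_neg]
    exact ha.2 v⟩

/-- the unipotent matrix `(1, x; 0, 1)` with `x ∈ A` -/
def nA (x : Ad k) : GA k := (nU x.1, nU x.2)

/-- the constant term vanishes: `∫_{A/K} F(n(x) g) dx = 0` for all `g`. The integral of the locally
constant function `x ↦ F(n(x) g)` on the compact group `A/K` is, up to a positive factor, the sum
over the finite group `A / (K + W)` for an open subgroup `W` under which the function is
invariant. -/
def ConstTermZero (F : GA k → ℂ) : Prop := ∀ g : GA k, ∃ (n : ℕ) (r : k[X]), r ≠ 0 ∧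
  (∀ x, ∀ w ∈ WA n r, F (nA (x + w) * g) = F (nA x * g)) ∧
  Finite (Ad k ⧸ (PK k ⊔ WA n r)) ∧
  ∑ᶠ c : Ad k ⧸ (PK k ⊔ WA n r), F (nA (Quotient.out c) * g) = 0

/-- cusp forms -/
def IsCuspForm (F : GA k → ℂ) : Prop := IsAutForm F ∧ ConstTermZero F

/-- irreducible smooth representations of `GL₂(A)` -/
structure GRep (k : Type) [Field k] where
  V : Type
  [ac : AddCommGroup V]
  [md : Module ℂ V]
  ρ : Representation ℂ (GA k) V
  ne : ∃ w : V, w ≠ 0
  irr : IrrRep ρ
  sm : ∀ w, SmV ρ w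

attribute [instance] GRep.ac GRep.md

/-- irreducible smooth representations of `GL₂(F)`, `F` a field with a discrete valuation -/
structure LRep (F : Type) [Field F] (v : Valuation F ℤᵐ⁰) where
  V : Type
  [ac : AddCommGroup V]
  [md : Module ℂ V]
  ρ : Representation ℂ (GL (Fin 2) F) V
  ne : ∃ w : V, w ≠ 0
  irr : IrrRep ρ
  sm : ∀ w, ∃ m : ℕ, ∀ g ∈ Um v m, ρ g w = w

attribute [instance] LRep.ac LRep.md

/-- `P` is a quotient of an invariant space of functions with the property `C` -/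
def SubQuo (C : (GA k → ℂ) → Prop) (P : GRep k) : Prop :=
  ∃ (W : Submodule ℂ (GA k → ℂ)) (hW : St' (RT k) W), (∀ F ∈ W, C F) ∧
    ∃ T : W →ₗ[ℂ] P.V, Function.Surjective T ∧ ∀ g F, T (subR (RT k) W hW g F) = P.ρ g (T F)

/-- **Automorphic representations**: the irreducible subquotients of the space of automorphic
forms -/
def IsAutomorphic (P : GRep k) : Prop := SubQuo IsAutForm P

/-- cuspidal automorphic representations -/
def IsCuspidal (P : GRep k) : Prop := SubQuo IsCuspForm P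

/-- `σ` is the component of `P` at `∞` -/
def CompI (σ : LRep (Kinf k) (vI k)) (P : GRep k) : Prop :=
  ∃ T : σ.V →ₗ[ℂ] P.V, T ≠ 0 ∧ ∀ x w, T (σ.ρ x w) = P.ρ (x, 1) (T w)

/-- `σ` is the component of `P` at the finite place `v` -/
def CompF (v : HeightOneSpectrum k[X]) (σ : LRep (Kfin k v) Valued.v) (P : GRep k) : Prop :=
  ∃ T : σ.V →ₗ[ℂ] P.V, T ≠ 0 ∧ ∀ h : GL (Fin 2) (Afin k), (∀ u ≠ v, lv u h = 1) →
    ∀ w, T (σ.ρ (lv v h) w) = P.ρ (1, h) (T w)

/-- unramified representations: there is a nonzero vector fixed by `GL₂(O)` -/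
def Unr {F : Type} [Field F] {v : Valuation F ℤᵐ⁰} (σ : LRep F v) : Prop :=
  ∃ w : σ.V, w ≠ 0 ∧ ∀ g ∈ Kc v, σ.ρ g w = w

/-- the principal ideles -/
def dI : (RatFunc k)ˣ →* Id k :=
  (Units.map (algebraMap (RatFunc k) (Kinf k)).toMonoidHom).prod
    (Units.map (algebraMap (RatFunc k) (Afin k)).toMonoidHom)

/-- the idele norm -/
def idn (x : Id k) : ℝ := (Nat.card k : ℝ) ^ log (vI k (x.1 : Kinf k)) *
  ∏ᶠ v : HeightOneSpectrum k[X], (Nat.card (k[X] ⧸ v.asIdeal) : ℝ) ^
    log (Valued.v (ev v (x.2 : Afin k)))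

/-- the diagonal matrices with entries in the ideles -/
def dA (a d : Id k) : GA k := (dg a.1 d.1, dg a.2 d.2)

/-- Hecke characters -/
def IsHecke (χ : Id k →* ℂˣ) : Prop := (∀ x, χ (dI x) = 1) ∧
  ∃ (n : ℕ) (r : k[X]), r ≠ 0 ∧ ∀ x, dA x 1 ∈ cong n r → χ x = 1

/-- `P = χ₁ ⊞ χ₂`: the exponent of `χ₁` is at least the exponent of `χ₂`, and `P` is a
subrepresentation of the normalised induced representation of `(χ₂, χ₁)`; locally, this is the
Langlands quotient of the representation induced from `(χ₁, χ₂)` -/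
def IsSum (χ₁ χ₂ : Id k →* ℂˣ) (P : GRep k) : Prop :=
  (∀ x, 1 ≤ idn x → ‖(χ₂ x : ℂ)‖ ≤ ‖(χ₁ x : ℂ)‖) ∧
  ∃ T : P.V →ₗ[ℂ] (GA k → ℂ), T ≠ 0 ∧ (∀ g w, T (P.ρ g w) = RT k g (T w)) ∧
    ∀ w a d x g, T w (dA a d * nA x * g) =
      χ₂ a * χ₁ d * ((Real.sqrt (idn (a / d)) : ℝ) : ℂ) * T w g

/-- isobaric automorphic representations of `GL₂(A)` -/
def IsIsobaric (P : GRep k) : Prop := IsAutomorphic P ∧
  (IsCuspidal P ∨ ∃ χ₁ χ₂ : Id k →* ℂˣ, IsHecke χ₁ ∧ IsHecke χ₂ ∧ IsSum χ₁ χ₂ P)

/-- `P` is the global lifting of `π` for the standard representation of `GL₂` -/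
def IsLift (π P : GRep k) : Prop := IsIsobaric P ∧
  (∀ σ : LRep (Kinf k) (vI k), Unr σ → CompI σ π → CompI σ P) ∧
  (∀ v, ∀ σ : LRep (Kfin k v) Valued.v, Unr σ → CompF v σ π → CompF v σ P)

end

end Pool.Agent.Q260.AL
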