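import Pool.Agent.Q260.AL.Cu

/-!
# Components at infinity
-/

set_option autoImplicit false
set_option linter.unusedSectionVars false

namespace Pool.Agent.Q260.AL

open IsDedekindDomain Polynomial WithZero
open Matrix (GeneralLinearGroup)
open scoped WithZero MatrixGroups

noncomputable section

variable {k : Type} [Field k] [Fintype k]

section irr

variable {V : Type*} [AddCommGroup V] [Module ℂ V] {ρ : Representation ℂ (GA k) V} {v : V}

theorem cyc_mod (h : StVec Linf (rI ρ) v 0) {n : V} (hn : n ∈ cyc (rI ρ) v) :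
    ∃ l : ℂ, n - l • v ∈ aug (rI ρ) (Iw (Linf (k := k)).v) := by
  unfold cyc at hn
  induction hn using Submodule.span_induction with
  | mem x hx =>
    obtain ⟨g, rfl⟩ := hx
    exact h.mod_iw0 g
  | zero => exact ⟨0, by simp⟩
  | add x y _ _ hx hy =>
    obtain ⟨l, hl⟩ := hx
    obtain ⟨l', hl'⟩ := hy
    refine ⟨l + l', ?_⟩
    have : x + y - (l + l') • v = (x - l • v) + (y - l' • v) := by
      rw [add_smul]; abel
    rw [this]
    exact Submodule.add_mem _ hl hl'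
  | smul a x _ hx =>
    obtain ⟨l, hl⟩ := hx
    refine ⟨a * l, ?_⟩
    rw [mul_smul, ← smul_sub]
    exact Submodule.smul_mem _ _ hl

theorem FO_Iw (hs : ∀ w, SmV ρ w) : FO (rI ρ) (Iw (Linf (k := k)).v) :=
  (FO_I hs).mono _ (Iw_le _)

/-- **The `GL₂(K_∞)`-span of a Steinberg vector in an irreducible representation of `GL₂(A)` is
irreducible.** -/
theorem irr_M (hs : ∀ w, SmV ρ w) (hi : IrrRep ρ) (hv : v ≠ 0) (h : StVec Linf (rI ρ) v 0) :
    IrrRep (subR (rI ρ) (cyc (rI ρ) v) (cyc_st (rI ρ) v)) := by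
  intro N hN
  by_cases hvN : (⟨v, self_mem_cyc (rI ρ) v⟩ : cyc (rI ρ) v) ∈ N
  · right
    have h1 := cyc_le _ hN hvN
    rw [cyc_sub] at h1
    exact top_le_iff.1 h1
  left
  rw [eq_bot_iff]
  intro w hw
  by_contra hw0
  have hw0' : (w : V) ≠ 0 := fun h0 => hw0 (by
    rw [Submodule.mem_bot]
    exact Subtype.ext h0)
  have hfo := FO_Iw hs
  -- all elements of `N` are in `aug`
  have hNaug : ∀ n : cyc (rI ρ) v, n ∈ N → (n : V) ∈ aug (rI ρ) (Iw (Linf (k := k)).v) := by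
    intro n hn
    obtain ⟨l, hl⟩ := cyc_mod h n.2
    by_cases hl0 : l = 0
    · rw [hl0, zero_smul, sub_zero] at hl
      exact hl
    exfalso
    apply hvN
    have h1 : l⁻¹ • (n : V) - v ∈ aug (rI ρ) (Iw (Linf (k := k)).v) := by
      have e : l⁻¹ • (n : V) - v = l⁻¹ • ((n : V) - l • v) := by
        rw [smul_sub, smul_smul, inv_mul_cancel₀ hl0, one_smul]
      rw [e]
      exact Submodule.smul_mem _ _ hl
    have h2 := avg_mem' (rI ρ) hfo (fun i hi => h.iw i hi) h1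
    have h3 : Submodule.span ℂ (Set.range fun i => rI ρ i (l⁻¹ • (n : V))) ≤
        N.map (cyc (rI ρ) v).subtype := by
      rw [Submodule.span_le]
      rintro x ⟨i, rfl⟩
      refine ⟨subR (rI ρ) (cyc (rI ρ) v) (cyc_st (rI ρ) v) i (l⁻¹ • n),
        hN i _ (Submodule.smul_mem _ _ hn), rfl⟩
    obtain ⟨y, hy, hy'⟩ := h3 h2
    have : y = ⟨v, self_mem_cyc (rI ρ) v⟩ := Subtype.ext hy'
    rwa [← this]
  have h1 : cyc ρ (w : V) ≤ aug (rI ρ) (Iw (Linf (k := k)).v) := by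
    unfold cyc
    rw [Submodule.span_le]
    rintro x ⟨g, rfl⟩
    simp only
    rw [rIF']
    exact rF_aug _ (hNaug _ (hN g.1 w hw))
  rw [irr_cyc hi hw0'] at h1
  exact hv (eq_zero_of_mem_aug' (rI ρ) hfo (fun i hi => h.iw i hi) (h1 trivial))

/-- an irreducible representation with a Steinberg vector has no vectors fixed by
`GL₂(O_∞)` -/
theorem no_fixed (hs : ∀ w, SmV ρ w) (hi : IrrRep ρ) (hv : v ≠ 0) (h : StVec Linf (rI ρ) v 0)
    {w : V} (hw : ∀ κ ∈ Kc (vI k), rI ρ κ w = w) : w = 0 := by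
  have h1 : cyc ρ v ≤ aug (rI ρ) (Kc (vI k)) := by
    unfold cyc
    rw [Submodule.span_le]
    rintro x ⟨g, rfl⟩
    simp only
    rw [rIF']
    have h2 : rI ρ g.1 v ∈ aug (rI ρ) (Kc (Linf (k := k)).v) := h.mem_augK g.1
    exact rF_aug _ h2
  rw [irr_cyc hi hv] at h1
  exact eq_zero_of_mem_aug' (rI ρ) (FO_I hs) hw (h1 trivial)

theorem st_M (h : StVec Linf (rI ρ) v 0) :
    StVec Linf (subR (rI ρ) (cyc (rI ρ) v) (cyc_st (rI ρ) v)) ⟨v, self_mem_cyc _ _⟩ 0 where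
  iw g hg := Subtype.ext (h.iw g hg)
  om := Subtype.ext h.om
  sum := by
    refine Subtype.ext ?_
    rw [Submodule.coe_add, Submodule.coe_sum]
    exact h.sum
  const g := map_zero _

end irr

/-- the component at infinity -/
def compM (P : GRep k) {v : P.V} (hv : v ≠ 0) (h : StVec Linf (rI P.ρ) v 0) :
    LRep (Kinf k) (vI k) where
  V := cyc (rI P.ρ) v
  ρ := subR (rI P.ρ) (cyc (rI P.ρ) v) (cyc_st (rI P.ρ) v)
  ne := ⟨⟨v, self_mem_cyc _ _⟩, fun h0 => hv (congrArg Subtype.val h0)⟩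
  irr := irr_M P.sm P.irr hv h
  sm w := by
    obtain ⟨n, r, -, hn⟩ := P.sm (w : P.V)
    exact ⟨n, fun g hg => Subtype.ext (hn (g, 1) (mem_cong.2 ⟨hg, one_mem _⟩))⟩

theorem compM_comp (P : GRep k) {v : P.V} (hv : v ≠ 0) (h : StVec Linf (rI P.ρ) v 0) :
    CompI (compM P hv h) P := by
  refine ⟨(cyc (rI P.ρ) v).subtype, fun h0 => hv ?_, fun x w => rfl⟩
  have := congrArg (fun T : (cyc (rI P.ρ) v) →ₗ[ℂ] P.V => T ⟨v, self_mem_cyc _ _⟩) h0
  exact this

/-- the component at infinity is determined by the existence of a Steinberg vector -/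
theorem compM_comp' (P Q : GRep k) {v : P.V} (hv : v ≠ 0) (h : StVec Linf (rI P.ρ) v 0)
    {w : Q.V} (hw : w ≠ 0) (h' : StVec Linf (rI Q.ρ) w 0) :
    CompI (compM P hv h) Q := by
  have hP : FO (subR (rI P.ρ) (cyc (rI P.ρ) v) (cyc_st (rI P.ρ) v)) (Iw (Linf (k := k)).v) := by
    intro x
    have h1 := FO_Iw P.sm (x : P.V)
    refine Subgroup.finiteIndex_of_le (H := stab (res (rI P.ρ) (Iw (Linf (k := k)).v)) (x : P.V)) ?_
    intro i hi
    exact Subtype.ext hi
  have hQ : FO (subR (rI Q.ρ) (cyc (rI Q.ρ) w) (cyc_st (rI Q.ρ) w)) (Iw (Linf (k := k)).v) := by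
    intro x
    have h1 := FO_Iw Q.sm (x : Q.V)
    refine Subgroup.finiteIndex_of_le (H := stab (res (rI Q.ρ) (Iw (Linf (k := k)).v)) (x : Q.V)) ?_
    intro i hi
    exact Subtype.ext hi
  obtain ⟨T, hT, hT'⟩ := StVec.uniq (st_M h) (st_M h')
    (fun h0 => hv (congrArg Subtype.val h0)) (fun h0 => hw (congrArg Subtype.val h0))
    (irr_M P.sm P.irr hv h) (irr_M Q.sm Q.irr hw h') hP hQ
  refine ⟨(cyc (rI Q.ρ) w).subtype.comp T, fun h0 => hT ?_, fun x y => ?_⟩
  · refine LinearMap.ext fun x => Subtype.ext ?_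
    have := congrArg (fun S : (cyc (rI P.ρ) v) →ₗ[ℂ] Q.V => S x) h0
    exact this
  · have := congrArg Subtype.val (hT' x y)
    exact this

/-- components of a representation with a Steinberg vector at infinity are ramified -/
theorem not_unr {P : GRep k} {v : P.V} (hv : v ≠ 0) (h : StVec Linf (rI P.ρ) v 0)
    {σ : LRep (Kinf k) (vI k)} (hσ : Unr σ) : ¬ CompI σ P := by
  rintro ⟨T, hT, hT'⟩
  obtain ⟨w, hw, hw'⟩ := hσ
  have hinj := irr_inj (ρ := σ.ρ) (ρ' := rI P.ρ) σ.irr T hT' hT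
  apply hw
  apply hinj
  rw [map_zero]
  refine no_fixed P.sm P.irr hv h fun κ hκ => ?_
  rw [← hw' κ hκ]
  have h1 := hT' κ w
  rw [hw' κ hκ] at h1 ⊢
  exact h1.symm

end

end Pool.Agent.Q260.AL
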