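import Mathlib

/-!
# Automorphic representations of `GL₂` over `K = k(t)`: the definitions
-/

set_option autoImplicit false

namespace Pool.Agent.Q260.AL

open IsDedekindDomain Polynomial WithZero
open Matrix (GeneralLinearGroup)
open scoped WithZero MatrixGroups

noncomputable section

instance instDecEqRatFunc (k : Type) [Field k] : DecidableEq (RatFunc k) := Classical.decEq _

/-- `K_∞`, the completion of `K = k(t)` at infinity -/
abbrev Kinf (k : Type) [Field k] := RatFunc.CompletionAtInfty k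

/-- `K_v`, the completion of `K` at the finite place `v` -/
abbrev Kfin (k : Type) [Field k] (v : HeightOneSpectrum k[X]) := v.adicCompletion (RatFunc k)

/-- `A_f`, the finite adeles -/
abbrev Afin (k : Type) [Field k] := FiniteAdeleRing k[X] (RatFunc k)

/-- the adele ring `A = K_∞ × A_f` -/
abbrev Ad (k : Type) [Field k] := Kinf k × Afin k

/-- `GL₂(A) = GL₂(K_∞) × GL₂(A_f)` -/
abbrev GA (k : Type) [Field k] := GL (Fin 2) (Kinf k) × GL (Fin 2) (Afin k)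

/-- the ideles `A^×` -/
abbrev Id (k : Type) [Field k] := (Kinf k)ˣ × (Afin k)ˣ

section defs

variable {k : Type} [Field k]

/-- `K → A` -/
def embA : RatFunc k →+* Ad k :=
  (algebraMap (RatFunc k) (Kinf k)).prod (algebraMap (RatFunc k) (Afin k))

/-- `GL₂(K) → GL₂(A)` -/
def embG (γ : GL (Fin 2) (RatFunc k)) : GA k :=
  (γ.map (algebraMap (RatFunc k) (Kinf k)), γ.map (algebraMap (RatFunc k) (Afin k)))

/-- `K^× → A^×` -/
def embI (x : (RatFunc k)ˣ) : Id k :=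
  (Units.map (algebraMap (RatFunc k) (Kinf k)) x, Units.map (algebraMap (RatFunc k) (Afin k)) x)

/-- right translation of functions on `GL₂(A)` -/
def rt (g : GA k) (F : GA k → ℂ) : GA k → ℂ := fun x => F (x * g)

/-- automorphic forms -/
structure AutForm (F : GA k → ℂ) : Prop where
  left : ∀ (γ : GL (Fin 2) (RatFunc k)) (g : GA k), F (embG γ * g) = F g
  smooth : ∃ U : Subgroup (GA k), IsOpen (U : Set (GA k)) ∧ ∀ u ∈ U, rt u F = F
  adm : ∀ U : Subgroup (GL (Fin 2) (Kinf k)), IsOpen (U : Set (GL (Fin 2) (Kinf k))) →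
    ∃ S : Submodule ℂ (GA k → ℂ), FiniteDimensional ℂ S ∧
      ∀ H ∈ Submodule.span ℂ {H | ∃ x, H = rt (x, 1) F}, (∀ u ∈ U, rt (u, 1) H = H) → H ∈ S

/-- the unipotent element `(1, x; 0, 1)` of `GL₂(A)` -/
def nn (x : Ad k) : GA k :=
  (GeneralLinearGroup.upperRightHom x.1, GeneralLinearGroup.upperRightHom x.2)

/-- cusp forms: for all `g` the integral of `x ↦ F (n(x) g)` over `A/K` vanishes; it is a sum over
the finite group `A/(K + W)`, `W` an open subgroup under which the function is invariant -/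
def CuspForm (F : GA k → ℂ) : Prop := AutForm F ∧
  ∀ g : GA k, ∃ W : AddSubgroup (Ad k), IsOpen (W : Set (Ad k)) ∧
    (∀ x, ∀ w ∈ W, F (nn (x + w) * g) = F (nn x * g)) ∧
    Finite (Ad k ⧸ ((embA (k := k)).toAddMonoidHom.range ⊔ W)) ∧
    ∑ᶠ c : Ad k ⧸ ((embA (k := k)).toAddMonoidHom.range ⊔ W), F (nn (Quotient.out c) * g) = 0

/-- irreducible smooth representations of a topological group -/
structure IrrSm (G : Type) [Group G] [TopologicalSpace G] where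
  V : Type
  [ac : AddCommGroup V]
  [md : Module ℂ V]
  ρ : Representation ℂ G V
  ne : ∃ w : V, w ≠ 0
  irr : ∀ W : Submodule ℂ V, (∀ g, ∀ x ∈ W, ρ g x ∈ W) → W = ⊥ ∨ W = ⊤
  sm : ∀ w, ∃ U : Subgroup G, IsOpen (U : Set G) ∧ ∀ u ∈ U, ρ u w = w

attribute [instance] IrrSm.ac IrrSm.md

/-- `P` is a quotient of an invariant space of functions with the property `C` -/
def Subquotient (C : (GA k → ℂ) → Prop) (P : IrrSm (GA k)) : Prop :=
  ∃ W : Submodule ℂ (GA k → ℂ), (∀ F ∈ W, C F ∧ ∀ g, rt g F ∈ W) ∧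
    ∃ T : W →ₗ[ℂ] P.V, Function.Surjective T ∧
      ∀ (g : GA k) (F H : W), (H : GA k → ℂ) = rt g F → T H = P.ρ g (T F)

/-- the component of `P` at `∞` is `σ` -/
def CompInf (σ : IrrSm (GL (Fin 2) (Kinf k))) (P : IrrSm (GA k)) : Prop :=
  ∃ T : σ.V →ₗ[ℂ] P.V, T ≠ 0 ∧ ∀ x w, T (σ.ρ x w) = P.ρ (x, 1) (T w)

/-- the component of `P` at the finite place `v` is `σ` -/
def CompFin (v : HeightOneSpectrum k[X]) (σ : IrrSm (GL (Fin 2) (Kfin k v)))
    (P : IrrSm (GA k)) : Prop :=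
  ∃ T : σ.V →ₗ[ℂ] P.V, T ≠ 0 ∧ ∀ (x : GL (Fin 2) (Kfin k v)) (h : GL (Fin 2) (Afin k)),
    (∀ i j, (h.1 i j) v = x.1 i j) →
    (∀ u ≠ v, ∀ i j, (h.1 i j) u = (1 : Matrix (Fin 2) (Fin 2) (Kfin k u)) i j) →
    ∀ w, T (σ.ρ x w) = P.ρ (1, h) (T w)

/-- unramified: there is a nonzero vector fixed by `GL₂(O)` -/
def Unramified {F : Type} [Field F] [Valued F ℤᵐ⁰] (σ : IrrSm (GL (Fin 2) F)) : Prop :=
  ∃ w : σ.V, w ≠ 0 ∧ ∀ g : GL (Fin 2) F,
    (∀ i j, Valued.v (g.1 i j) ≤ 1 ∧ Valued.v (g⁻¹.1 i j) ≤ 1) → σ.ρ g w = w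

/-- the idele norm -/
def idnorm (x : Id k) : ℝ := (Nat.card k : ℝ) ^ log (Valued.v (x.1 : Kinf k)) *
  ∏ᶠ v : HeightOneSpectrum k[X],
    (Nat.card (k[X] ⧸ v.asIdeal) : ℝ) ^ log (Valued.v ((x.2 : Afin k) v))

/-- Hecke characters -/
def Hecke (χ : Id k →* ℂˣ) : Prop := Continuous χ ∧ ∀ x, χ (embI x) = 1

/-- `P` is the isobaric sum of `χ₁` and `χ₂` -/
def IsobaricSum (χ₁ χ₂ : Id k →* ℂˣ) (P : IrrSm (GA k)) : Prop :=
  (∀ x, 1 ≤ idnorm x → ‖(χ₂ x : ℂ)‖ ≤ ‖(χ₁ x : ℂ)‖) ∧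
  ∃ T : P.V →ₗ[ℂ] (GA k → ℂ), T ≠ 0 ∧ (∀ g w, T (P.ρ g w) = rt g (T w)) ∧
    ∀ (w : P.V) (a d : Id k) (b g : GA k),
      b.1.1 0 0 = a.1 → b.2.1 0 0 = a.2 → b.1.1 1 1 = d.1 → b.2.1 1 1 = d.2 →
      b.1.1 1 0 = 0 → b.2.1 1 0 = 0 →
      T w (b * g) = χ₂ a * χ₁ d * ((Real.sqrt (idnorm (a / d)) : ℝ) : ℂ) * T w g

/-- isobaric automorphic representations -/
def Isobaric (P : IrrSm (GA k)) : Prop := Subquotient AutForm P ∧
  (Subquotient CuspForm P ∨ ∃ χ₁ χ₂ : Id k →* ℂˣ, Hecke χ₁ ∧ Hecke χ₂ ∧ IsobaricSum χ₁ χ₂ P)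

/-- `P` is the global lifting of `π` -/
def GlobalLift (π P : IrrSm (GA k)) : Prop := Isobaric P ∧
  (∀ σ : IrrSm (GL (Fin 2) (Kinf k)), Unramified σ → CompInf σ π → CompInf σ P) ∧
  (∀ v, ∀ σ : IrrSm (GL (Fin 2) (Kfin k v)), Unramified σ → CompFin v σ π → CompFin v σ P)

end defs

end

end Pool.Agent.Q260.AL
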