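import Pool.Agent.Q260.AL.Uniq
import Pool.Agent.Q260.AL.Spec

/-!
# The completions of `k(t)`
-/

set_option autoImplicit false
set_option linter.unusedSectionVars false
set_option linter.style.haveILetI false

namespace Pool.Agent.Q260.AL

open IsDedekindDomain Polynomial WithZero
open scoped WithZero

noncomputable section

variable {k : Type} [Field k]

theorem vinf (x : RatFunc k) :
    Valued.v (algebraMap (RatFunc k) (Kinf k) x) = RatFunc.inftyValuation k x := by
  let _ := RatFunc.inftyValued k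
  exact Valued.extensionValuation_apply_coe (K := RatFunc k) x

theorem vfin (v : HeightOneSpectrum k[X]) (x : RatFunc k) :
    Valued.v (algebraMap (RatFunc k) (Kfin k v) x) = v.valuation (RatFunc k) x :=
  HeightOneSpectrum.valuedAdicCompletion_eq_valuation' v x

theorem dense_of_valued {F : Type*} [Field F] [Valued F ℤᵐ⁰] {K : Type*} (f : K → F)
    (hf : DenseRange f) (x : F) {γ : ℤᵐ⁰} (hγ : γ ≠ 0) (hs : ∃ a : F, Valued.v a = γ) :
    ∃ y : K, Valued.v (x - f y) < γ := by
  obtain ⟨a, ha⟩ := hs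
  have h : {z | Valued.v (z - x) < γ} ∈ nhds x := by
    rw [Valued.mem_nhds]
    have : Valued.v.restrict a ≠ 0 := by
      simp
      rintro rfl
      simp at ha
      exact hγ ha.symm
    refine ⟨Units.mk0 (Valued.v.restrict a) this, fun z hz => ?_⟩
    simp only [Units.val_mk0, Set.mem_ofPred_eq] at hz ⊢
    rw [← ha]
    exact (Valuation.restrict_lt_iff (v := Valued.v)).1 hz
  obtain ⟨y, hy⟩ := hf.exists_mem_open (s := interior {z | Valued.v (z - x) < γ}) isOpen_interior
    ⟨x, by rwa [mem_interior_iff_mem_nhds]⟩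
  have := interior_subset hy
  refine ⟨y, ?_⟩
  rw [Valuation.map_sub_swap]
  exact this

theorem dinf (x : Kinf k) {γ : ℤᵐ⁰} (hγ : γ ≠ 0) :
    ∃ y : RatFunc k, Valued.v (x - algebraMap _ _ y) < γ := by
  refine dense_of_valued (F := Kinf k) (algebraMap (RatFunc k) (Kinf k)) ?_ x hγ ?_
  · let _ := RatFunc.inftyValued k
    exact UniformSpace.Completion.denseRange_coe (α := RatFunc k)
  · refine ⟨algebraMap (RatFunc k) (Kinf k) (RatFunc.X ^ (log γ)), ?_⟩
    rw [vinf]
    exact (RatFunc.inftyValuation.X_zpow k _).trans (exp_log hγ)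

theorem dfin (v : HeightOneSpectrum k[X]) (x : Kfin k v) {γ : ℤᵐ⁰} (hγ : γ ≠ 0) :
    ∃ y : RatFunc k, Valued.v (x - algebraMap _ _ y) < γ := by
  refine dense_of_valued (F := Kfin k v) (algebraMap (RatFunc k) _)
    (HeightOneSpectrum.denseRange_algebraMap (R := k[X]) (RatFunc k) v) x hγ ?_
  obtain ⟨a, ha⟩ := v.valuation_surjective (RatFunc k) γ
  exact ⟨algebraMap _ _ a, by rw [← ha]; exact vfin v a⟩

/-! ### The place at infinity -/

theorem vinf_poly {p : k[X]} (hp : p ≠ 0) :
    Valued.v (algebraMap (RatFunc k) (Kinf k) (algebraMap k[X] (RatFunc k) p)) =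
      exp (p.natDegree : ℤ) := by
  rw [vinf]
  exact RatFunc.inftyValuation.polynomial k hp

/-- the polynomial part -/
theorem exists_poly (x : RatFunc k) : ∃ p : k[X],
    RatFunc.inftyValuation k (x - algebraMap k[X] (RatFunc k) p) < 1 := by
  have hd := x.denom_ne_zero
  refine ⟨x.num / x.denom, ?_⟩
  have hm : x - algebraMap k[X] (RatFunc k) (x.num / x.denom) =
      algebraMap k[X] (RatFunc k) (x.num % x.denom) / algebraMap k[X] (RatFunc k) x.denom := by
    have h1 : x = algebraMap k[X] (RatFunc k) x.num / algebraMap k[X] (RatFunc k) x.denom :=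
      (RatFunc.num_div_denom x).symm
    have hd' : algebraMap k[X] (RatFunc k) x.denom ≠ 0 := by
      simpa using hd
    rw [eq_div_iff hd', sub_mul]
    nth_rw 1 [h1]
    rw [div_mul_cancel₀ _ hd', ← map_mul, ← map_sub]
    congr 1
    have := EuclideanDomain.div_add_mod x.num x.denom
    linear_combination -this
  rw [hm, map_div₀]
  rcases eq_or_ne (x.num % x.denom) 0 with h0 | h0
  · rw [h0]; simp
  · have e1 : RatFunc.inftyValuation k (algebraMap k[X] (RatFunc k) (x.num % x.denom)) =
        exp ((x.num % x.denom).natDegree : ℤ) := RatFunc.inftyValuation.polynomial k h0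
    have e2 : RatFunc.inftyValuation k (algebraMap k[X] (RatFunc k) x.denom) =
        exp (x.denom.natDegree : ℤ) := RatFunc.inftyValuation.polynomial k hd
    rw [e1, e2, ← exp_sub, ← exp_zero, exp_lt_exp]
    have h2 := Polynomial.natDegree_lt_natDegree h0 (EuclideanDomain.mod_lt x.num hd)
    omega

/-- `K_∞ = k[t] + m_∞` -/
theorem exists_poly_inf (x : Kinf k) : ∃ p : k[X],
    Valued.v (x - algebraMap (RatFunc k) (Kinf k) (algebraMap k[X] (RatFunc k) p)) < 1 := by
  obtain ⟨y, hy⟩ := dinf x (γ := 1) one_ne_zero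
  obtain ⟨p, hp⟩ := exists_poly y
  refine ⟨p, ?_⟩
  have e : x - algebraMap (RatFunc k) (Kinf k) (algebraMap k[X] (RatFunc k) p) =
      (x - algebraMap _ _ y) + algebraMap (RatFunc k) (Kinf k) (y - algebraMap k[X] (RatFunc k) p) := by
    rw [map_sub]; ring
  rw [e]
  refine Valuation.map_add_lt _ hy ?_
  rw [vinf]
  exact hp

/-- the local data at infinity -/
def Linf : LD k (Kinf k) where
  v := Valued.v
  π := Units.mk0 (algebraMap (RatFunc k) (Kinf k) (RatFunc.X⁻¹)) (by
    rw [_root_.map_ne_zero]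
    exact inv_ne_zero RatFunc.X_ne_zero)
  hπ := by
    rw [Units.val_mk0, vinf, map_inv₀, RatFunc.inftyValuation.X]
    rfl
  C := (algebraMap (RatFunc k) (Kinf k)).comp RatFunc.C
  hC1 a := by
    rcases eq_or_ne a 0 with rfl | ha
    · simp
    · rw [RingHom.comp_apply, vinf, RatFunc.inftyValuation.C k ha]
  hC x hx := by
    obtain ⟨p, hp⟩ := exists_poly_inf x
    have h1 : Valued.v (algebraMap (RatFunc k) (Kinf k) (algebraMap k[X] (RatFunc k) p)) ≤ 1 := by
      have e : algebraMap (RatFunc k) (Kinf k) (algebraMap k[X] (RatFunc k) p) =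
        x - (x - algebraMap (RatFunc k) (Kinf k) (algebraMap k[X] (RatFunc k) p)) := by ring
      rw [e]
      exact (Valuation.map_sub _ _ _).trans (max_le hx hp.le)
    have h2 : p = Polynomial.C (p.coeff 0) := by
      rcases eq_or_ne p 0 with rfl | h0
      · simp
      · rw [vinf_poly h0, ← exp_zero, exp_le_exp] at h1
        exact Polynomial.eq_C_of_natDegree_le_zero (by omega)
    refine ⟨p.coeff 0, ?_⟩
    rw [h2] at hp
    simpa using hp

theorem Linf_v : (Linf (k := k)).v = Valued.v := rfl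

theorem Linf_C (a : k) : (Linf (k := k)).C a = algebraMap (RatFunc k) (Kinf k) (RatFunc.C a) := rfl

theorem Linf_π : (((Linf (k := k)).π : (Kinf k)ˣ) : Kinf k) =
    algebraMap (RatFunc k) (Kinf k) (RatFunc.X⁻¹) := rfl

/-! ### The place `t = 0` -/

/-- the place `t = 0` -/
def v0 : HeightOneSpectrum k[X] where
  asIdeal := Ideal.span {X}
  isPrime := (Ideal.span_singleton_prime X_ne_zero).2 prime_X
  ne_bot := by simp

theorem v0_X : (v0 (k := k)).valuation (RatFunc k) RatFunc.X = exp (-1 : ℤ) := by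
  rw [← RatFunc.algebraMap_X, HeightOneSpectrum.valuation_of_algebraMap]
  exact HeightOneSpectrum.intValuation_singleton _ X_ne_zero rfl

theorem vfin_poly_le (v : HeightOneSpectrum k[X]) (p : k[X]) :
    Valued.v (algebraMap (RatFunc k) (Kfin k v) (algebraMap k[X] (RatFunc k) p)) ≤ 1 := by
  rw [vfin]
  exact v.valuation_le_one p

/-- approximation of integral elements by polynomials -/
theorem exists_poly_fin (v : HeightOneSpectrum k[X]) (x : Kfin k v) (hx : Valued.v x ≤ 1)
    {γ : ℤᵐ⁰} (hγ : γ ≠ 0) : ∃ p : k[X],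
    Valued.v (x - algebraMap (RatFunc k) (Kfin k v) (algebraMap k[X] (RatFunc k) p)) < γ := by
  have hγ' : min γ 1 ≠ 0 := by
    rcases min_choice γ 1 with h | h <;> rw [h]
    · exact hγ
    · exact one_ne_zero
  obtain ⟨y, hy⟩ := dfin v x hγ'
  have hy1 : v.valuation (RatFunc k) y ≤ 1 := by
    rw [← vfin]
    have e : algebraMap (RatFunc k) (Kfin k v) y = x - (x - algebraMap _ _ y) := by ring
    rw [e]
    exact (Valuation.map_sub _ _ _).trans (max_le hx ((hy.trans_le (min_le_right _ _)).le))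
  obtain ⟨u, hu⟩ : ∃ u : (ℤᵐ⁰)ˣ, (u : ℤᵐ⁰) = γ := ⟨Units.mk0 γ hγ, rfl⟩
  obtain ⟨p, hp⟩ := v.exists_valuation_sub_lt_of_integer hy1 u
  refine ⟨p, ?_⟩
  have e : x - algebraMap (RatFunc k) (Kfin k v) (algebraMap k[X] (RatFunc k) p) =
      (x - algebraMap _ _ y) + algebraMap (RatFunc k) (Kfin k v) (y - algebraMap k[X] (RatFunc k) p) := by
    rw [map_sub]; ring
  rw [e]
  refine Valuation.map_add_lt _ (hy.trans_le (min_le_left _ _)) ?_
  rw [vfin, ← hu, Valuation.map_sub_swap]
  exact hp

/-- the local data at `0` -/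
def L0 : LD k (Kfin k v0) where
  v := Valued.v
  π := Units.mk0 (algebraMap (RatFunc k) (Kfin k v0) RatFunc.X) (by
    rw [_root_.map_ne_zero]
    exact RatFunc.X_ne_zero)
  hπ := by
    rw [Units.val_mk0, vfin, v0_X]
  C := (algebraMap (RatFunc k) (Kfin k v0)).comp RatFunc.C
  hC1 a := by
    rw [RingHom.comp_apply, ← RatFunc.algebraMap_C]
    exact vfin_poly_le v0 _
  hC x hx := by
    obtain ⟨p, hp⟩ := exists_poly_fin v0 x hx one_ne_zero
    refine ⟨p.coeff 0, ?_⟩
    have e : x - ((algebraMap (RatFunc k) (Kfin k v0)).comp RatFunc.C) (p.coeff 0) =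
        (x - algebraMap (RatFunc k) (Kfin k v0) (algebraMap k[X] (RatFunc k) p)) +
        algebraMap (RatFunc k) (Kfin k v0) (algebraMap k[X] (RatFunc k) (p - Polynomial.C (p.coeff 0))) := by
      rw [RingHom.comp_apply, map_sub, map_sub, RatFunc.algebraMap_C]
      ring
    rw [e]
    refine Valuation.map_add_lt _ hp ?_
    rw [vfin]
    obtain ⟨q, hq⟩ : X ∣ p - Polynomial.C (p.coeff 0) := by
      rw [X_dvd_iff]
      simp
    rw [hq, map_mul, map_mul, RatFunc.algebraMap_X, v0_X]
    have := v0.valuation_le_one (K := RatFunc k) q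
    calc exp (-1 : ℤ) * v0.valuation (RatFunc k) (algebraMap k[X] (RatFunc k) q) ≤ exp (-1 : ℤ) * 1 := by
          gcongr
      _ < 1 := by
          rw [mul_one, ← exp_zero, exp_lt_exp]
          norm_num

theorem L0_v : (L0 (k := k)).v = Valued.v := rfl

theorem L0_C (a : k) : (L0 (k := k)).C a = algebraMap (RatFunc k) (Kfin k v0) (RatFunc.C a) := rfl

theorem L0_π : (((L0 (k := k)).π : (Kfin k v0)ˣ) : Kfin k v0) =
    algebraMap (RatFunc k) (Kfin k v0) RatFunc.X := rfl

end

end Pool.Agent.Q260.AL
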