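import Mathlib

/-!
# Some elements of `GL₂` over a commutative ring
-/

set_option autoImplicit false

namespace Pool.Agent.Q260.AL

open Matrix

section ring

variable {R S : Type*} [CommRing R] [CommRing S]

/-- upper unipotent -/
def nU (x : R) : GL (Fin 2) R :=
  ⟨!![1, x; 0, 1], !![1, -x; 0, 1], by ext i j; fin_cases i <;> fin_cases j <;> simp,
    by ext i j; fin_cases i <;> fin_cases j <;> simp⟩

/-- lower unipotent -/
def nL (x : R) : GL (Fin 2) R :=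
  ⟨!![1, 0; x, 1], !![1, 0; -x, 1], by ext i j; fin_cases i <;> fin_cases j <;> simp,
    by ext i j; fin_cases i <;> fin_cases j <;> simp⟩

/-- diagonal -/
def dg (x y : Rˣ) : GL (Fin 2) R :=
  ⟨!![(x : R), 0; 0, (y : R)], !![((x⁻¹ : Rˣ) : R), 0; 0, ((y⁻¹ : Rˣ) : R)],
    by ext i j; fin_cases i <;> fin_cases j <;> simp,
    by ext i j; fin_cases i <;> fin_cases j <;> simp⟩

/-- the nontrivial permutation matrix -/
def ws (R : Type*) [CommRing R] : GL (Fin 2) R :=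
  ⟨!![0, 1; 1, 0], !![0, 1; 1, 0], by ext i j; fin_cases i <;> fin_cases j <;> simp,
    by ext i j; fin_cases i <;> fin_cases j <;> simp⟩

theorem nU_val (x : R) : (nU x : Matrix (Fin 2) (Fin 2) R) = !![1, x; 0, 1] := rfl
theorem nL_val (x : R) : (nL x : Matrix (Fin 2) (Fin 2) R) = !![1, 0; x, 1] := rfl
theorem dg_val (x y : Rˣ) : (dg x y : Matrix (Fin 2) (Fin 2) R) = !![(x : R), 0; 0, (y : R)] := rfl
theorem ws_val : (ws R : Matrix (Fin 2) (Fin 2) R) = !![0, 1; 1, 0] := rfl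
theorem nU_inv_val (x : R) : ((nU x)⁻¹ : GL (Fin 2) R).1 = !![1, -x; 0, 1] := rfl
theorem nL_inv_val (x : R) : ((nL x)⁻¹ : GL (Fin 2) R).1 = !![1, 0; -x, 1] := rfl
theorem dg_inv_val (x y : Rˣ) : ((dg x y)⁻¹ : GL (Fin 2) R).1 =
    !![((x⁻¹ : Rˣ) : R), 0; 0, ((y⁻¹ : Rˣ) : R)] := rfl
theorem ws_inv_val : ((ws R)⁻¹ : GL (Fin 2) R).1 = !![0, 1; 1, 0] := rfl

theorem gl_ext {g h : GL (Fin 2) R} (h00 : g.1 0 0 = h.1 0 0) (h01 : g.1 0 1 = h.1 0 1)
    (h10 : g.1 1 0 = h.1 1 0) (h11 : g.1 1 1 = h.1 1 1) : g = h := by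
  apply Units.ext
  ext i j
  fin_cases i <;> fin_cases j <;> assumption

theorem mul_val (g h : GL (Fin 2) R) (i j : Fin 2) :
    (g * h).1 i j = g.1 i 0 * h.1 0 j + g.1 i 1 * h.1 1 j := by
  simp [Matrix.mul_apply, Fin.sum_univ_two]

theorem nU_mul (x y : R) : nU x * nU y = nU (x + y) := by
  apply gl_ext <;> simp [mul_val, nU_val, add_comm]

theorem nL_mul (x y : R) : nL x * nL y = nL (x + y) := by
  apply gl_ext <;> simp [mul_val, nL_val]

theorem nU_zero : nU (0 : R) = 1 := by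
  apply gl_ext <;> simp [nU_val]

theorem nL_zero : nL (0 : R) = 1 := by
  apply gl_ext <;> simp [nL_val]

theorem nU_inv (x : R) : (nU x)⁻¹ = nU (-x) := by
  rw [inv_eq_iff_mul_eq_one, nU_mul, add_neg_cancel, nU_zero]

theorem nL_inv (x : R) : (nL x)⁻¹ = nL (-x) := by
  rw [inv_eq_iff_mul_eq_one, nL_mul, add_neg_cancel, nL_zero]

theorem dg_mul (x y x' y' : Rˣ) : dg x y * dg x' y' = dg (x * x') (y * y') := by
  apply gl_ext <;> simp [mul_val, dg_val]

theorem dg_one : dg (1 : Rˣ) 1 = 1 := by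
  apply gl_ext <;> simp [dg_val]

theorem dg_inv (x y : Rˣ) : (dg x y)⁻¹ = dg x⁻¹ y⁻¹ := by
  rw [inv_eq_iff_mul_eq_one, dg_mul, mul_inv_cancel, mul_inv_cancel, dg_one]

theorem ws_mul_ws : ws R * ws R = 1 := by
  apply gl_ext <;> simp [mul_val, ws_val]

theorem ws_inv : (ws R)⁻¹ = ws R := by
  rw [inv_eq_iff_mul_eq_one, ws_mul_ws]

theorem ws_mul_nU (x : R) : ws R * nU x = nL x * ws R := by
  apply gl_ext <;> simp [mul_val, ws_val, nU_val, nL_val]

theorem ws_mul_nL (x : R) : ws R * nL x = nU x * ws R := by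
  apply gl_ext <;> simp [mul_val, ws_val, nU_val, nL_val]

theorem ws_mul_dg (x y : Rˣ) : ws R * dg x y = dg y x * ws R := by
  apply gl_ext <;> simp [mul_val, ws_val, dg_val]

theorem dg_mul_nU (x y : Rˣ) (z : R) : dg x y * nU z = nU (x * z * (y⁻¹ : Rˣ)) * dg x y := by
  apply gl_ext <;> simp [mul_val, nU_val, dg_val]

theorem dg_mul_nL (x y : Rˣ) (z : R) : dg x y * nL z = nL (y * z * (x⁻¹ : Rˣ)) * dg x y := by
  apply gl_ext <;> simp [mul_val, nL_val, dg_val]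

/-- the scalar matrices are central -/
theorem dg_central (x : Rˣ) (g : GL (Fin 2) R) : dg x x * g = g * dg x x := by
  apply gl_ext <;> simp [mul_val, dg_val, mul_comm]

theorem map_nU (f : R →+* S) (x : R) : GeneralLinearGroup.map f (nU x) = nU (f x) := by
  apply gl_ext <;> simp [nU_val]

theorem map_nL (f : R →+* S) (x : R) : GeneralLinearGroup.map f (nL x) = nL (f x) := by
  apply gl_ext <;> simp [nL_val]

theorem map_dg (f : R →+* S) (x y : Rˣ) :
    GeneralLinearGroup.map f (dg x y) = dg (Units.map f x) (Units.map f y) := by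
  apply gl_ext <;> simp [dg_val]

theorem map_ws (f : R →+* S) : GeneralLinearGroup.map f (ws R) = ws S := by
  apply gl_ext <;> simp [ws_val]

/-- the formula for the inverse -/
theorem inv_formula (g : GL (Fin 2) R) :
    (g.1 0 0 * g.1 1 1 - g.1 0 1 * g.1 1 0) * g⁻¹.1 0 0 = g.1 1 1 ∧
    (g.1 0 0 * g.1 1 1 - g.1 0 1 * g.1 1 0) * g⁻¹.1 0 1 = -g.1 0 1 ∧
    (g.1 0 0 * g.1 1 1 - g.1 0 1 * g.1 1 0) * g⁻¹.1 1 0 = -g.1 1 0 ∧
    (g.1 0 0 * g.1 1 1 - g.1 0 1 * g.1 1 0) * g⁻¹.1 1 1 = g.1 0 0 := by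
  have h : g * g⁻¹ = 1 := mul_inv_cancel g
  have e : ∀ i j, (g * g⁻¹).1 i j = (1 : Matrix (Fin 2) (Fin 2) R) i j := by
    intro i j
    rw [h]
    rfl
  have e00 := e 0 0
  have e01 := e 0 1
  have e10 := e 1 0
  have e11 := e 1 1
  rw [mul_val] at e00 e01 e10 e11
  simp only [Matrix.one_apply_eq, ne_eq, Fin.isValue, zero_ne_one, not_false_eq_true,
    Matrix.one_apply_ne, one_ne_zero] at e00 e01 e10 e11
  generalize g⁻¹.1 = m at *
  refine ⟨?_, ?_, ?_, ?_⟩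
  · linear_combination g.1 1 1 * e00 - g.1 0 1 * e10
  · linear_combination g.1 1 1 * e01 - g.1 0 1 * e11
  · linear_combination g.1 0 0 * e10 - g.1 1 0 * e00
  · linear_combination g.1 0 0 * e11 - g.1 1 0 * e01

theorem inv_mul_det (g : GL (Fin 2) R) :
    (g.1 0 0 * g.1 1 1 - g.1 0 1 * g.1 1 0) * (g⁻¹.1 0 0 * g⁻¹.1 1 1 - g⁻¹.1 0 1 * g⁻¹.1 1 0) = 1 := by
  have h : g * g⁻¹ = 1 := mul_inv_cancel g
  have e : ∀ i j, (g * g⁻¹).1 i j = (1 : Matrix (Fin 2) (Fin 2) R) i j := by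
    intro i j
    rw [h]
    rfl
  have e00 := e 0 0
  have e01 := e 0 1
  have e10 := e 1 0
  have e11 := e 1 1
  rw [mul_val] at e00 e01 e10 e11
  simp only [Matrix.one_apply_eq, ne_eq, Fin.isValue, zero_ne_one, not_false_eq_true,
    Matrix.one_apply_ne, one_ne_zero] at e00 e01 e10 e11
  generalize g⁻¹.1 = m at *
  linear_combination (g.1 1 0 * m 0 1 + g.1 1 1 * m 1 1) * e00 + e11 -
    (g.1 1 0 * m 0 0 + g.1 1 1 * m 1 0) * e01

end ring

end Pool.Agent.Q260.AL
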