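import Pool.Agent.Q260.AL.Red

/-!
# Spherical functions on `GL₂(K) \ GL₂(A)`: the half line
-/

set_option autoImplicit false
set_option linter.unusedSectionVars false
set_option linter.style.haveILetI false

namespace Pool.Agent.Q260.AL

open IsDedekindDomain WithZero
open Matrix (GeneralLinearGroup)
open scoped WithZero MatrixGroups Polynomial

noncomputable section

section cosets

variable {k F : Type*} [Field k] [Field F] (L : LD k F)

/-- representatives of `GL₂(O) / Iw` -/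
def LD.rep : Option k → GL (Fin 2) F
  | none => 1
  | some x => nU (L.C x) * ws F

theorem LD.rep_mem (o : Option k) : L.rep o ∈ Kc L.v := by
  cases o with
  | none => exact one_mem _
  | some x => exact mul_mem (Iw_le _ (nU_mem_Iw (L.hC1 x))) ws_mem_Kc

theorem LD.vC {a : k} (ha : a ≠ 0) : L.v (L.C a) = 1 := by
  refine le_antisymm (L.hC1 a) ?_
  have h1 : L.v (L.C a) * L.v (L.C a⁻¹) = 1 := by
    rw [← map_mul, ← map_mul, mul_inv_cancel₀ ha, map_one, map_one]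
  calc (1 : ℤᵐ⁰) = L.v (L.C a) * L.v (L.C a⁻¹) := h1.symm
    _ ≤ L.v (L.C a) * 1 := by gcongr; exact L.hC1 _
    _ = L.v (L.C a) := mul_one _

theorem LD.coset_ex {h : GL (Fin 2) F} (hh : h ∈ Kc L.v) : ∃ o, (L.rep o)⁻¹ * h ∈ Iw L.v := by
  by_cases h10 : L.v (h.1 1 0) < 1
  · exact ⟨none, by simpa [LD.rep] using mem_Iw hh h10⟩
  · have h1 : L.v (h.1 1 0) = 1 := le_antisymm (hh 1 0).1 (not_lt.1 h10)
    have hne : h.1 1 0 ≠ 0 := by
      intro h0
      rw [h0] at h1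
      simp at h1
    obtain ⟨x, hx⟩ := L.hC (h.1 0 0 / h.1 1 0) (by rw [map_div₀, h1, div_one]; exact (hh 0 0).1)
    refine ⟨some x, mem_Iw (mul_mem (inv_mem (L.rep_mem _)) hh) ?_⟩
    have e : ((L.rep (some x))⁻¹ * h).1 1 0 = (h.1 0 0 / h.1 1 0 - L.C x) * h.1 1 0 := by
      rw [LD.rep, _root_.mul_inv_rev, ws_inv, nU_inv, mul_val, mul_val, mul_val, nU_val, ws_val]
      simp
      field_simp
      ring
    rw [e, map_mul, h1, mul_one]
    exact hx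

theorem LD.coset_uniq {o o' : Option k} (h : (L.rep o)⁻¹ * L.rep o' ∈ Iw L.v) : o = o' := by
  cases o with
  | none =>
    cases o' with
    | none => rfl
    | some y =>
      exfalso
      have h1 := h.2.1
      have e : ((L.rep none)⁻¹ * L.rep (some y)).1 1 0 = 1 := by
        rw [LD.rep, LD.rep, inv_one, one_mul, mul_val, nU_val, ws_val]
        simp
      rw [e, map_one] at h1
      exact lt_irrefl _ h1
  | some x =>
    cases o' with
    | none =>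
      exfalso
      have h1 := h.2.1
      have e : ((L.rep (some x))⁻¹ * L.rep none).1 1 0 = 1 := by
        rw [LD.rep, LD.rep, mul_one, _root_.mul_inv_rev, ws_inv, nU_inv, mul_val, nU_val, ws_val]
        simp
      rw [e, map_one] at h1
      exact lt_irrefl _ h1
    | some y =>
      by_contra hxy
      have hxy' : y - x ≠ 0 := by
        intro h0
        apply hxy
        rw [sub_eq_zero.1 h0]
      have h1 := h.2.1
      have e : ((L.rep (some x))⁻¹ * L.rep (some y)).1 1 0 = L.C (y - x) := by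
        rw [LD.rep, LD.rep, _root_.mul_inv_rev, ws_inv, nU_inv]
        rw [mul_val, mul_val, mul_val, mul_val, mul_val, nU_val, nU_val, ws_val]
        simp
        ring
      rw [e, L.vC hxy'] at h1
      exact lt_irrefl _ h1

/-- sums over `GL₂(O) / Iw` are invariant -/
theorem LD.sum_inv [Fintype k] {M : Type*} [AddCommMonoid M] (f : GL (Fin 2) F → M)
    (hf : ∀ g, ∀ i ∈ Iw L.v, f (g * i) = f g) {h : GL (Fin 2) F} (hh : h ∈ Kc L.v) :
    ∑ o, f (h * L.rep o) = ∑ o, f (L.rep o) := by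
  choose σ hσ using fun o => L.coset_ex (mul_mem hh (L.rep_mem o))
  have hinj : Function.Injective σ := by
    intro o o' hoo
    apply L.coset_uniq
    have h1 := mul_mem (inv_mem (hσ o)) (hσ o')
    rw [hoo] at h1
    have e : ((L.rep (σ o'))⁻¹ * (h * L.rep o))⁻¹ * ((L.rep (σ o'))⁻¹ * (h * L.rep o')) =
        (L.rep o)⁻¹ * L.rep o' := by group
    rwa [e] at h1
  have hbij : Function.Bijective σ := hinj.bijective_of_finite
  rw [← hbij.sum_comp (fun o => f (L.rep o))]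
  refine Finset.sum_congr rfl fun o _ => ?_
  have e : h * L.rep o = L.rep (σ o) * ((L.rep (σ o))⁻¹ * (h * L.rep o)) := by group
  rw [e, hf _ _ (hσ o)]

theorem LD.om_inv_val : (L.om)⁻¹ = dg (L.π⁻¹) 1 * ws F := by
  rw [LD.om, _root_.mul_inv_rev, dg_inv, inv_one, ws_inv]

theorem LD.om_conj {i : GL (Fin 2) F} (hi : i ∈ Iw L.v) : L.om⁻¹ * i * L.om ∈ Iw L.v := by
  have hpos : L.v L.π ≤ 1 := by rw [L.hπ, ← exp_zero, exp_le_exp]; norm_num
  have e00 : (L.om⁻¹ * i * L.om).1 0 0 = i.1 1 1 := by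
    rw [L.om_inv_val, LD.om]
    simp [mul_val, dg_val, ws_val]
    field_simp
  have e01 : (L.om⁻¹ * i * L.om).1 0 1 = ((L.π⁻¹ : Fˣ) : F) * i.1 1 0 := by
    rw [L.om_inv_val, LD.om]
    simp [mul_val, dg_val, ws_val]
  have e10 : (L.om⁻¹ * i * L.om).1 1 0 = i.1 0 1 * L.π := by
    rw [L.om_inv_val, LD.om]
    simp [mul_val, dg_val, ws_val]
  have e11 : (L.om⁻¹ * i * L.om).1 1 1 = i.1 0 0 := by
    rw [L.om_inv_val, LD.om]
    simp [mul_val, dg_val, ws_val]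
  have h01 : L.v (((L.π⁻¹ : Fˣ) : F) * i.1 1 0) ≤ 1 := by
    rw [map_mul, Units.val_inv_eq_inv_val, map_inv₀, L.hπ]
    have h1 := lt_one_iff_exp.1 hi.2.1
    calc (exp (-1 : ℤ))⁻¹ * L.v (i.1 1 0) ≤ (exp (-1 : ℤ))⁻¹ * exp (-1 : ℤ) := by gcongr
      _ = 1 := inv_mul_cancel₀ (by simp)
  have h10 : L.v (i.1 0 1 * L.π) < 1 := by
    refine vmul_lt1' (hi.1 0 1).1 ?_
    rw [L.hπ, ← exp_zero, exp_lt_exp]
    norm_num
  refine mem_Iw (mem_Kc ?_ ?_) ?_
  · intro a b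
    fin_cases a <;> fin_cases b
    · change L.v ((L.om⁻¹ * i * L.om).1 0 0) ≤ 1
      rw [e00]; exact (hi.1 1 1).1
    · change L.v ((L.om⁻¹ * i * L.om).1 0 1) ≤ 1
      rw [e01]; exact h01
    · change L.v ((L.om⁻¹ * i * L.om).1 1 0) ≤ 1
      rw [e10]; exact h10.le
    · change L.v ((L.om⁻¹ * i * L.om).1 1 1) ≤ 1
      rw [e11]; exact (hi.1 0 0).1
  · rw [dt_mul, dt_mul, mul_right_comm, mul_comm (dt L.om⁻¹), dt_inv, one_mul]
    exact dt_K hi.1
  · rw [e10]; exact h10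

end cosets

variable {k : Type} [Field k]

/-- `GL₂(K) → GL₂(A)` -/
def dgl : GL (Fin 2) (RatFunc k) →* GA k := gli.prod glf

theorem dgl_fst (γ : GL (Fin 2) (RatFunc k)) : (dgl γ).1 = gli γ := rfl
theorem dgl_snd (γ : GL (Fin 2) (RatFunc k)) : (dgl γ).2 = glf γ := rfl

/-- `g` is in the `n`-th double coset -/
def Cl (g : GA k) (n : ℕ) : Prop := ∃ (γ : GL (Fin 2) (RatFunc k)) (z : (Kinf k)ˣ),
  ∃ κ ∈ Kc (vI k), ∃ κf ∈ Kf k, g = dgl γ * (Linf.A (-(n : ℤ)) * dg z z * κ, κf)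

theorem Cl.ex (g : GA k) : ∃ n, Cl g n := by
  obtain ⟨γ₁, κf, hκf, h1⟩ := strong g.2
  obtain ⟨γ₂, hγ₂, n, z, κ, hκ, h2⟩ := red ((gli γ₁)⁻¹ * g.1)
  refine ⟨n, γ₁ * γ₂, z, κ, hκ, (glf γ₂)⁻¹ * κf, mul_mem (inv_mem hγ₂) hκf, ?_⟩
  refine Prod.ext ?_ ?_
  · rw [Prod.fst_mul, dgl_fst, map_mul, mul_assoc, ← h2]
    group
  · rw [Prod.snd_mul, dgl_snd, map_mul, h1]
    group

theorem dt_ge {δ : GL (Fin 2) (RatFunc k)} (hδ : glf δ ∈ Kf k) : 1 ≤ vI k (dt (gli δ)) := by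
  obtain ⟨p00, h00⟩ := poly_entries hδ 0 0
  obtain ⟨p01, h01⟩ := poly_entries hδ 0 1
  obtain ⟨p10, h10⟩ := poly_entries hδ 1 0
  obtain ⟨p11, h11⟩ := poly_entries hδ 1 1
  have e : dt (gli δ) = algebraMap (RatFunc k) (Kinf k)
      (algebraMap k[X] (RatFunc k) (p00 * p11 - p01 * p10)) := by
    rw [dt, GeneralLinearGroup.map_apply, GeneralLinearGroup.map_apply,
      GeneralLinearGroup.map_apply, GeneralLinearGroup.map_apply, ← h00, ← h01, ← h10, ← h11]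
    simp
  have hne : p00 * p11 - p01 * p10 ≠ 0 := by
    intro h0
    rw [h0] at e
    exact dt_ne_zero (gli δ) (by rw [e]; simp)
  rw [e, show vI k (algebraMap (RatFunc k) (Kinf k) (algebraMap k[X] (RatFunc k)
    (p00 * p11 - p01 * p10))) = _ from vinf_poly hne, ← exp_zero, exp_le_exp]
  omega

theorem dt_le {δ : GL (Fin 2) (RatFunc k)} (hδ : glf δ ∈ Kf k) : vI k (dt (gli δ)) ≤ 1 := by
  have h1 := dt_ge (δ := δ⁻¹) (by rw [map_inv]; exact inv_mem hδ)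
  have h2 : vI k (dt (gli δ)) * vI k (dt (gli δ⁻¹)) = 1 := by
    rw [← map_mul, map_inv, dt_inv, map_one]
  calc vI k (dt (gli δ)) = vI k (dt (gli δ)) * 1 := (mul_one _).symm
    _ ≤ vI k (dt (gli δ)) * vI k (dt (gli δ⁻¹)) := by gcongr
    _ = 1 := h2

theorem vI_π_zpow (n : ℤ) : vI k (((Linf.π ^ n : (Kinf k)ˣ)) : Kinf k) = exp (-n) := by
  rw [Units.val_zpow_eq_zpow_val, map_zpow₀,
    show vI k ((Linf.π : (Kinf k)ˣ) : Kinf k) = exp (-1 : ℤ) from Linf.hπ, ← WithZero.exp_zsmul]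
  simp

theorem Cl.le {g : GA k} {n m : ℕ} (h : Cl g n) (h' : Cl g m) : m ≤ n := by
  obtain ⟨γ, z, κ, hκ, κf, hκf, e⟩ := h
  obtain ⟨γ', z', κ', hκ', κf', hκf', e'⟩ := h'
  rw [e] at e'
  have e1 := congrArg Prod.fst e'
  have e2 := congrArg Prod.snd e'
  rw [Prod.fst_mul, Prod.fst_mul, dgl_fst, dgl_fst] at e1
  rw [Prod.snd_mul, Prod.snd_mul, dgl_snd, dgl_snd] at e2
  set δ := γ'⁻¹ * γ with hδ
  have hδf : glf δ ∈ Kf k := by
    have : glf δ = κf' * κf⁻¹ := by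
      rw [hδ, map_mul, map_inv, inv_mul_eq_iff_eq_mul, ← mul_assoc, eq_mul_inv_iff_mul_eq]
      exact e2
    rw [this]
    exact mul_mem hκf' (inv_mem hκf)
  have hδi : gli δ = Linf.A (-(m : ℤ)) * (dg z' z' * (κ' * κ⁻¹) * dg z⁻¹ z⁻¹ * Linf.A (n : ℤ)) := by
    have h1 : gli δ = (Linf.A (-(m : ℤ)) * dg z' z' * κ') * (Linf.A (-(n : ℤ)) * dg z z * κ)⁻¹ := by
      rw [hδ, map_mul, map_inv, inv_mul_eq_iff_eq_mul, ← mul_assoc, eq_mul_inv_iff_mul_eq]
      exact e1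
    have h2 : (Linf.A (-(n : ℤ)))⁻¹ = (Linf.A (n : ℤ) : GL (Fin 2) (Kinf k)) := by
      rw [LD.A, LD.A, dg_inv, inv_one, ← zpow_neg, neg_neg]
    rw [h1, _root_.mul_inv_rev, _root_.mul_inv_rev, h2, dg_inv]
    simp only [mul_assoc]
  obtain ⟨X, hX⟩ : ∃ X, X = dg z' z' * (κ' * κ⁻¹) * dg z⁻¹ z⁻¹ * Linf.A (n : ℤ) := ⟨_, rfl⟩
  rw [← hX] at hδi
  have hrow : ∀ j, (gli δ).1 1 j = X.1 1 j := by
    intro j
    rw [hδi, mul_val, LD.A, dg_val]
    simp
  have hκκ : κ' * κ⁻¹ ∈ Kc (vI k) := mul_mem hκ' (inv_mem hκ)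
  have hb : ∀ j, vI k (X.1 1 j) ≤ vI k (z' : Kinf k) * vI k ((z⁻¹ : (Kinf k)ˣ) : Kinf k) := by
    have h1 : rn (vI k) (dg z' z' * (κ' * κ⁻¹)) ≤ vI k (z' : Kinf k) := by
      rw [rn_mul_K _ hκκ, rn, dg_val]
      simp
    have h2 : rn (vI k) (dg z' z' * (κ' * κ⁻¹) * dg z⁻¹ z⁻¹) ≤
        vI k (z' : Kinf k) * vI k ((z⁻¹ : (Kinf k)ˣ) : Kinf k) := by
      refine (max_le ?_ ?_).trans (mul_le_mul' h1 le_rfl)
      · refine rn_mul_le _ _ 0 fun i => ?_
        fin_cases i <;> simp [dg_val]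
      · refine rn_mul_le _ _ 1 fun i => ?_
        fin_cases i <;> simp [dg_val]
    intro j
    rw [hX]
    refine (rn_mul_le _ _ j (C := 1) fun i => ?_).trans (by rw [mul_one]; exact h2)
    have hπ : vI k (((Linf.π ^ (n : ℤ) : (Kinf k)ˣ)) : Kinf k) ≤ 1 := by
      rw [vI_π_zpow, ← exp_zero, exp_le_exp]
      omega
    fin_cases i <;> fin_cases j
    · simpa [LD.A, dg_val] using hπ
    · simp [LD.A, dg_val]
    · simp [LD.A, dg_val]
    · simp [LD.A, dg_val]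
  have hz : 1 ≤ vI k (z' : Kinf k) * vI k ((z⁻¹ : (Kinf k)ˣ) : Kinf k) := by
    have hdt := dt_ne_zero δ
    unfold dt at hdt
    by_cases h10 : δ.1 1 0 = 0
    · by_cases h11 : δ.1 1 1 = 0
      · rw [h10, h11] at hdt
        simp at hdt
      · refine (one_le_of_ne hδf 1 1 h11).trans ?_
        rw [hrow]
        exact hb 1
    · refine (one_le_of_ne hδf 1 0 h10).trans ?_
      rw [hrow]
      exact hb 0
  have hdt : vI k (dt (gli δ)) = exp ((m : ℤ) - n) *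
      (vI k (z' : Kinf k) * vI k ((z⁻¹ : (Kinf k)ˣ) : Kinf k)) ^ 2 := by
    rw [hδi, hX]
    simp only [dt_mul, LD.A, dt_dg, map_mul, vI_π_zpow]
    have h1 := dt_K hκκ
    rw [dt_mul, map_mul] at h1
    rw [show vI k (dt κ') * vI k (dt κ⁻¹) = 1 from h1]
    rw [sub_eq_add_neg, exp_add, neg_neg, mul_pow, sq, sq]
    simp only [Units.val_one, map_one, mul_one]
    ac_rfl
  have h1 := dt_le hδf
  rw [hdt] at h1
  have h2 : exp ((m : ℤ) - n) ≤ (1 : ℤᵐ⁰) := by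
    calc exp ((m : ℤ) - n) = exp ((m : ℤ) - n) * 1 ^ 2 := by rw [one_pow, mul_one]
      _ ≤ exp ((m : ℤ) - n) * (vI k (z' : Kinf k) * vI k ((z⁻¹ : (Kinf k)ˣ) : Kinf k)) ^ 2 := by
        gcongr
      _ ≤ 1 := h1
  rw [← exp_zero, exp_le_exp] at h2
  omega

theorem Cl.uniq {g : GA k} {n m : ℕ} (h : Cl g n) (h' : Cl g m) : n = m :=
  le_antisymm (h'.le h) (h.le h')

theorem Cl.left {g : GA k} {n : ℕ} (h : Cl g n) (γ : GL (Fin 2) (RatFunc k)) : Cl (dgl γ * g) n := by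
  obtain ⟨γ', z, κ, hκ, κf, hκf, rfl⟩ := h
  exact ⟨γ * γ', z, κ, hκ, κf, hκf, by rw [map_mul]; exact (mul_assoc _ _ _).symm⟩

theorem Cl.right {g : GA k} {n : ℕ} (h : Cl g n) {κ : GL (Fin 2) (Kinf k)} (hκ : κ ∈ Kc (vI k))
    {κf : GL (Fin 2) (Afin k)} (hκf : κf ∈ Kf k) : Cl (g * (κ, κf)) n := by
  obtain ⟨γ', z, κ', hκ', κf', hκf', rfl⟩ := h
  refine ⟨γ', z, κ' * κ, mul_mem hκ' hκ, κf' * κf, mul_mem hκf' hκf, ?_⟩
  rw [mul_assoc]
  congr 1
  exact Prod.ext (mul_assoc _ _ _) rfl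

theorem Cl.cen {g : GA k} {n : ℕ} (h : Cl g n) (y : (Kinf k)ˣ) : Cl (g * (dg y y, 1)) n := by
  obtain ⟨γ', z, κ', hκ', κf', hκf', rfl⟩ := h
  refine ⟨γ', y * z, κ', hκ', κf', hκf', ?_⟩
  rw [mul_assoc]
  congr 1
  refine Prod.ext ?_ (mul_one _)
  rw [Prod.fst_mul, ← dg_mul]
  simp only
  rw [← dg_central, ← mul_assoc, ← mul_assoc, dg_central y (Linf.A _)]
  simp only [mul_assoc]

/-- the class of an element -/
def Nc (g : GA k) : ℕ := (Cl.ex g).choose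

theorem Cl_Nc (g : GA k) : Cl g (Nc g) := (Cl.ex g).choose_spec

theorem Cl.eq {g : GA k} {n : ℕ} (h : Cl g n) : Nc g = n := (Cl_Nc g).uniq h

/-- the standard element of class `n` -/
def an (n : ℕ) : GA k := (Linf.A (-(n : ℤ)), 1)

theorem Cl_an (n : ℕ) : Cl (k := k) (an n) n :=
  ⟨1, 1, 1, one_mem _, 1, one_mem _, by simp [an, dg_one]⟩

/-- spherical functions, invariant under the center at infinity -/
structure Sph (ψ : GA k → ℂ) : Prop where
  left : ∀ γ g, ψ (dgl γ * g) = ψ g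
  right : ∀ g, ∀ κ ∈ Kc (vI k), ∀ κf ∈ Kf k, ψ (g * (κ, κf)) = ψ g
  cen : ∀ g y, ψ (g * (dg y y, 1)) = ψ g

theorem Sph.rightI {ψ : GA k → ℂ} (h : Sph ψ) (g : GA k) {κ : GL (Fin 2) (Kinf k)}
    (hκ : κ ∈ Kc (vI k)) : ψ (g * (κ, 1)) = ψ g := h.right g κ hκ 1 (one_mem _)

theorem Sph.rightF {ψ : GA k → ℂ} (h : Sph ψ) (g : GA k) {κf : GL (Fin 2) (Afin k)}
    (hκf : κf ∈ Kf k) : ψ (g * (1, κf)) = ψ g := h.right g 1 (one_mem _) κf hκf

theorem pmI (a b : GL (Fin 2) (Kinf k)) : ((a, 1) : GA k) * (b, 1) = (a * b, 1) :=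
  Prod.ext rfl (mul_one 1)

theorem pmIF (a : GL (Fin 2) (Kinf k)) (b : GL (Fin 2) (Afin k)) :
    ((a, 1) : GA k) * (1, b) = (a, b) := Prod.ext (mul_one a) (one_mul b)

theorem pmFI (a : GL (Fin 2) (Kinf k)) (b : GL (Fin 2) (Afin k)) :
    ((1, b) : GA k) * (a, 1) = (a, b) := Prod.ext (one_mul a) (mul_one b)

theorem Sph.eq {ψ : GA k → ℂ} (h : Sph ψ) {g : GA k} {n : ℕ} (hg : Cl g n) : ψ g = ψ (an n) := by
  obtain ⟨γ', z, κ', hκ', κf', hκf', rfl⟩ := hg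
  rw [h.left]
  have e : ((Linf.A (-(n : ℤ)) * dg z z * κ', κf') : GA k) = an n * (dg z z, 1) * (κ', κf') := by
    refine Prod.ext rfl ?_
    simp [an]
  rw [e, h.right _ _ hκ' _ hκf', h.cen]

variable [Fintype k]

/-- the Hecke operator at infinity -/
def TT (ψ : GA k → ℂ) (g : GA k) : ℂ := ∑ o : Option k, ψ (g * (Linf.rep o * Linf.om, 1))

theorem Sph.nb_none {ψ : GA k → ℂ} (h : Sph ψ) (n : ℕ) :
    ψ (an n * (Linf.rep none * Linf.om, 1)) = ψ (an (n + 1)) := by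
  have e : (an n * (Linf.rep none * Linf.om, 1) : GA k) =
      an (n + 1) * (dg Linf.π Linf.π, 1) * (ws _, 1) := by
    refine Prod.ext ?_ (by simp [an])
    simp only [an, Prod.fst_mul, LD.rep, one_mul, LD.A, LD.om]
    rw [dg_mul, ← mul_assoc]
    apply gl_ext
    · simp [mul_val, dg_val, ws_val]
    · simp [mul_val, dg_val, ws_val]
      rw [zpow_add₀ (Units.ne_zero _), zpow_neg_one, mul_right_comm,
        inv_mul_cancel₀ (Units.ne_zero _), one_mul, zpow_neg, zpow_natCast]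
    · simp [mul_val, dg_val, ws_val]
    · simp [mul_val, dg_val, ws_val]
  rw [e, h.right _ _ ws_mem_Kc _ (one_mem _), h.cen]

theorem gli_nU_pow (n : ℕ) (x : k) : gli (nU (algebraMap k[X] (RatFunc k)
    (Polynomial.X ^ n * Polynomial.C x))) =
    nU (((Linf.π ^ (-(n : ℤ)) : (Kinf k)ˣ) : Kinf k) * Linf.C x) := by
  rw [map_nU]
  congr 1
  rw [Linf_C, Units.val_zpow_eq_zpow_val, Linf_π]
  simp only [map_mul, map_pow, RatFunc.algebraMap_X, RatFunc.algebraMap_C, map_inv₀, zpow_neg,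
    zpow_natCast, inv_pow, inv_inv]

theorem Sph.nb_some {ψ : GA k → ℂ} (h : Sph ψ) (n : ℕ) (x : k) :
    ψ (an n * (Linf.rep (some x) * Linf.om, 1)) = ψ (Linf.A (1 - (n : ℤ)), 1) := by
  have hK := nU_mem_Kf (Polynomial.X ^ n * Polynomial.C x : k[X])
  set γ := nU (algebraMap k[X] (RatFunc k) (Polynomial.X ^ n * Polynomial.C x)) with hγ
  have e : (an n * (Linf.rep (some x) * Linf.om, 1) : GA k) =
      dgl γ * ((Linf.A (1 - (n : ℤ)), 1) * (1, (glf γ)⁻¹)) := by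
    refine Prod.ext ?_ (by simp [an, dgl_snd])
    simp only [an, Prod.fst_mul, LD.rep, dgl_fst, mul_one]
    rw [hγ, gli_nU_pow, mul_assoc, LD.ws_mul_om, ← mul_assoc, LD.A_mul_nU, mul_assoc, LD.A_mul_A1]
    congr 2
    ring
  rw [e, h.left, h.right _ _ (one_mem _) _ (inv_mem hK)]

theorem Sph.nb_succ {ψ : GA k → ℂ} (h : Sph ψ) (n : ℕ) (x : k) :
    ψ (an (n + 1) * (Linf.rep (some x) * Linf.om, 1)) = ψ (an n) := by
  rw [h.nb_some, an]
  congr 3
  push_cast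
  ring

theorem Sph.nb_zero {ψ : GA k → ℂ} (h : Sph ψ) (x : k) :
    ψ (an 0 * (Linf.rep (some x) * Linf.om, 1)) = ψ (an 1) := by
  rw [h.nb_some]
  have e : ((Linf.A (1 - ((0 : ℕ) : ℤ)), 1) : GA k) =
      dgl (ws _) * (an 1 * (dg Linf.π Linf.π, 1) * (ws _, (glf (ws _))⁻¹)) := by
    refine Prod.ext ?_ (by simp [an, dgl_snd])
    simp only [an, Prod.fst_mul, dgl_fst, LD.A, map_ws]
    apply gl_ext <;> simp [mul_val, dg_val, ws_val]
  rw [e, h.left, h.right _ _ ws_mem_Kc _ (inv_mem ws_mem_Kf), h.cen]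

theorem Sph.TT_an {ψ : GA k → ℂ} (h : Sph ψ) (n : ℕ) : TT ψ (an (n + 1)) =
    ψ (an (n + 2)) + (Fintype.card k : ℂ) * ψ (an n) := by
  rw [TT, Fintype.sum_option, h.nb_none]
  simp only [h.nb_succ]
  simp

theorem Sph.TT_an0 {ψ : GA k → ℂ} (h : Sph ψ) : TT ψ (an 0) =
    ψ (an 1) + (Fintype.card k : ℂ) * ψ (an 1) := by
  rw [TT, Fintype.sum_option, h.nb_none]
  simp only [h.nb_zero]
  simp

theorem eqA (g : GA k) (x i o : GL (Fin 2) (Kinf k)) :
    (g * (x * i * o, 1) : GA k) = g * (x * o, 1) * (o⁻¹ * i * o, 1) := by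
  obtain ⟨g1, g2⟩ := g
  refine Prod.ext ?_ ?_
  · change g1 * (x * i * o) = g1 * (x * o) * (o⁻¹ * i * o)
    group
  · change g2 * 1 = g2 * 1 * 1
    group

theorem eqB (g : GA k) (κ r o : GL (Fin 2) (Kinf k)) (κf : GL (Fin 2) (Afin k)) :
    (g * (κ, κf) * (r * o, 1) : GA k) = g * (κ * r * o, 1) * (1, κf) := by
  obtain ⟨g1, g2⟩ := g
  refine Prod.ext ?_ ?_
  · change g1 * κ * (r * o) = g1 * (κ * r * o) * 1
    group
  · change g2 * κf * 1 = g2 * 1 * κf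
    group

theorem eqC (g : GA k) (y : (Kinf k)ˣ) (r : GL (Fin 2) (Kinf k)) :
    (g * (dg y y, 1) * (r, 1) : GA k) = g * (r, 1) * (dg y y, 1) := by
  obtain ⟨g1, g2⟩ := g
  refine Prod.ext ?_ ?_
  · change g1 * dg y y * r = g1 * r * dg y y
    rw [mul_assoc, mul_assoc, dg_central]
  · change g2 * 1 * 1 = g2 * 1 * 1
    rfl

theorem Sph.inv_iw {ψ : GA k → ℂ} (h : Sph ψ) (g : GA k) (x i : GL (Fin 2) (Kinf k))
    (hi : i ∈ Iw (Linf (k := k)).v) :
    ψ (g * (x * i * Linf.om, 1)) = ψ (g * (x * Linf.om, 1)) := by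
  have hi' : (Linf (k := k)).om⁻¹ * i * (Linf (k := k)).om ∈ Kc (vI k) :=
    (Linf (k := k)).om_conj hi |>.1
  rw [eqA g x i Linf.om]
  exact h.rightI _ hi'

theorem Sph.TT_right {ψ : GA k → ℂ} (h : Sph ψ) (g : GA k) (κ : GL (Fin 2) (Kinf k))
    (hκ : κ ∈ Kc (Linf (k := k)).v) (κf : GL (Fin 2) (Afin k)) (hκf : κf ∈ Kf k) :
    AL.TT ψ (g * (κ, κf)) = AL.TT ψ g := by
  have h1 := (Linf (k := k)).sum_inv (fun x => ψ (g * (x * Linf.om, 1)))
    (fun x i hi => h.inv_iw g x i hi) hκ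
  refine Eq.trans ?_ h1
  refine Finset.sum_congr rfl fun o _ => ?_
  rw [eqB g κ (Linf.rep o) Linf.om κf, h.rightF _ hκf]

/-- `TT` preserves spherical functions -/
theorem Sph.TT {ψ : GA k → ℂ} (h : Sph ψ) : Sph (TT ψ) where
  left γ g := by
    unfold AL.TT
    simp only [mul_assoc, h.left]
  right g κ hκ κf hκf := h.TT_right g κ hκ κf hκf
  cen g y := by
    unfold AL.TT
    refine Finset.sum_congr rfl fun o _ => ?_
    rw [eqC g y (Linf.rep o * Linf.om), h.cen]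

/-- **Harmonic spherical functions are constant.** -/
theorem Sph.const {ψ : GA k → ℂ} (h : Sph ψ)
    (hT : ∀ g, AL.TT ψ g = ((Fintype.card k : ℂ) + 1) * ψ g) (g : GA k) : ψ g = ψ 1 := by
  have hq : (Fintype.card k : ℂ) + 1 ≠ 0 := by
    exact_mod_cast Nat.succ_ne_zero (Fintype.card k)
  have h0 : ψ (an 1) = ψ (an 0) := by
    have h1 := hT (an 0)
    rw [h.TT_an0] at h1
    have h2 : ((Fintype.card k : ℂ) + 1) * (ψ (an 1) - ψ (an 0)) = 0 := by
      linear_combination h1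
    rcases mul_eq_zero.1 h2 with h3 | h3
    · exact absurd h3 hq
    · exact sub_eq_zero.1 h3
  have hstep : ∀ n, ψ (an (n + 1)) = ψ (an n) := by
    intro n
    induction n with
    | zero => exact h0
    | succ n ih =>
      have h1 := hT (an (n + 1))
      rw [h.TT_an] at h1
      linear_combination h1 + (Fintype.card k : ℂ) * ih
  have hall : ∀ n, ψ (an n) = ψ (an 0) := by
    intro n
    induction n with
    | zero => rfl
    | succ n ih => rw [hstep, ih]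
  have h1 : ψ 1 = ψ (an 0) := by
    refine h.eq ⟨1, 1, 1, one_mem _, 1, one_mem _, ?_⟩
    simp [LD.A, dg_one]
    rfl
  rw [h.eq (Cl_Nc g), hall, h1]

/-- the increments -/
def Dq (q : ℂ) : ℕ → ℂ
  | 0 => 1 / (q + 1)
  | n + 1 => q * Dq q n + 1

/-- the radial function -/
def Φq (q : ℂ) : ℕ → ℂ
  | 0 => 0
  | n + 1 => Φq q n + Dq q n

/-- the quasi-harmonic function -/
def phi (g : GA k) : ℂ := Φq (Fintype.card k : ℂ) (Nc g)

theorem phi_sph : Sph (phi (k := k)) where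
  left γ g := by
    unfold phi
    rw [((Cl_Nc g).left γ).eq]
  right g κ hκ κf hκf := by
    unfold phi
    rw [((Cl_Nc g).right hκ hκf).eq]
  cen g y := by
    unfold phi
    rw [((Cl_Nc g).cen y).eq]

theorem phi_an (n : ℕ) : phi (k := k) (an n) = Φq (Fintype.card k : ℂ) n := by
  unfold phi
  rw [(Cl_an n).eq]

theorem phi_TT (g : GA k) : AL.TT phi g = ((Fintype.card k : ℂ) + 1) * phi g + 1 := by
  have hq : (Fintype.card k : ℂ) + 1 ≠ 0 := by
    exact_mod_cast Nat.succ_ne_zero (Fintype.card k)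
  rw [phi_sph.TT.eq (Cl_Nc g), phi_sph.eq (Cl_Nc g)]
  generalize Nc g = n
  cases n with
  | zero =>
    rw [phi_sph.TT_an0, phi_an, phi_an]
    simp only [Φq, Dq]
    field_simp
    ring
  | succ n =>
    rw [phi_sph.TT_an, phi_an, phi_an, phi_an]
    simp only [Φq, Dq]
    ring

end

end Pool.Agent.Q260.AL
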