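import Mathlib

/-!
# Coinvariants of smooth representations: an averaging lemma
-/

set_option autoImplicit false

namespace Pool.Agent.Q260.AL

section abs

variable {I V : Type*} [Group I] [AddCommGroup V] [Module ℂ V] (ρ : Representation ℂ I V)

/-- the stabiliser of a vector -/
def stab (w : V) : Subgroup I where
  carrier := {i | ρ i w = w}
  mul_mem' {a b} ha hb := by
    simp only [Set.mem_ofPred_eq] at *
    rw [map_mul, Module.End.mul_apply, hb, ha]
  one_mem' := by simp
  inv_mem' {a} ha := by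
    simp only [Set.mem_ofPred_eq] at *
    calc ρ a⁻¹ w = ρ a⁻¹ (ρ a w) := by rw [ha]
      _ = w := by rw [← Module.End.mul_apply, ← map_mul, inv_mul_cancel, map_one, Module.End.one_apply]

theorem mem_stab {w : V} {i : I} : i ∈ stab ρ w ↔ ρ i w = w := Iff.rfl

/-- all orbits are finite -/
def FinOrb : Prop := ∀ w, (stab ρ w).FiniteIndex

/-- the kernel of the map to the coinvariants -/
def augA : Submodule ℂ V := Submodule.span ℂ {x | ∃ i w, x = ρ i w - w}

open Classical in
/-- the sum over the quotient by `H` -/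
noncomputable def sumQ (H : Subgroup I) [H.FiniteIndex] (w : V) : V :=
  letI := Fintype.ofFinite (I ⧸ H)
  ∑ c : I ⧸ H, ρ (Quotient.out c) w

theorem sumQ_sub (H : Subgroup I) [H.FiniteIndex] (w w' : V) :
    sumQ ρ H (w - w') = sumQ ρ H w - sumQ ρ H w' := by
  simp [sumQ]

theorem sumQ_add (H : Subgroup I) [H.FiniteIndex] (w w' : V) :
    sumQ ρ H (w + w') = sumQ ρ H w + sumQ ρ H w' := by
  simp [sumQ, Finset.sum_add_distrib]

theorem sumQ_smul (H : Subgroup I) [H.FiniteIndex] (z : ℂ) (w : V) :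
    sumQ ρ H (z • w) = z • sumQ ρ H w := by
  simp [sumQ, Finset.smul_sum]

theorem sumQ_inv {H : Subgroup I} [H.FiniteIndex] [H.Normal] {w : V} (hw : H ≤ stab ρ w) (i : I) :
    sumQ ρ H (ρ i w) = sumQ ρ H w := by
  unfold sumQ
  let _ := Fintype.ofFinite (I ⧸ H)
  refine Fintype.sum_equiv (Equiv.mulRight (i : I ⧸ H)) _ _ fun c => ?_
  have e : ((Quotient.out c * i : I) : I ⧸ H) =
      ((Quotient.out ((Equiv.mulRight (i : I ⧸ H)) c) : I) : I ⧸ H) := by
    simp
  rw [QuotientGroup.eq] at e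
  have h1 := hw e
  rw [mem_stab] at h1
  calc ρ (Quotient.out c) (ρ i w) = ρ (Quotient.out c * i) w := by
        rw [map_mul, Module.End.mul_apply]
    _ = ρ (Quotient.out c * i) (ρ ((Quotient.out c * i)⁻¹ *
          Quotient.out ((Equiv.mulRight (i : I ⧸ H)) c)) w) := by rw [h1]
    _ = ρ (Quotient.out ((Equiv.mulRight (i : I ⧸ H)) c)) w := by
        rw [← Module.End.mul_apply, ← map_mul]
        congr 2
        group

theorem sumQ_fixed {H : Subgroup I} [H.FiniteIndex] {v : V} (hv : ∀ i, ρ i v = v) :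
    sumQ ρ H v = (H.index : ℂ) • v := by
  unfold sumQ
  let _ := Fintype.ofFinite (I ⧸ H)
  have e : ∀ c : I ⧸ H, ρ (Quotient.out c) v = v := fun c => hv _
  simp only [e]
  rw [Finset.sum_const, Finset.card_univ, ← Nat.card_eq_fintype_card, ← Subgroup.index]
  exact (Nat.cast_smul_eq_nsmul ℂ _ _).symm

theorem sumQ_aug (hfin : FinOrb ρ) {u : V} (hu : u ∈ augA ρ) :
    ∃ H0 : Subgroup I, H0.FiniteIndex ∧ ∀ (H : Subgroup I) [H.FiniteIndex] [H.Normal], H ≤ H0 →
      sumQ ρ H u = 0 := by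
  induction hu using Submodule.span_induction with
  | mem x hx =>
    obtain ⟨i, w, rfl⟩ := hx
    refine ⟨stab ρ w, hfin w, fun H _ _ hH => ?_⟩
    rw [sumQ_sub, sumQ_inv ρ hH, sub_self]
  | zero => exact ⟨⊤, inferInstance, fun H _ _ _ => by simp [sumQ]⟩
  | add x y _ _ hx hy =>
    obtain ⟨H1, h1, h1'⟩ := hx
    obtain ⟨H2, h2, h2'⟩ := hy
    refine ⟨H1 ⊓ H2, inferInstance, fun H _ _ hH => ?_⟩
    rw [sumQ_add, h1' H (hH.trans inf_le_left), h2' H (hH.trans inf_le_right), add_zero]
  | smul a x _ hx =>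
    obtain ⟨H1, h1, h1'⟩ := hx
    refine ⟨H1, h1, fun H _ _ hH => ?_⟩
    rw [sumQ_smul, h1' H hH, smul_zero]

/-- **The averaging lemma.** An invariant vector which is congruent to `m` is a combination of the
translates of `m`. -/
theorem avg_mem (hfin : FinOrb ρ) {m v : V} (hv : ∀ i, ρ i v = v) (h : m - v ∈ augA ρ) :
    v ∈ Submodule.span ℂ (Set.range fun i => ρ i m) := by
  obtain ⟨H0, h0, h0'⟩ := sumQ_aug ρ hfin h
  have _ := h0
  have h1 := h0' H0.normalCore H0.normalCore_le
  rw [sumQ_sub, sumQ_fixed ρ hv, sub_eq_zero] at h1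
  have hne : (H0.normalCore.index : ℂ) ≠ 0 := by
    exact_mod_cast Subgroup.FiniteIndex.index_ne_zero
  have h2 : v = (H0.normalCore.index : ℂ)⁻¹ • sumQ ρ H0.normalCore m := by
    rw [h1, smul_smul, inv_mul_cancel₀ hne, one_smul]
  rw [h2]
  refine Submodule.smul_mem _ _ ?_
  unfold sumQ
  exact Submodule.sum_mem _ fun c _ => Submodule.subset_span ⟨_, rfl⟩

theorem eq_zero_of_mem_aug (hfin : FinOrb ρ) {v : V} (hv : ∀ i, ρ i v = v) (h : v ∈ augA ρ) :
    v = 0 := by
  have h1 : (0 : V) - v ∈ augA ρ := by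
    rw [zero_sub]
    exact Submodule.neg_mem _ h
  have h2 := avg_mem ρ hfin hv h1
  have h3 : (Set.range fun i => ρ i (0 : V)) = {0} := by
    ext x
    simp
  rw [h3] at h2
  simpa using h2

end abs

section sub

variable {G V : Type*} [Group G] [AddCommGroup V] [Module ℂ V] (ρ : Representation ℂ G V)

/-- restriction to a subgroup -/
def res (H : Subgroup G) : Representation ℂ H V := ρ.comp H.subtype

/-- the kernel of the map to the coinvariants of a subgroup -/
def aug (H : Subgroup G) : Submodule ℂ V := Submodule.span ℂ {x | ∃ h ∈ H, ∃ w, x = ρ h w - w}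

theorem aug_eq (H : Subgroup G) : aug ρ H = augA (res ρ H) := by
  unfold aug augA
  congr 1
  ext x
  simp [res]

theorem mem_aug {H : Subgroup G} {h : G} (hh : h ∈ H) (w : V) : ρ h w - w ∈ aug ρ H :=
  Submodule.subset_span ⟨h, hh, w, rfl⟩

theorem aug_mono {H H' : Subgroup G} (h : H ≤ H') : aug ρ H ≤ aug ρ H' := by
  refine Submodule.span_mono ?_
  rintro x ⟨g, hg, w, rfl⟩
  exact ⟨g, h hg, w, rfl⟩

/-- the orbits of the subgroup `H` are finite -/
def FO (H : Subgroup G) : Prop := FinOrb (res ρ H)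

theorem FO.mono {H H' : Subgroup G} (h : H ≤ H') (hf : FO ρ H') : FO ρ H := by
  intro w
  have h1 := hf w
  have e : stab (res ρ H) w = (stab (res ρ H') w).comap (Subgroup.inclusion h) := by
    ext x
    simp [stab, res]
  rw [e]
  have : (stab (res ρ H') w).FiniteIndex := h1
  exact ⟨by
    have h2 := Subgroup.index_comap (stab (res ρ H') w) (Subgroup.inclusion h)
    rw [h2]
    exact (inferInstance : ((stab (res ρ H') w).subgroupOf (Subgroup.inclusion h).range).FiniteIndex).index_ne_zero⟩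

theorem avg_mem' {H : Subgroup G} (hfin : FO ρ H) {m v : V} (hv : ∀ i ∈ H, ρ i v = v)
    (h : m - v ∈ aug ρ H) : v ∈ Submodule.span ℂ (Set.range fun i => ρ i m) := by
  rw [aug_eq] at h
  have h1 := avg_mem (res ρ H) hfin (fun i => hv i i.2) h
  refine Submodule.span_mono ?_ h1
  rintro x ⟨i, rfl⟩
  exact ⟨i, rfl⟩

theorem eq_zero_of_mem_aug' {H : Subgroup G} (hfin : FO ρ H) {v : V} (hv : ∀ i ∈ H, ρ i v = v)
    (h : v ∈ aug ρ H) : v = 0 := by
  rw [aug_eq] at h
  exact eq_zero_of_mem_aug (res ρ H) hfin (fun i => hv i i.2) h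

/-- elements which normalise `H` preserve `aug ρ H` -/
theorem apply_mem_aug {H : Subgroup G} {g : G} (hg : ∀ h ∈ H, g * h * g⁻¹ ∈ H) {u : V}
    (hu : u ∈ aug ρ H) : ρ g u ∈ aug ρ H := by
  induction hu using Submodule.span_induction with
  | mem x hx =>
    obtain ⟨h, hh, w, rfl⟩ := hx
    have e : ρ g (ρ h w - w) = ρ (g * h * g⁻¹) (ρ g w) - ρ g w := by
      rw [map_sub, ← Module.End.mul_apply, ← Module.End.mul_apply, ← map_mul, ← map_mul]
      congr 3
      group
    rw [e]
    exact mem_aug ρ (hg h hh) _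
  | zero => simp
  | add x y _ _ hx hy =>
    rw [map_add]
    exact Submodule.add_mem _ hx hy
  | smul a x _ hx =>
    rw [map_smul]
    exact Submodule.smul_mem _ _ hx

theorem map_aug {V' : Type*} [AddCommGroup V'] [Module ℂ V'] {ρ' : Representation ℂ G V'}
    (T : V →ₗ[ℂ] V') (hT : ∀ g x, T (ρ g x) = ρ' g (T x)) {H : Subgroup G} {u : V}
    (hu : u ∈ aug ρ H) : T u ∈ aug ρ' H := by
  induction hu using Submodule.span_induction with
  | mem x hx =>
    obtain ⟨h, hh, w, rfl⟩ := hx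
    rw [map_sub, hT]
    exact mem_aug ρ' hh _
  | zero => simp
  | add x y _ _ hx hy =>
    rw [map_add]
    exact Submodule.add_mem _ hx hy
  | smul a x _ hx =>
    rw [map_smul]
    exact Submodule.smul_mem _ _ hx

end sub

end Pool.Agent.Q260.AL
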