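import Pool.Agent.Q260.AL.GL
import Pool.Agent.Q260.AL.Rep

/-!
# `GL₂` of a local field: the maximal compact subgroup, the Iwahori subgroup, congruence subgroups
-/

set_option autoImplicit false

namespace Pool.Agent.Q260.AL

open Matrix WithZero
open scoped WithZero

/-- A valued field with a uniformiser and with representatives of the residue field. -/
structure LD (k F : Type*) [Field k] [Field F] where
  v : Valuation F ℤᵐ⁰
  π : Fˣ
  hπ : v π = exp (-1 : ℤ)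
  C : k →+* F
  hC1 : ∀ a, v (C a) ≤ 1
  hC : ∀ x, v x ≤ 1 → ∃ a, v (x - C a) < 1

variable {k F : Type*} [Field k] [Field F] (L : LD k F)

theorem vmul_le {v : Valuation F ℤᵐ⁰} {x y : F} {a b : ℤᵐ⁰} (hx : v x ≤ a) (hy : v y ≤ b) :
    v (x * y) ≤ a * b := by
  rw [map_mul]
  exact mul_le_mul' hx hy

theorem vmul_le1 {v : Valuation F ℤᵐ⁰} {x y : F} {a : ℤᵐ⁰} (hx : v x ≤ a) (hy : v y ≤ 1) :
    v (x * y) ≤ a := by
  simpa using vmul_le hx hy

theorem vmul_le1' {v : Valuation F ℤᵐ⁰} {x y : F} {a : ℤᵐ⁰} (hx : v x ≤ 1) (hy : v y ≤ a) :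
    v (x * y) ≤ a := by
  simpa using vmul_le hx hy

theorem vmul_lt1 {v : Valuation F ℤᵐ⁰} {x y : F} (hx : v x < 1) (hy : v y ≤ 1) :
    v (x * y) < 1 := by
  rw [map_mul]
  calc v x * v y ≤ v x * 1 := by gcongr
    _ < 1 := by simpa using hx

theorem vmul_lt1' {v : Valuation F ℤᵐ⁰} {x y : F} (hx : v x ≤ 1) (hy : v y < 1) :
    v (x * y) < 1 := by
  rw [mul_comm]
  exact vmul_lt1 hy hx

theorem lt_one_iff_exp {x : ℤᵐ⁰} : x < 1 ↔ x ≤ exp (-1 : ℤ) := by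
  rcases eq_or_ne x 0 with rfl | hx
  · simp
  · rw [← exp_log hx, ← exp_zero, exp_lt_exp, exp_le_exp]
    omega

/-- `GL₂(O)` -/
def Kc (v : Valuation F ℤᵐ⁰) : Subgroup (GL (Fin 2) F) where
  carrier := {g | ∀ i j, v (g.1 i j) ≤ 1 ∧ v (g⁻¹.1 i j) ≤ 1}
  mul_mem' {g h} hg hh i j := by
    rw [_root_.mul_inv_rev, mul_val, mul_val]
    exact ⟨v.map_add_le (vmul_le1 (hg _ _).1 (hh _ _).1) (vmul_le1 (hg _ _).1 (hh _ _).1),
      v.map_add_le (vmul_le1 (hh _ _).2 (hg _ _).2) (vmul_le1 (hh _ _).2 (hg _ _).2)⟩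
  one_mem' i j := by
    fin_cases i <;> fin_cases j <;> simp
  inv_mem' {g} hg i j := ⟨(hg i j).2, by rw [inv_inv]; exact (hg i j).1⟩

/-- the Iwahori subgroup of the matrices in `GL₂(O)` which are upper triangular modulo the
maximal ideal -/
def Iw (v : Valuation F ℤᵐ⁰) : Subgroup (GL (Fin 2) F) where
  carrier := {g | g ∈ Kc v ∧ v (g.1 1 0) < 1 ∧ v (g⁻¹.1 1 0) < 1}
  mul_mem' {g h} hg hh := by
    refine ⟨mul_mem hg.1 hh.1, ?_, ?_⟩
    · rw [mul_val]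
      exact v.map_add_lt (vmul_lt1 hg.2.1 (hh.1 _ _).1) (vmul_lt1' (hg.1 _ _).1 hh.2.1)
    · rw [_root_.mul_inv_rev, mul_val]
      exact v.map_add_lt (vmul_lt1 hh.2.2 (hg.1 _ _).2) (vmul_lt1' (hh.1 _ _).2 hg.2.2)
  one_mem' := ⟨one_mem _, by simp, by simp⟩
  inv_mem' {g} hg := ⟨inv_mem hg.1, hg.2.2, by rw [inv_inv]; exact hg.2.1⟩

theorem Iw_le (v : Valuation F ℤᵐ⁰) : Iw v ≤ Kc v := fun _ h => h.1

/-- the determinant -/
def dt (g : GL (Fin 2) F) : F := g.1 0 0 * g.1 1 1 - g.1 0 1 * g.1 1 0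

theorem dt_mul (g h : GL (Fin 2) F) : dt (g * h) = dt g * dt h := by
  simp only [dt, mul_val]
  ring

theorem dt_ne_zero (g : GL (Fin 2) F) : dt g ≠ 0 := by
  intro h
  have := inv_mul_det g
  unfold dt at h
  rw [h, zero_mul] at this
  exact zero_ne_one this

theorem dt_inv (g : GL (Fin 2) F) : dt g * dt g⁻¹ = 1 := inv_mul_det g

theorem inv00 (g : GL (Fin 2) F) : g⁻¹.1 0 0 = (dt g)⁻¹ * g.1 1 1 := by
  rw [← (inv_formula g).1, ← mul_assoc, show (g.1 0 0 * g.1 1 1 - g.1 0 1 * g.1 1 0) = dt g from rfl,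
    inv_mul_cancel₀ (dt_ne_zero g), one_mul]
theorem inv01 (g : GL (Fin 2) F) : g⁻¹.1 0 1 = -((dt g)⁻¹ * g.1 0 1) := by
  rw [← mul_neg, ← (inv_formula g).2.1, ← mul_assoc,
    show (g.1 0 0 * g.1 1 1 - g.1 0 1 * g.1 1 0) = dt g from rfl,
    inv_mul_cancel₀ (dt_ne_zero g), one_mul]
theorem inv10 (g : GL (Fin 2) F) : g⁻¹.1 1 0 = -((dt g)⁻¹ * g.1 1 0) := by
  rw [← mul_neg, ← (inv_formula g).2.2.1, ← mul_assoc,
    show (g.1 0 0 * g.1 1 1 - g.1 0 1 * g.1 1 0) = dt g from rfl,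
    inv_mul_cancel₀ (dt_ne_zero g), one_mul]
theorem inv11 (g : GL (Fin 2) F) : g⁻¹.1 1 1 = (dt g)⁻¹ * g.1 0 0 := by
  rw [← (inv_formula g).2.2.2, ← mul_assoc,
    show (g.1 0 0 * g.1 1 1 - g.1 0 1 * g.1 1 0) = dt g from rfl,
    inv_mul_cancel₀ (dt_ne_zero g), one_mul]

variable {v : Valuation F ℤᵐ⁰}

theorem dt_K {g : GL (Fin 2) F} (hg : g ∈ Kc v) : v (dt g) = 1 := by
  have h1 : v (dt g) ≤ 1 :=
    (v.map_sub _ _).trans (max_le (vmul_le1 (hg _ _).1 (hg _ _).1) (vmul_le1 (hg _ _).1 (hg _ _).1))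
  have h2 : v (dt g⁻¹) ≤ 1 :=
    (v.map_sub _ _).trans (max_le (vmul_le1 (hg _ _).2 (hg _ _).2) (vmul_le1 (hg _ _).2 (hg _ _).2))
  have h3 : v (dt g) * v (dt g⁻¹) = 1 := by rw [← map_mul, dt_inv, map_one]
  refine le_antisymm h1 ?_
  calc (1 : ℤᵐ⁰) = v (dt g) * v (dt g⁻¹) := h3.symm
    _ ≤ v (dt g) * 1 := by gcongr
    _ = v (dt g) := mul_one _

theorem mem_Kc {g : GL (Fin 2) F} (h : ∀ i j, v (g.1 i j) ≤ 1) (hd : v (dt g) = 1) : g ∈ Kc v := by
  have hd' : v (dt g)⁻¹ ≤ 1 := by rw [map_inv₀, hd, inv_one]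
  intro i j
  refine ⟨h i j, ?_⟩
  fin_cases i <;> fin_cases j
  · change v (g⁻¹.1 0 0) ≤ 1
    rw [inv00]
    exact vmul_le1 hd' (h _ _)
  · change v (g⁻¹.1 0 1) ≤ 1
    rw [inv01, Valuation.map_neg]
    exact vmul_le1 hd' (h _ _)
  · change v (g⁻¹.1 1 0) ≤ 1
    rw [inv10, Valuation.map_neg]
    exact vmul_le1 hd' (h _ _)
  · change v (g⁻¹.1 1 1) ≤ 1
    rw [inv11]
    exact vmul_le1 hd' (h _ _)

theorem mem_Iw {g : GL (Fin 2) F} (h : g ∈ Kc v) (h' : v (g.1 1 0) < 1) : g ∈ Iw v := by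
  refine ⟨h, h', ?_⟩
  rw [inv10, Valuation.map_neg, map_mul, map_inv₀, dt_K h, inv_one, one_mul]
  exact h'

theorem nU_mem_Iw {x : F} (hx : v x ≤ 1) : nU x ∈ Iw v := by
  refine mem_Iw (mem_Kc ?_ ?_) ?_
  · intro i j
    fin_cases i <;> fin_cases j <;> simp [nU_val, hx]
  · simp [dt, nU_val]
  · simp [nU_val]

theorem nL_mem_Iw {x : F} (hx : v x < 1) : nL x ∈ Iw v := by
  refine mem_Iw (mem_Kc ?_ ?_) ?_
  · intro i j
    fin_cases i <;> fin_cases j <;> simp [nL_val, hx.le]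
  · simp [dt, nL_val]
  · simpa [nL_val] using hx

theorem nL_mem_Kc {x : F} (hx : v x ≤ 1) : nL x ∈ Kc v := by
  refine mem_Kc ?_ ?_
  · intro i j
    fin_cases i <;> fin_cases j <;> simp [nL_val, hx]
  · simp [dt, nL_val]

theorem dg_mem_Iw {x y : Fˣ} (hx : v x = 1) (hy : v y = 1) : dg x y ∈ Iw v := by
  refine mem_Iw (mem_Kc ?_ ?_) ?_
  · intro i j
    fin_cases i <;> fin_cases j <;> simp [dg_val, hx, hy]
  · simp [dt, dg_val, hx, hy]
  · simp [dg_val]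

theorem ws_mem_Kc : ws F ∈ Kc v := by
  refine mem_Kc ?_ ?_
  · intro i j
    fin_cases i <;> fin_cases j <;> simp [ws_val]
  · simp [dt, ws_val]

theorem dt_dg (x y : Fˣ) : dt (dg x y) = x * y := by simp [dt, dg_val]
theorem dt_nU (x : F) : dt (nU x) = 1 := by simp [dt, nU_val]
theorem dt_nL (x : F) : dt (nL x) = 1 := by simp [dt, nL_val]
theorem dt_ws : dt (ws F) = -1 := by simp [dt, ws_val]

/-- **Iwahori decomposition.** -/
theorem iw_decomp (v : Valuation F ℤᵐ⁰) (g : GL (Fin 2) F) : ∃ i ∈ Iw v, ∃ i' ∈ Iw v, ∃ x y : Fˣ,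
    g = i * dg x y * i' ∨ g = i * (dg x y * ws F) * i' := by
  set a := g.1 0 0 with ha
  set b := g.1 0 1 with hb
  set c := g.1 1 0 with hc
  set d := g.1 1 1 with hd
  have hD : a * d - b * c ≠ 0 := dt_ne_zero g
  set D := a * d - b * c with hDdef
  have hne : ∀ {x y : F}, v x < v y → y ≠ 0 := by
    rintro x y h rfl
    simp at h
  have hdiv : ∀ {x y : F}, y ≠ 0 → v x ≤ v y → v (x / y) ≤ 1 := by
    intro x y hy h
    rw [map_div₀]
    exact div_le_one_of_le₀ h zero_le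
  have hdiv' : ∀ {x y : F}, v x < v y → v (x / y) < 1 := by
    intro x y h
    have hy := hne h
    rw [map_div₀]
    have : 0 < v y := zero_lt_iff.2 ((Valuation.ne_zero_iff v).2 hy)
    exact (div_lt_one₀ this).2 h
  by_cases h1 : v a ≤ v c ∧ v d ≤ v c ∧ v b ≤ v c
  · -- pivot c
    obtain ⟨hac, hdc, hbc⟩ := h1
    have hc0 : c ≠ 0 := by
      intro h
      rw [h, map_zero] at hac hbc hdc
      have ha0 : a = 0 := by simpa using hac
      have hb0 : b = 0 := by simpa using hbc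
      exact hD (by rw [hDdef, ha0, hb0]; ring)
    refine ⟨nU (a / c), nU_mem_Iw (hdiv hc0 hac), nU (d / c), nU_mem_Iw (hdiv hc0 hdc),
      Units.mk0 (-D / c) (div_ne_zero (neg_ne_zero.2 hD) hc0), Units.mk0 c hc0, Or.inr ?_⟩
    apply gl_ext <;> simp only [← ha, ← hb, ← hc, ← hd] <;> simp [mul_val, nU_val, dg_val, ws_val] <;>
      (try field_simp) <;> (try simp only [hDdef]) <;> (try ring)
  by_cases h2 : v c < v a ∧ v b ≤ v a
  · obtain ⟨hca, hba⟩ := h2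
    have ha0 := hne hca
    refine ⟨nL (c / a), nL_mem_Iw (hdiv' hca), nU (b / a), nU_mem_Iw (hdiv ha0 hba),
      Units.mk0 a ha0, Units.mk0 (D / a) (div_ne_zero hD ha0), Or.inl ?_⟩
    apply gl_ext <;> simp only [← ha, ← hb, ← hc, ← hd] <;> simp [mul_val, nU_val, nL_val, dg_val] <;>
      (try field_simp) <;> (try simp only [hDdef]) <;> (try ring)
  by_cases h3 : v c < v d ∧ v b ≤ v d
  · obtain ⟨hcd, hbd⟩ := h3
    have hd0 := hne hcd
    refine ⟨nU (b / d), nU_mem_Iw (hdiv hd0 hbd), nL (c / d), nL_mem_Iw (hdiv' hcd),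
      Units.mk0 (D / d) (div_ne_zero hD hd0), Units.mk0 d hd0, Or.inl ?_⟩
    apply gl_ext <;> simp only [← ha, ← hb, ← hc, ← hd] <;> simp [mul_val, nU_val, nL_val, dg_val] <;>
      (try field_simp) <;> (try simp only [hDdef]) <;> (try ring)
  · have hdb : v d < v b ∧ v a < v b := by
      push Not at h1 h2 h3
      rcases le_or_gt (v a) (v c) with hac | hca
      · rcases le_or_gt (v d) (v c) with hdc | hcd
        · have h := h1 hac hdc
          exact ⟨hdc.trans_lt h, hac.trans_lt h⟩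
        · have h := h3 hcd
          exact ⟨h, (hac.trans hcd.le).trans_lt h⟩
      · have h := h2 hca
        rcases le_or_gt (v d) (v c) with hdc | hcd
        · exact ⟨(hdc.trans hca.le).trans_lt h, h⟩
        · exact ⟨h3 hcd, h⟩
    obtain ⟨hdb, hab⟩ := hdb
    have hb0 := hne hdb
    refine ⟨nL (d / b), nL_mem_Iw (hdiv' hdb), nL (a / b), nL_mem_Iw (hdiv' hab),
      Units.mk0 b hb0, Units.mk0 (-D / b) (div_ne_zero (neg_ne_zero.2 hD) hb0), Or.inr ?_⟩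
    apply gl_ext <;> simp only [← ha, ← hb, ← hc, ← hd] <;> simp [mul_val, nL_val, dg_val, ws_val] <;>
      (try field_simp) <;> (try simp only [hDdef]) <;> (try ring)

end Pool.Agent.Q260.AL
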