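import Pool.Agent.Q260.AL.Tr

/-!
# The two automorphic representations and their liftings
-/

set_option autoImplicit false
set_option linter.unusedSectionVars false

namespace Pool.Agent.Q260.AL

open IsDedekindDomain Polynomial WithZero
open Matrix (GeneralLinearGroup)
open scoped WithZero MatrixGroups

noncomputable section

variable {k : Type} [Field k]

/-- the element of `GL₂(A_f)` with component `x` at `v` and `1` elsewhere -/
theorem exists_lift (v : HeightOneSpectrum k[X]) (x : GL (Fin 2) (Kfin k v)) :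
    ∃ h : GL (Fin 2) (Afin k), lv v h = x ∧ ∀ u ≠ v, lv u h = 1 := by
  let M : GL (Fin 2) (Kfin k v) → Matrix (Fin 2) (Fin 2) (Afin k) := fun x i j =>
    (1 : Matrix (Fin 2) (Fin 2) (Afin k)) i j +
      mkOne v (x.1 i j - (1 : Matrix (Fin 2) (Fin 2) (Kfin k v)) i j)
  have hone : ∀ (u : HeightOneSpectrum k[X]) (i j : Fin 2),
      ev u ((1 : Matrix (Fin 2) (Fin 2) (Afin k)) i j) =
        (1 : Matrix (Fin 2) (Fin 2) (Kfin k u)) i j := by
    intro u i j
    fin_cases i <;> fin_cases j <;> simp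
  have hMv : ∀ x i j, ev v (M x i j) = x.1 i j := by
    intro x i j
    simp only [M]
    rw [map_add, hone, ev_mkOne]
    ring
  have hMu : ∀ x, ∀ u ≠ v, ∀ i j, ev u (M x i j) = (1 : Matrix (Fin 2) (Fin 2) (Kfin k u)) i j := by
    intro x u hu i j
    simp only [M]
    rw [map_add, hone, ev_mkOne_ne hu, add_zero]
  have hinv : ∀ x, M x * M x⁻¹ = 1 := by
    intro x
    refine Matrix.ext fun i j => ev_ext fun u => ?_
    rw [Matrix.mul_apply, Fin.sum_univ_two, map_add, map_mul, map_mul]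
    by_cases hu : u = v
    · subst hu
      rw [hMv, hMv, hMv, hMv, hone]
      have h0 : (x * x⁻¹).1 i j = (1 : Matrix (Fin 2) (Fin 2) (Kfin k u)) i j := by
        rw [mul_inv_cancel]; rfl
      rw [mul_val] at h0
      exact h0
    · rw [hMu x u hu, hMu x u hu, hMu _ u hu, hMu _ u hu, hone]
      exact mul_one_val 1 i j
  have h2 : M x⁻¹ * M x = 1 := by
    have := hinv x⁻¹
    rwa [inv_inv] at this
  refine ⟨⟨M x, M x⁻¹, hinv x, h2⟩, gl_ext' fun i j => hMv x i j, fun u hu =>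
    gl_ext' fun i j => hMu x u hu i j⟩

/-- the trivial representation of `GL₂` of a local field -/
def TrivL (F : Type) [Field F] (v : Valuation F ℤᵐ⁰) : LRep F v where
  V := ℂ
  ρ := 1
  ne := ⟨1, one_ne_zero⟩
  irr W _ := eq_bot_or_eq_top W
  sm _ := ⟨0, fun _ _ => rfl⟩

theorem TrivL_unr (F : Type) [Field F] (v : Valuation F ℤᵐ⁰) : Unr (TrivL F v) :=
  ⟨show ℂ from 1, one_ne_zero (α := ℂ), fun _ _ => rfl⟩

theorem id_ne : (LinearMap.id : ℂ →ₗ[ℂ] ℂ) ≠ 0 :=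
  fun h => one_ne_zero (α := ℂ) (congrArg (fun T : ℂ →ₗ[ℂ] ℂ => T 1) h)

theorem TrivL_compI : CompI (TrivL (Kinf k) (vI k)) (Triv k) :=
  ⟨(LinearMap.id : ℂ →ₗ[ℂ] ℂ), id_ne, fun _ _ => rfl⟩

theorem TrivL_compF (v : HeightOneSpectrum k[X]) : CompF v (TrivL (Kfin k v) Valued.v) (Triv k) :=
  ⟨(LinearMap.id : ℂ →ₗ[ℂ] ℂ), id_ne, fun _ _ _ => rfl⟩

/-- if `GL₂(A_f)` acts trivially then all finite components are trivial -/
theorem TrivL_compF' (v : HeightOneSpectrum k[X]) (P : GRep k) (h : ∀ y w, P.ρ (1, y) w = w) :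
    CompF v (TrivL (Kfin k v) Valued.v) P := by
  obtain ⟨w, hw⟩ := P.ne
  refine ⟨LinearMap.toSpanSingleton ℂ P.V w, fun h0 => hw ?_, fun y _ c => ?_⟩
  · have h1 : LinearMap.toSpanSingleton ℂ P.V w 1 = (0 : ℂ →ₗ[ℂ] P.V) 1 :=
      congrArg (fun T : ℂ →ₗ[ℂ] P.V => T 1) h0
    rwa [LinearMap.toSpanSingleton_apply, one_smul, LinearMap.zero_apply] at h1
  · rw [h]
    rfl

/-- a component of the trivial representation is unramified -/
theorem unr_of_triv {σ : LRep (Kinf k) (vI k)} (h : CompI σ (Triv k)) : Unr σ := by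
  obtain ⟨T, hT, hT'⟩ := h
  have hinj : Function.Injective T := irr_inj (ρ := σ.ρ)
    (ρ' := (1 : Representation ℂ (GL (Fin 2) (Kinf k)) ℂ)) σ.irr T hT' hT
  obtain ⟨w, hw⟩ := σ.ne
  exact ⟨w, hw, fun g _ => hinj (hT' g w)⟩

theorem comp_triv {P : GRep k} (h : ∀ y w, P.ρ (1, y) w = w) (v : HeightOneSpectrum k[X])
    {σ : LRep (Kfin k v) Valued.v} (hσ : CompF v σ P) : CompF v σ (Triv k) := by
  obtain ⟨T, hT, hT'⟩ := hσ
  have h1 : ∀ x w, T (σ.ρ x w) = T w := by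
    intro x w
    obtain ⟨y, hy, hy'⟩ := exists_lift v x
    have := hT' y hy' w
    rw [hy, h] at this
    exact this
  have hinj : Function.Injective T := irr_inj (ρ := σ.ρ)
    (ρ' := (1 : Representation ℂ (GL (Fin 2) (Kfin k v)) P.V)) σ.irr T h1 hT
  have h2 : ∀ x w, σ.ρ x w = w := fun x w => hinj (h1 x w)
  obtain ⟨w, hw⟩ := σ.ne
  obtain ⟨f, hf⟩ : ∃ f : σ.V →ₗ[ℂ] ℂ, f w ≠ 0 := by
    by_contra hcon
    push Not at hcon
    exact hw ((Module.forall_dual_apply_eq_zero_iff ℂ w).1 hcon)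
  refine ⟨f, fun h0 => hf ?_, fun y _ w => ?_⟩
  · have := congrArg (fun T : σ.V →ₗ[ℂ] ℂ => T w) h0
    exact this
  · rw [h2]
    rfl

theorem IsCuspidal.aut {P : GRep k} (h : IsCuspidal P) : IsAutomorphic P := by
  obtain ⟨W, hW, h1, h2⟩ := h
  exact ⟨W, hW, fun F hF => (h1 F hF).1, h2⟩

theorem IsCuspidal.lift {P : GRep k} (h : IsCuspidal P) : IsLift P P :=
  ⟨⟨h.aut, Or.inl h⟩, fun _ _ h => h, fun _ _ _ h => h⟩

variable [Fintype k]

/-- the lifting of the representation with Steinberg component at infinity on which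
`GL₂(A_f)` acts trivially is the trivial representation -/
theorem lift_B {P : GRep k} {v : P.V} (hv : v ≠ 0) (h : StVec Linf (rI P.ρ) v 0)
    (hf : ∀ y w, P.ρ (1, y) w = w) : IsLift P (Triv k) :=
  ⟨Triv_isobaric, fun _ hσ hc => absurd hc (not_unr hv h hσ), fun v _ _ hc => comp_triv hf v hc⟩

/-- **Main theorem.** -/
theorem main (k : Type) [Field k] [Fintype k] :
    ∃ (P₁ P₂ : GRep k) (τ : LRep (Kinf k) (vI k)),
      IsAutomorphic P₁ ∧ (∀ y w, P₁.ρ (1, y) w = w) ∧ IsCuspidal P₂ ∧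
      IsLift P₁ (Triv k) ∧ IsLift P₂ P₂ ∧ CompI τ P₁ ∧ CompI τ P₂ ∧
      ∀ σ, CompI σ (Triv k) → ¬ CompI σ P₂ := by
  obtain ⟨P₁, v₁, a1, b1, c1, d1⟩ := exists_B k
  obtain ⟨P₂, v₂, a2, b2, c2⟩ := exists_A k
  refine ⟨P₁, P₂, compM P₂ b2 c2, a1, d1, a2, lift_B b1 c1 d1, a2.lift, compM_comp' P₂ P₁ b2 c2 b1 c1,
    compM_comp P₂ b2 c2, fun σ hσ => not_unr b2 c2 (unr_of_triv hσ)⟩

end

end Pool.Agent.Q260.AL
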