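import Pool.Agent.Q260.AL.Sm

/-!
# Sub- and quotient representations, irreducible quotients of cyclic representations
-/

set_option autoImplicit false
set_option linter.unusedSectionVars false

namespace Pool.Agent.Q260.AL

section gen

variable {G V : Type*} [Group G] [AddCommGroup V] [Module ℂ V] (ρ : Representation ℂ G V)

/-- invariant subspaces -/
def St' (W : Submodule ℂ V) : Prop := ∀ g, ∀ x ∈ W, ρ g x ∈ W

/-- the representation on an invariant subspace -/
def subR (W : Submodule ℂ V) (hW : St' ρ W) : Representation ℂ G W where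
  toFun g := (ρ g).restrict (hW g)
  map_one' := by
    ext x
    simp
  map_mul' g h := by
    ext x
    simp

theorem subR_apply (W : Submodule ℂ V) (hW : St' ρ W) (g : G) (x : W) :
    ((subR ρ W hW g x : W) : V) = ρ g x := rfl

/-- the representation on the quotient by an invariant subspace -/
def quoR (N : Submodule ℂ V) (hN : St' ρ N) : Representation ℂ G (V ⧸ N) where
  toFun g := N.mapQ N (ρ g) (hN g)
  map_one' := by
    ext x
    simp
  map_mul' g h := by
    ext x
    simp

theorem quoR_apply (N : Submodule ℂ V) (hN : St' ρ N) (g : G) (x : V) :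
    quoR ρ N hN g (N.mkQ x) = N.mkQ (ρ g x) := rfl

/-- the span of the translates of a vector -/
def cyc (w : V) : Submodule ℂ V := Submodule.span ℂ (Set.range fun g => ρ g w)

theorem mem_cyc (g : G) (w : V) : ρ g w ∈ cyc ρ w := Submodule.subset_span ⟨g, rfl⟩

theorem self_mem_cyc (w : V) : w ∈ cyc ρ w := by
  have := mem_cyc ρ 1 w
  simpa using this

theorem cyc_st (w : V) : St' ρ (cyc ρ w) := by
  intro g x hx
  unfold cyc at hx
  induction hx using Submodule.span_induction with
  | mem x hx =>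
    obtain ⟨g', rfl⟩ := hx
    simp only
    rw [← Module.End.mul_apply, ← map_mul]
    exact mem_cyc ρ _ _
  | zero => rw [map_zero]; exact Submodule.zero_mem _
  | add x y _ _ hx hy => rw [map_add]; exact Submodule.add_mem _ hx hy
  | smul a x _ hx => rw [map_smul]; exact Submodule.smul_mem _ _ hx

theorem cyc_le {w : V} {W : Submodule ℂ V} (hW : St' ρ W) (hw : w ∈ W) : cyc ρ w ≤ W := by
  unfold cyc
  rw [Submodule.span_le]
  rintro x ⟨g, rfl⟩
  exact hW g w hw

/-- **Existence of maximal invariant subspaces which avoid a cyclic vector.** -/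
theorem exists_max {v : V} (hv : cyc ρ v = ⊤) {N : Submodule ℂ V} (hN : St' ρ N) (hvN : v ∉ N) :
    ∃ M : Submodule ℂ V, N ≤ M ∧ v ∉ M ∧ ∃ hM : St' ρ M, IrrRep (quoR ρ M hM) := by
  obtain ⟨M, hNM, hM⟩ := zorn_le_nonempty₀ {P : Submodule ℂ V | St' ρ P ∧ v ∉ P} (by
    intro c hc hchain y hy
    refine ⟨sSup c, ⟨?_, ?_⟩, fun z hz => le_sSup hz⟩
    · intro g x hx
      rw [Submodule.mem_sSup_of_directed ⟨y, hy⟩ hchain.directedOn] at hx ⊢
      obtain ⟨P, hP, hxP⟩ := hx
      exact ⟨P, hP, (hc hP).1 g x hxP⟩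
    · intro hmem
      rw [Submodule.mem_sSup_of_directed ⟨y, hy⟩ hchain.directedOn] at hmem
      obtain ⟨P, hP, hxP⟩ := hmem
      exact (hc hP).2 hxP) N ⟨hN, hvN⟩
  refine ⟨M, hNM, hM.1.2, hM.1.1, ?_⟩
  intro W hW
  by_cases hvW : M.mkQ v ∈ W
  · right
    rw [eq_top_iff]
    intro x _
    obtain ⟨x, rfl⟩ := M.mkQ_surjective x
    have h1 : cyc ρ v ≤ W.comap M.mkQ := by
      refine cyc_le ρ (fun g y hy => ?_) hvW
      exact hW g _ hy
    have h2 : x ∈ cyc ρ v := by rw [hv]; trivial
    exact h1 h2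
  · left
    have hst : St' ρ (W.comap M.mkQ) := fun g y hy => hW g _ hy
    have h1 : M ≤ W.comap M.mkQ := by
      intro x hx
      rw [Submodule.mem_comap, Submodule.mkQ_apply, (Submodule.Quotient.mk_eq_zero M).2 hx]
      exact W.zero_mem
    have h2 := hM.2 (y := W.comap M.mkQ) ⟨hst, hvW⟩ h1
    rw [eq_bot_iff]
    intro x hx
    obtain ⟨x, rfl⟩ := M.mkQ_surjective x
    have h3 : x ∈ M := h2 hx
    rw [Submodule.mkQ_apply, (Submodule.Quotient.mk_eq_zero M).2 h3]
    exact Submodule.zero_mem _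

theorem cyc_sub (v : V) : cyc (subR ρ (cyc ρ v) (cyc_st ρ v)) ⟨v, self_mem_cyc ρ v⟩ = ⊤ := by
  rw [eq_top_iff]
  rintro ⟨x, hx⟩ -
  have h1 : ∀ x ∈ cyc ρ v, ∀ hx : x ∈ cyc ρ v,
      (⟨x, hx⟩ : cyc ρ v) ∈ cyc (subR ρ (cyc ρ v) (cyc_st ρ v)) ⟨v, self_mem_cyc ρ v⟩ := by
    intro x hx
    unfold cyc at hx
    induction hx using Submodule.span_induction with
    | mem x hx =>
      obtain ⟨g, rfl⟩ := hx
      intro hx
      exact mem_cyc (subR ρ (cyc ρ v) (cyc_st ρ v)) g ⟨v, self_mem_cyc ρ v⟩
    | zero => intro hx; exact Submodule.zero_mem _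
    | add x y hx' hy' hx hy =>
      intro h
      have := Submodule.add_mem _ (hx hx') (hy hy')
      exact this
    | smul a x hx' hx =>
      intro h
      have := Submodule.smul_mem _ a (hx hx')
      exact this
  exact h1 x hx hx

/-- intertwining maps out of irreducible representations are injective -/
theorem irr_inj {V' : Type*} [AddCommGroup V'] [Module ℂ V'] {ρ' : Representation ℂ G V'}
    {ρ : Representation ℂ G V} (hi : IrrRep ρ) (T : V →ₗ[ℂ] V') (hT : ∀ g x, T (ρ g x) = ρ' g (T x))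
    (h0 : T ≠ 0) : Function.Injective T := by
  rw [← LinearMap.ker_eq_bot]
  rcases hi (LinearMap.ker T) (fun g x hx => by
    rw [LinearMap.mem_ker] at hx ⊢
    rw [hT, hx, map_zero]) with h | h
  · exact h
  · exact absurd (LinearMap.ker_eq_top.1 h) h0

/-- an irreducible representation is cyclic -/
theorem irr_cyc {ρ : Representation ℂ G V} (hi : IrrRep ρ) {w : V} (hw : w ≠ 0) : cyc ρ w = ⊤ := by
  rcases hi _ (cyc_st ρ w) with h | h
  · exfalso
    apply hw
    have := self_mem_cyc ρ w
    rw [h] at this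
    simpa using this
  · exact h

end gen

end Pool.Agent.Q260.AL
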