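import Pool.Agent.Q260.AL.Adele

/-!
# Reduction theory for `GL₂(k(t)) \ GL₂(A)`
-/

set_option autoImplicit false
set_option linter.unusedSectionVars false
set_option linter.style.haveILetI false

namespace Pool.Agent.Q260.AL

open IsDedekindDomain Polynomial WithZero
open Matrix (GeneralLinearGroup)
open Matrix.GeneralLinearGroup (map)
open scoped WithZero MatrixGroups

noncomputable section

section local_

variable {F : Type*} [Field F] {v : Valuation F ℤᵐ⁰}

theorem iwasawa (v : Valuation F ℤᵐ⁰) (g : GL (Fin 2) F) : ∃ h ∈ Kc v, (g * h).1 1 0 = 0 := by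
  set c := g.1 1 0 with hc
  set d := g.1 1 1 with hd
  have hdt := dt_ne_zero g
  unfold dt at hdt
  rcases le_or_gt (v c) (v d) with h | h
  · have hd0 : d ≠ 0 := by
      intro h0
      rw [h0, map_zero] at h
      have hc0 : c = 0 := by simpa using h
      rw [← hc, ← hd, hc0, h0] at hdt
      simp at hdt
    refine ⟨nL (-(c / d)), nL_mem_Kc ?_, ?_⟩
    · rw [Valuation.map_neg, map_div₀]
      exact div_le_one_of_le₀ h zero_le
    · rw [mul_val, ← hc, ← hd, nL_val]
      simp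
      field_simp
      ring
  · have hc0 : c ≠ 0 := by
      intro h0
      rw [h0] at h
      simp at h
    refine ⟨nU (-(d / c)) * ws _, mul_mem (Iw_le _ (nU_mem_Iw ?_)) ws_mem_Kc, ?_⟩
    · rw [Valuation.map_neg, map_div₀]
      exact div_le_one_of_le₀ h.le zero_le
    · rw [mul_val, ← hc, ← hd, mul_val, mul_val, nU_val, ws_val]
      simp
      field_simp
      ring

/-- the norm of the second row -/
def rn (v : Valuation F ℤᵐ⁰) (g : GL (Fin 2) F) : ℤᵐ⁰ := max (v (g.1 1 0)) (v (g.1 1 1))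

theorem rn_le (g : GL (Fin 2) F) (j : Fin 2) : v (g.1 1 j) ≤ rn v g := by
  fin_cases j
  · exact le_max_left _ _
  · exact le_max_right _ _

theorem rn_mul_le (g h : GL (Fin 2) F) (j : Fin 2) {C : ℤᵐ⁰} (hC : ∀ i, v (h.1 i j) ≤ C) :
    v ((g * h).1 1 j) ≤ rn v g * C := by
  rw [mul_val]
  exact v.map_add_le (vmul_le (rn_le g 0) (hC 0)) (vmul_le (rn_le g 1) (hC 1))

theorem rn_mul_K (g : GL (Fin 2) F) {κ : GL (Fin 2) F} (hκ : κ ∈ Kc v) : rn v (g * κ) = rn v g := by
  have h1 : ∀ (g κ : GL (Fin 2) F), κ ∈ Kc v → rn v (g * κ) ≤ rn v g := by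
    intro g κ hκ
    refine max_le ?_ ?_
    · simpa using rn_mul_le g κ 0 (C := 1) (fun i => (hκ i 0).1)
    · simpa using rn_mul_le g κ 1 (C := 1) (fun i => (hκ i 1).1)
  refine le_antisymm (h1 g κ hκ) ?_
  have h2 := h1 (g * κ) κ⁻¹ (inv_mem hκ)
  rwa [mul_assoc, mul_inv_cancel, mul_one] at h2

theorem rn_ne_zero (g : GL (Fin 2) F) : rn v g ≠ 0 := by
  intro h
  have h0 : g.1 1 0 = 0 := by
    have := rn_le (v := v) g 0
    rw [h] at this
    simpa using this
  have h1 : g.1 1 1 = 0 := by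
    have := rn_le (v := v) g 1
    rw [h] at this
    simpa using this
  have := dt_ne_zero g
  unfold dt at this
  rw [h0, h1] at this
  simp at this

end local_

variable {k : Type} [Field k]

/-- the global matrices at infinity -/
abbrev gli : GL (Fin 2) (RatFunc k) →* GL (Fin 2) (Kinf k) := map (algebraMap (RatFunc k) (Kinf k))

/-- the valuation at infinity -/
abbrev vI (k : Type) [Field k] : Valuation (Kinf k) ℤᵐ⁰ := Valued.v

/-- matrices with polynomial entries -/
theorem poly_entries {γ : GL (Fin 2) (RatFunc k)} (h : glf γ ∈ Kf k) (i j : Fin 2) :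
    ∃ p : k[X], algebraMap k[X] (RatFunc k) p = γ.1 i j := by
  refine poly_of_int _ fun v => ?_
  have := (h v i j).1
  rwa [show GeneralLinearGroup.map (ev v) (glf γ) = GeneralLinearGroup.map (algebraMap (RatFunc k) (Kfin k v)) γ from lv_glf v γ,
    GeneralLinearGroup.map_apply, vfin] at this

theorem one_le_of_ne {γ : GL (Fin 2) (RatFunc k)} (h : glf γ ∈ Kf k) (i j : Fin 2)
    (hne : γ.1 i j ≠ 0) : 1 ≤ vI k ((gli γ).1 i j) := by
  obtain ⟨p, hp⟩ := poly_entries h i j
  have hp0 : p ≠ 0 := by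
    rintro rfl
    apply hne
    rw [← hp, map_zero]
  rw [GeneralLinearGroup.map_apply, ← hp]
  rw [show vI k (algebraMap (RatFunc k) (Kinf k) (algebraMap k[X] (RatFunc k) p)) =
    exp (p.natDegree : ℤ) from vinf_poly hp0, ← exp_zero, exp_le_exp]
  omega

theorem ws_mem_Kf : glf (ws (RatFunc k)) ∈ Kf k := by
  intro v
  rw [show GeneralLinearGroup.map (ev v) (glf (ws (RatFunc k))) = GeneralLinearGroup.map (algebraMap (RatFunc k) (Kfin k v)) _ from
    lv_glf v _, map_ws]
  exact ws_mem_Kc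

theorem nU_mem_Kf (p : k[X]) : glf (nU (algebraMap k[X] (RatFunc k) p)) ∈ Kf k := by
  intro v
  rw [show GeneralLinearGroup.map (ev v) (glf (nU (algebraMap k[X] (RatFunc k) p))) =
    GeneralLinearGroup.map (algebraMap (RatFunc k) (Kfin k v)) _ from lv_glf v _, map_nU]
  exact Iw_le _ (nU_mem_Iw (vfin_poly_le v p))

/-- **Reduction at infinity.** -/
theorem red (x : GL (Fin 2) (Kinf k)) : ∃ γ : GL (Fin 2) (RatFunc k), glf γ ∈ Kf k ∧
    ∃ (n : ℕ) (z : (Kinf k)ˣ), ∃ κ ∈ Kc (vI k),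
      x = gli γ * (Linf.A (-(n : ℤ)) * dg z z * κ) := by
  classical
  -- lower bound
  set C : ℤᵐ⁰ := max (max (vI k (x⁻¹.1 0 0)) (vI k (x⁻¹.1 0 1)))
    (max (vI k (x⁻¹.1 1 0)) (vI k (x⁻¹.1 1 1))) with hC
  have hCle : ∀ i j, vI k (x⁻¹.1 i j) ≤ C := by
    intro i j
    fin_cases i <;> fin_cases j
    · exact (le_max_left _ _).trans (le_max_left _ _)
    · exact (le_max_right _ _).trans (le_max_left _ _)
    · exact (le_max_left _ _).trans (le_max_right _ _)
    · exact (le_max_right _ _).trans (le_max_right _ _)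
  have hlow : ∀ γ : GL (Fin 2) (RatFunc k), glf γ ∈ Kf k → 1 ≤ rn (vI k) (gli γ * x) * C := by
    intro γ hγ
    have h1 : ∀ j, vI k ((gli γ).1 1 j) ≤ rn (vI k) (gli γ * x) * C := by
      intro j
      have := rn_mul_le (v := vI k) (gli γ * x) x⁻¹ j (fun i => hCle i j)
      rwa [mul_assoc, mul_inv_cancel, mul_one] at this
    have hdt := dt_ne_zero γ
    unfold dt at hdt
    by_cases h10 : γ.1 1 0 = 0
    · by_cases h11 : γ.1 1 1 = 0
      · rw [h10, h11] at hdt
        simp at hdt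
      · exact (one_le_of_ne hγ 1 1 h11).trans (h1 1)
    · exact (one_le_of_ne hγ 1 0 h10).trans (h1 0)
  have hC0 : C ≠ 0 := by
    intro h0
    have := hlow 1 (by rw [map_one]; exact one_mem _)
    rw [h0, mul_zero] at this
    exact absurd this (by simp)
  have hlow' : ∀ γ : GL (Fin 2) (RatFunc k), glf γ ∈ Kf k →
      0 ≤ log (rn (vI k) (gli γ * x)) + log C := by
    intro γ hγ
    have h1 := hlow γ hγ
    rw [← exp_log hC0, ← exp_log (rn_ne_zero (v := vI k) (gli γ * x)), ← exp_add, ← exp_zero,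
      exp_le_exp] at h1
    simpa using h1
  -- minimal element
  obtain ⟨γ, hγ, hmin⟩ : ∃ γ : GL (Fin 2) (RatFunc k), glf γ ∈ Kf k ∧
      ∀ γ', glf γ' ∈ Kf k → rn (vI k) (gli γ * x) ≤ rn (vI k) (gli γ' * x) := by
    let P : ℕ → Prop := fun n => ∃ γ : GL (Fin 2) (RatFunc k), glf γ ∈ Kf k ∧
      log (rn (vI k) (gli γ * x)) + log C = n
    have hP : ∃ n, P n := by
      have h1 : glf (1 : GL (Fin 2) (RatFunc k)) ∈ Kf k := by rw [map_one]; exact one_mem _
      obtain ⟨n, hn⟩ := Int.eq_ofNat_of_zero_le (hlow' 1 h1)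
      exact ⟨n, 1, h1, hn⟩
    obtain ⟨γ, hγ, hn⟩ := Nat.find_spec hP
    refine ⟨γ, hγ, fun γ' hγ' => ?_⟩
    obtain ⟨m, hm⟩ := Int.eq_ofNat_of_zero_le (hlow' γ' hγ')
    have h1 : Nat.find hP ≤ m := Nat.find_min' hP ⟨γ', hγ', hm⟩
    rw [← exp_log (rn_ne_zero (v := vI k) (gli γ * x)),
      ← exp_log (rn_ne_zero (v := vI k) (gli γ' * x)), exp_le_exp]
    omega
  obtain ⟨κ, hκ, hb10⟩ := iwasawa (vI k) (gli γ * x)
  obtain ⟨b, hb⟩ : ∃ b, b = gli γ * x * κ := ⟨_, rfl⟩
  rw [← hb] at hb10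
  set α := b.1 0 0 with hα
  set β := b.1 0 1 with hβ
  set δ := b.1 1 1 with hδ
  have hdt := dt_ne_zero b
  unfold dt at hdt
  rw [hb10, mul_zero, sub_zero, ← hα, ← hδ] at hdt
  have hα0 : α ≠ 0 := left_ne_zero_of_mul hdt
  have hδ0 : δ ≠ 0 := right_ne_zero_of_mul hdt
  obtain ⟨p, hp⟩ := exists_poly_inf (-(β / δ))
  set P := algebraMap (RatFunc k) (Kinf k) (algebraMap k[X] (RatFunc k) p) with hP
  have hβ' : vI k (β + P * δ) < vI k δ := by
    have e : β + P * δ = -((-(β / δ) - P) * δ) := by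
      field_simp
      ring
    rw [e, Valuation.map_neg, map_mul]
    calc vI k (-(β / δ) - P) * vI k δ < 1 * vI k δ := by
          refine mul_lt_mul_of_pos_right hp ?_
          exact zero_lt_iff.2 ((Valuation.ne_zero_iff _).2 hδ0)
      _ = vI k δ := one_mul _
  have hαδ : vI k δ ≤ vI k α := by
    have hγ' : glf (ws (RatFunc k) * nU (algebraMap k[X] (RatFunc k) p) * γ) ∈ Kf k := by
      rw [map_mul, map_mul]
      exact mul_mem (mul_mem ws_mem_Kf (nU_mem_Kf p)) hγ
    have h1 := hmin _ hγ'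
    rw [← rn_mul_K (gli γ * x) hκ, ← hb, ← rn_mul_K (gli _ * x) hκ] at h1
    have h2 : gli (ws (RatFunc k) * nU (algebraMap k[X] (RatFunc k) p) * γ) * x * κ =
        ws _ * (nU P * b) := by
      rw [map_mul, map_mul, map_ws, map_nU, hb, hP]
      group
    rw [h2] at h1
    have h3 : vI k δ ≤ rn (vI k) b := rn_le b 1
    have h4 : rn (vI k) (ws _ * (nU P * b)) = max (vI k α) (vI k (β + P * δ)) := by
      unfold rn
      rw [mul_val, mul_val, mul_val, mul_val, mul_val, mul_val, hb10, ← hα, ← hβ, ← hδ, nU_val, ws_val]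
      simp
    rw [h4] at h1
    rcases le_max_iff.1 (h3.trans h1) with h5 | h5
    · exact h5
    · exact absurd h5 (not_le.2 hβ')
  -- the quotient
  obtain ⟨m, u, hu, hm⟩ := units_dec (Linf (k := k)) (Units.mk0 (α / δ) (div_ne_zero hα0 hδ0))
  have hm0 : m ≤ 0 := by
    have h1 : (1 : ℤᵐ⁰) ≤ vI k (α / δ) := by
      rw [map_div₀]
      exact (one_le_div₀ (zero_lt_iff.2 ((Valuation.ne_zero_iff _).2 hδ0))).2 hαδ
    have h2 : vI k (α / δ) = exp (-m) := by
      have h3 := congrArg (fun y : (Kinf k)ˣ => vI k (y : Kinf k)) hm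
      simp only [Units.val_mk0, Units.val_mul, map_mul] at h3
      rw [h3, show vI k (u : Kinf k) = 1 from hu, mul_one, Units.val_zpow_eq_zpow_val, map_zpow₀,
        show vI k ((Linf.π : (Kinf k)ˣ) : Kinf k) = exp (-1 : ℤ) from Linf.hπ, ← WithZero.exp_zsmul]
      simp
    rw [h2, ← exp_zero, exp_le_exp] at h1
    omega
  obtain ⟨n, hn⟩ := Int.eq_ofNat_of_zero_le (show 0 ≤ -m by omega)
  refine ⟨γ⁻¹ * nU (-(algebraMap k[X] (RatFunc k) p)), ?_, n, Units.mk0 δ hδ0,
    dg u 1 * nU ((β + P * δ) / α) * κ⁻¹, ?_, ?_⟩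
  · rw [map_mul, map_inv]
    refine mul_mem (inv_mem hγ) ?_
    rw [← map_neg]
    exact nU_mem_Kf _
  · refine mul_mem (mul_mem (Iw_le _ (dg_mem_Iw hu (by simp))) (Iw_le _ (nU_mem_Iw ?_))) (inv_mem hκ)
    rw [map_div₀]
    exact div_le_one_of_le₀ (hβ'.le.trans hαδ) zero_le
  · have e1 : nU P * b = Linf.A (-(n : ℤ)) * dg (Units.mk0 δ hδ0) (Units.mk0 δ hδ0) *
        (dg u 1 * nU ((β + P * δ) / α)) := by
      have hm' : α = ((Linf.π ^ m : (Kinf k)ˣ) : Kinf k) * u * δ := by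
        have h3 := congrArg (fun y : (Kinf k)ˣ => (y : Kinf k)) hm
        simp only [Units.val_mk0, Units.val_mul] at h3
        rw [← h3]
        field_simp
      have hnm : -(n : ℤ) = m := by
        have : ((n : ℕ) : ℤ) = -m := hn.symm
        omega
      rw [hnm, LD.A, dg_mul, ← mul_assoc, dg_mul]
      have hcoef : (((Linf.π ^ m * Units.mk0 δ hδ0 * u : (Kinf k)ˣ)) : Kinf k) = α := by
        rw [Units.val_mul, Units.val_mul, Units.val_mk0, hm']
        ring
      apply gl_ext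
      · rw [mul_val, mul_val, hb10, ← hα, nU_val, nU_val, dg_val, hcoef]
        simp
      · rw [mul_val, mul_val, ← hβ, ← hδ, nU_val, nU_val, dg_val, hcoef]
        simp
        field_simp
      · rw [mul_val, mul_val, hb10, nU_val, nU_val, dg_val]
        simp
      · rw [mul_val, mul_val, ← hδ, nU_val, nU_val, dg_val]
        simp
    have e2 : x = (gli γ)⁻¹ * (nU (-P) * (nU P * b)) * κ⁻¹ := by
      rw [← mul_assoc (nU (-P)), nU_mul, neg_add_cancel, nU_zero, one_mul, hb]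
      group
    rw [e2, e1, map_mul, map_inv, map_nU, map_neg, ← hP]
    group

end

end Pool.Agent.Q260.AL
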