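import Pool.Agent.Q260.AL.St

/-!
# Uniqueness of the irreducible representation with a Steinberg vector, and finiteness
-/

set_option autoImplicit false
set_option linter.unusedSectionVars false
set_option linter.unnecessarySeqFocus false

namespace Pool.Agent.Q260.AL

open Matrix WithZero
open scoped WithZero

/-- no proper nonzero invariant subspaces -/
def IrrRep {G V : Type*} [Group G] [AddCommGroup V] [Module ℂ V] (ρ : Representation ℂ G V) : Prop :=
  ∀ W : Submodule ℂ V, (∀ g, ∀ x ∈ W, ρ g x ∈ W) → W = ⊥ ∨ W = ⊤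

variable {k F : Type*} [Field k] [Fintype k] [Field F] {L : LD k F}

section one

variable {V : Type*} [AddCommGroup V] [Module ℂ V] {ρ : Representation ℂ (GL (Fin 2) F) V}
  {v : V}

theorem StVec.mem_augK0 (h : StVec L ρ v 0) : v ∈ aug ρ (Kc L.v) := by
  have h1 : ((Fintype.card k : ℂ) + 1) • v =
      - ∑ x : k, (ρ (nU (L.C x) * AL.ws F) v - v) := by
    rw [Finset.sum_sub_distrib]
    simp only [Finset.sum_const, Finset.card_univ]
    rw [← Nat.cast_smul_eq_nsmul ℂ]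
    have h2 := h.sum
    simp only [← rmul] at h2
    rw [add_smul, one_smul, eq_neg_of_add_eq_zero_right h2]
    abel
  have hne : (Fintype.card k : ℂ) + 1 ≠ 0 := by
    exact_mod_cast Nat.succ_ne_zero (Fintype.card k)
  have h2 : v = ((Fintype.card k : ℂ) + 1)⁻¹ • (- ∑ x : k, (ρ (nU (L.C x) * AL.ws F) v - v)) := by
    rw [← h1, smul_smul, inv_mul_cancel₀ hne, one_smul]
  rw [h2]
  refine Submodule.smul_mem _ _ (Submodule.neg_mem _ (Submodule.sum_mem _ fun x _ => ?_))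
  exact mem_aug ρ (mul_mem (Iw_le _ (nU_mem_Iw (L.hC1 x))) ws_mem_Kc) v

theorem StVec.mem_augK (h : StVec L ρ v 0) (g : GL (Fin 2) F) : ρ g v ∈ aug ρ (Kc L.v) := by
  have h1 := h.mod_iw g
  have h2 : Submodule.span ℂ {v, (0 : V)} ⊔ aug ρ (Iw L.v) ≤ aug ρ (Kc L.v) := by
    refine sup_le ?_ (aug_mono ρ (Iw_le _))
    rw [Submodule.span_le]
    rintro x (rfl | hx)
    · exact h.mem_augK0
    · rw [Set.mem_singleton_iff.1 hx]
      exact Submodule.zero_mem _
  exact h2 h1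

theorem StVec.mod_iw0 (h : StVec L ρ v 0) (g : GL (Fin 2) F) :
    ∃ l : ℂ, ρ g v - l • v ∈ aug ρ (Iw L.v) := by
  obtain ⟨y, hy, z, hz, e⟩ := Submodule.mem_sup.1 (h.mod_iw g)
  obtain ⟨a, b, hab⟩ := Submodule.mem_span_pair.1 hy
  refine ⟨a, ?_⟩
  rw [← e, ← hab]
  simpa using hz

end one

section two

variable {V₁ V₂ : Type*} [AddCommGroup V₁] [Module ℂ V₁] [AddCommGroup V₂] [Module ℂ V₂]
  {ρ₁ : Representation ℂ (GL (Fin 2) F) V₁} {ρ₂ : Representation ℂ (GL (Fin 2) F) V₂}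
  {v₁ : V₁} {v₂ : V₂}

theorem prod_apply' {G : Type*} [Group G] (ρ₁ : Representation ℂ G V₁) (ρ₂ : Representation ℂ G V₂)
    (g : G) (x : V₁ × V₂) : (ρ₁.prod ρ₂) g x = (ρ₁ g x.1, ρ₂ g x.2) := rfl

theorem StVec.prod (h₁ : StVec L ρ₁ v₁ 0) (h₂ : StVec L ρ₂ v₂ 0) :
    StVec L (ρ₁.prod ρ₂) (v₁, v₂) 0 where
  iw g hg := by rw [prod_apply', h₁.iw g hg, h₂.iw g hg]
  om := by rw [prod_apply', h₁.om, h₂.om]; rfl
  sum := by
    refine Prod.ext ?_ ?_
    · have := h₁.sum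
      simpa [prod_apply', Prod.fst_sum] using this
    · have := h₂.sum
      simpa [prod_apply', Prod.snd_sum] using this
  const g := map_zero _

/-- **Uniqueness of the irreducible representation with a Steinberg vector.** -/
theorem StVec.uniq (h₁ : StVec L ρ₁ v₁ 0) (h₂ : StVec L ρ₂ v₂ 0) (n₁ : v₁ ≠ 0) (n₂ : v₂ ≠ 0)
    (i₁ : IrrRep ρ₁) (i₂ : IrrRep ρ₂) (f₁ : FO ρ₁ (Iw L.v)) (f₂ : FO ρ₂ (Iw L.v)) :
    ∃ T : V₁ →ₗ[ℂ] V₂, T ≠ 0 ∧ ∀ g x, T (ρ₁ g x) = ρ₂ g (T x) := by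
  set ρ := ρ₁.prod ρ₂ with hρ
  have h := h₁.prod h₂
  rw [← hρ] at h
  set W : Submodule ℂ (V₁ × V₂) := Submodule.span ℂ (Set.range fun g => ρ g (v₁, v₂)) with hW
  have hWst : ∀ g, ∀ x ∈ W, ρ g x ∈ W := by
    intro g x hx
    induction hx using Submodule.span_induction with
    | mem x hx =>
      obtain ⟨g', rfl⟩ := hx
      refine Submodule.subset_span ⟨g * g', ?_⟩
      exact rmul ρ g g' _
    | zero => rw [map_zero]; exact Submodule.zero_mem _
    | add x y _ _ hx hy => rw [map_add]; exact Submodule.add_mem _ hx hy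
    | smul a x _ hx => rw [map_smul]; exact Submodule.smul_mem _ _ hx
  have hv : (v₁, v₂) ∈ W := Submodule.subset_span ⟨1, by simp⟩
  have hWaug : ∀ x ∈ W, ∃ l : ℂ, x - l • (v₁, v₂) ∈ aug ρ (Iw L.v) := by
    intro x hx
    induction hx using Submodule.span_induction with
    | mem x hx =>
      obtain ⟨g', rfl⟩ := hx
      exact h.mod_iw0 g'
    | zero => exact ⟨0, by simp⟩
    | add x y _ _ hx hy =>
      obtain ⟨l, hl⟩ := hx
      obtain ⟨l', hl'⟩ := hy
      refine ⟨l + l', ?_⟩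
      have : x + y - (l + l') • (v₁, v₂) = (x - l • (v₁, v₂)) + (y - l' • (v₁, v₂)) := by
        rw [add_smul]; abel
      rw [this]
      exact Submodule.add_mem _ hl hl'
    | smul a x _ hx =>
      obtain ⟨l, hl⟩ := hx
      refine ⟨a * l, ?_⟩
      rw [mul_smul, ← smul_sub]
      exact Submodule.smul_mem _ _ hl
  -- the projections
  have hfst : ∀ u ∈ aug ρ (Iw L.v), u.1 ∈ aug ρ₁ (Iw L.v) := fun u hu =>
    map_aug (ρ := ρ) (ρ' := ρ₁) (LinearMap.fst ℂ V₁ V₂) (fun g x => rfl) hu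
  have hsnd : ∀ u ∈ aug ρ (Iw L.v), u.2 ∈ aug ρ₂ (Iw L.v) := fun u hu =>
    map_aug (ρ := ρ) (ρ' := ρ₂) (LinearMap.snd ℂ V₁ V₂) (fun g x => rfl) hu
  have hv2 : (0, v₂) ∉ W := by
    intro hmem
    obtain ⟨l, hl⟩ := hWaug _ hmem
    have e1 := hfst _ hl
    have e2 := hsnd _ hl
    simp only [Prod.smul_mk, Prod.mk_sub_mk, zero_sub] at e1 e2
    have e3 : l • v₁ = 0 := by
      refine eq_zero_of_mem_aug' ρ₁ f₁ (fun i hi => ?_) ((Submodule.neg_mem_iff _).1 e1)
      rw [map_smul, h₁.iw i hi]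
    have e4 : l = 0 := by
      rcases smul_eq_zero.1 e3 with h | h
      · exact h
      · exact absurd h n₁
    rw [e4, zero_smul, sub_zero] at e2
    exact n₂ (eq_zero_of_mem_aug' ρ₂ f₂ h₂.iw e2)
  have hker : ∀ w, ((0 : V₁), w) ∈ W → w = 0 := by
    intro w hw
    rcases i₂ (W.comap (LinearMap.inr ℂ V₁ V₂)) (fun g x hx => by
      have := hWst g _ hx
      simpa [hρ, prod_apply'] using this) with h0 | h1
    · have : w ∈ W.comap (LinearMap.inr ℂ V₁ V₂) := hw
      rw [h0] at this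
      simpa using this
    · exfalso
      apply hv2
      have : v₂ ∈ W.comap (LinearMap.inr ℂ V₁ V₂) := by rw [h1]; trivial
      exact this
  have hsurj : ∀ x : V₁, ∃ y, (x, y) ∈ W := by
    rcases i₁ (W.map (LinearMap.fst ℂ V₁ V₂)) (by
      rintro g x ⟨y, hy, rfl⟩
      exact ⟨ρ g y, hWst g y hy, rfl⟩) with h0 | h1
    · exfalso
      have : v₁ ∈ W.map (LinearMap.fst ℂ V₁ V₂) := ⟨_, hv, rfl⟩
      rw [h0] at this
      exact n₁ (by simpa using this)
    · intro x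
      have : x ∈ W.map (LinearMap.fst ℂ V₁ V₂) := by rw [h1]; trivial
      obtain ⟨y, hy, rfl⟩ := this
      exact ⟨y.2, hy⟩
  let p : W →ₗ[ℂ] V₁ := (LinearMap.fst ℂ V₁ V₂) ∘ₗ W.subtype
  have hp : Function.Bijective p := by
    constructor
    · rw [← LinearMap.ker_eq_bot, LinearMap.ker_eq_bot']
      rintro ⟨⟨x, y⟩, hxy⟩ hx
      have hx0 : x = 0 := hx
      subst hx0
      have := hker y hxy
      subst this
      rfl
    · intro x
      obtain ⟨y, hy⟩ := hsurj x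
      exact ⟨⟨(x, y), hy⟩, rfl⟩
  let e := LinearEquiv.ofBijective p hp
  let T : V₁ →ₗ[ℂ] V₂ := (LinearMap.snd ℂ V₁ V₂) ∘ₗ W.subtype ∘ₗ e.symm.toLinearMap
  have hT : ∀ x y, (x, y) ∈ W → T x = y := by
    intro x y hxy
    have : e.symm x = ⟨(x, y), hxy⟩ := by
      rw [LinearEquiv.symm_apply_eq]
      rfl
    simp only [T, LinearMap.comp_apply, LinearEquiv.coe_coe, this]
    rfl
  refine ⟨T, fun h0 => ?_, fun g x => ?_⟩
  · have := hT _ _ hv
    rw [h0] at this
    exact n₂ (by simpa using this.symm)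
  · obtain ⟨y, hy⟩ := hsurj x
    rw [hT _ _ hy]
    exact hT _ _ (hWst g _ hy)

end two

/-! ### Congruence subgroups and finiteness -/

theorem mul_one_val (M : Matrix (Fin 2) (Fin 2) F) (i j : Fin 2) :
    M i 0 * (1 : Matrix (Fin 2) (Fin 2) F) 0 j + M i 1 * (1 : Matrix (Fin 2) (Fin 2) F) 1 j =
      M i j := by
  have := congrFun (congrFun (mul_one M) i) j
  rwa [Matrix.mul_apply, Fin.sum_univ_two] at this

theorem one_mul_val (M : Matrix (Fin 2) (Fin 2) F) (i j : Fin 2) :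
    (1 : Matrix (Fin 2) (Fin 2) F) i 0 * M 0 j + (1 : Matrix (Fin 2) (Fin 2) F) i 1 * M 1 j =
      M i j := by
  have := congrFun (congrFun (one_mul M) i) j
  rwa [Matrix.mul_apply, Fin.sum_univ_two] at this

/-- the principal congruence subgroup of level `m` -/
def Um (v : Valuation F ℤᵐ⁰) (m : ℕ) : Subgroup (GL (Fin 2) F) where
  carrier := {g | g ∈ Kc v ∧ ∀ i j, v (g.1 i j - (1 : Matrix (Fin 2) (Fin 2) F) i j) ≤ exp (-(m : ℤ))}
  mul_mem' {g h} hg hh := by
    refine ⟨mul_mem hg.1 hh.1, fun i j => ?_⟩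
    have e : (g * h).1 i j - (1 : Matrix (Fin 2) (Fin 2) F) i j =
        (g.1 i 0 * (h.1 0 j - (1 : Matrix (Fin 2) (Fin 2) F) 0 j) +
          g.1 i 1 * (h.1 1 j - (1 : Matrix (Fin 2) (Fin 2) F) 1 j)) +
          (g.1 i j - (1 : Matrix (Fin 2) (Fin 2) F) i j) := by
      rw [mul_val]
      linear_combination mul_one_val g.1 i j
    rw [e]
    exact v.map_add_le (v.map_add_le (vmul_le1' (hg.1 _ _).1 (hh.2 _ _))
      (vmul_le1' (hg.1 _ _).1 (hh.2 _ _))) (hg.2 _ _)
  one_mem' := ⟨one_mem _, fun i j => by simp⟩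
  inv_mem' {g} hg := by
    refine ⟨inv_mem hg.1, fun i j => ?_⟩
    have e : (g⁻¹).1 i j - (1 : Matrix (Fin 2) (Fin 2) F) i j =
        -(g⁻¹.1 i 0 * (g.1 0 j - (1 : Matrix (Fin 2) (Fin 2) F) 0 j) +
          g⁻¹.1 i 1 * (g.1 1 j - (1 : Matrix (Fin 2) (Fin 2) F) 1 j)) := by
      have h0 : (g⁻¹ * g).1 i j = (1 : Matrix (Fin 2) (Fin 2) F) i j := by
        rw [inv_mul_cancel]; rfl
      rw [mul_val] at h0
      linear_combination h0 - mul_one_val g⁻¹.1 i j
    rw [e, Valuation.map_neg]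
    exact v.map_add_le (vmul_le1' (hg.1 _ _).2 (hg.2 _ _)) (vmul_le1' (hg.1 _ _).2 (hg.2 _ _))

theorem Um_le (v : Valuation F ℤᵐ⁰) (m : ℕ) : Um v m ≤ Kc v := fun _ h => h.1

/-- elements of `GL₂(O)` which are congruent define the same coset -/
theorem mem_Um_of_close {v : Valuation F ℤᵐ⁰} {m : ℕ} {g h : GL (Fin 2) F} (hg : g ∈ Kc v)
    (hh : h ∈ Kc v) (hgh : ∀ i j, v (h.1 i j - g.1 i j) ≤ exp (-(m : ℤ))) : g⁻¹ * h ∈ Um v m := by
  refine ⟨mul_mem (inv_mem hg) hh, fun i j => ?_⟩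
  have e : (g⁻¹ * h).1 i j - (1 : Matrix (Fin 2) (Fin 2) F) i j =
      g⁻¹.1 i 0 * (h.1 0 j - g.1 0 j) + g⁻¹.1 i 1 * (h.1 1 j - g.1 1 j) := by
    have h0 : (g⁻¹ * g).1 i j = (1 : Matrix (Fin 2) (Fin 2) F) i j := by
      rw [inv_mul_cancel]; rfl
    rw [mul_val] at h0
    rw [← h0, mul_val]
    ring
  rw [e]
  exact v.map_add_le (vmul_le1' (hg _ _).2 (hgh _ _)) (vmul_le1' (hg _ _).2 (hgh _ _))

theorem Um_normal {v : Valuation F ℤᵐ⁰} {m : ℕ} {g : GL (Fin 2) F} (hg : g ∈ Kc v) :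
    ∀ h ∈ Um v m, g * h * g⁻¹ ∈ Um v m := by
  intro h hh
  have h1 : (g⁻¹)⁻¹ * (h * g⁻¹) ∈ Um v m := by
    refine mem_Um_of_close (inv_mem hg) (mul_mem hh.1 (inv_mem hg)) fun i j => ?_
    have e : (h * g⁻¹).1 i j - g⁻¹.1 i j =
        (h.1 i 0 - (1 : Matrix (Fin 2) (Fin 2) F) i 0) * g⁻¹.1 0 j +
        (h.1 i 1 - (1 : Matrix (Fin 2) (Fin 2) F) i 1) * g⁻¹.1 1 j := by
      rw [mul_val]
      linear_combination one_mul_val g⁻¹.1 i j
    rw [e]
    exact v.map_add_le (vmul_le1 (hh.2 _ _) (hg _ _).2) (vmul_le1 (hh.2 _ _) (hg _ _).2)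
  rwa [inv_inv, ← mul_assoc] at h1

theorem exp_le_one_nat (m : ℕ) : exp (-(m : ℤ)) ≤ (1 : ℤᵐ⁰) := by
  rw [← exp_zero, exp_le_exp]
  omega

theorem nU_mem_Um {v : Valuation F ℤᵐ⁰} {m : ℕ} {x : F} (hx : v x ≤ exp (-(m : ℤ))) :
    nU x ∈ Um v m := by
  refine ⟨Iw_le _ (nU_mem_Iw (hx.trans (exp_le_one_nat m))), fun i j => ?_⟩
  fin_cases i <;> fin_cases j <;> simp [nU_val] <;> simpa using hx

theorem nL_mem_Um {v : Valuation F ℤᵐ⁰} {m : ℕ} {x : F} (hx : v x ≤ exp (-(m : ℤ))) :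
    nL x ∈ Um v m := by
  refine ⟨nL_mem_Kc (hx.trans (exp_le_one_nat m)), fun i j => ?_⟩
  fin_cases i <;> fin_cases j <;> simp [nL_val] <;> simpa using hx

/-- digits -/
theorem exists_digits (L : LD k F) (m : ℕ) : ∃ D : F → (Fin m → k), ∀ x y : F, L.v x ≤ 1 → L.v y ≤ 1 →
    D x = D y → L.v (x - y) ≤ exp (-(m : ℤ)) := by
  induction m with
  | zero =>
    refine ⟨fun _ _ => 0, fun x y hx hy _ => ?_⟩
    simpa using (L.v.map_sub x y).trans (max_le hx hy)
  | succ m ih =>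
    obtain ⟨D, hD⟩ := ih
    classical
    let c : F → k := fun x => if h : L.v x ≤ 1 then (L.hC x h).choose else 0
    have hc : ∀ x, L.v x ≤ 1 → L.v (x - L.C (c x)) < 1 := by
      intro x hx
      simp only [c, hx, dite_true]
      exact (L.hC x hx).choose_spec
    let r : F → F := fun x => (x - L.C (c x)) * ((L.π⁻¹ : Fˣ) : F)
    have hr : ∀ x, L.v x ≤ 1 → L.v (r x) ≤ 1 := by
      intro x hx
      simp only [r]
      rw [map_mul, Units.val_inv_eq_inv_val, map_inv₀, L.hπ]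
      have h1 := lt_one_iff_exp.1 (hc x hx)
      calc L.v (x - L.C (c x)) * (exp (-1 : ℤ))⁻¹ ≤ exp (-1 : ℤ) * (exp (-1 : ℤ))⁻¹ := by gcongr
        _ = 1 := mul_inv_cancel₀ (by simp)
    have hxr : ∀ x, x = L.C (c x) + r x * L.π := by
      intro x
      simp only [r]
      rw [mul_assoc, ← Units.val_mul, inv_mul_cancel, Units.val_one, mul_one]
      ring
    refine ⟨fun x => Fin.cons (c x) (D (r x)), fun x y hx hy h => ?_⟩
    have h1 : c x = c y := by
      have := congrFun h 0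
      simpa using this
    have h2 : D (r x) = D (r y) := by
      funext i
      have := congrFun h i.succ
      simpa using this
    have h3 := hD _ _ (hr x hx) (hr y hy) h2
    have e : x - y = (r x - r y) * L.π := by
      conv_lhs => rw [hxr x, hxr y, h1]
      ring
    rw [e, map_mul, L.hπ]
    calc L.v (r x - r y) * exp (-1 : ℤ) ≤ exp (-(m : ℤ)) * exp (-1 : ℤ) := by gcongr
      _ = exp (-((m + 1 : ℕ) : ℤ)) := by
        rw [← exp_add]
        congr 1
        push_cast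
        ring

theorem finite_quot (L : LD k F) (m : ℕ) : ((Um L.v m).subgroupOf (Kc L.v)).FiniteIndex := by
  have : Finite (Kc L.v ⧸ (Um L.v m).subgroupOf (Kc L.v)) := by
    obtain ⟨D, hD⟩ := exists_digits L m
    let f : (Kc L.v ⧸ (Um L.v m).subgroupOf (Kc L.v)) → (Fin 2 → Fin 2 → Fin m → k) :=
      fun c i j => D ((Quotient.out c).1.1 i j)
    refine Finite.of_injective f fun c c' hcc => ?_
    have h1 : (Quotient.out c)⁻¹ * Quotient.out c' ∈ (Um L.v m).subgroupOf (Kc L.v) := by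
      rw [Subgroup.mem_subgroupOf]
      refine mem_Um_of_close (Quotient.out c).2 (Quotient.out c').2 fun i j => ?_
      refine hD _ _ ((Quotient.out c').2 i j).1 ((Quotient.out c).2 i j).1 ?_
      exact (congrFun (congrFun hcc i) j).symm
    rw [← QuotientGroup.eq] at h1
    simpa using h1
  exact Subgroup.finiteIndex_of_finite_quotient

section fin

variable {V : Type*} [AddCommGroup V] [Module ℂ V] {ρ : Representation ℂ (GL (Fin 2) F) V}
  {v c0 : V}

/-- **Finiteness.** The translates of a Steinberg vector span a finite dimensional space modulo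
`aug` of a congruence subgroup. -/
theorem StVec.finite (h : StVec L ρ v c0) (m : ℕ) : ∃ S : Submodule ℂ V, FiniteDimensional ℂ S ∧
    ∀ g, ρ g v ∈ S ⊔ aug ρ (Um L.v m) := by
  have _ := finite_quot L m
  let Q := Kc L.v ⧸ (Um L.v m).subgroupOf (Kc L.v)
  let S : Submodule ℂ V := Submodule.span ℂ
    ((Set.range fun p : Q × (Set.Icc (-(m : ℤ)) m) => ρ (Quotient.out p.1).1 (ρ (L.A p.2) v)) ∪ {c0})
  have hS : FiniteDimensional ℂ S := by
    refine FiniteDimensional.span_of_finite ℂ ?_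
    exact (Set.finite_range _).union (Set.finite_singleton _)
  have hc : c0 ∈ S := Submodule.subset_span (Or.inr rfl)
  let S₀ : Submodule ℂ V := Submodule.span ℂ
    ((Set.range fun j : Set.Icc (-(m : ℤ)) m => ρ (L.A j) v) ∪ {c0})
  refine ⟨S, hS, fun g => ?_⟩
  obtain ⟨i, hi, n, hn⟩ := h.rep g
  have h1 : ρ (L.A n) v ∈ S₀ ⊔ aug ρ (Um L.v m) := by
    refine h.all (N := m) (Submodule.subset_span (Or.inr rfl)) (fun j hj => ?_) (fun x hx => ?_)
      (fun x hx => ?_) n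
    · rw [abs_le] at hj
      exact Submodule.subset_span (Or.inl ⟨⟨j, hj⟩, rfl⟩)
    · exact nU_mem_Um hx
    · refine nL_mem_Um (hx.trans ?_)
      rw [exp_le_exp]
      omega
  have hiK := Iw_le _ hi
  have h2 : ρ i (ρ (L.A n) v) ∈ S ⊔ aug ρ (Um L.v m) := by
    obtain ⟨y, hy, z, hz, e⟩ := Submodule.mem_sup.1 h1
    rw [← e, map_add]
    refine Submodule.add_mem _ ?_ (Submodule.mem_sup_right (apply_mem_aug ρ (Um_normal hiK) hz))
    clear e h1
    induction hy using Submodule.span_induction with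
    | mem x hx =>
      rcases hx with ⟨j, rfl⟩ | hx
      · -- replace `i` by the representative
        set q : Q := ((⟨i, hiK⟩ : Kc L.v) : Q) with hq
        have h3 : (Quotient.out q)⁻¹ * (⟨i, hiK⟩ : Kc L.v) ∈ (Um L.v m).subgroupOf (Kc L.v) := by
          rw [← QuotientGroup.eq]
          simp [hq]
        rw [Subgroup.mem_subgroupOf] at h3
        have h4 := Um_normal (Quotient.out q).2 _ h3
        have h5 : ρ i (ρ (L.A j) v) = ρ (Quotient.out q).1 (ρ (L.A j) v) +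
            (ρ ((Quotient.out q).1 * ((Quotient.out q).1⁻¹ * i) * (Quotient.out q).1⁻¹)
              (ρ (Quotient.out q).1 (ρ (L.A j) v)) - ρ (Quotient.out q).1 (ρ (L.A j) v)) := by
          rw [← rmul ρ _ (Quotient.out q).1]
          simp
        simp only
        rw [h5]
        refine Submodule.add_mem _ (Submodule.mem_sup_left (Submodule.subset_span
          (Or.inl ⟨(q, j), rfl⟩))) (Submodule.mem_sup_right (mem_aug ρ ?_ _))
        simpa using h4
      · rw [Set.mem_singleton_iff.1 hx, h.const]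
        exact Submodule.mem_sup_left hc
    | zero => rw [map_zero]; exact Submodule.zero_mem _
    | add x y _ _ hx hy => rw [map_add]; exact Submodule.add_mem _ hx hy
    | smul a x _ hx => rw [map_smul]; exact Submodule.smul_mem _ _ hx
  rcases hn with hn | hn
  · rw [hn]
    exact h2
  · rw [hn]
    exact Submodule.neg_mem _ h2

end fin

end Pool.Agent.Q260.AL
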