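import Pool.Agent.Q260.AL.Half
import Pool.Agent.Q260.AL.Uniq

/-!
# Congruence subgroups of `GL₂(A)` and smooth vectors
-/

set_option autoImplicit false
set_option linter.unusedSectionVars false
set_option linter.style.haveILetI false

namespace Pool.Agent.Q260.AL

open IsDedekindDomain Polynomial WithZero
open Matrix (GeneralLinearGroup)
open scoped WithZero MatrixGroups

noncomputable section

section local_

variable {F : Type*} [Field F] {v : Valuation F ℤᵐ⁰}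

/-- the congruence subgroup of radius `γ` -/
def UG (v : Valuation F ℤᵐ⁰) (γ : ℤᵐ⁰) : Subgroup (GL (Fin 2) F) where
  carrier := {g | g ∈ Kc v ∧ ∀ i j, v (g.1 i j - (1 : Matrix (Fin 2) (Fin 2) F) i j) ≤ γ}
  mul_mem' {g h} hg hh := by
    refine ⟨mul_mem hg.1 hh.1, fun i j => ?_⟩
    have e : (g * h).1 i j - (1 : Matrix (Fin 2) (Fin 2) F) i j =
        (g.1 i 0 * (h.1 0 j - (1 : Matrix (Fin 2) (Fin 2) F) 0 j) +
          g.1 i 1 * (h.1 1 j - (1 : Matrix (Fin 2) (Fin 2) F) 1 j)) +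
          (g.1 i j - (1 : Matrix (Fin 2) (Fin 2) F) i j) := by
      rw [mul_val]
      linear_combination mul_one_val g.1 i j
    rw [e]
    exact v.map_add_le (v.map_add_le (vmul_le1' (hg.1 _ _).1 (hh.2 _ _))
      (vmul_le1' (hg.1 _ _).1 (hh.2 _ _))) (hg.2 _ _)
  one_mem' := ⟨one_mem _, fun i j => by simp⟩
  inv_mem' {g} hg := by
    refine ⟨inv_mem hg.1, fun i j => ?_⟩
    have e : (g⁻¹).1 i j - (1 : Matrix (Fin 2) (Fin 2) F) i j =
        -(g⁻¹.1 i 0 * (g.1 0 j - (1 : Matrix (Fin 2) (Fin 2) F) 0 j) +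
          g⁻¹.1 i 1 * (g.1 1 j - (1 : Matrix (Fin 2) (Fin 2) F) 1 j)) := by
      have h0 : (g⁻¹ * g).1 i j = (1 : Matrix (Fin 2) (Fin 2) F) i j := by
        rw [inv_mul_cancel]; rfl
      rw [mul_val] at h0
      linear_combination h0 - mul_one_val g⁻¹.1 i j
    rw [e, Valuation.map_neg]
    exact v.map_add_le (vmul_le1' (hg.1 _ _).2 (hg.2 _ _)) (vmul_le1' (hg.1 _ _).2 (hg.2 _ _))

theorem UG_le (v : Valuation F ℤᵐ⁰) (γ : ℤᵐ⁰) : UG v γ ≤ Kc v := fun _ h => h.1

theorem UG_mono {γ γ' : ℤᵐ⁰} (h : γ ≤ γ') : UG v γ ≤ UG v γ' :=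
  fun _ hg => ⟨hg.1, fun i j => (hg.2 i j).trans h⟩

theorem Um_eq (v : Valuation F ℤᵐ⁰) (m : ℕ) : Um v m = UG v (exp (-(m : ℤ))) :=
  SetLike.ext fun _ => Iff.rfl

theorem dt_conj (g h : GL (Fin 2) F) : dt (g⁻¹ * h * g) = dt h := by
  rw [dt_mul, dt_mul, mul_right_comm, mul_comm (dt g⁻¹), dt_inv, one_mul]

theorem conj_UG {γ γ' : ℤᵐ⁰} (hγ : γ ≤ 1) {g h : GL (Fin 2) F}
    (hb : ∀ i a b j, v (g⁻¹.1 i a) * γ' * v (g.1 b j) ≤ γ) (hh : h ∈ UG v γ') :
    g⁻¹ * h * g ∈ UG v γ := by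
  have h1 : ∀ i j, v ((g⁻¹ * h * g).1 i j - (1 : Matrix (Fin 2) (Fin 2) F) i j) ≤ γ := by
    intro i j
    have e : (g⁻¹ * h * g).1 i j - (1 : Matrix (Fin 2) (Fin 2) F) i j =
        (g⁻¹.1 i 0 * (h.1 0 0 - (1 : Matrix (Fin 2) (Fin 2) F) 0 0) * g.1 0 j +
        g⁻¹.1 i 1 * (h.1 1 0 - (1 : Matrix (Fin 2) (Fin 2) F) 1 0) * g.1 0 j) +
        (g⁻¹.1 i 0 * (h.1 0 1 - (1 : Matrix (Fin 2) (Fin 2) F) 0 1) * g.1 1 j +
        g⁻¹.1 i 1 * (h.1 1 1 - (1 : Matrix (Fin 2) (Fin 2) F) 1 1) * g.1 1 j) := by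
      have h0 : (g⁻¹ * g).1 i j = (1 : Matrix (Fin 2) (Fin 2) F) i j := by
        rw [inv_mul_cancel]; rfl
      rw [mul_val] at h0
      rw [← h0, mul_val, mul_val, mul_val]
      simp
      ring
    have hterm : ∀ a b, v (g⁻¹.1 i a * (h.1 a b - (1 : Matrix (Fin 2) (Fin 2) F) a b) * g.1 b j) ≤ γ := by
      intro a b
      rw [map_mul, map_mul]
      refine le_trans ?_ (hb i a b j)
      gcongr
      exact hh.2 a b
    rw [e]
    exact v.map_add_le (v.map_add_le (hterm _ _) (hterm _ _)) (v.map_add_le (hterm _ _) (hterm _ _))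
  refine ⟨mem_Kc (fun i j => ?_) ?_, h1⟩
  · have e : (g⁻¹ * h * g).1 i j = ((g⁻¹ * h * g).1 i j - (1 : Matrix (Fin 2) (Fin 2) F) i j) +
      (1 : Matrix (Fin 2) (Fin 2) F) i j := by ring
    rw [e]
    refine v.map_add_le ((h1 i j).trans hγ) ?_
    fin_cases i <;> fin_cases j <;> simp
  · rw [dt_conj]
    exact dt_K hh.1

theorem exists_exp_ge (x : ℤᵐ⁰) : ∃ C : ℕ, x ≤ exp (C : ℤ) := by
  rcases eq_or_ne x 0 with h | h
  · exact ⟨0, by rw [h]; exact zero_le⟩
  · refine ⟨(log x).toNat, ?_⟩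
    conv_lhs => rw [← exp_log h]
    rw [exp_le_exp]
    exact Int.self_le_toNat _

theorem exists_bd (v : Valuation F ℤᵐ⁰) (g : GL (Fin 2) F) : ∃ C : ℕ, ∀ i j, v (g.1 i j) ≤ exp (C : ℤ) := by
  choose f hf using fun p : Fin 2 × Fin 2 => exists_exp_ge (v (g.1 p.1 p.2))
  refine ⟨∑ p, f p, fun i j => (hf (i, j)).trans ?_⟩
  rw [exp_le_exp]
  exact_mod_cast Finset.single_le_sum (f := f) (fun p _ => Nat.zero_le _) (Finset.mem_univ (i, j))

theorem conj_Um (v : Valuation F ℤᵐ⁰) (g : GL (Fin 2) F) (n : ℕ) :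
    ∃ m, ∀ h ∈ Um v m, g⁻¹ * h * g ∈ Um v n := by
  obtain ⟨C, hC⟩ := exists_bd v g
  obtain ⟨C', hC'⟩ := exists_bd v g⁻¹
  refine ⟨n + C + C', fun h hh => ?_⟩
  rw [Um_eq] at hh ⊢
  refine conj_UG (exp_le_one_nat n) (fun i a b j => ?_) hh
  calc v (g⁻¹.1 i a) * exp (-((n + C + C' : ℕ) : ℤ)) * v (g.1 b j)
      ≤ exp (C' : ℤ) * exp (-((n + C + C' : ℕ) : ℤ)) * exp (C : ℤ) := by
        gcongr
        · exact hC' i a
        · exact hC b j
    _ = exp (-(n : ℤ)) := by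
      rw [← exp_add, ← exp_add]
      congr 1
      push_cast
      ring

theorem Um_anti {m n : ℕ} (h : n ≤ m) : Um v m ≤ Um v n := by
  rw [Um_eq, Um_eq]
  refine UG_mono ?_
  rw [exp_le_exp]
  omega

end local_

variable {k : Type} [Field k]

/-- the valuation of a polynomial at a finite place -/
def vp (v : HeightOneSpectrum k[X]) (r : k[X]) : ℤᵐ⁰ :=
  v.valuation (RatFunc k) (algebraMap k[X] (RatFunc k) r)

theorem vp_le (v : HeightOneSpectrum k[X]) (r : k[X]) : vp v r ≤ 1 := v.valuation_le_one r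

theorem vp_mul (v : HeightOneSpectrum k[X]) (r s : k[X]) : vp v (r * s) = vp v r * vp v s := by
  simp [vp]

theorem vp_ne (v : HeightOneSpectrum k[X]) {r : k[X]} (hr : r ≠ 0) : vp v r ≠ 0 := by
  rw [vp, Valuation.ne_zero_iff]
  simpa using hr

theorem vp_dvd (v : HeightOneSpectrum k[X]) {r s : k[X]} (h : r ∣ s) : vp v s ≤ vp v r := by
  obtain ⟨t, rfl⟩ := h
  rw [vp_mul]
  calc vp v r * vp v t ≤ vp v r * 1 := by gcongr; exact vp_le v t
    _ = vp v r := mul_one _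

/-- the principal congruence subgroup of `GL₂(Ô)` of level `r` -/
def Uf (r : k[X]) : Subgroup (GL (Fin 2) (Afin k)) where
  carrier := {g | ∀ v : HeightOneSpectrum k[X],
    lv v g ∈ UG (Valued.v : Valuation (Kfin k v) ℤᵐ⁰) (vp v r)}
  mul_mem' {g h} hg hh v := by
    rw [map_mul]
    exact mul_mem (hg v) (hh v)
  one_mem' v := by
    rw [map_one]
    exact one_mem _
  inv_mem' {g} hg v := by
    rw [map_inv]
    exact inv_mem (hg v)

theorem Uf_le (r : k[X]) : Uf r ≤ Kf k := fun _ h v => (h v).1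

theorem Uf_dvd {r s : k[X]} (h : r ∣ s) : Uf s ≤ Uf r :=
  fun _ hg v => UG_mono (vp_dvd v h) (hg v)

/-- denominators -/
theorem exists_den (x : Afin k) : ∃ d : k[X], d ≠ 0 ∧ ∀ v, vp v d * Valued.v (ev v x) ≤ 1 := by
  obtain ⟨y, hy⟩ := sa x
  refine ⟨y.denom, y.denom_ne_zero, fun v => ?_⟩
  have e1 : vp v y.denom = Valued.v (algebraMap (RatFunc k) (Kfin k v) (algebraMap k[X] (RatFunc k) y.denom)) := by
    rw [vfin, vp]
  rw [e1, ← map_mul]
  have e2 : algebraMap (RatFunc k) (Kfin k v) (algebraMap k[X] (RatFunc k) y.denom) * ev v x =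
      algebraMap (RatFunc k) (Kfin k v) (algebraMap k[X] (RatFunc k) y.denom) *
        (ev v x - algebraMap _ (Kfin k v) y) +
      algebraMap (RatFunc k) (Kfin k v) (algebraMap k[X] (RatFunc k) y.num) := by
    have h3 : algebraMap k[X] (RatFunc k) y.num = y * algebraMap k[X] (RatFunc k) y.denom := by
      have hd : algebraMap k[X] (RatFunc k) y.denom ≠ 0 := by simpa using y.denom_ne_zero
      rw [← div_eq_iff hd]
      exact y.num_div_denom
    rw [h3, map_mul]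
    ring
  rw [e2]
  exact Valuation.map_add_le _ (vmul_le1 (vfin_poly_le v _) (hy v)) (vfin_poly_le v _)

theorem exists_den_gl (g : GL (Fin 2) (Afin k)) : ∃ d : k[X], d ≠ 0 ∧
    ∀ v i j, vp v d * Valued.v ((lv v g).1 i j) ≤ 1 := by
  choose f hf0 hf using fun p : Fin 2 × Fin 2 => exists_den (g.1 p.1 p.2)
  refine ⟨∏ p, f p, Finset.prod_ne_zero_iff.2 fun p _ => hf0 p, fun v i j => ?_⟩
  refine le_trans ?_ (hf (i, j) v)
  rw [lv_val]
  gcongr
  exact vp_dvd v (Finset.dvd_prod_of_mem f (Finset.mem_univ (i, j)))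

theorem conj_Uf (g : GL (Fin 2) (Afin k)) {r : k[X]} (hr : r ≠ 0) :
    ∃ s : k[X], s ≠ 0 ∧ ∀ h ∈ Uf s, g⁻¹ * h * g ∈ Uf r := by
  obtain ⟨d, hd, hd'⟩ := exists_den_gl g
  obtain ⟨e, he, he'⟩ := exists_den_gl g⁻¹
  refine ⟨e * r * d, mul_ne_zero (mul_ne_zero he hr) hd, fun h hh v => ?_⟩
  rw [map_mul, map_mul, map_inv]
  refine conj_UG (vp_le v r) (fun i a b j => ?_) (hh v)
  rw [vp_mul, vp_mul]
  have h1 := he' v i a
  rw [map_inv] at h1
  calc Valued.v ((lv v g)⁻¹.1 i a) * (vp v e * vp v r * vp v d) * Valued.v ((lv v g).1 b j)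
      = (vp v e * Valued.v ((lv v g)⁻¹.1 i a)) * vp v r * (vp v d * Valued.v ((lv v g).1 b j)) := by
        ac_rfl
    _ ≤ 1 * vp v r * 1 := by
        gcongr
        exact hd' v b j
    _ = vp v r := by rw [one_mul, mul_one]

/-- the principal congruence subgroups of `GL₂(A)` -/
def cong (n : ℕ) (r : k[X]) : Subgroup (GA k) := (Um (vI k) n).prod (Uf r)

theorem mem_cong {n : ℕ} {r : k[X]} {g : GA k} : g ∈ cong n r ↔ g.1 ∈ Um (vI k) n ∧ g.2 ∈ Uf r :=
  Subgroup.mem_prod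

theorem cong_anti {n m : ℕ} (h : n ≤ m) {r s : k[X]} (h' : r ∣ s) : cong m s ≤ cong n r :=
  fun _ hg => mem_cong.2 ⟨Um_anti h (mem_cong.1 hg).1, Uf_dvd h' (mem_cong.1 hg).2⟩

theorem conj_cong (g : GA k) (n : ℕ) {r : k[X]} (hr : r ≠ 0) :
    ∃ (m : ℕ) (s : k[X]), s ≠ 0 ∧ ∀ h ∈ cong m s, g⁻¹ * h * g ∈ cong n r := by
  obtain ⟨m, hm⟩ := conj_Um (vI k) g.1 n
  obtain ⟨s, hs, hs'⟩ := conj_Uf g.2 hr
  refine ⟨m, s, hs, fun h hh => mem_cong.2 ⟨?_, ?_⟩⟩
  · exact hm _ (mem_cong.1 hh).1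
  · exact hs' _ (mem_cong.1 hh).2

/-! ### Smooth vectors -/

section smooth

variable {V : Type*} [AddCommGroup V] [Module ℂ V] (ρ : Representation ℂ (GA k) V)

/-- a vector fixed by a congruence subgroup -/
def SmV (w : V) : Prop := ∃ (n : ℕ) (r : k[X]), r ≠ 0 ∧ ∀ u ∈ cong n r, ρ u w = w

theorem SmV.zero : SmV ρ (0 : V) := ⟨0, 1, one_ne_zero, fun _ _ => map_zero _⟩

variable {ρ}

theorem SmV.add {w w' : V} (h : SmV ρ w) (h' : SmV ρ w') : SmV ρ (w + w') := by
  obtain ⟨n, r, hr, hn⟩ := h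
  obtain ⟨n', r', hr', hn'⟩ := h'
  refine ⟨n + n', r * r', mul_ne_zero hr hr', fun u hu => ?_⟩
  rw [map_add, hn u (cong_anti (by omega) (dvd_mul_right _ _) hu),
    hn' u (cong_anti (by omega) (dvd_mul_left _ _) hu)]

theorem SmV.smul {w : V} (h : SmV ρ w) (z : ℂ) : SmV ρ (z • w) := by
  obtain ⟨n, r, hr, hn⟩ := h
  exact ⟨n, r, hr, fun u hu => by rw [map_smul, hn u hu]⟩

theorem rmul' {G : Type*} [Group G] (ρ : Representation ℂ G V) (g h : G) (w : V) :
    ρ (g * h) w = ρ g (ρ h w) := by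
  rw [map_mul, Module.End.mul_apply]

theorem SmV.apply {w : V} (h : SmV ρ w) (g : GA k) : SmV ρ (ρ g w) := by
  obtain ⟨n, r, hr, hn⟩ := h
  obtain ⟨m, s, hs, hm⟩ := conj_cong g n hr
  refine ⟨m, s, hs, fun u hu => ?_⟩
  have e : u * g = g * (g⁻¹ * u * g) := by group
  rw [← rmul', e, rmul', hn _ (hm u hu)]

theorem SmV.span {w : V} (h : SmV ρ w) {x : V}
    (hx : x ∈ Submodule.span ℂ (Set.range fun g => ρ g w)) : SmV ρ x := by
  induction hx using Submodule.span_induction with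
  | mem x hx =>
    obtain ⟨g, rfl⟩ := hx
    exact h.apply g
  | zero => exact SmV.zero ρ
  | add x y _ _ hx hy => exact hx.add hy
  | smul a x _ hx => exact hx.smul a

/-- the action of `GL₂(K_∞)` -/
def rI (ρ : Representation ℂ (GA k) V) : Representation ℂ (GL (Fin 2) (Kinf k)) V :=
  ρ.comp (MonoidHom.inl _ _)

/-- the action of `GL₂(A_f)` -/
def rF (ρ : Representation ℂ (GA k) V) : Representation ℂ (GL (Fin 2) (Afin k)) V :=
  ρ.comp (MonoidHom.inr _ _)

theorem rI_apply (ρ : Representation ℂ (GA k) V) (x : GL (Fin 2) (Kinf k)) (w : V) :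
    rI ρ x w = ρ (x, 1) w := rfl

theorem rF_apply (ρ : Representation ℂ (GA k) V) (x : GL (Fin 2) (Afin k)) (w : V) :
    rF ρ x w = ρ (1, x) w := rfl

theorem rIF (ρ : Representation ℂ (GA k) V) (x : GL (Fin 2) (Kinf k)) (y : GL (Fin 2) (Afin k))
    (w : V) : rI ρ x (rF ρ y w) = rF ρ y (rI ρ x w) := by
  rw [rI_apply, rF_apply, rF_apply, rI_apply, ← rmul', ← rmul', pmIF, pmFI]

theorem rIF' (ρ : Representation ℂ (GA k) V) (g : GA k) (w : V) :
    ρ g w = rF ρ g.2 (rI ρ g.1 w) := by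
  rw [rI_apply, rF_apply, ← rmul', pmFI]

end smooth

variable [Fintype k]

section FO

variable {V : Type*} [AddCommGroup V] [Module ℂ V] {ρ : Representation ℂ (GA k) V}

theorem FO_I (h : ∀ w, SmV ρ w) : FO (rI ρ) (Kc (vI k)) := by
  intro w
  obtain ⟨n, r, hr, hn⟩ := h w
  have h1 : ((Um (vI k) n).subgroupOf (Kc (vI k))).FiniteIndex := finite_quot (Linf (k := k)) n
  refine Subgroup.finiteIndex_of_le (H := (Um (vI k) n).subgroupOf (Kc (vI k))) ?_
  intro x hx
  rw [Subgroup.mem_subgroupOf] at hx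
  change rI ρ x.1 w = w
  rw [rI_apply]
  exact hn _ (mem_cong.2 ⟨hx, one_mem _⟩)

/-- `Ô = k[t] + r Ô` -/
theorem exists_poly_mod (x : Afin k) (hx : ∀ v, Valued.v (ev v x) ≤ 1) {r : k[X]} (hr : r ≠ 0) :
    ∃ p : k[X], ∀ v, Valued.v (ev v x - algebraMap (RatFunc k) (Kfin k v)
      (algebraMap k[X] (RatFunc k) p)) ≤ vp v r := by
  have hr' : algebraMap k[X] (RatFunc k) r ≠ 0 := by simpa using hr
  obtain ⟨y, hy⟩ := sa (x * algebraMap (RatFunc k) (Afin k) (algebraMap k[X] (RatFunc k) r)⁻¹)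
  have h1 : ∀ v, Valued.v (ev v x - algebraMap (RatFunc k) (Kfin k v)
      (algebraMap k[X] (RatFunc k) r * y)) ≤ vp v r := by
    intro v
    have hne : algebraMap (RatFunc k) (Kfin k v) (algebraMap k[X] (RatFunc k) r) ≠ 0 := by
      rw [_root_.map_ne_zero]
      exact hr'
    have e : ev v x - algebraMap (RatFunc k) (Kfin k v) (algebraMap k[X] (RatFunc k) r * y) =
        algebraMap (RatFunc k) (Kfin k v) (algebraMap k[X] (RatFunc k) r) *
        (ev v (x * algebraMap (RatFunc k) (Afin k) (algebraMap k[X] (RatFunc k) r)⁻¹) -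
          algebraMap (RatFunc k) (Kfin k v) y) := by
      rw [map_mul (ev v), ev_algebraMap, map_mul, map_inv₀]
      field_simp
    rw [e, map_mul, vfin, show v.valuation (RatFunc k) (algebraMap k[X] (RatFunc k) r) = vp v r from rfl]
    calc vp v r * _ ≤ vp v r * 1 := by gcongr; exact hy v
      _ = vp v r := mul_one _
  obtain ⟨p, hp⟩ := poly_of_int (algebraMap k[X] (RatFunc k) r * y) (fun v => by
    rw [← vfin]
    have e : algebraMap (RatFunc k) (Kfin k v) (algebraMap k[X] (RatFunc k) r * y) =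
      ev v x - (ev v x - algebraMap (RatFunc k) (Kfin k v) (algebraMap k[X] (RatFunc k) r * y)) := by
      ring
    rw [e]
    exact (Valuation.map_sub _ _ _).trans (max_le (hx v) ((h1 v).trans (vp_le v r))))
  refine ⟨p, fun v => ?_⟩
  rw [hp]
  exact h1 v

/-- finitely many classes modulo `r Ô` -/
theorem exists_digits_fin {r : k[X]} (hr : r ≠ 0) : ∃ D : Afin k → (Fin r.natDegree → k),
    ∀ x y : Afin k, (∀ v, Valued.v (ev v x) ≤ 1) → (∀ v, Valued.v (ev v y) ≤ 1) → D x = D y →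
    ∀ v, Valued.v (ev v x - ev v y) ≤ vp v r := by
  classical
  let P : Afin k → k[X] := fun x =>
    if hx : ∀ v, Valued.v (ev v x) ≤ 1 then (exists_poly_mod x hx hr).choose else 0
  have hP : ∀ x, (∀ v, Valued.v (ev v x) ≤ 1) → ∀ v, Valued.v (ev v x -
      algebraMap (RatFunc k) (Kfin k v) (algebraMap k[X] (RatFunc k) (P x))) ≤ vp v r := by
    intro x hx
    simp only [P, dif_pos hx]
    exact (exists_poly_mod x hx hr).choose_spec
  refine ⟨fun x i => (P x % r).coeff i, fun x y hx hy h v => ?_⟩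
  have h1 : P x % r = P y % r := by
    ext i
    rcases lt_or_ge i r.natDegree with hi | hi
    · exact congrFun h ⟨i, hi⟩
    · have hdeg : ∀ p : k[X], (p % r).coeff i = 0 := by
        intro p
        apply coeff_eq_zero_of_degree_lt
        refine (EuclideanDomain.mod_lt p hr).trans_le ?_
        rw [degree_eq_natDegree hr]
        exact_mod_cast hi
      rw [hdeg, hdeg]
  have h2 : r ∣ P x - P y := by
    have e : P x - P y = r * (P x / r) + P x % r - (r * (P y / r) + P y % r) := by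
      rw [EuclideanDomain.div_add_mod, EuclideanDomain.div_add_mod]
    rw [e, h1]
    exact ⟨P x / r - P y / r, by ring⟩
  have e : ev v x - ev v y =
      (ev v x - algebraMap (RatFunc k) (Kfin k v) (algebraMap k[X] (RatFunc k) (P x))) -
      (ev v y - algebraMap (RatFunc k) (Kfin k v) (algebraMap k[X] (RatFunc k) (P y))) +
      algebraMap (RatFunc k) (Kfin k v) (algebraMap k[X] (RatFunc k) (P x - P y)) := by
    rw [map_sub, map_sub]
    ring
  rw [e]
  refine Valuation.map_add_le _ ((Valuation.map_sub _ _ _).trans (max_le (hP x hx v) (hP y hy v))) ?_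
  rw [vfin]
  exact vp_dvd v h2

theorem finite_quot_f {r : k[X]} (hr : r ≠ 0) : ((Uf r).subgroupOf (Kf k)).FiniteIndex := by
  have : Finite (Kf k ⧸ (Uf r).subgroupOf (Kf k)) := by
    obtain ⟨D, hD⟩ := exists_digits_fin hr
    let f : (Kf k ⧸ (Uf r).subgroupOf (Kf k)) → (Fin 2 → Fin 2 → Fin r.natDegree → k) :=
      fun c i j => D ((Quotient.out c).1.1 i j)
    refine Finite.of_injective f fun c c' hcc => ?_
    have h1 : (Quotient.out c)⁻¹ * Quotient.out c' ∈ (Uf r).subgroupOf (Kf k) := by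
      rw [Subgroup.mem_subgroupOf]
      intro v
      have h2 : ∀ i j, Valued.v ((lv v (Quotient.out c').1).1 i j - (lv v (Quotient.out c).1).1 i j) ≤
          vp v r := by
        intro i j
        rw [lv_val, lv_val]
        exact hD _ _ (fun w => ((Quotient.out c').2 w i j).1) (fun w => ((Quotient.out c).2 w i j).1)
          (congrFun (congrFun hcc i) j).symm v
      have hg := (Quotient.out c).2 v
      have hh := (Quotient.out c').2 v
      change lv v ((Quotient.out c).1⁻¹ * (Quotient.out c').1) ∈ _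
      rw [map_mul, map_inv]
      refine ⟨mul_mem (inv_mem hg) hh, fun i j => ?_⟩
      generalize lv v (Quotient.out c).1 = g at *
      generalize lv v (Quotient.out c').1 = h at *
      have e : (g⁻¹ * h).1 i j - (1 : Matrix (Fin 2) (Fin 2) (Kfin k v)) i j =
          g⁻¹.1 i 0 * (h.1 0 j - g.1 0 j) + g⁻¹.1 i 1 * (h.1 1 j - g.1 1 j) := by
        have h0 : (g⁻¹ * g).1 i j = (1 : Matrix (Fin 2) (Fin 2) (Kfin k v)) i j := by
          rw [inv_mul_cancel]; rfl
        rw [mul_val] at h0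
        rw [← h0, mul_val]
        ring
      rw [e]
      exact Valuation.map_add_le _ (vmul_le1' (hg _ _).2 (h2 _ _)) (vmul_le1' (hg _ _).2 (h2 _ _))
    rw [← QuotientGroup.eq] at h1
    simpa using h1
  exact Subgroup.finiteIndex_of_finite_quotient

theorem FO_F (h : ∀ w, SmV ρ w) : FO (rF ρ) (Kf k) := by
  intro w
  obtain ⟨n, r, hr, hn⟩ := h w
  have h1 : ((Uf r).subgroupOf (Kf k)).FiniteIndex := finite_quot_f hr
  refine Subgroup.finiteIndex_of_le (H := (Uf r).subgroupOf (Kf k)) ?_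
  intro x hx
  rw [Subgroup.mem_subgroupOf] at hx
  change rF ρ x.1 w = w
  rw [rF_apply]
  exact hn _ (mem_cong.2 ⟨one_mem _, hx⟩)

end FO

end

end Pool.Agent.Q260.AL
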