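import Pool.Agent.Q260.AL.Loc

/-!
# Steinberg vectors

Let `v` be a vector in a representation of `GL₂(F)` which is fixed by the Iwahori subgroup, is
mapped to its negative by the Atkin-Lehner element, and whose sum over `GL₂(O) / Iw` is an
invariant vector `c0`. All its translates are, modulo `(h - 1) w` with `h` in a small subgroup,
combinations of finitely many of them.
-/

set_option autoImplicit false
set_option linter.unusedSectionVars false

namespace Pool.Agent.Q260.AL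

open Matrix WithZero
open scoped WithZero

variable {k F : Type*} [Field k] [Field F] (L : LD k F)

/-- `diag(π^n, 1)` -/
def LD.A (n : ℤ) : GL (Fin 2) F := dg (L.π ^ n) 1

/-- the Atkin-Lehner element `(0, 1; π, 0)` -/
def LD.om : GL (Fin 2) F := ws F * dg L.π 1

theorem LD.om_mul_om : L.om * L.om = dg L.π L.π := by
  rw [LD.om]
  apply gl_ext <;> simp [mul_val, ws_val, dg_val]

theorem LD.ws_mul_om : ws F * L.om = L.A 1 := by
  rw [LD.om, ← mul_assoc, ws_mul_ws, one_mul, LD.A, zpow_one]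

theorem LD.A_mul_A1 (n : ℤ) : L.A n * L.A 1 = L.A (n + 1) := by
  rw [LD.A, LD.A, LD.A, dg_mul, zpow_one, mul_one, _root_.zpow_add_one]

theorem LD.A_mul_nU (n : ℤ) (x : F) : L.A n * nU x = nU (((L.π ^ n : Fˣ) : F) * x) * L.A n := by
  rw [LD.A, dg_mul_nU]
  simp

theorem LD.om_mul_nU (x : F) : L.om * nU x = nL (L.π * x) * L.om := by
  rw [LD.om]
  apply gl_ext <;> simp [mul_val, ws_val, dg_val, nU_val, nL_val]

theorem LD.A_neg (n : ℤ) : L.A (-n) * L.om = dg (L.π ^ (-n)) (L.π ^ (-n)) * (L.om * L.A n) := by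
  rw [LD.om, LD.A, LD.A]
  apply gl_ext <;> simp [mul_val, ws_val, dg_val]
  field_simp

variable [Fintype k]

/-- Steinberg vectors, relative to the invariant vector `c0` -/
structure StVec {V : Type*} [AddCommGroup V] [Module ℂ V] (ρ : Representation ℂ (GL (Fin 2) F) V)
    (v c0 : V) : Prop where
  iw : ∀ g ∈ Iw L.v, ρ g v = v
  om : ρ L.om v = -v
  sum : v + ∑ x : k, ρ (nU (L.C x)) (ρ (ws F) v) = c0
  const : ∀ g, ρ g c0 = c0

variable {L} {V : Type*} [AddCommGroup V] [Module ℂ V] {ρ : Representation ℂ (GL (Fin 2) F) V}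
  {v c0 : V}

theorem rmul (ρ : Representation ℂ (GL (Fin 2) F) V) (g h : GL (Fin 2) F) (w : V) :
    ρ (g * h) w = ρ g (ρ h w) := by
  rw [map_mul, Module.End.mul_apply]

theorem StVec.ws (h : StVec L ρ v c0) : ρ (ws F) v = -ρ (L.A 1) v := by
  rw [← L.ws_mul_om, rmul, h.om, map_neg, neg_neg]

theorem StVec.step (h : StVec L ρ v c0) (n : ℤ) :
    ρ (L.A n) v = c0 + ∑ x : k, ρ (nU (((L.π ^ n : Fˣ) : F) * L.C x)) (ρ (L.A (n + 1)) v) := by
  have h1 := h.sum
  have h2 : v = c0 - ∑ x : k, ρ (nU (L.C x)) (ρ (AL.ws F) v) := by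
    rw [← h1]
    abel
  have h3 : ρ (L.A n) v = ρ (L.A n) (c0 - ∑ x : k, ρ (nU (L.C x)) (ρ (AL.ws F) v)) := by
    rw [← h2]
  rw [h3, map_sub, h.const, map_sum, sub_eq_add_neg, ← Finset.sum_neg_distrib]
  congr 1
  refine Finset.sum_congr rfl fun x _ => ?_
  rw [h.ws, map_neg, map_neg, neg_neg, ← rmul, ← rmul, L.A_mul_nU, mul_assoc, L.A_mul_A1, rmul]

theorem StVec.scal (h : StVec L ρ v c0) : ρ (dg L.π L.π) v = v := by
  rw [← L.om_mul_om, rmul, h.om, map_neg, h.om, neg_neg]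

theorem StVec.scal_zpow (h : StVec L ρ v c0) (n : ℤ) : ρ (dg (L.π ^ n) (L.π ^ n)) v = v := by
  have hn : ∀ n : ℕ, ρ (dg (L.π ^ n) (L.π ^ n)) v = v := by
    intro n
    induction n with
    | zero => simp [dg_one]
    | succ n ih =>
      rw [pow_succ, ← dg_mul, rmul, h.scal, ih]
  cases n with
  | ofNat n => exact hn n
  | negSucc n =>
    have h1 := hn (n + 1)
    have h2 : ρ (dg (L.π ^ (Int.negSucc n)) (L.π ^ (Int.negSucc n))) v =
        ρ (dg (L.π ^ (Int.negSucc n)) (L.π ^ (Int.negSucc n))) (ρ (dg (L.π ^ (n + 1)) (L.π ^ (n + 1))) v) := by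
      rw [h1]
    rw [h2, ← rmul, dg_mul, zpow_negSucc, inv_mul_cancel, dg_one, map_one, Module.End.one_apply]

theorem StVec.A_neg (h : StVec L ρ v c0) (n : ℤ) : ρ (L.A (-n)) v = -ρ L.om (ρ (L.A n) v) := by
  have h1 : ρ (L.A (-n)) (ρ L.om v) = ρ L.om (ρ (L.A n) v) := by
    rw [← rmul, L.A_neg, dg_central, rmul, rmul, h.scal_zpow]
  rw [h.om, map_neg] at h1
  rw [← h1, neg_neg]

theorem card_ne : (Fintype.card k : ℂ) ≠ 0 := by
  exact_mod_cast Fintype.card_ne_zero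

/-- one step of the descent, modulo `aug` -/
theorem step_mod {H : Subgroup (GL (Fin 2) F)} {S : Submodule ℂ V} (hc : c0 ∈ S) {w w' : V}
    {u : k → GL (Fin 2) F} (hu : ∀ x, u x ∈ H) (hw : w ∈ S ⊔ aug ρ H)
    (e : w = c0 + ∑ x : k, ρ (u x) w') : w' ∈ S ⊔ aug ρ H := by
  have h1 : (Fintype.card k : ℂ) • w' = w - c0 - ∑ x : k, (ρ (u x) w' - w') := by
    rw [Finset.sum_sub_distrib, e]
    simp only [Finset.sum_const, Finset.card_univ]
    rw [← Nat.cast_smul_eq_nsmul ℂ]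
    abel
  have h2 : w' = (Fintype.card k : ℂ)⁻¹ • (w - c0 - ∑ x : k, (ρ (u x) w' - w')) := by
    rw [← h1, smul_smul, inv_mul_cancel₀ card_ne, one_smul]
  rw [h2]
  refine Submodule.smul_mem _ _ (Submodule.sub_mem _ (Submodule.sub_mem _ hw
    (Submodule.mem_sup_left hc)) (Submodule.sum_mem _ fun x _ => Submodule.mem_sup_right ?_))
  exact mem_aug ρ (hu x) w'

theorem StVec.up (h : StVec L ρ v c0) {H : Subgroup (GL (Fin 2) F)} {S : Submodule ℂ V}
    (hc : c0 ∈ S) {N : ℕ} (hN : ρ (L.A N) v ∈ S)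
    (hH : ∀ (j : ℕ) (x : k), nU (((L.π ^ ((N : ℤ) + j) : Fˣ) : F) * L.C x) ∈ H) (j : ℕ) :
    ρ (L.A (N + j)) v ∈ S ⊔ aug ρ H := by
  induction j with
  | zero =>
    simpa using Submodule.mem_sup_left hN
  | succ j ih =>
    have h1 := h.step (N + j)
    have h2 := step_mod hc (hH j) ih h1
    push_cast
    rw [← add_assoc]
    exact h2

theorem StVec.down (h : StVec L ρ v c0) {H : Subgroup (GL (Fin 2) F)} {S : Submodule ℂ V}
    (hc : c0 ∈ S) {N : ℕ} (hN : ρ (L.A (-N)) v ∈ S)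
    (hH : ∀ (j : ℕ) (x : k), nL (L.π * (((L.π ^ ((N : ℤ) + j) : Fˣ) : F) * L.C x)) ∈ H) (j : ℕ) :
    ρ (L.A (-(N + j))) v ∈ S ⊔ aug ρ H := by
  induction j with
  | zero =>
    simpa using Submodule.mem_sup_left hN
  | succ j ih =>
    rw [h.A_neg] at ih ⊢
    rw [Submodule.neg_mem_iff] at ih ⊢
    have h1 := congrArg (ρ L.om) (h.step (N + j))
    rw [map_add, h.const, map_sum] at h1
    have h2 : ρ L.om (ρ (L.A (N + j)) v) = c0 + ∑ x : k,
        ρ (nL (L.π * (((L.π ^ ((N : ℤ) + j) : Fˣ) : F) * L.C x))) (ρ L.om (ρ (L.A (N + j + 1)) v)) := by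
      rw [h1]
      congr 1
      refine Finset.sum_congr rfl fun x _ => ?_
      rw [← rmul, L.om_mul_nU, rmul]
    have h3 := step_mod hc (hH j) ih h2
    push_cast
    rw [← add_assoc]
    exact h3

/-- all translates under the diagonal torus -/
theorem StVec.all (h : StVec L ρ v c0) {H : Subgroup (GL (Fin 2) F)} {S : Submodule ℂ V}
    (hc : c0 ∈ S) {N : ℕ} (hN : ∀ n : ℤ, |n| ≤ N → ρ (L.A n) v ∈ S)
    (hU : ∀ x, L.v x ≤ exp (-(N : ℤ)) → nU x ∈ H)
    (hL : ∀ x, L.v x ≤ exp (-(N : ℤ) - 1) → nL x ∈ H) (n : ℤ) :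
    ρ (L.A n) v ∈ S ⊔ aug ρ H := by
  have hpow : ∀ m : ℤ, L.v ((L.π ^ m : Fˣ) : F) = exp (-m) := by
    intro m
    rw [Units.val_zpow_eq_zpow_val, map_zpow₀, L.hπ, ← WithZero.exp_zsmul]
    simp
  rcases le_or_gt |n| (N : ℤ) with hn | hn
  · exact Submodule.mem_sup_left (hN n hn)
  · rcases le_or_gt 0 n with h0 | h0
    · rw [abs_of_nonneg h0] at hn
      obtain ⟨j, hj⟩ := Int.eq_ofNat_of_zero_le (show 0 ≤ n - N by omega)
      have e : n = N + j := by
        have : ((j : ℕ) : ℤ) = n - N := hj.symm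
        omega
      rw [e]
      refine h.up hc (hN N (by simp)) (fun i x => hU _ ?_) j
      rw [map_mul, hpow]
      calc exp (-((N : ℤ) + i)) * L.v (L.C x) ≤ exp (-(N : ℤ)) * 1 := by
            refine mul_le_mul' ?_ (L.hC1 x)
            rw [exp_le_exp]
            omega
        _ = _ := mul_one _
    · rw [abs_of_neg h0] at hn
      obtain ⟨j, hj⟩ := Int.eq_ofNat_of_zero_le (show 0 ≤ -n - N by omega)
      have e : n = -(N + j) := by
        have : ((j : ℕ) : ℤ) = -n - N := hj.symm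
        omega
      rw [e]
      refine h.down hc (hN (-N) (by simp)) (fun i x => hL _ ?_) j
      rw [map_mul, map_mul, hpow, L.hπ]
      calc exp (-1 : ℤ) * (exp (-((N : ℤ) + i)) * L.v (L.C x)) ≤
            exp (-1 : ℤ) * (exp (-(N : ℤ)) * 1) := by
            refine mul_le_mul' le_rfl (mul_le_mul' ?_ (L.hC1 x))
            rw [exp_le_exp]
            omega
        _ = exp (-(N : ℤ) - 1) := by
            rw [mul_one, ← exp_add]
            congr 1
            ring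

omit [Fintype k] in
theorem units_dec (L : LD k F) (x : Fˣ) : ∃ (n : ℤ) (u : Fˣ), L.v u = 1 ∧ x = L.π ^ n * u := by
  refine ⟨-log (L.v x), (L.π ^ (-log (L.v x)))⁻¹ * x, ?_, by group⟩
  have hx : L.v x ≠ 0 := (Valuation.ne_zero_iff _).2 x.ne_zero
  obtain ⟨m, hm⟩ : ∃ m : ℤ, L.v x = exp m := ⟨log (L.v x), (exp_log hx).symm⟩
  rw [Units.val_mul, map_mul, Units.val_inv_eq_inv_val, map_inv₀, Units.val_zpow_eq_zpow_val,
    map_zpow₀, L.hπ, ← WithZero.exp_zsmul, hm, log_exp, ← WithZero.exp_neg, ← exp_add]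
  simp

theorem StVec.rep (h : StVec L ρ v c0) (g : GL (Fin 2) F) : ∃ i ∈ Iw L.v, ∃ n : ℤ,
    ρ g v = ρ i (ρ (L.A n) v) ∨ ρ g v = -ρ i (ρ (L.A n) v) := by
  have key : ∀ (x y : Fˣ), ∃ n : ℤ, ∀ w : V, (∃ t : GL (Fin 2) F, w = ρ t v) →
      ∃ i ∈ Iw L.v, ρ (dg x y) w = ρ (L.A n) (ρ i w) ∧ i * AL.ws F = AL.ws F * (AL.ws F * i * AL.ws F) ∧
        AL.ws F * i * AL.ws F ∈ Iw L.v := by
    intro x y
    obtain ⟨n, u, hu, hx⟩ := units_dec L (x * y⁻¹)
    obtain ⟨m, u', hu', hy⟩ := units_dec L y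
    refine ⟨n, fun w ⟨t, ht⟩ => ⟨dg (u * u') u', dg_mem_Iw (by simp [hu, hu']) hu', ?_, ?_, ?_⟩⟩
    · have e : dg x y = L.A n * dg (u * u') u' * dg (L.π ^ m) (L.π ^ m) := by
        have hx' : x = L.π ^ n * u * y := by rw [← hx]; group
        rw [hx', hy, LD.A, dg_mul, dg_mul]
        congr 1
        · rw [mul_assoc, mul_assoc, mul_assoc]
          congr 2
          exact mul_comm _ _
        · rw [one_mul, mul_comm]
      rw [e, rmul, rmul]
      congr 2
      rw [ht, ← rmul, dg_central, rmul, h.scal_zpow]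
    · simp only [← mul_assoc, ws_mul_ws, one_mul]
    · rw [mul_assoc, ← ws_mul_dg, ← mul_assoc, ws_mul_ws, one_mul]
      exact dg_mem_Iw hu' (by simp [hu, hu'])
  obtain ⟨i, hi, i', hi', x, y, hg | hg⟩ := iw_decomp L.v g
  · obtain ⟨n, hn⟩ := key x y
    obtain ⟨j, hj, e, -, -⟩ := hn v ⟨1, by simp⟩
    refine ⟨i, hi, n, Or.inl ?_⟩
    rw [hg, rmul, rmul, h.iw i' hi', e, h.iw j hj]
  · obtain ⟨n, hn⟩ := key x y
    obtain ⟨j, hj, e, e', hj'⟩ := hn (ρ (AL.ws F) v) ⟨AL.ws F, rfl⟩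
    refine ⟨i, hi, n + 1, Or.inr ?_⟩
    rw [hg, rmul, rmul, h.iw i' hi', rmul, e, ← rmul ρ j, e', rmul, h.iw _ hj', h.ws, map_neg,
      ← rmul, L.A_mul_A1, map_neg]

/-- **Translates of a Steinberg vector modulo `aug` of the Iwahori subgroup.** -/
theorem StVec.mod_iw (h : StVec L ρ v c0) (g : GL (Fin 2) F) :
    ρ g v ∈ Submodule.span ℂ {v, c0} ⊔ aug ρ (Iw L.v) := by
  obtain ⟨i, hi, n, hn⟩ := h.rep g
  have h1 : ρ (L.A n) v ∈ Submodule.span ℂ {v, c0} ⊔ aug ρ (Iw L.v) := by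
    refine h.all (N := 0) (Submodule.subset_span (by simp)) (fun m hm => ?_) (fun x hx => ?_)
      (fun x hx => ?_) n
    · have : m = 0 := by simpa using hm
      rw [this, LD.A, zpow_zero, dg_one, map_one]
      exact Submodule.subset_span (by simp)
    · exact nU_mem_Iw (by simpa using hx)
    · refine nL_mem_Iw (lt_one_iff_exp.2 (by simpa using hx))
  have h2 : ρ i (ρ (L.A n) v) ∈ Submodule.span ℂ {v, c0} ⊔ aug ρ (Iw L.v) := by
    have e : ρ i (ρ (L.A n) v) = ρ (L.A n) v + (ρ i (ρ (L.A n) v) - ρ (L.A n) v) := by abel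
    rw [e]
    exact Submodule.add_mem _ h1 (Submodule.mem_sup_right (mem_aug ρ hi _))
  rcases hn with hn | hn
  · rw [hn]
    exact h2
  · rw [hn]
    exact Submodule.neg_mem _ h2

end Pool.Agent.Q260.AL
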