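import Pool.Agent.Q260.AL.Main

/-!
# Topology: congruence subgroups are open and small
-/

set_option autoImplicit false
set_option linter.unusedSectionVars false

namespace Pool.Agent.Q260.AL

open IsDedekindDomain Polynomial WithZero Topology
open Matrix (GeneralLinearGroup)
open scoped WithZero MatrixGroups

noncomputable section

section loc

variable {F : Type*} [Field F] [Valued F ℤᵐ⁰]

theorem isOpen_one_F : IsOpen {x : F | Valued.v x ≤ (1 : ℤᵐ⁰)} := Valued.isOpen_integer F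

theorem isOpen_le_F {γ : ℤᵐ⁰} {a : F} (ha : a ≠ 0) (hγ : Valued.v a = γ) :
    IsOpen {x : F | Valued.v x ≤ γ} := by
  have h : {x : F | Valued.v x ≤ γ} = (fun x => a⁻¹ * x) ⁻¹' {x : F | Valued.v x ≤ (1 : ℤᵐ⁰)} := by
    ext x
    simp only [Set.mem_ofPred_eq, Set.mem_preimage]
    rw [map_mul, map_inv₀, hγ]
    have h0 : γ ≠ 0 := by rw [← hγ]; exact (Valuation.ne_zero_iff _).2 ha
    constructor
    · intro hx
      calc γ⁻¹ * Valued.v x ≤ γ⁻¹ * γ := by gcongr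
        _ = 1 := inv_mul_cancel₀ h0
    · intro hx
      calc Valued.v x = γ * (γ⁻¹ * Valued.v x) := by rw [← mul_assoc, mul_inv_cancel₀ h0, one_mul]
        _ ≤ γ * 1 := by gcongr
        _ = γ := mul_one _
  rw [h]
  exact isOpen_one_F.preimage (continuous_const.mul continuous_id)

theorem continuous_entry (i j : Fin 2) : Continuous fun g : GL (Fin 2) F => g.1 i j :=
  (Units.continuous_val (M := Matrix (Fin 2) (Fin 2) F)).matrix_elem i j

theorem continuous_entry_inv (i j : Fin 2) : Continuous fun g : GL (Fin 2) F => (g⁻¹).1 i j :=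
  (Units.continuous_coe_inv (M := Matrix (Fin 2) (Fin 2) F)).matrix_elem i j

theorem isOpen_Um {n : ℕ} {a : F} (ha : a ≠ 0) (hγ : Valued.v a = exp (-(n : ℤ))) :
    IsOpen ((Um (Valued.v : Valuation F ℤᵐ⁰) n : Subgroup (GL (Fin 2) F)) : Set (GL (Fin 2) F)) := by
  have h : ((Um (Valued.v : Valuation F ℤᵐ⁰) n : Subgroup (GL (Fin 2) F)) : Set (GL (Fin 2) F)) =
      (⋂ i, ⋂ j, (((fun g : GL (Fin 2) F => g.1 i j) ⁻¹' {x : F | Valued.v x ≤ (1 : ℤᵐ⁰)}) ∩
        ((fun g : GL (Fin 2) F => (g⁻¹).1 i j) ⁻¹' {x : F | Valued.v x ≤ (1 : ℤᵐ⁰)})) ∩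
        ((fun g : GL (Fin 2) F => g.1 i j - (1 : Matrix (Fin 2) (Fin 2) F) i j) ⁻¹'
          {x : F | Valued.v x ≤ exp (-(n : ℤ))})) := by
    ext g
    simp only [Set.mem_iInter, Set.mem_inter_iff, Set.mem_preimage, Set.mem_ofPred_eq]
    constructor
    · intro hg i j
      exact ⟨⟨(hg.1 i j).1, (hg.1 i j).2⟩, hg.2 i j⟩
    · intro hg
      exact ⟨fun i j => ⟨(hg i j).1.1, (hg i j).1.2⟩, fun i j => (hg i j).2⟩
  rw [h]
  refine isOpen_iInter_of_finite fun i => isOpen_iInter_of_finite fun j => ?_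
  refine IsOpen.inter (IsOpen.inter (isOpen_one_F.preimage (continuous_entry i j))
    (isOpen_one_F.preimage (continuous_entry_inv i j))) ?_
  exact (isOpen_le_F ha hγ).preimage ((continuous_entry i j).sub continuous_const)

theorem nhds_ball {x : F} {s : Set F} (hs : s ∈ 𝓝 x) : ∃ n : ℕ, ∀ y,
    Valued.v (y - x) ≤ exp (-(n : ℤ)) → y ∈ s := by
  rw [Valued.mem_nhds] at hs
  obtain ⟨γ, hγ⟩ := hs
  obtain ⟨a, ha⟩ := MonoidWithZeroHom.ValueGroup₀.restrict₀_surjective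
    (.ofClass (Valued.v : Valuation F ℤᵐ⁰)) γ.1
  have ha' : Valued.v.restrict a = γ.1 := ha
  have ha0 : a ≠ 0 := by
    rintro rfl
    rw [map_zero] at ha'
    exact γ.ne_zero ha'.symm
  have hva : Valued.v a ≠ (0 : ℤᵐ⁰) := (Valuation.ne_zero_iff _).2 ha0
  refine ⟨(1 - log (Valued.v a)).toNat, fun y hy => hγ ?_⟩
  rw [Set.mem_ofPred_eq, ← ha']
  refine (Valuation.restrict_lt_iff (v := (Valued.v : Valuation F ℤᵐ⁰))).2 (hy.trans_lt ?_)
  obtain ⟨c, hc⟩ : ∃ c : ℤ, Valued.v a = exp c := ⟨log (Valued.v a), (exp_log hva).symm⟩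
  rw [hc, log_exp, exp_lt_exp]
  have := Int.self_le_toNat (1 - c)
  omega

theorem nhds_fun {M : Fin 2 → Fin 2 → F} {s : Set (Fin 2 → Fin 2 → F)}
    (hs : s ∈ 𝓝 M) : ∃ n : ℕ, ∀ N : Fin 2 → Fin 2 → F,
    (∀ i j, Valued.v (N i j - M i j) ≤ exp (-(n : ℤ))) → N ∈ s := by
  have e : 𝓝 M = Filter.pi fun i => Filter.pi fun j => 𝓝 (M i j) := by
    rw [nhds_pi]
    congr 1
    funext i
    rw [nhds_pi]
  rw [e] at hs
  obtain ⟨I, -, t, ht, hs⟩ := Filter.mem_pi.1 hs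
  have h2 : ∀ i, ∃ n : ℕ, ∀ y : Fin 2 → F, (∀ j, Valued.v (y j - M i j) ≤ exp (-(n : ℤ))) → y ∈ t i := by
    intro i
    have h3 := ht i
    rw [Filter.mem_pi] at h3
    obtain ⟨J, -, u, hu, hs'⟩ := h3
    choose n hn using fun j => nhds_ball (hu j)
    refine ⟨n 0 + n 1, fun y hy => hs' fun j _ => hn j _ ((hy j).trans ?_)⟩
    rw [exp_le_exp]
    fin_cases j <;> simp
  choose n hn using h2
  refine ⟨n 0 + n 1, fun N hN => hs fun i _ => hn i _ fun j => (hN i j).trans ?_⟩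
  rw [exp_le_exp]
  fin_cases i <;> simp

theorem nhds_mat {M : Matrix (Fin 2) (Fin 2) F} {s : Set (Matrix (Fin 2) (Fin 2) F)}
    (hs : s ∈ 𝓝 M) : ∃ n : ℕ, ∀ N : Matrix (Fin 2) (Fin 2) F,
    (∀ i j, Valued.v (N i j - M i j) ≤ exp (-(n : ℤ))) → N ∈ s :=
  nhds_fun (M := M) hs

theorem nhds_gl {s : Set (GL (Fin 2) F)} (hs : s ∈ 𝓝 1) :
    ∃ n : ℕ, ∀ g ∈ Um (Valued.v : Valuation F ℤᵐ⁰) n, g ∈ s := by
  rw [Units.isInducing_embedProduct.nhds_eq_comap, Filter.mem_comap] at hs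
  obtain ⟨t, ht, hts⟩ := hs
  rw [nhds_prod_eq, Filter.mem_prod_iff] at ht
  obtain ⟨t₁, ht₁, t₂, ht₂, ht⟩ := ht
  have h1 : t₁ ∈ 𝓝 (1 : Matrix (Fin 2) (Fin 2) F) := ht₁
  have h2 : MulOpposite.op ⁻¹' t₂ ∈ 𝓝 (1 : Matrix (Fin 2) (Fin 2) F) :=
    (MulOpposite.continuous_op.tendsto _) ht₂
  obtain ⟨n, hn⟩ := nhds_mat h1
  obtain ⟨m, hm⟩ := nhds_mat h2
  refine ⟨n + m, fun g hg => hts (ht ⟨?_, ?_⟩)⟩
  · refine hn _ fun i j => (hg.2 i j).trans ?_
    rw [exp_le_exp]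
    push_cast
    omega
  · refine hm _ fun i j => ((inv_mem hg).2 i j).trans ?_
    rw [exp_le_exp]
    push_cast
    omega

end loc

variable {k : Type} [Field k]

/-- `r Ô` -/
def Oh (r : k[X]) : Set (Afin k) := {x | ∀ v, Valued.v (ev v x) ≤ vp v r}

theorem isOpen_Oh_one : IsOpen {x : Afin k | ∀ v, Valued.v (ev v x) ≤ (1 : ℤᵐ⁰)} :=
  RestrictedProduct.isOpen_forall_mem (R := fun v : HeightOneSpectrum k[X] => Kfin k v)
    (A := fun v => (v.adicCompletionIntegers (RatFunc k) : Set (Kfin k v)))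
    (fun _ => Valued.isOpen_valuationSubring _)

theorem isOpen_Oh {r : k[X]} (hr : r ≠ 0) : IsOpen (Oh r) := by
  have hr' : algebraMap k[X] (RatFunc k) r ≠ 0 := by simpa using hr
  have h : Oh r = (fun x => algebraMap (RatFunc k) (Afin k) (algebraMap k[X] (RatFunc k) r)⁻¹ * x) ⁻¹'
      {x : Afin k | ∀ v, Valued.v (ev v x) ≤ (1 : ℤᵐ⁰)} := by
    ext x
    simp only [Oh, Set.mem_ofPred_eq, Set.mem_preimage]
    refine forall_congr' fun v => ?_
    have h0 : vp v r ≠ 0 := vp_ne v hr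
    rw [map_mul (ev v), ev_algebraMap, map_mul, vfin, map_inv₀,
      show v.valuation (RatFunc k) (algebraMap k[X] (RatFunc k) r) = vp v r from rfl]
    constructor
    · intro hx
      calc (vp v r)⁻¹ * Valued.v (ev v x) ≤ (vp v r)⁻¹ * vp v r := by gcongr
        _ = 1 := inv_mul_cancel₀ h0
    · intro hx
      calc Valued.v (ev v x) = vp v r * ((vp v r)⁻¹ * Valued.v (ev v x)) := by
            rw [← mul_assoc, mul_inv_cancel₀ h0, one_mul]
        _ ≤ vp v r * 1 := by gcongr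
        _ = vp v r := mul_one _
  rw [h]
  exact isOpen_Oh_one.preimage (continuous_const.mul continuous_id)

theorem continuous_entry_f (i j : Fin 2) : Continuous fun g : GL (Fin 2) (Afin k) => g.1 i j :=
  (Units.continuous_val (M := Matrix (Fin 2) (Fin 2) (Afin k))).matrix_elem i j

theorem continuous_entry_inv_f (i j : Fin 2) : Continuous fun g : GL (Fin 2) (Afin k) => (g⁻¹).1 i j :=
  (Units.continuous_coe_inv (M := Matrix (Fin 2) (Fin 2) (Afin k))).matrix_elem i j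

theorem ev_one (v : HeightOneSpectrum k[X]) (i j : Fin 2) :
    ev v ((1 : Matrix (Fin 2) (Fin 2) (Afin k)) i j) = (1 : Matrix (Fin 2) (Fin 2) (Kfin k v)) i j := by
  fin_cases i <;> fin_cases j <;> simp

theorem isOpen_Uf {r : k[X]} (hr : r ≠ 0) : IsOpen ((Uf r : Subgroup (GL (Fin 2) (Afin k))) :
    Set (GL (Fin 2) (Afin k))) := by
  have h : ((Uf r : Subgroup (GL (Fin 2) (Afin k))) : Set (GL (Fin 2) (Afin k))) =
      (⋂ i, ⋂ j, (((fun g : GL (Fin 2) (Afin k) => g.1 i j) ⁻¹'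
          {x : Afin k | ∀ v, Valued.v (ev v x) ≤ (1 : ℤᵐ⁰)}) ∩
        ((fun g : GL (Fin 2) (Afin k) => (g⁻¹).1 i j) ⁻¹'
          {x : Afin k | ∀ v, Valued.v (ev v x) ≤ (1 : ℤᵐ⁰)})) ∩
        ((fun g : GL (Fin 2) (Afin k) => g.1 i j - (1 : Matrix (Fin 2) (Fin 2) (Afin k)) i j) ⁻¹'
          Oh r)) := by
    ext g
    simp only [Set.mem_iInter, Set.mem_inter_iff, Set.mem_preimage, Set.mem_ofPred_eq, Oh]
    constructor
    · intro hg i j
      refine ⟨⟨fun v => ((hg v).1 i j).1, fun v => ?_⟩, fun v => ?_⟩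
      · have := ((hg v).1 i j).2
        rw [← map_inv] at this
        exact this
      · rw [map_sub, ev_one]
        exact (hg v).2 i j
    · intro hg v
      refine ⟨fun i j => ⟨(hg i j).1.1 v, ?_⟩, fun i j => ?_⟩
      · have := (hg i j).1.2 v
        rw [← map_inv]
        exact this
      · have := (hg i j).2 v
        rw [map_sub, ev_one] at this
        exact this
  rw [h]
  refine isOpen_iInter_of_finite fun i => isOpen_iInter_of_finite fun j => ?_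
  refine IsOpen.inter (IsOpen.inter (isOpen_Oh_one.preimage (continuous_entry_f i j))
    (isOpen_Oh_one.preimage (continuous_entry_inv_f i j))) ?_
  exact (isOpen_Oh hr).preimage ((continuous_entry_f i j).sub continuous_const)

theorem vI_pow (n : ℕ) : vI k (((Linf (k := k)).π : Kinf k) ^ n) = exp (-(n : ℤ)) := by
  have h1 : vI k ((Linf.π : (Kinf k)ˣ) : Kinf k) = exp (-1 : ℤ) := Linf.hπ
  rw [map_pow, h1, ← WithZero.exp_nsmul]
  simp

theorem isOpen_UmI (n : ℕ) : IsOpen ((Um (vI k) n : Subgroup (GL (Fin 2) (Kinf k))) :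
    Set (GL (Fin 2) (Kinf k))) :=
  isOpen_Um (pow_ne_zero n (Units.ne_zero _)) (vI_pow n)

theorem isOpen_cong (n : ℕ) {r : k[X]} (hr : r ≠ 0) :
    IsOpen ((cong n r : Subgroup (GA k)) : Set (GA k)) := by
  have h : ((cong n r : Subgroup (GA k)) : Set (GA k)) =
    ((Um (vI k) n : Subgroup (GL (Fin 2) (Kinf k))) : Set (GL (Fin 2) (Kinf k))) ×ˢ
    ((Uf r : Subgroup (GL (Fin 2) (Afin k))) : Set (GL (Fin 2) (Afin k))) := Subgroup.coe_prod _ _
  rw [h]
  exact (isOpen_UmI n).prod (isOpen_Uf hr)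

theorem isOpen_WA (n : ℕ) {r : k[X]} (hr : r ≠ 0) :
    IsOpen ((WA n r : AddSubgroup (Ad k)) : Set (Ad k)) := by
  have h : ((WA n r : AddSubgroup (Ad k)) : Set (Ad k)) =
    {x : Kinf k | vI k x ≤ exp (-(n : ℤ))} ×ˢ Oh r := rfl
  rw [h]
  exact (isOpen_le_F (pow_ne_zero n (Units.ne_zero _)) (vI_pow n)).prod (isOpen_Oh hr)

end

end Pool.Agent.Q260.AL
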