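import Pool.Agent.Q260.AL.Fin

/-!
# The product formula, and the trivial representation as an isobaric sum
-/

set_option autoImplicit false
set_option linter.unusedSectionVars false

namespace Pool.Agent.Q260.AL

open IsDedekindDomain Polynomial WithZero
open Matrix (GeneralLinearGroup)
open scoped WithZero MatrixGroups

noncomputable section

variable {k : Type} [Field k] [Fintype k]

theorem card_pos' : (0 : ℝ) < (Nat.card k : ℝ) := by
  exact_mod_cast Nat.card_pos

theorem card_quo {p : k[X]} (hp : p ≠ 0) :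
    Nat.card (k[X] ⧸ Ideal.span {p}) = Nat.card k ^ p.natDegree := by
  have e : Nat.card (AdjoinRoot p) = Nat.card k ^ p.natDegree := by
    have pb := AdjoinRoot.powerBasis hp
    have : Module.Finite k (AdjoinRoot p) := (AdjoinRoot.powerBasis hp).finite
    rw [Module.natCard_eq_pow_finrank (K := k), (AdjoinRoot.powerBasis hp).finrank,
      AdjoinRoot.powerBasis_dim hp]
  exact e

/-- the local degree factor -/
def cv (v : HeightOneSpectrum k[X]) : ℝ := (Nat.card (k[X] ⧸ v.asIdeal) : ℝ)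

theorem exists_gen' (v : HeightOneSpectrum k[X]) : ∃ p : k[X], p ≠ 0 ∧ v.asIdeal = Ideal.span {p} := by
  obtain ⟨p, hp⟩ := (IsPrincipalIdealRing.principal v.asIdeal)
  rw [Ideal.submodule_span_eq] at hp
  refine ⟨p, ?_, hp⟩
  rintro rfl
  apply v.ne_bot
  rw [hp]
  simp

theorem cv_pos (v : HeightOneSpectrum k[X]) : 0 < cv v := by
  obtain ⟨p, hp, e⟩ := exists_gen' v
  unfold cv
  rw [e, card_quo hp]
  push_cast
  exact pow_pos card_pos' _

theorem finite_idele (x : (Afin k)ˣ) : {v : HeightOneSpectrum k[X] |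
    Valued.v (ev v (x : Afin k)) ≠ 1}.Finite := by
  obtain ⟨h1, h2⟩ := FiniteAdeleRing.isUnit_iff.1 x.isUnit
  rw [Filter.eventually_cofinite] at h2
  exact h2

theorem ev_unit_ne (x : (Afin k)ˣ) (v : HeightOneSpectrum k[X]) :
    Valued.v (ev v (x : Afin k)) ≠ 0 := by
  rw [Valuation.ne_zero_iff]
  exact ((x.isUnit.map (ev v))).ne_zero

theorem finite_supp (x : (Afin k)ˣ) : (Function.mulSupport fun v : HeightOneSpectrum k[X] =>
    (Nat.card (k[X] ⧸ v.asIdeal) : ℝ) ^ log (Valued.v (ev v (x : Afin k)))).Finite := by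
  refine (finite_idele x).subset fun v hv h0 => hv ?_
  simp only
  rw [h0, log_one, zpow_zero]

theorem idn_mul (x y : Id k) : idn (x * y) = idn x * idn y := by
  unfold idn
  have e1 : (Nat.card k : ℝ) ^ log (vI k ((x * y).1 : Kinf k)) =
      (Nat.card k : ℝ) ^ log (vI k (x.1 : Kinf k)) * (Nat.card k : ℝ) ^ log (vI k (y.1 : Kinf k)) := by
    rw [Prod.fst_mul, Units.val_mul, map_mul, log_mul ((Valuation.ne_zero_iff _).2 x.1.ne_zero)
      ((Valuation.ne_zero_iff _).2 y.1.ne_zero), zpow_add₀ card_pos'.ne']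
  have e2 : (∏ᶠ v : HeightOneSpectrum k[X], (Nat.card (k[X] ⧸ v.asIdeal) : ℝ) ^
      log (Valued.v (ev v ((x * y).2 : Afin k)))) =
      (∏ᶠ v : HeightOneSpectrum k[X], (Nat.card (k[X] ⧸ v.asIdeal) : ℝ) ^
        log (Valued.v (ev v (x.2 : Afin k)))) *
      ∏ᶠ v : HeightOneSpectrum k[X], (Nat.card (k[X] ⧸ v.asIdeal) : ℝ) ^
        log (Valued.v (ev v (y.2 : Afin k))) := by
    rw [← finprod_mul_distrib (finite_supp x.2) (finite_supp y.2)]
    refine finprod_congr fun v => ?_
    have hc : (Nat.card (k[X] ⧸ v.asIdeal) : ℝ) ≠ 0 := (cv_pos v).ne'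
    rw [Prod.snd_mul, Units.val_mul, map_mul, map_mul, log_mul (ev_unit_ne _ _) (ev_unit_ne _ _),
      zpow_add₀ hc]
  rw [e1, e2]
  ring

theorem idn_one : idn (1 : Id k) = 1 := by
  unfold idn
  simp

theorem idn_pos (x : Id k) : 0 < idn x := by
  unfold idn
  refine mul_pos (zpow_pos card_pos' _) ?_
  refine finprod_induction (fun x : ℝ => 0 < x) one_pos (fun _ _ => mul_pos) fun v => ?_
  exact zpow_pos (cv_pos v) _

theorem idn_inv (x : Id k) : idn x⁻¹ = (idn x)⁻¹ := by
  have h := idn_mul x x⁻¹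
  rw [mul_inv_cancel, idn_one] at h
  exact eq_inv_of_mul_eq_one_right h.symm

theorem idn_div (x y : Id k) : idn (x / y) = idn x / idn y := by
  rw [div_eq_mul_inv, idn_mul, idn_inv, div_eq_mul_inv]

theorem ev_dI (v : HeightOneSpectrum k[X]) (y : (RatFunc k)ˣ) :
    Valued.v (ev v ((dI y).2 : Afin k)) = v.valuation (RatFunc k) (y : RatFunc k) :=
  vfin v _

theorem vI_dI (y : (RatFunc k)ˣ) : vI k ((dI y).1 : Kinf k) =
    RatFunc.inftyValuation k (y : RatFunc k) := vinf _

theorem dI_mul (x y : (RatFunc k)ˣ) : dI (x * y) = dI x * dI y := map_mul _ _ _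

/-- nonzero polynomials as units of `k(t)` -/
def pu (p : k[X]) (hp : p ≠ 0) : (RatFunc k)ˣ := Units.mk0 (algebraMap k[X] (RatFunc k) p) (by simpa using hp)

theorem prod_prime {p : k[X]} (hp : Prime p) : idn (dI (pu p hp.ne_zero)) = 1 := by
  classical
  let w : HeightOneSpectrum k[X] :=
    { asIdeal := Ideal.span {p}
      isPrime := (Ideal.span_singleton_prime hp.ne_zero).2 hp
      ne_bot := by simpa using hp.ne_zero }
  have h1 : vI k ((dI (pu p hp.ne_zero)).1 : Kinf k) = exp (p.natDegree : ℤ) := by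
    rw [vI_dI]
    exact RatFunc.inftyValuation.polynomial k hp.ne_zero
  have h2 : Valued.v (ev w ((dI (pu p hp.ne_zero)).2 : Afin k)) = exp (-1 : ℤ) := by
    rw [ev_dI, pu, Units.val_mk0, HeightOneSpectrum.valuation_of_algebraMap]
    exact HeightOneSpectrum.intValuation_singleton _ hp.ne_zero rfl
  have h3 : ∀ v ≠ w, Valued.v (ev v ((dI (pu p hp.ne_zero)).2 : Afin k)) = 1 := by
    intro v hv
    rw [ev_dI, pu, Units.val_mk0, HeightOneSpectrum.valuation_eq_one_iff_notMem]
    intro hmem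
    apply hv
    have h4 : w.asIdeal ≤ v.asIdeal := by
      change Ideal.span {p} ≤ _
      rw [Ideal.span_singleton_le_iff_mem]
      exact hmem
    have h5 := w.isMaximal.eq_of_le v.isPrime.ne_top h4
    exact (HeightOneSpectrum.ext h5).symm
  unfold idn
  rw [finprod_eq_single _ w (fun v hv => by rw [h3 v hv, log_one, zpow_zero]), h1, h2, log_exp, log_exp]
  have h6 : Nat.card (k[X] ⧸ w.asIdeal) = Nat.card k ^ p.natDegree := card_quo hp.ne_zero
  rw [h6]
  push_cast
  rw [zpow_natCast, zpow_neg_one]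
  exact mul_inv_cancel₀ (pow_pos card_pos' _).ne'

theorem prod_poly (p : k[X]) : ∀ hp : p ≠ 0, idn (dI (pu p hp)) = 1 := by
  induction p using UniqueFactorizationMonoid.induction_on_prime with
  | h₁ => intro hp; exact absurd rfl hp
  | h₂ x hx =>
    intro hp
    have h1 : vI k ((dI (pu x hp)).1 : Kinf k) = 1 := by
      rw [vI_dI]
      have h1 : RatFunc.inftyValuation k ((pu x hp : (RatFunc k)ˣ) : RatFunc k) =
        exp (x.natDegree : ℤ) := RatFunc.inftyValuation.polynomial k hp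
      rw [h1, Polynomial.natDegree_eq_zero_of_isUnit hx]
      simp
    have h3 : ∀ v : HeightOneSpectrum k[X], Valued.v (ev v ((dI (pu x hp)).2 : Afin k)) = 1 := by
      intro v
      rw [ev_dI, pu, Units.val_mk0, HeightOneSpectrum.valuation_eq_one_iff_notMem]
      intro hmem
      exact v.isPrime.ne_top (Ideal.eq_top_of_isUnit_mem _ hmem hx)
    unfold idn
    rw [h1, log_one, zpow_zero, one_mul]
    refine finprod_eq_one_of_forall_eq_one fun v => ?_
    rw [h3 v, log_one, zpow_zero]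
  | h₃ a p ha hp ih =>
    intro hpa
    have e : pu (p * a) hpa = pu p hp.ne_zero * pu a ha := by
      refine Units.ext ?_
      simp [pu]
    rw [e, dI_mul, idn_mul, prod_prime hp, ih ha, one_mul]

/-- **The product formula.** -/
theorem product_formula (y : (RatFunc k)ˣ) : idn (dI y) = 1 := by
  have hn : (y : RatFunc k).num ≠ 0 := RatFunc.num_ne_zero y.ne_zero
  have hd : (y : RatFunc k).denom ≠ 0 := (y : RatFunc k).denom_ne_zero
  have e : y * pu _ hd = pu _ hn := by
    refine Units.ext ?_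
    rw [Units.val_mul, pu, pu, Units.val_mk0, Units.val_mk0]
    have h1 := (y : RatFunc k).num_div_denom
    have h2 : algebraMap k[X] (RatFunc k) (y : RatFunc k).denom ≠ 0 := by simpa using hd
    rw [div_eq_iff h2] at h1
    exact h1.symm
  have h : idn (dI (y * pu _ hd)) = idn (dI (pu _ hn)) := by rw [e]
  rw [dI_mul, idn_mul, prod_poly _ hd, prod_poly _ hn, mul_one] at h
  exact h

/-- the character `|x|^{1/2}` -/
def chi (k : Type) [Field k] [Fintype k] : Id k →* ℂˣ where
  toFun x := Units.mk0 ((Real.sqrt (idn x) : ℝ) : ℂ) (by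
    exact_mod_cast (Real.sqrt_pos.2 (idn_pos x)).ne')
  map_one' := by
    refine Units.ext ?_
    simp [idn_one]
  map_mul' x y := by
    refine Units.ext ?_
    simp [idn_mul, Real.sqrt_mul (idn_pos x).le]

theorem chi_val (x : Id k) : ((chi k x : ℂˣ) : ℂ) = ((Real.sqrt (idn x) : ℝ) : ℂ) := rfl

theorem idn_cong {n : ℕ} {r : k[X]} {x : Id k} (h : dA x 1 ∈ cong n r) : idn x = 1 := by
  obtain ⟨h1, h2⟩ := mem_cong.1 h
  have e1 : vI k (x.1 : Kinf k) = 1 := by
    have h3 := dt_K h1.1
    change vI k (dt (dg x.1 1)) = 1 at h3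
    rw [dt_dg, Units.val_one, mul_one] at h3
    exact h3
  have e2 : ∀ v, Valued.v (ev v (x.2 : Afin k)) = 1 := by
    intro v
    have h3 := dt_K (h2 v).1
    change Valued.v (dt (GeneralLinearGroup.map (ev v) (dg x.2 1))) = 1 at h3
    rw [map_dg, dt_dg, map_one, Units.val_one, mul_one] at h3
    exact h3
  unfold idn
  rw [e1, log_one, zpow_zero, one_mul]
  refine finprod_eq_one_of_forall_eq_one fun v => ?_
  rw [e2 v, log_one, zpow_zero]

theorem chi_hecke : IsHecke (chi k) := by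
  refine ⟨fun x => ?_, 0, 1, one_ne_zero, fun x hx => ?_⟩
  · refine Units.ext ?_
    rw [chi_val, product_formula]
    simp
  · refine Units.ext ?_
    rw [chi_val, idn_cong hx]
    simp

theorem chi_inv_hecke : IsHecke (chi k)⁻¹ := by
  refine ⟨fun x => ?_, 0, 1, one_ne_zero, fun x hx => ?_⟩
  · rw [MonoidHom.inv_apply, chi_hecke.1 x, inv_one]
  · rw [MonoidHom.inv_apply]
    have : chi k x = 1 := by
      refine Units.ext ?_
      rw [chi_val, idn_cong hx]
      simp
    rw [this, inv_one]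

/-- the trivial representation of `GL₂(A)` -/
def Triv (k : Type) [Field k] : GRep k where
  V := ℂ
  ρ := 1
  ne := ⟨1, one_ne_zero⟩
  irr W _ := eq_bot_or_eq_top W
  sm _ := ⟨0, 1, one_ne_zero, fun _ _ => rfl⟩

/-- the constant functions -/
def constF (k : Type) [Field k] : ℂ →ₗ[ℂ] (GA k → ℂ) where
  toFun c := fun _ => c
  map_add' _ _ := rfl
  map_smul' _ _ := rfl

theorem const_aut (c : ℂ) : IsAutForm (constF k c) where
  left _ _ := rfl
  smooth := ⟨0, 1, one_ne_zero, fun _ _ => rfl⟩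
  adm m := by
    have h1 : cyc (rI (RT k)) (constF k c) ≤ Submodule.span ℂ {constF k c} := by
      unfold cyc
      rw [Submodule.span_le]
      rintro x ⟨g, rfl⟩
      have e : (fun g => rI (RT k) g (constF k c)) g = constF k c := rfl
      rw [e]
      exact Submodule.mem_span_singleton_self _
    have h2 : (cyc (rI (RT k)) (constF k c) ⊓ fixed (rI (RT k)) (Um (vI k) m)) ≤
      Submodule.span ℂ {constF k c} := inf_le_left.trans h1
    exact Submodule.finiteDimensional_of_le h2

theorem Triv_aut : IsAutomorphic (Triv k) := by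
  refine ⟨LinearMap.range (constF k), ?_, ?_, ?_⟩
  · rintro g x ⟨c, rfl⟩
    exact ⟨c, rfl⟩
  · rintro F ⟨c, rfl⟩
    exact const_aut c
  · refine ⟨⟨⟨fun F => (F : GA k → ℂ) 1, fun _ _ => rfl⟩, fun _ _ => rfl⟩, ?_, ?_⟩
    · intro c
      exact ⟨⟨constF k c, c, rfl⟩, rfl⟩
    · rintro g ⟨F, c, rfl⟩
      rfl

theorem Triv_sum : IsSum (chi k) (chi k)⁻¹ (Triv k) := by
  refine ⟨fun x hx => ?_, constF k, ?_, fun g w => rfl, fun w a d x g => ?_⟩
  · have h1 : (1 : ℝ) ≤ Real.sqrt (idn x) := by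
      rw [← Real.sqrt_one]
      exact Real.sqrt_le_sqrt hx
    rw [MonoidHom.inv_apply, Units.val_inv_eq_inv_val, chi_val, norm_inv, Complex.norm_real,
      Real.norm_of_nonneg (Real.sqrt_nonneg _)]
    exact (inv_le_one_of_one_le₀ h1).trans h1
  · intro h0
    have := congrFun (congrArg (fun T : ℂ →ₗ[ℂ] (GA k → ℂ) => T 1) h0) 1
    exact one_ne_zero this
  · have h1 : (((chi k)⁻¹ a : ℂˣ) : ℂ) * ((chi k d : ℂˣ) : ℂ) *
        ((Real.sqrt (idn (a / d)) : ℝ) : ℂ) = 1 := by
      rw [MonoidHom.inv_apply, Units.val_inv_eq_inv_val, chi_val, chi_val, idn_div,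
        Real.sqrt_div (idn_pos a).le]
      have ha : ((Real.sqrt (idn a) : ℝ) : ℂ) ≠ 0 := by
        exact_mod_cast (Real.sqrt_pos.2 (idn_pos a)).ne'
      have hd : ((Real.sqrt (idn d) : ℝ) : ℂ) ≠ 0 := by
        exact_mod_cast (Real.sqrt_pos.2 (idn_pos d)).ne'
      push_cast
      field_simp
    rw [h1, one_mul]
    rfl

theorem Triv_isobaric : IsIsobaric (Triv k) :=
  ⟨Triv_aut, Or.inr ⟨chi k, (chi k)⁻¹, chi_hecke, chi_inv_hecke, Triv_sum⟩⟩

end

end Pool.Agent.Q260.AL
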